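import Mathlib

/-!
# Mertens type bounds for the product over primes

The first lemmas (up to `prod_one_sub_le`) are taken from `Pool/Agent/Lib/MP_0bb3d8_nt/HohMertens.lean`.
-/

namespace LPAP

open Finset

lemma pow_div_dvd_factorial {n p : ℕ} (hp : p.Prime) : p ^ (n / p) ∣ n.factorial := by
  rw [hp.pow_dvd_factorial_iff (b := Nat.log p n + 2) (by omega)]
  have h1 : n / p = n / p ^ 1 := by rw [pow_one]
  rw [h1]
  exact Finset.single_le_sum (f := fun i => n / p ^ i) (fun i _ => Nat.zero_le _)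
    (by rw [Finset.mem_Ico]; omega)

lemma prod_pow_div_dvd_factorial (n : ℕ) (F : Finset ℕ) (hF : ∀ p ∈ F, p.Prime) :
    ∏ p ∈ F, p ^ (n / p) ∣ n.factorial := by
  classical
  induction F using Finset.induction_on with
  | empty => simp
  | insert q F hq ih =>
    rw [Finset.prod_insert hq]
    have hqp : q.Prime := hF q (Finset.mem_insert_self _ _)
    refine Nat.Coprime.mul_dvd_of_dvd_of_dvd ?_ (pow_div_dvd_factorial hqp)
      (ih fun p hp => hF p (Finset.mem_insert_of_mem hp))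
    refine Nat.Coprime.prod_right fun p hp => ?_
    have hpp : p.Prime := hF p (Finset.mem_insert_of_mem hp)
    refine Nat.Coprime.pow _ _ ((Nat.coprime_primes hqp hpp).mpr ?_)
    rintro rfl
    exact hq hp

lemma sum_floor_mul_log_le (n : ℕ) :
    ∑ p ∈ (Finset.Ioc 0 n).filter Nat.Prime, ((n / p : ℕ) : ℝ) * Real.log p ≤ n * Real.log n := by
  rcases Nat.eq_zero_or_pos n with h0 | h0
  · subst h0; simp
  have hdvd : ∏ p ∈ (Finset.Ioc 0 n).filter Nat.Prime, p ^ (n / p) ∣ n.factorial :=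
    prod_pow_div_dvd_factorial n _ fun p hp => (Finset.mem_filter.mp hp).2
  have hle : ∏ p ∈ (Finset.Ioc 0 n).filter Nat.Prime, p ^ (n / p) ≤ n ^ n :=
    (Nat.le_of_dvd (Nat.factorial_pos n) hdvd).trans (Nat.factorial_le_pow n)
  have hpos : 0 < ∏ p ∈ (Finset.Ioc 0 n).filter Nat.Prime, p ^ (n / p) :=
    Finset.prod_pos fun p hp => pow_pos (Finset.mem_filter.mp hp).2.pos _
  have h1 : Real.log ((∏ p ∈ (Finset.Ioc 0 n).filter Nat.Prime, p ^ (n / p) : ℕ) : ℝ) ≤
      Real.log ((n ^ n : ℕ) : ℝ) :=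
    Real.log_le_log (by exact_mod_cast hpos) (by exact_mod_cast hle)
  rw [Nat.cast_prod, Real.log_prod, Nat.cast_pow, Real.log_pow] at h1
  · refine le_trans (le_of_eq ?_) h1
    refine Finset.sum_congr rfl fun p _ => ?_
    rw [Nat.cast_pow, Real.log_pow]
  · intro p hp
    have := (Finset.mem_filter.mp hp).2.pos
    positivity

/-- Mertens upper bound: `∑_{p ≤ n} log p / p ≤ log n + log 4`. -/
lemma sum_log_div_le (n : ℕ) (hn : 0 < n) :
    ∑ p ∈ (Finset.Ioc 0 n).filter Nat.Prime, Real.log p / p ≤ Real.log n + Real.log 4 := by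
  have hn' : (0 : ℝ) < n := by exact_mod_cast hn
  have h1 := sum_floor_mul_log_le n
  have h2 : ∑ p ∈ (Finset.Ioc 0 n).filter Nat.Prime, ((n : ℝ) * (Real.log p / p) - Real.log p) ≤
      ∑ p ∈ (Finset.Ioc 0 n).filter Nat.Prime, ((n / p : ℕ) : ℝ) * Real.log p := by
    refine Finset.sum_le_sum fun p hp => ?_
    have hp' := (Finset.mem_filter.mp hp).2
    have hp0 : (0 : ℝ) < p := by exact_mod_cast hp'.pos
    have hlog : 0 ≤ Real.log p := Real.log_nonneg (by exact_mod_cast hp'.one_lt.le)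
    have h3 : (n : ℝ) / p < (n / p : ℕ) + 1 := by
      rw [div_lt_iff₀ hp0, mul_comm]
      exact_mod_cast Nat.lt_mul_div_succ n hp'.pos
    have h4 : ((n : ℝ) / p - 1) * Real.log p ≤ ((n / p : ℕ) : ℝ) * Real.log p :=
      mul_le_mul_of_nonneg_right (by linarith) hlog
    calc (n : ℝ) * (Real.log p / p) - Real.log p = ((n : ℝ) / p - 1) * Real.log p := by
          field_simp
      _ ≤ _ := h4
  have h5 : ∑ p ∈ (Finset.Ioc 0 n).filter Nat.Prime, Real.log p ≤ Real.log 4 * n := by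
    have h6 := Chebyshev.theta_le_log4_mul_x (x := (n : ℝ)) hn'.le
    unfold Chebyshev.theta at h6
    rwa [Nat.floor_natCast] at h6
  rw [Finset.sum_sub_distrib, ← Finset.mul_sum] at h2
  have h7 : (n : ℝ) * ∑ p ∈ (Finset.Ioc 0 n).filter Nat.Prime, Real.log p / p ≤
      n * (Real.log n + Real.log 4) := by linarith
  exact le_of_mul_le_mul_left h7 hn'

/-- `∏_{p ≤ N} (1 - 1/p) ≤ 1 / log (N + 1)`. -/
lemma prod_one_sub_le (N : ℕ) (hN : 1 ≤ N) :
    ∏ p ∈ (Finset.Ioc 0 N).filter Nat.Prime, (1 - (1 : ℝ) / p) ≤ 1 / Real.log (N + 1) := by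
  let f : ℕ →* ℝ :=
    { toFun := fun n => (n : ℝ)⁻¹
      map_one' := by simp
      map_mul' := fun a b => by push_cast; rw [mul_inv] }
  have hf : ∀ {p : ℕ}, p.Prime → ‖f p‖ < 1 := by
    intro p hp
    have : (1 : ℝ) < p := by exact_mod_cast hp.one_lt
    show ‖((p : ℝ)⁻¹)‖ < 1
    rw [norm_inv, Real.norm_natCast]
    exact inv_lt_one_of_one_lt₀ this
  obtain ⟨hs, hsum⟩ := EulerProduct.summable_and_hasSum_smoothNumbers_prod_primesBelow_geometric
    (f := f) (fun {p} hp => hf hp) (N + 1)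
  have hprimes : (N + 1).primesBelow = (Finset.Ioc 0 N).filter Nat.Prime := by
    ext p
    rw [Nat.primesBelow, Finset.mem_filter, Finset.mem_filter, Finset.mem_range, Finset.mem_Ioc]
    constructor
    · rintro ⟨h1, h2⟩; exact ⟨⟨h2.pos, by omega⟩, h2⟩
    · rintro ⟨⟨h1, h2⟩, h3⟩; exact ⟨by omega, h3⟩
  rw [hprimes] at hsum
  have h1 : ∑ n ∈ Finset.Ioc 0 N, ((n : ℝ)⁻¹) ≤
      ∏ p ∈ (Finset.Ioc 0 N).filter Nat.Prime, (1 - f p)⁻¹ := by
    rw [← hsum.tsum_eq]
    have hmem : ∀ n ∈ Finset.Ioc 0 N, n ∈ (N + 1).smoothNumbers := by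
      intro n hn
      rw [Finset.mem_Ioc] at hn
      exact Nat.mem_smoothNumbers_of_lt hn.1 (by omega)
    have h2 : ∑ n ∈ Finset.Ioc 0 N, ((n : ℝ)⁻¹) =
        ∑ m ∈ (Finset.Ioc 0 N).subtype (· ∈ (N + 1).smoothNumbers), f m := by
      rw [Finset.sum_subtype_of_mem (f := fun n => f n) hmem]
      rfl
    rw [h2]
    apply hsum.summable.sum_le_tsum
    intro m _
    show (0 : ℝ) ≤ ((m : ℕ) : ℝ)⁻¹
    positivity
  have h3 : Real.log (N + 1) ≤ ∑ n ∈ Finset.Ioc 0 N, ((n : ℝ)⁻¹) := by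
    have h4 := log_add_one_le_harmonic N
    have h5 : ((harmonic N : ℚ) : ℝ) = ∑ n ∈ Finset.Ioc 0 N, ((n : ℝ)⁻¹) := by
      rw [harmonic_eq_sum_Icc]
      push_cast
      rfl
    rw [h5, Nat.cast_add, Nat.cast_one] at h4
    exact h4
  have hlogpos : 0 < Real.log (N + 1) := Real.log_pos (by
    have : (1 : ℝ) ≤ N := by exact_mod_cast hN
    linarith)
  have h6 := h3.trans h1
  rw [Finset.prod_inv_distrib] at h6
  have h7 : ∏ p ∈ (Finset.Ioc 0 N).filter Nat.Prime, (1 - (1 : ℝ) / p) =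
      ∏ p ∈ (Finset.Ioc 0 N).filter Nat.Prime, (1 - f p) := by
    refine Finset.prod_congr rfl fun p _ => ?_
    rw [one_div]
    rfl
  rw [h7]
  have h8 : 0 < ∏ p ∈ (Finset.Ioc 0 N).filter Nat.Prime, (1 - f p) := by
    refine Finset.prod_pos fun p hp => ?_
    have := hf (Finset.mem_filter.mp hp).2
    rw [Real.norm_eq_abs] at this
    linarith [(abs_lt.mp this).2]
  rw [le_div_iff₀ hlogpos]
  calc _ ≤ (∏ p ∈ (Finset.Ioc 0 N).filter Nat.Prime, (1 - f p)) *
        (∏ p ∈ (Finset.Ioc 0 N).filter Nat.Prime, (1 - f p))⁻¹ :=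
        mul_le_mul_of_nonneg_left h6 h8.le
    _ = 1 := mul_inv_cancel₀ h8.ne'

/-- Partial summation. -/
lemma sum_inv_prime_aux (N : ℕ) (hN : 1 ≤ N) :
    ∑ p ∈ (Finset.Ioc 0 N).filter Nat.Prime, (1 : ℝ) / p ≤
      (∑ p ∈ (Finset.Ioc 0 N).filter Nat.Prime, Real.log p / p) / Real.log (N + 1) +
      (Real.log (Real.log (N + 1)) - Real.log (Real.log 2)) +
      Real.log 4 * (1 / Real.log 2 - 1 / Real.log (N + 1)) := by
  induction N, hN using Nat.le_induction with
  | base =>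
    have h1 : (Finset.Ioc 0 1).filter Nat.Prime = ∅ := by
      apply Finset.filter_eq_empty_iff.mpr
      intro x hx
      rw [Finset.mem_Ioc] at hx
      have : x = 1 := by omega
      subst this
      exact Nat.not_prime_one
    rw [h1]
    simp only [Finset.sum_empty, zero_div, zero_add, Nat.cast_one]
    have : (1 : ℝ) + 1 = 2 := by norm_num
    rw [this]
    simp
  | succ N hN ih =>
    have hNR : (1 : ℝ) ≤ N := by exact_mod_cast hN
    set S := ∑ p ∈ (Finset.Ioc 0 N).filter Nat.Prime, Real.log p / p with hS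
    set S' := ∑ p ∈ (Finset.Ioc 0 (N + 1)).filter Nat.Prime, Real.log p / p with hS'
    set P := ∑ p ∈ (Finset.Ioc 0 N).filter Nat.Prime, (1 : ℝ) / p with hP
    set P' := ∑ p ∈ (Finset.Ioc 0 (N + 1)).filter Nat.Prime, (1 : ℝ) / p with hP'
    set l := Real.log (N + 1) with hl
    set l' := Real.log ((N + 1 : ℕ) + 1 : ℝ) with hl'
    have hl0 : 0 < l := Real.log_pos (by linarith)
    have hll : l < l' := by
      rw [hl, hl']
      apply Real.log_lt_log (by linarith)
      push_cast; linarith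
    have hl'0 : 0 < l' := by linarith
    have hins : Finset.Ioc 0 (N + 1) = insert (N + 1) (Finset.Ioc 0 N) := by
      ext x; simp only [Finset.mem_Ioc, Finset.mem_insert]; omega
    have hnot : N + 1 ∉ (Finset.Ioc 0 N).filter Nat.Prime := by
      simp
    have hPS : P' = P + (S' - S) / l := by
      rw [hP', hS', hins, Finset.filter_insert]
      split_ifs with hp
      · rw [Finset.sum_insert hnot, Finset.sum_insert hnot, ← hP, ← hS]
        have : Real.log ((N + 1 : ℕ) : ℝ) = l := by rw [hl]; push_cast; rfl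
        rw [this]
        have h2 : ((N + 1 : ℕ) : ℝ) ≠ 0 := by positivity
        field_simp
        ring
      · rw [← hP, ← hS]; ring
    have hS'le : S' ≤ l + Real.log 4 := by
      have := sum_log_div_le (N + 1) (by omega)
      rw [hS', hl]
      refine le_trans this ?_
      push_cast
      exact le_refl _
    have hkey : 1 - l / l' ≤ Real.log l' - Real.log l := by
      have h1 : Real.log (l / l') ≤ l / l' - 1 := Real.log_le_sub_one_of_pos (by positivity)
      rw [Real.log_div hl0.ne' hl'0.ne'] at h1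
      linarith
    have h4 : S' * (1 / l - 1 / l') ≤ (l + Real.log 4) * (1 / l - 1 / l') := by
      apply mul_le_mul_of_nonneg_right hS'le
      have : 1 / l' ≤ 1 / l := one_div_le_one_div_of_le hl0 hll.le
      linarith
    have h5 : (l + Real.log 4) * (1 / l - 1 / l') =
        (1 - l / l') + Real.log 4 * (1 / l - 1 / l') := by
      field_simp
    rw [hPS]
    have h6 : (S' - S) / l = S' / l - S / l := sub_div _ _ _
    have h7 : S' * (1 / l - 1 / l') = S' / l - S' / l' := by ring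
    rw [h6]
    nlinarith [ih, h4, h5, hkey, h7]

/-- `∑_{p ≤ N} 1/p ≤ log log (N + 1) + 6`. -/
lemma sum_inv_prime_le (N : ℕ) (hN : 1 ≤ N) :
    ∑ p ∈ (Finset.Ioc 0 N).filter Nat.Prime, (1 : ℝ) / p ≤
      Real.log (Real.log (N + 1)) + 6 := by
  refine le_trans (sum_inv_prime_aux N hN) ?_
  have hNR : (1 : ℝ) ≤ N := by exact_mod_cast hN
  have hl2 : 0 < Real.log 2 := Real.log_pos (by norm_num)
  set l := Real.log (N + 1) with hl
  have hl0 : Real.log 2 ≤ l := Real.log_le_log (by norm_num) (by linarith)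
  have hlpos : 0 < l := by linarith
  have h4 : Real.log 4 = 2 * Real.log 2 := by
    have : (4 : ℝ) = 2 ^ 2 := by norm_num
    rw [this, Real.log_pow]; norm_num
  have h1 : (∑ p ∈ (Finset.Ioc 0 N).filter Nat.Prime, Real.log p / p) / l ≤ 3 := by
    rw [div_le_iff₀ hlpos]
    refine le_trans (sum_log_div_le N (by omega)) ?_
    have : Real.log N ≤ l := Real.log_le_log (by linarith) (by linarith)
    linarith
  have h2 : -1 ≤ Real.log (Real.log 2) := by
    rw [Real.le_log_iff_exp_le hl2]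
    have h3 := Real.exp_neg_one_lt_d9
    have h5 := Real.log_two_gt_d9
    linarith
  have h3 : Real.log 4 * (1 / Real.log 2 - 1 / l) ≤ 2 := by
    have h5 : 0 ≤ 1 / l := by positivity
    have h6 : Real.log 4 * (1 / Real.log 2) = 2 := by rw [h4]; field_simp
    have h7 : 0 ≤ Real.log 4 := by rw [h4]; linarith
    nlinarith
  linarith

lemma exp_neg_le_one_sub {x : ℝ} (h0 : 0 ≤ x) (h1 : x ≤ 1 / 2) :
    Real.exp (-(x + x ^ 2)) ≤ 1 - x := by
  have h2 : 1 + (x + x ^ 2) + (x + x ^ 2) ^ 2 / 2 ≤ Real.exp (x + x ^ 2) :=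
    Real.quadratic_le_exp_of_nonneg (by positivity)
  rw [Real.exp_neg, inv_eq_one_div, div_le_iff₀ (Real.exp_pos _)]
  have h3 : 1 ≤ (1 - x) * (1 + (x + x ^ 2) + (x + x ^ 2) ^ 2 / 2) := by
    have : (1 - x) * (1 + (x + x ^ 2) + (x + x ^ 2) ^ 2 / 2) - 1 =
        x ^ 2 / 2 * ((1 - x) * (1 + x) ^ 2 - 2 * x) := by ring
    have h4 : 0 ≤ (1 - x) * (1 + x) ^ 2 - 2 * x := by
      nlinarith [mul_nonneg h0 h0, mul_nonneg (mul_nonneg h0 h0) h0]
    nlinarith [mul_nonneg (sq_nonneg x) h4]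
  nlinarith [mul_le_mul_of_nonneg_left h2 (by linarith : 0 ≤ 1 - x)]

/-- `∏_{p ≤ N} (1 - 1/p) ≥ e⁻⁷ / log (N + 1)`. -/
lemma prod_one_sub_ge (N : ℕ) (hN : 1 ≤ N) :
    Real.exp (-7) / Real.log (N + 1) ≤
      ∏ p ∈ (Finset.Ioc 0 N).filter Nat.Prime, (1 - (1 : ℝ) / p) := by
  have hNR : (1 : ℝ) ≤ N := by exact_mod_cast hN
  have hlpos : 0 < Real.log (N + 1) := Real.log_pos (by linarith)
  have h1 : Real.exp (-(∑ p ∈ (Finset.Ioc 0 N).filter Nat.Prime,
      ((1 : ℝ) / p + (1 / p) ^ 2))) ≤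
      ∏ p ∈ (Finset.Ioc 0 N).filter Nat.Prime, (1 - (1 : ℝ) / p) := by
    rw [← Finset.sum_neg_distrib, Real.exp_sum]
    refine Finset.prod_le_prod (fun _ _ => (Real.exp_pos _).le) fun p hp => ?_
    have hp2 := (Finset.mem_filter.mp hp).2.two_le
    have hp2R : (2 : ℝ) ≤ p := by exact_mod_cast hp2
    exact exp_neg_le_one_sub (by positivity) (one_div_le_one_div_of_le (by norm_num) hp2R)
  refine le_trans ?_ h1
  have h2 : ∑ p ∈ (Finset.Ioc 0 N).filter Nat.Prime, ((1 : ℝ) / p) ^ 2 ≤ 1 := by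
    have hsub : (Finset.Ioc 0 N).filter Nat.Prime ⊆ Finset.Ioc 1 N := by
      intro p hp
      have h3 := Finset.mem_filter.mp hp
      rw [Finset.mem_Ioc] at h3 ⊢
      exact ⟨h3.2.one_lt, h3.1.2⟩
    calc ∑ p ∈ (Finset.Ioc 0 N).filter Nat.Prime, ((1 : ℝ) / p) ^ 2
        ≤ ∑ p ∈ Finset.Ioc 1 N, ((1 : ℝ) / p) ^ 2 :=
          Finset.sum_le_sum_of_subset_of_nonneg hsub fun _ _ _ => by positivity
      _ = ∑ p ∈ Finset.Ioc 1 N, ((p : ℝ) ^ 2)⁻¹ := by
          refine Finset.sum_congr rfl fun p _ => ?_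
          rw [one_div, inv_pow]
      _ ≤ ((1 : ℕ) : ℝ)⁻¹ - (N : ℝ)⁻¹ := sum_Ioc_inv_sq_le_sub (by norm_num) hN
      _ ≤ 1 := by
          have : (0 : ℝ) ≤ (N : ℝ)⁻¹ := by positivity
          push_cast
          simp only [inv_one]
          linarith
  have h3 := sum_inv_prime_le N hN
  have h4 : Real.exp (-7) / Real.log (N + 1) =
      Real.exp (-(Real.log (Real.log (N + 1)) + 7)) := by
    rw [neg_add, Real.exp_add, Real.exp_neg (Real.log (Real.log (N + 1))), Real.exp_log hlpos]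
    rw [div_eq_mul_inv, mul_comm]
  rw [h4]
  apply Real.exp_le_exp.mpr
  rw [Finset.sum_add_distrib]
  linarith

end LPAP
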