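import Pool.Agent.Lib.MP_5b0a7e_nt.Wtrick

/-!
# A progression modulo `a` starting with many composite terms
-/

namespace LPAP

open Finset

lemma log_Y_le {N : ℕ} (hlog10 : 10 ≤ Real.log N) (hlog6 : 64000 * Real.log N ^ 6 ≤ N)
    (hN : 0 < N) : (((N ^ 5) ^ 2 ^ (Nat.log 8 N) : ℕ) : ℝ) ≤ Real.exp N := by
  have hNR : (0 : ℝ) < N := by exact_mod_cast hN
  have h8J : 8 ^ (Nat.log 8 N) ≤ N := Nat.pow_log_le_self 8 hN.ne'
  set J := Nat.log 8 N
  have hx3 : ((2 : ℝ) ^ J) ^ 3 ≤ N := by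
    have h1 : ((2 : ℝ) ^ J) ^ 3 = 8 ^ J := by
      rw [← pow_mul, mul_comm, pow_mul]; norm_num
    rw [h1]; exact_mod_cast h8J
  have hx1 : (1 : ℝ) ≤ 2 ^ J := one_le_pow₀ (by norm_num)
  have hx0 : (0 : ℝ) < 2 ^ J := by positivity
  have hkey := key_numeric (N := N) (x := 2 ^ J) (L := Real.log N) hx0 hx1 hx3 hlog10 hlog6
  have h2 : (N : ℝ) / (2 ^ J * Real.log N) ≤ N := by
    apply div_le_self hNR.le
    nlinarith
  have h3 : 2 ^ J * (5 * Real.log N) ≤ N := by
    have : 0 ≤ 2 ^ J * Real.log N := by positivity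
    nlinarith
  have hpos : (0 : ℝ) < (((N ^ 5) ^ 2 ^ J : ℕ) : ℝ) := by positivity
  rw [← Real.log_le_iff_le_exp hpos]
  push_cast
  rw [Real.log_pow, Real.log_pow]
  push_cast
  linarith

theorem exists_composite_start : ∃ c : ℝ, 0 < c ∧ ∃ A₀ : ℕ, ∀ a : ℕ, A₀ ≤ a →
    ∃ b U : ℕ, 1 ≤ b ∧ b < a ∧ b.Coprime a ∧ (∀ n < U, ¬ (a * n + b).Prime) ∧
      c * (a.totient : ℝ) * Real.log a * Real.log (Real.log a) ≤ (a : ℝ) * U := by
  obtain ⟨A, hA, N₀, hmain⟩ := exists_all_hit
  obtain ⟨N₁, hN₁⟩ := eventually_numeric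
  set c₁ : ℝ := min (1 / 10) (1 / (10 * A)) with hc₁
  have hc0 : 0 < c₁ := by rw [hc₁]; positivity
  have hc10 : c₁ ≤ 1 / 10 := min_le_left _ _
  have hcA : c₁ * A ≤ 1 / 10 := by
    have h1 : c₁ ≤ 1 / (10 * A) := min_le_right _ _
    calc c₁ * A ≤ 1 / (10 * A) * A := mul_le_mul_of_nonneg_right h1 hA.le
      _ = 1 / 10 := by field_simp
  set X₀ : ℝ := max 1000 (max (10 * Real.exp (12 / c₁)) (max (4 / c₁ ^ 2)
    (((N₀ : ℝ) + N₁ + 10) * (2 / c₁)))) with hX₀
  refine ⟨c₁ / 8, by positivity, ⌈Real.exp X₀⌉₊, ?_⟩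
  intro a ha
  have haR : Real.exp X₀ ≤ a := le_trans (Nat.le_ceil _) (by exact_mod_cast ha)
  have ha0R : (0 : ℝ) < a := lt_of_lt_of_le (Real.exp_pos _) haR
  have ha0 : a ≠ 0 := by
    intro h; rw [h] at ha0R; simp at ha0R
  set x := Real.log a with hx
  have hxX : X₀ ≤ x := by
    rw [hx, Real.le_log_iff_exp_le ha0R]; exact haR
  have hx1 : 1000 ≤ x := le_trans (le_max_left _ _) hxX
  have hx2 : 10 * Real.exp (12 / c₁) ≤ x :=
    le_trans (le_trans (le_max_left _ _) (le_max_right _ _)) hxX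
  have hx3 : 4 / c₁ ^ 2 ≤ x :=
    le_trans (le_trans (le_trans (le_max_left _ _) (le_max_right _ _)) (le_max_right _ _)) hxX
  have hx4 : ((N₀ : ℝ) + N₁ + 10) * (2 / c₁) ≤ x :=
    le_trans (le_trans (le_trans (le_max_right _ _) (le_max_right _ _)) (le_max_right _ _)) hxX
  have hx0 : 0 < x := by linarith
  have hexpx : Real.exp x = a := Real.exp_log ha0R
  have ha1 : 1 < a := by
    have h1 : (1 : ℝ) < a := by
      rw [← hexpx]; have := Real.add_one_le_exp x; linarith
    exact_mod_cast h1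
  -- N
  set N := ⌊c₁ * x⌋₊ with hN
  have hNle : (N : ℝ) ≤ c₁ * x := Nat.floor_le (by positivity)
  have hNgt : c₁ * x < N + 1 := Nat.lt_floor_add_one _
  have hcx : ((N₀ : ℝ) + N₁ + 10) ≤ c₁ * x / 2 := by
    have h1 := mul_le_mul_of_nonneg_left hx4 (by positivity : 0 ≤ c₁ / 2)
    have h2 : c₁ / 2 * (((N₀ : ℝ) + N₁ + 10) * (2 / c₁)) = (N₀ : ℝ) + N₁ + 10 := by
      field_simp
    rw [h2] at h1
    linarith
  have hN0' : (0 : ℝ) ≤ N₀ := Nat.cast_nonneg _
  have hN1' : (0 : ℝ) ≤ N₁ := Nat.cast_nonneg _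
  have hNhalf : c₁ * x / 2 ≤ N := by linarith
  have hNbig : (N₀ : ℝ) + N₁ + 10 ≤ N := by linarith
  have hNN₀ : N₀ ≤ N := by
    have : (N₀ : ℝ) ≤ N := by linarith
    exact_mod_cast this
  have hNN₁ : N₁ ≤ N := by
    have : (N₁ : ℝ) ≤ N := by linarith
    exact_mod_cast this
  have hN10 : 10 ≤ N := by
    have : (10 : ℝ) ≤ N := by linarith
    exact_mod_cast this
  have hNR : (10 : ℝ) ≤ N := by exact_mod_cast hN10
  obtain ⟨hlog10, hlog6⟩ := hN₁ N hNN₁
  have hxN2 : x ≤ (N : ℝ) ^ 2 := by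
    have h1 : (c₁ * x / 2) ^ 2 ≤ (N : ℝ) ^ 2 := pow_le_pow_left₀ (by positivity) hNhalf 2
    refine le_trans ?_ h1
    have h2 : 4 ≤ x * c₁ ^ 2 := by
      rw [div_le_iff₀ (by positivity)] at hx3; exact hx3
    have h3 : (c₁ * x / 2) ^ 2 = x * (x * c₁ ^ 2) / 4 := by ring
    rw [h3]
    nlinarith
  -- w
  set w := ⌊x / 10⌋₊ with hw
  have hwle : (w : ℝ) ≤ x / 10 := Nat.floor_le (by positivity)
  have hwgt : x / 10 < w + 1 := Nat.lt_floor_add_one _
  have hw1 : 1 ≤ w := by
    have : (1 : ℝ) < w + 1 := by linarith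
    have h2 : (0 : ℝ) < w := by linarith
    exact_mod_cast h2
  have hwR : (1 : ℝ) ≤ w := by exact_mod_cast hw1
  have hwN : w ≤ N ^ 2 := by
    have : (w : ℝ) ≤ (N : ℝ) ^ 2 := by linarith
    exact_mod_cast this
  have hN25 : N ^ 2 ≤ N ^ 5 := Nat.pow_le_pow_right (by omega) (by norm_num)
  set W := Wp w a with hW
  have hWpos : 0 < W := Wp_pos w a
  have hWR : (0 : ℝ) < W := by exact_mod_cast hWpos
  have hφWpos : 0 < W.totient := Nat.totient_pos.mpr hWpos
  have hφWR : (0 : ℝ) < W.totient := by exact_mod_cast hφWpos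
  have hWle : (W : ℝ) ≤ Real.exp (0.14 * x) := by
    have h1 : (W : ℝ) ≤ (4 : ℝ) ^ w := by exact_mod_cast Wp_le w a
    refine le_trans h1 ?_
    have h2 : (4 : ℝ) ^ w = Real.exp (w * Real.log 4) := by
      rw [Real.exp_nat_mul, Real.exp_log (by norm_num)]
    rw [h2]
    apply Real.exp_le_exp.mpr
    have h3 : Real.log 4 ≤ 1.3863 := by
      have h4 : Real.log 4 = 2 * Real.log 2 := by
        have : (4 : ℝ) = 2 ^ 2 := by norm_num
        rw [this, Real.log_pow]; norm_num
      rw [h4]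
      have := Real.log_two_lt_d9
      linarith
    calc (w : ℝ) * Real.log 4 ≤ (x / 10) * 1.3863 :=
          mul_le_mul hwle h3 (Real.log_nonneg (by norm_num)) (by positivity)
      _ ≤ 0.14 * x := by linarith
  -- Y
  set Y := (N ^ 5) ^ 2 ^ (Nat.log 8 N) with hY
  have hYexp : (Y : ℝ) ≤ Real.exp (x / 10) := by
    refine le_trans (log_Y_le hlog10 hlog6 (by omega)) ?_
    apply Real.exp_le_exp.mpr
    calc (N : ℝ) ≤ c₁ * x := hNle
      _ ≤ 1 / 10 * x := mul_le_mul_of_nonneg_right hc10 hx0.le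
      _ = x / 10 := by ring
  have hYa2 : (Y : ℝ) ≤ a / 2 := by
    refine le_trans hYexp ?_
    rw [← hexpx]
    have h1 : Real.exp x = Real.exp (x / 10) * Real.exp (9 * x / 10) := by
      rw [← Real.exp_add]; congr 1; ring
    have h2 : (2 : ℝ) ≤ Real.exp (9 * x / 10) := by
      have := Real.add_one_le_exp (9 * x / 10); linarith
    rw [h1]
    have := Real.exp_pos (x / 10)
    nlinarith
  have hYa : Y ≤ a := by
    have : (Y : ℝ) ≤ a := by linarith
    exact_mod_cast this
  have hNY : N ^ 5 ≤ Y := by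
    rw [hY]
    calc N ^ 5 = (N ^ 5) ^ 1 := (pow_one _).symm
      _ ≤ (N ^ 5) ^ 2 ^ (Nat.log 8 N) := Nat.pow_le_pow_right (by positivity) Nat.one_le_two_pow
  -- number of prime factors
  set ω := a.primeFactors.card with hω
  have hωx : (ω : ℝ) ≤ 2 * x := by
    have h1 : (2 : ℝ) ^ ω ≤ a := by exact_mod_cast two_pow_card_primeFactors_le ha0
    have h2 : Real.log ((2 : ℝ) ^ ω) ≤ x := Real.log_le_log (by positivity) h1
    rw [Real.log_pow] at h2
    have h3 : (1 / 2 : ℝ) ≤ Real.log 2 := by have := Real.log_two_gt_d9; linarith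
    have h4 : (0 : ℝ) ≤ ω := Nat.cast_nonneg _
    nlinarith
  have hωN : ω ≤ N ^ 5 := by
    have h1 : (ω : ℝ) ≤ (N : ℝ) ^ 5 := by
      have h2 : (N : ℝ) ^ 5 = (N : ℝ) ^ 2 * (N : ℝ) ^ 3 := by ring
      have h3 : (2 : ℝ) ≤ (N : ℝ) ^ 3 := by
        calc (2 : ℝ) ≤ 10 ^ 3 := by norm_num
          _ ≤ (N : ℝ) ^ 3 := pow_le_pow_left₀ (by norm_num) hNR 3
      have h4 : (0 : ℝ) ≤ (N : ℝ) ^ 2 := by positivity
      rw [h2]
      nlinarith
    exact_mod_cast h1
  have hφa : 1 / (1 + 2 * x) ≤ (a.totient : ℝ) / a := by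
    rw [totient_div a ha0]
    have h1 := prod_one_sub_ge_card a.primeFactors
      (fun p hp => (Nat.prime_of_mem_primeFactors hp).two_le)
    refine le_trans ?_ h1
    apply one_div_le_one_div_of_le (by positivity)
    linarith
  have hφa0 : 0 < (a.totient : ℝ) / a := lt_of_lt_of_le (by positivity) hφa
  have h2ω : (2 : ℝ) ^ ω ≤ 4 * Real.exp (x / 2) := by
    have h1 : ((2 : ℝ) ^ ω) ^ 2 ≤ (4 * Real.exp (x / 2)) ^ 2 := by
      have h2 : ((2 : ℝ) ^ ω) ^ 2 = 4 ^ ω := by
        rw [← pow_mul, mul_comm, pow_mul]; norm_num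
      have h3 : (4 * Real.exp (x / 2)) ^ 2 = 16 * a := by
        rw [mul_pow, ← Real.exp_nat_mul, ← hexpx]
        have : ((2 : ℕ) : ℝ) * (x / 2) = x := by push_cast; ring
        rw [this]; norm_num
      rw [h2, h3]
      exact_mod_cast four_pow_card_le ha0
    exact le_of_pow_le_pow_left₀ (by norm_num) (by positivity) h1
  -- the main inequality
  have hineq : (2 : ℝ) ^ ω * Real.exp (A * N) <
      ((a : ℝ) - (Y : ℝ)) / W * (a.totient / a) := by
    have h1 : Real.exp (A * N) ≤ Real.exp (x / 10) := by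
      apply Real.exp_le_exp.mpr
      calc A * (N : ℝ) ≤ A * (c₁ * x) := mul_le_mul_of_nonneg_left hNle hA.le
        _ = (c₁ * A) * x := by ring
        _ ≤ 1 / 10 * x := mul_le_mul_of_nonneg_right hcA hx0.le
        _ = x / 10 := by ring
    have h2 : (a : ℝ) / 2 ≤ (a : ℝ) - Y := by linarith
    have h3 : (a : ℝ) / 2 / Real.exp (0.14 * x) * (1 / (1 + 2 * x)) ≤
        ((a : ℝ) - Y) / W * (a.totient / a) := by
      apply mul_le_mul _ hφa (by positivity) (div_nonneg (by linarith) hWR.le)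
      exact div_le_div₀ (by linarith) h2 hWR hWle
    refine lt_of_lt_of_le ?_ h3
    have h4 : (2 : ℝ) ^ ω * Real.exp (A * N) ≤ 4 * Real.exp (x / 2) * Real.exp (x / 10) :=
      mul_le_mul h2ω h1 (Real.exp_pos _).le (by positivity)
    refine lt_of_le_of_lt h4 ?_
    rw [mul_one_div, lt_div_iff₀ (by linarith), lt_div_iff₀ (Real.exp_pos _)]
    have h5 : 4 * Real.exp (x / 2) * Real.exp (x / 10) * (1 + 2 * x) * Real.exp (0.14 * x) =
        4 * (1 + 2 * x) * Real.exp (0.74 * x) := by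
      have : Real.exp (0.74 * x) = Real.exp (x / 2) * Real.exp (x / 10) * Real.exp (0.14 * x) := by
        rw [← Real.exp_add, ← Real.exp_add]; congr 1; ring
      rw [this]; ring
    rw [h5, ← hexpx]
    have h6 : Real.exp x = Real.exp (0.26 * x) * Real.exp (0.74 * x) := by
      rw [← Real.exp_add]; congr 1; ring
    rw [h6, mul_div_right_comm]
    apply mul_lt_mul_of_pos_right _ (Real.exp_pos _)
    have h7 := Real.quadratic_le_exp_of_nonneg (by positivity : 0 ≤ 0.26 * x)
    nlinarith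
  -- U and the class
  set U := N * W / W.totient with hU
  have hUle : U * W.totient ≤ N * W := Nat.div_mul_le_self _ _
  obtain ⟨b₀, hb₀⟩ := exists_class a U W hWpos
  set S := (Finset.range U).filter (fun n => W.Coprime (a * n + b₀)) with hS
  have hScard : S.card ≤ N := by
    have h1 : S.card * W ≤ N * W := le_trans hb₀ hUle
    exact Nat.le_of_mul_le_mul_right h1 hWpos
  have hrge := totient_Wp_ge (a := a) hw1
  have hrle := totient_Wp_le hw1 ha0
  rw [← hW] at hrge hrle
  have hUN : U ≤ N * w := by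
    have h1 : W ≤ W.totient * w := by
      have h2 : (W : ℝ) ≤ W.totient * w := by
        rw [div_le_div_iff₀ (by linarith) hWR] at hrge
        linarith
      exact_mod_cast h2
    apply Nat.div_le_of_le_mul
    calc N * W ≤ N * (W.totient * w) := Nat.mul_le_mul_left N h1
      _ = W.totient * (N * w) := by ring
  have hSlt : ∀ n ∈ S, n < N ^ 5 := by
    intro n hn
    have h1 := Finset.mem_range.mp (Finset.mem_filter.mp hn).1
    calc n < U := h1
      _ ≤ N * w := hUN
      _ ≤ N * N ^ 2 := Nat.mul_le_mul_left N hwN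
      _ = N ^ 3 := by ring
      _ ≤ N ^ 5 := Nat.pow_le_pow_right (by omega) (by norm_num)
  obtain ⟨b, hbY, hba, hbb₀, hbcop, hbS⟩ := hmain N hNN₀ a a ha0 S hScard hSlt hωN W hWpos
    (Wp_coprime w a) (fun p hp hpW => le_trans (mem_sp.mp ((prime_dvd_Wp hp).mp hpW)).1
      (le_trans hwN hN25)) hYa hineq b₀
  rw [← hY] at hbY hbS
  refine ⟨b, U, by omega, ?_, hbcop, ?_, ?_⟩
  · rcases Nat.lt_or_ge b a with h | h
    · exact h
    · exfalso
      have : b = a := le_antisymm hba h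
      rw [this] at hbcop
      rw [Nat.coprime_self] at hbcop
      omega
  · intro n hn hprime
    by_cases hnS : n ∈ S
    · obtain ⟨q, hq, hqY, hqd⟩ := hbS n hnS
      have h1 := (Nat.prime_dvd_prime_iff_eq hq hprime).mp hqd
      have h2 : b ≤ a * n + b := Nat.le_add_left _ _
      omega
    · have h1 : ¬ W.Coprime (a * n + b₀) := by
        intro h
        exact hnS (Finset.mem_filter.mpr ⟨Finset.mem_range.mpr hn, h⟩)
      obtain ⟨p, hp, hpW, hpn⟩ := Nat.Prime.not_coprime_iff_dvd.mp h1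
      have h2 : b ≡ b₀ [MOD p] := hbb₀.of_dvd hpW
      have h3 : p ∣ a * n + b := by
        have h4 : a * n + b ≡ a * n + b₀ [MOD p] := Nat.ModEq.add_left _ h2
        exact (Nat.modEq_zero_iff_dvd).mp (h4.trans ((Nat.modEq_zero_iff_dvd).mpr hpn))
      have h5 := (Nat.prime_dvd_prime_iff_eq hp hprime).mp h3
      have h6 : p ≤ w := (mem_sp.mp ((prime_dvd_Wp hp).mp hpW)).1
      have h7 : b ≤ a * n + b := Nat.le_add_left _ _
      omega
  · -- the size of U
    have hUgt : (N : ℝ) * W / W.totient - 1 < U := by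
      have h1 : N * W < (U + 1) * W.totient := by
        rw [hU, mul_comm (N * W / W.totient + 1)]
        exact Nat.lt_mul_div_succ _ hφWpos
      have h2 : (N : ℝ) * W < (U + 1) * W.totient := by exact_mod_cast h1
      rw [sub_lt_iff_lt_add, div_lt_iff₀ hφWR]
      exact h2
    have hl10 : 12 / c₁ ≤ Real.log (x / 10) := by
      rw [Real.le_log_iff_exp_le (by positivity)]
      linarith
    have hlw : Real.log (x / 10) ≤ Real.log (w + 1) :=
      Real.log_le_log (by positivity) hwgt.le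
    have h12 : 0 < 12 / c₁ := by positivity
    have hlwpos : 0 < Real.log (w + 1) := by linarith
    have hlx : Real.log x / 2 ≤ Real.log (x / 10) := by
      rw [Real.log_div hx0.ne' (by norm_num)]
      have h1 : Real.log 10 ≤ Real.log x / 2 := by
        have h2 : Real.log (10 ^ 2) ≤ Real.log x := Real.log_le_log (by norm_num) (by linarith)
        rw [Real.log_pow] at h2
        push_cast at h2
        linarith
      linarith
    have hlx0 : 0 < Real.log x := Real.log_pos (by linarith)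
    -- W / φ(W) ≥ log (w+1) φ(a) / a
    have hWφ : Real.log (w + 1) * (a.totient / a) ≤ (W : ℝ) / W.totient := by
      rw [le_div_iff₀ hφWR]
      rw [div_mul_div_comm, div_le_div_iff₀ (by positivity) hlwpos] at hrle
      have h1 : Real.log (w + 1) * ((a.totient : ℝ) / a) * W.totient =
          (W.totient * a.totient * Real.log (w + 1)) / a := by ring
      rw [h1, div_le_iff₀ ha0R]
      linarith
    have h1 : (N : ℝ) * (Real.log (w + 1) * (a.totient / a)) - 1 ≤ U := by
      have h2 : (N : ℝ) * (Real.log (w + 1) * (a.totient / a)) ≤ N * (W / W.totient) :=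
        mul_le_mul_of_nonneg_left hWφ (by linarith)
      have h3 : (N : ℝ) * W / W.totient = N * (W / W.totient) := by ring
      rw [h3] at hUgt
      linarith
    have h2 : 2 ≤ (N : ℝ) * (Real.log (w + 1) * (a.totient / a)) := by
      have h3 : c₁ * x / 2 * (12 / c₁ * (1 / (1 + 2 * x))) ≤
          (N : ℝ) * (Real.log (w + 1) * (a.totient / a)) := by
        apply mul_le_mul hNhalf _ (by positivity) (by linarith)
        apply mul_le_mul (by linarith) hφa (by positivity) (by linarith)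
      refine le_trans ?_ h3
      have h4 : c₁ * x / 2 * (12 / c₁ * (1 / (1 + 2 * x))) = 6 * x / (1 + 2 * x) := by
        field_simp
        ring
      rw [h4, le_div_iff₀ (by positivity)]
      linarith
    have h3 : (N : ℝ) * (Real.log (w + 1) * (a.totient / a)) / 2 ≤ U := by linarith
    have h4 : c₁ / 4 * x * Real.log x * (a.totient / a) ≤
        (N : ℝ) * (Real.log (w + 1) * (a.totient / a)) := by
      have h5 : c₁ * x / 2 * (Real.log x / 2 * (a.totient / a)) ≤
          (N : ℝ) * (Real.log (w + 1) * (a.totient / a)) := by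
        apply mul_le_mul hNhalf _ (by positivity) (by linarith)
        apply mul_le_mul_of_nonneg_right (by linarith) hφa0.le
      refine le_trans (le_of_eq ?_) h5
      ring
    have h5 : c₁ / 8 * x * Real.log x * (a.totient / a) ≤ U := by
      have : c₁ / 8 * x * Real.log x * ((a.totient : ℝ) / a) =
          (c₁ / 4 * x * Real.log x * (a.totient / a)) / 2 := by ring
      rw [this]
      linarith
    calc c₁ / 8 * (a.totient : ℝ) * x * Real.log x =
          a * (c₁ / 8 * x * Real.log x * (a.totient / a)) := by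
          field_simp
      _ ≤ a * U := mul_le_mul_of_nonneg_left h5 ha0R.le

end LPAP
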