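import Pool.Agent.Lib.MP_5b0a7e_nt.FewFactors

/-!
# Almost all moduli have few prime factors
-/

namespace LPAP

open Finset

lemma sum_omega_le (X : ℕ) (hX : 1 ≤ X) :
    ∑ a ∈ Finset.Ioc 0 X, (a.primeFactors.card : ℝ) ≤
      X * (Real.log (Real.log (X + 1)) + 6) := by
  have h1 : ∀ a ∈ Finset.Ioc 0 X, a.primeFactors.card =
      ∑ p ∈ (Finset.Ioc 0 X).filter Nat.Prime, if p ∣ a then 1 else 0 := by
    intro a ha
    rw [Finset.mem_Ioc] at ha
    rw [← Finset.card_filter]
    congr 1
    ext p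
    rw [Nat.mem_primeFactors, Finset.mem_filter, Finset.mem_filter, Finset.mem_Ioc]
    constructor
    · rintro ⟨h1, h2, _⟩
      exact ⟨⟨⟨h1.pos, (Nat.le_of_dvd ha.1 h2).trans ha.2⟩, h1⟩, h2⟩
    · rintro ⟨⟨_, h1⟩, h2⟩
      exact ⟨h1, h2, by omega⟩
  have h2 : ∑ a ∈ Finset.Ioc 0 X, a.primeFactors.card =
      ∑ p ∈ (Finset.Ioc 0 X).filter Nat.Prime, X / p := by
    rw [Finset.sum_congr rfl h1, Finset.sum_comm]
    refine Finset.sum_congr rfl fun p _ => ?_
    rw [← Finset.card_filter, Nat.Ioc_filter_dvd_card_eq_div]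
  have h3 : ∑ a ∈ Finset.Ioc 0 X, (a.primeFactors.card : ℝ) =
      ∑ p ∈ (Finset.Ioc 0 X).filter Nat.Prime, ((X / p : ℕ) : ℝ) := by exact_mod_cast h2
  rw [h3]
  calc ∑ p ∈ (Finset.Ioc 0 X).filter Nat.Prime, ((X / p : ℕ) : ℝ)
      ≤ ∑ p ∈ (Finset.Ioc 0 X).filter Nat.Prime, (X : ℝ) * (1 / p) := by
        refine Finset.sum_le_sum fun p _ => ?_
        rw [mul_one_div]
        exact Nat.cast_div_le
    _ = X * ∑ p ∈ (Finset.Ioc 0 X).filter Nat.Prime, (1 : ℝ) / p := by rw [Finset.mul_sum]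
    _ ≤ _ := mul_le_mul_of_nonneg_left (sum_inv_prime_le X hX) (Nat.cast_nonneg _)


lemma many_factors_bound (X : ℕ) (hX : 4 ≤ X) (hs : 0 < Real.log (Real.log X / 2)) :
    (((Finset.Ioc 0 X).filter (fun a : ℕ =>
      Real.log (Real.log a) ^ 2 < (a.primeFactors.card : ℝ))).card : ℝ) ≤
      Real.sqrt X + X * ((Real.log (Real.log X / 2) + 8) / Real.log (Real.log X / 2) ^ 2) := by
  have hXR : (4 : ℝ) ≤ X := by exact_mod_cast hX
  have hX0 : (0 : ℝ) < X := by linarith
  have hlogX : 0 < Real.log X := Real.log_pos (by linarith)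
  set s := Real.log (Real.log X / 2) with hsdef
  have hsplit : (Finset.Ioc 0 X).filter (fun a : ℕ =>
      Real.log (Real.log a) ^ 2 < (a.primeFactors.card : ℝ)) ⊆
      Finset.Ioc 0 ⌊Real.sqrt X⌋₊ ∪
      (Finset.Ioc 0 X).filter (fun a : ℕ => s ^ 2 ≤ (a.primeFactors.card : ℝ)) := by
    intro a ha
    rw [Finset.mem_filter] at ha
    rw [Finset.mem_union]
    by_cases h : a ≤ ⌊Real.sqrt X⌋₊
    · left
      rw [Finset.mem_Ioc] at ha ⊢
      exact ⟨ha.1.1, h⟩
    · right
      rw [Finset.mem_filter]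
      refine ⟨ha.1, le_trans ?_ ha.2.le⟩
      have h1 : Real.sqrt X < a := by
        rw [not_le] at h
        exact (Nat.floor_lt (Real.sqrt_nonneg _)).mp h
      have h2 : Real.log X / 2 ≤ Real.log a := by
        rw [← Real.log_sqrt hX0.le]
        exact Real.log_le_log (Real.sqrt_pos.mpr hX0) h1.le
      have h3 : s ≤ Real.log (Real.log a) := Real.log_le_log (by positivity) h2
      exact pow_le_pow_left₀ hs.le h3 2
  have h1 := (Finset.card_le_card hsplit).trans (Finset.card_union_le _ _)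
  have h2 : (((Finset.Ioc 0 ⌊Real.sqrt X⌋₊).card : ℕ) : ℝ) ≤ Real.sqrt X := by
    rw [Nat.card_Ioc, Nat.sub_zero]
    exact Nat.floor_le (Real.sqrt_nonneg _)
  have h3 : s ^ 2 * (((Finset.Ioc 0 X).filter
      (fun a : ℕ => s ^ 2 ≤ (a.primeFactors.card : ℝ))).card : ℝ) ≤
      X * (Real.log (Real.log (X + 1)) + 6) := by
    refine le_trans ?_ (sum_omega_le X (by omega))
    calc s ^ 2 * (((Finset.Ioc 0 X).filter
        (fun a : ℕ => s ^ 2 ≤ (a.primeFactors.card : ℝ))).card : ℝ)
        = ∑ a ∈ (Finset.Ioc 0 X).filter (fun a : ℕ => s ^ 2 ≤ (a.primeFactors.card : ℝ)),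
            s ^ 2 := by rw [Finset.sum_const, nsmul_eq_mul]; ring
      _ ≤ ∑ a ∈ (Finset.Ioc 0 X).filter (fun a : ℕ => s ^ 2 ≤ (a.primeFactors.card : ℝ)),
            (a.primeFactors.card : ℝ) :=
          Finset.sum_le_sum fun a ha => (Finset.mem_filter.mp ha).2
      _ ≤ _ := Finset.sum_le_sum_of_subset_of_nonneg (Finset.filter_subset _ _)
          fun a _ _ => Nat.cast_nonneg _
  have h4 : Real.log (Real.log (X + 1)) ≤ s + 2 := by
    have h5 : Real.log (X + 1) ≤ 2 * Real.log X := by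
      rw [← Real.log_rpow hX0]
      apply Real.log_le_log (by linarith)
      rw [Real.rpow_two]
      nlinarith
    have h6 : Real.log (Real.log (X + 1)) ≤ Real.log (4 * (Real.log X / 2)) := by
      apply Real.log_le_log (Real.log_pos (by linarith))
      linarith
    rw [Real.log_mul (by norm_num) (by positivity)] at h6
    have h7 : Real.log 4 ≤ 2 := by
      have h8 : Real.log 4 = 2 * Real.log 2 := by
        rw [show (4:ℝ) = 2 ^ 2 by norm_num, Real.log_pow]; norm_num
      have := Real.log_two_lt_d9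
      linarith
    linarith
  have h5 : (((Finset.Ioc 0 X).filter
      (fun a : ℕ => s ^ 2 ≤ (a.primeFactors.card : ℝ))).card : ℝ) ≤
      X * ((s + 8) / s ^ 2) := by
    rw [← mul_div_assoc, le_div_iff₀ (by positivity), mul_comm]
    refine h3.trans (mul_le_mul_of_nonneg_left (by linarith) hX0.le)
  have h6 : (((Finset.Ioc 0 X).filter (fun a : ℕ =>
      Real.log (Real.log a) ^ 2 < (a.primeFactors.card : ℝ))).card : ℝ) ≤
      (((Finset.Ioc 0 ⌊Real.sqrt X⌋₊).card : ℕ) : ℝ) + (((Finset.Ioc 0 X).filter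
      (fun a : ℕ => s ^ 2 ≤ (a.primeFactors.card : ℝ))).card : ℝ) := by exact_mod_cast h1
  linarith

/-- A property which holds for all large `a` with at most `(log log a)^2` prime factors holds for
almost all `a`. -/
lemma density_one (p : ℕ → Prop) [DecidablePred p] (A : ℕ)
    (h : ∀ a : ℕ, A ≤ a → (a.primeFactors.card : ℝ) ≤ Real.log (Real.log a) ^ 2 → p a) :
    Filter.Tendsto (fun X : ℕ => (((Finset.Ioc 0 X).filter p).card : ℝ) / X)
      Filter.atTop (nhds 1) := by
  have hcast : Filter.Tendsto (fun X : ℕ => (X : ℝ)) Filter.atTop Filter.atTop :=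
    tendsto_natCast_atTop_atTop
  have hs : Filter.Tendsto (fun X : ℕ => Real.log (Real.log X / 2)) Filter.atTop Filter.atTop :=
    Real.tendsto_log_atTop.comp ((Real.tendsto_log_atTop.comp hcast).atTop_div_const (by norm_num))
  have hlow : ∀ᶠ X : ℕ in Filter.atTop, 1 - ((A : ℝ) / X + 1 / Real.sqrt X +
      (1 / Real.log (Real.log X / 2) + 8 * (1 / Real.log (Real.log X / 2)) ^ 2)) ≤
      (((Finset.Ioc 0 X).filter p).card : ℝ) / X := by
    filter_upwards [Filter.eventually_ge_atTop 4, hs.eventually_gt_atTop 0] with X hX hs0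
    have hXR : (4 : ℝ) ≤ X := by exact_mod_cast hX
    have hX0 : (0 : ℝ) < X := by linarith
    have h1 := many_factors_bound X hX hs0
    set s := Real.log (Real.log X / 2) with hsdef
    have hsub : (Finset.Ioc 0 X).filter (fun a => ¬ p a) ⊆ Finset.range A ∪
        (Finset.Ioc 0 X).filter (fun a : ℕ =>
          Real.log (Real.log a) ^ 2 < (a.primeFactors.card : ℝ)) := by
      intro a ha
      rw [Finset.mem_filter] at ha
      rw [Finset.mem_union, Finset.mem_range, Finset.mem_filter]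
      by_cases h2 : a < A
      · exact Or.inl h2
      · right
        refine ⟨ha.1, ?_⟩
        by_contra hcon
        exact ha.2 (h a (by omega) (not_lt.mp hcon))
    have h2 := (Finset.card_le_card hsub).trans (Finset.card_union_le _ _)
    rw [Finset.card_range] at h2
    have h3 : (((Finset.Ioc 0 X).filter (fun a => ¬ p a)).card : ℝ) ≤ A +
        (((Finset.Ioc 0 X).filter (fun a : ℕ =>
          Real.log (Real.log a) ^ 2 < (a.primeFactors.card : ℝ))).card : ℝ) := by
      exact_mod_cast h2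
    have h4 := Finset.card_filter_add_card_filter_not (s := Finset.Ioc 0 X) p
    rw [Nat.card_Ioc, Nat.sub_zero] at h4
    have h5 : (((Finset.Ioc 0 X).filter p).card : ℝ) +
        (((Finset.Ioc 0 X).filter (fun a => ¬ p a)).card : ℝ) = X := by exact_mod_cast h4
    rw [le_div_iff₀ hX0]
    have h6 : Real.sqrt X * Real.sqrt X = X := Real.mul_self_sqrt hX0.le
    have h7 : 0 < Real.sqrt X := Real.sqrt_pos.mpr hX0
    have h8 : (1 - ((A : ℝ) / X + 1 / Real.sqrt X + (1 / s + 8 * (1 / s) ^ 2))) * X =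
        X - A - Real.sqrt X - X * ((s + 8) / s ^ 2) := by
      have h9 : 1 / Real.sqrt X * X = Real.sqrt X := by
        nth_rewrite 2 [← h6]
        field_simp
      have h10 : (A : ℝ) / X * X = A := by field_simp
      have h11 : (1 / s + 8 * (1 / s) ^ 2) = (s + 8) / s ^ 2 := by field_simp
      rw [h11]
      calc (1 - ((A : ℝ) / X + 1 / Real.sqrt X + (s + 8) / s ^ 2)) * X =
          X - (A : ℝ) / X * X - 1 / Real.sqrt X * X - X * ((s + 8) / s ^ 2) := by ring
        _ = _ := by rw [h9, h10]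
    rw [h8]
    linarith
  have hup : ∀ᶠ X : ℕ in Filter.atTop, (((Finset.Ioc 0 X).filter p).card : ℝ) / X ≤ 1 := by
    filter_upwards [Filter.eventually_ge_atTop 1] with X hX
    have hX0 : (0 : ℝ) < X := by exact_mod_cast hX
    rw [div_le_one hX0]
    have h1 := Finset.card_filter_le (Finset.Ioc 0 X) p
    rw [Nat.card_Ioc, Nat.sub_zero] at h1
    exact_mod_cast h1
  have hlim : Filter.Tendsto (fun X : ℕ => 1 - ((A : ℝ) / X + 1 / Real.sqrt X +
      (1 / Real.log (Real.log X / 2) + 8 * (1 / Real.log (Real.log X / 2)) ^ 2)))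
      Filter.atTop (nhds 1) := by
    have h1 : Filter.Tendsto (fun X : ℕ => (A : ℝ) / X) Filter.atTop (nhds 0) :=
      tendsto_const_div_atTop_nhds_zero_nat _
    have h2 : Filter.Tendsto (fun X : ℕ => 1 / Real.sqrt X) Filter.atTop (nhds 0) := by
      simp only [one_div]
      exact (Real.tendsto_sqrt_atTop.comp hcast).inv_tendsto_atTop
    have h3 : Filter.Tendsto (fun X : ℕ => 1 / Real.log (Real.log X / 2))
        Filter.atTop (nhds 0) := by
      simp only [one_div]
      exact hs.inv_tendsto_atTop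
    have h4 := (h3.pow 2).const_mul 8
    have h5 := ((h1.add h2).add (h3.add h4)).const_sub 1
    norm_num at h5 ⊢
    exact h5
  exact tendsto_of_tendsto_of_tendsto_of_le_of_le' hlim tendsto_const_nhds hlow hup

/-- The condition of `few_factors` holds when `a` has at most `(log log a)^2` prime factors. -/
lemma few_of_sq : ∃ A : ℕ, ∀ a : ℕ, A ≤ a →
    (a.primeFactors.card : ℝ) ≤ Real.log (Real.log a) ^ 2 →
    ((a.primeFactors.filter (fun p : ℕ => (p : ℝ) ≤ Real.log a)).card : ℝ) ≤
      Real.exp ((1 / 2 - 1 / 4) * Real.log (Real.log a) *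
        Real.log (Real.log (Real.log (Real.log a))) / Real.log (Real.log (Real.log a))) := by
  have hlog := Real.tendsto_log_atTop
  have h1 : ∀ᶠ t : ℝ in Filter.atTop, 8 * Real.log t ^ 2 ≤ t := by
    have h2 := (Real.isLittleO_pow_log_id_atTop (n := 2)).def (c := 1 / 8) (by norm_num)
    filter_upwards [h2, Filter.eventually_ge_atTop 0] with t h2 h3
    simp only [id_eq, Real.norm_eq_abs] at h2
    rw [abs_of_nonneg (by positivity), abs_of_nonneg h3] at h2
    linarith
  have hev : ∀ᶠ a : ℕ in Filter.atTop, 8 * Real.log (Real.log (Real.log (a : ℝ))) ^ 2 ≤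
      Real.log (Real.log a) ∧ 1 ≤ Real.log (Real.log (Real.log (Real.log (a : ℝ)))) ∧
      1 ≤ Real.log (Real.log (Real.log (a : ℝ))) ∧ 1 ≤ Real.log (Real.log (a : ℝ)) := by
    have hc : Filter.Tendsto (fun X : ℕ => (X : ℝ)) Filter.atTop Filter.atTop :=
      tendsto_natCast_atTop_atTop
    have h2 := hlog.comp (hlog.comp hc)
    have h3 := hlog.comp h2
    have h4 := hlog.comp h3
    exact (h2.eventually h1).and ((h4.eventually_ge_atTop 1).and
      ((h3.eventually_ge_atTop 1).and (h2.eventually_ge_atTop 1)))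
  obtain ⟨A, hA⟩ := Filter.eventually_atTop.1 hev
  refine ⟨A, fun a ha hω => ?_⟩
  obtain ⟨h2, h3, h4, h5⟩ := hA a ha
  have h6 : ((a.primeFactors.filter (fun p : ℕ => (p : ℝ) ≤ Real.log a)).card : ℝ) ≤
      a.primeFactors.card := by exact_mod_cast Finset.card_filter_le _ _
  refine (h6.trans hω).trans ?_
  set t := Real.log (Real.log (a : ℝ)) with ht
  set m := Real.log t with hm
  set l := Real.log m with hl
  have ht0 : 0 < t := by linarith
  have hm0 : 0 < m := by linarith
  have h7 : t ^ 2 = Real.exp (2 * m) := by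
    rw [show (2 : ℝ) * m = ((2 : ℕ) : ℝ) * m by norm_num, Real.exp_nat_mul, hm, Real.exp_log ht0]
  rw [h7]
  apply Real.exp_le_exp.mpr
  rw [le_div_iff₀ hm0]
  nlinarith

end LPAP
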