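import Pool.Agent.Lib.MP_5b0a7e_nt.Medium

/-!
# Averaging over residue classes and shifts
-/

open Finset
open scoped Classical

namespace Pool.Agent.FixedClass

/-- Greedy choice of nonzero residue classes. -/
lemma greedy_abs {σ : Type*} (P : Finset ℕ) (kill : ℕ → σ → ℕ → Prop) (bad : ℕ → σ → Prop)
    (hP : ∀ p ∈ P, 2 ≤ p)
    (hk : ∀ p ∈ P, ∀ s, ¬ bad p s → ∃ c, 1 ≤ c ∧ c < p ∧ kill p s c) :
    ∀ S : Finset σ, ∃ r : ℕ → ℕ, (∀ p ∈ P, 1 ≤ r p ∧ r p < p) ∧
      ((S.filter fun s => ∀ p ∈ P, ¬ kill p s (r p)).card : ℝ) ≤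
        ∑ s ∈ S, ∏ p ∈ P, (if bad p s then (1 : ℝ) else (1 - 1 / ((p : ℝ) - 1))) := by
  induction P using Finset.induction_on with
  | empty => intro S; exact ⟨fun _ => 0, by simp⟩
  | insert q P hq ih =>
    intro S
    have hP' : ∀ p ∈ P, 2 ≤ p := fun p hp => hP p (mem_insert_of_mem hp)
    have hk' : ∀ p ∈ P, ∀ s, ¬ bad p s → ∃ c, 1 ≤ c ∧ c < p ∧ kill p s c :=
      fun p hp => hk p (mem_insert_of_mem hp)
    have hq2 : 2 ≤ q := hP q (mem_insert_self _ _)
    have hq2' : (2:ℝ) ≤ q := by exact_mod_cast hq2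
    set w : σ → ℝ := fun s => ∏ p ∈ P, (if bad p s then (1 : ℝ) else (1 - 1 / ((p : ℝ) - 1)))
      with hw
    have hw0 : ∀ s, 0 ≤ w s := by
      intro s
      refine prod_nonneg fun p hp => ?_
      have h2 : (2:ℝ) ≤ p := by exact_mod_cast hP' p hp
      split_ifs
      · norm_num
      · rw [sub_nonneg, div_le_one (by linarith)]
        linarith
    set v : σ → ℝ := fun s => (if bad q s then (1 : ℝ) else (1 - 1 / ((q : ℝ) - 1))) with hv
    have hsum : ∑ c ∈ Ico 1 q, ∑ s ∈ S.filter (fun s => ¬ kill q s c), w s ≤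
        ∑ c ∈ Ico 1 q, (∑ s ∈ S, v s * w s) := by
      have h1 : ∑ c ∈ Ico 1 q, ∑ s ∈ S.filter (fun s => ¬ kill q s c), w s =
          ∑ s ∈ S, w s * (((Ico 1 q).filter fun c => ¬ kill q s c).card : ℝ) := by
        simp only [sum_filter]
        rw [sum_comm]
        refine sum_congr rfl fun s _ => ?_
        rw [← sum_filter, sum_const, nsmul_eq_mul, mul_comm]
      rw [h1, sum_const, Nat.card_Ico, nsmul_eq_mul, mul_sum]
      refine sum_le_sum fun s _ => ?_
      have hq1 : ((q - 1 : ℕ) : ℝ) = q - 1 := by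
        rw [Nat.cast_sub (by omega)]; norm_num
      have h2 : (((Ico 1 q).filter fun c => ¬ kill q s c).card : ℝ) ≤ (q - 1 : ℕ) * v s := by
        simp only [hv]
        split_ifs with hb
        · rw [mul_one]
          have := card_filter_le (Ico 1 q) (fun c => ¬ kill q s c)
          rw [Nat.card_Ico] at this
          exact_mod_cast this
        · obtain ⟨c, hc1, hcq, hkc⟩ := hk q (mem_insert_self _ _) s hb
          have h3 : ((Ico 1 q).filter fun c => ¬ kill q s c) ⊆ (Ico 1 q).erase c := by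
            intro d hd
            rw [mem_filter] at hd
            rw [mem_erase]
            refine ⟨?_, hd.1⟩
            rintro rfl
            exact hd.2 hkc
          have h4 := card_le_card h3
          rw [card_erase_of_mem (by rw [mem_Ico]; exact ⟨hc1, hcq⟩), Nat.card_Ico] at h4
          have h5 : (((Ico 1 q).filter fun c => ¬ kill q s c).card : ℝ) ≤ ((q - 1 - 1 : ℕ) : ℝ) := by
            exact_mod_cast h4
          refine h5.trans (le_of_eq ?_)
          rw [Nat.cast_sub (by omega), hq1]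
          have : (q : ℝ) - 1 ≠ 0 := by linarith
          field_simp
          push_cast
          ring
      calc w s * (((Ico 1 q).filter fun c => ¬ kill q s c).card : ℝ) ≤ w s * ((q - 1 : ℕ) * v s) :=
            mul_le_mul_of_nonneg_left h2 (hw0 s)
        _ = _ := by ring
    obtain ⟨c, hc, hcle⟩ := exists_le_of_sum_le (by
      rw [nonempty_Ico]; omega) hsum
    rw [mem_Ico] at hc
    obtain ⟨r, hr1, hr2⟩ := ih hP' hk' (S.filter fun s => ¬ kill q s c)
    refine ⟨fun p => if p = q then c else r p, ?_, ?_⟩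
    · intro p hp
      rw [mem_insert] at hp
      by_cases hpq : p = q
      · simp only [hpq, if_true]
        exact hc
      · simp only [hpq, if_false]
        exact hr1 p (hp.resolve_left hpq)
    · have hsub : (S.filter fun s => ∀ p ∈ insert q P, ¬ kill p s (if p = q then c else r p)) =
          (S.filter fun s => ¬ kill q s c).filter fun s => ∀ p ∈ P, ¬ kill p s (r p) := by
        ext s
        simp only [mem_filter, mem_insert, forall_eq_or_imp, if_true]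
        constructor
        · rintro ⟨h1, h2, h3⟩
          refine ⟨⟨h1, h2⟩, fun p hp => ?_⟩
          have := h3 p hp
          rwa [if_neg (by rintro rfl; exact hq hp)] at this
        · rintro ⟨⟨h1, h2⟩, h3⟩
          refine ⟨h1, h2, fun p hp => ?_⟩
          rw [if_neg (by rintro rfl; exact hq hp)]
          exact h3 p hp
      rw [hsub]
      refine hr2.trans (hcle.trans (le_of_eq ?_))
      refine sum_congr rfl fun s _ => ?_
      rw [prod_insert hq]

/-- Comparison of the weights with the product over all primes. -/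
lemma weight_le (P : Finset ℕ) (hP : ∀ p ∈ P, 2 ≤ p) (bad : ℕ → Prop) :
    ∏ p ∈ P, (if bad p then (1 : ℝ) else (1 - 1 / ((p : ℝ) - 1))) ≤
      (∏ p ∈ P, (1 - 1 / (p : ℝ))) * ∏ p ∈ P, (1 + if bad p then 1 / ((p : ℝ) - 1) else 0) := by
  rw [← prod_mul_distrib]
  refine prod_le_prod (fun p hp => ?_) fun p hp => ?_
  · have h2 : (2:ℝ) ≤ p := by exact_mod_cast hP p hp
    split_ifs
    · norm_num
    · rw [sub_nonneg, div_le_one (by linarith)]
      linarith
  · have h2 : (2:ℝ) ≤ p := by exact_mod_cast hP p hp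
    split_ifs
    · have h3 : (p:ℝ) - 1 ≠ 0 := by linarith
      have h4 : (p:ℝ) ≠ 0 := by linarith
      apply le_of_eq
      field_simp
      ring
    · rw [add_zero, mul_one]
      have : 1 / (p:ℝ) ≤ 1 / ((p:ℝ) - 1) := one_div_le_one_div_of_le (by linarith) (by linarith)
      linarith

/-- A sum over `n > 1` of `1 / (n (n - 1))`. -/
lemma sum_telescope (M : ℕ) : ∑ n ∈ Ioc 1 M, 1 / ((n : ℝ) * (n - 1)) ≤ 1 := by
  have h : ∀ M : ℕ, 1 ≤ M → ∑ n ∈ Ioc 1 M, 1 / ((n : ℝ) * (n - 1)) = 1 - 1 / M := by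
    intro M hM
    induction M, hM using Nat.le_induction with
    | base => simp
    | succ M hM ih =>
      rw [← Finset.insert_Ioc_right_eq_Ioc_add_one (by omega), Finset.sum_insert (by simp), ih]
      have h1 : (M : ℝ) ≠ 0 := by positivity
      push_cast
      have h2 : (M : ℝ) + 1 - 1 = M := by ring
      rw [h2]
      field_simp
      ring
  rcases Nat.eq_zero_or_pos M with rfl | hM
  · simp
  · rw [h M hM]
    have : 0 ≤ 1 / (M : ℝ) := by positivity
    linarith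

lemma sum_primes_le (P : Finset ℕ) (hP : ∀ p ∈ P, 2 ≤ p) :
    ∑ p ∈ P, 1 / ((p : ℝ) * (p - 1)) ≤ 1 := by
  refine le_trans ?_ (sum_telescope (P.sup id))
  refine sum_le_sum_of_subset_of_nonneg ?_ ?_
  · intro p hp
    rw [mem_Ioc]
    exact ⟨hP p hp, le_sup (f := id) hp⟩
  · intro n hn _
    rw [mem_Ioc] at hn
    have : (1:ℝ) < n := by exact_mod_cast hn.1
    have h1 : (0:ℝ) ≤ (n:ℝ) - 1 := by linarith
    positivity

lemma prod_sq_le (P : Finset ℕ) (hP : ∀ p ∈ P, 2 ≤ p) :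
    ∏ p ∈ P, (1 + 1 / ((p : ℝ) * (p - 1))) ≤ Real.exp 1 := by
  calc ∏ p ∈ P, (1 + 1 / ((p : ℝ) * (p - 1))) ≤ ∏ p ∈ P, Real.exp (1 / ((p : ℝ) * (p - 1))) := by
        refine prod_le_prod (fun p hp => ?_) fun p _ => ?_
        · have h2 : (2:ℝ) ≤ p := by exact_mod_cast hP p hp
          have h1 : (0:ℝ) ≤ (p:ℝ) - 1 := by linarith
          positivity
        · rw [add_comm]; exact Real.add_one_le_exp _
    _ = Real.exp (∑ p ∈ P, 1 / ((p : ℝ) * (p - 1))) := (Real.exp_sum _ _).symm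
    _ ≤ Real.exp 1 := Real.exp_le_exp.2 (sum_primes_le P hP)

lemma prod_phi_le (z : ℕ) (hz : 1 ≤ z) (P : Finset ℕ) (hP : P ⊆ (Ioc 0 z).filter Nat.Prime) :
    ∏ p ∈ P, (1 + 1 / ((p : ℝ) - 1)) ≤ Real.exp 8 * Real.log (z + 1) := by
  have hP2 : ∀ p ∈ (Ioc 0 z).filter Nat.Prime, 2 ≤ p := fun p hp => (mem_filter.1 hp).2.two_le
  have h1 : ∏ p ∈ P, (1 + 1 / ((p : ℝ) - 1)) ≤
      ∏ p ∈ (Ioc 0 z).filter Nat.Prime, (1 + 1 / ((p : ℝ) - 1)) := by
    refine prod_le_prod_of_subset_of_one_le hP ?_ ?_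
    · intro p hp
      have h2 : (2:ℝ) ≤ p := by exact_mod_cast hP2 p (hP hp)
      have h1 : (0:ℝ) ≤ (p:ℝ) - 1 := by linarith
      positivity
    · intro p hp _
      have h2 : (2:ℝ) ≤ p := by exact_mod_cast hP2 p hp
      have h1 : (0:ℝ) ≤ (p:ℝ) - 1 := by linarith
      have : 0 ≤ 1 / ((p:ℝ) - 1) := by positivity
      linarith
  refine h1.trans ?_
  have hlog : 0 < Real.log ((z:ℝ) + 1) := Real.log_pos (by
    have : (1:ℝ) ≤ z := by exact_mod_cast hz
    linarith)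
  calc ∏ p ∈ (Ioc 0 z).filter Nat.Prime, (1 + 1 / ((p : ℝ) - 1))
      ≤ ∏ p ∈ (Ioc 0 z).filter Nat.Prime,
        Real.exp (1 / (p : ℝ) + 2 * (1 / ((p : ℝ) * (p - 1)))) := by
        refine prod_le_prod (fun p hp => ?_) fun p hp => ?_
        · have h2 : (2:ℝ) ≤ p := by exact_mod_cast hP2 p hp
          have h1 : (0:ℝ) ≤ (p:ℝ) - 1 := by linarith
          positivity
        · have h2 : (2:ℝ) ≤ p := by exact_mod_cast hP2 p hp
          have h3 := Pool.Agent.Presieve.inv_one_sub_le' (y := 1 / (p:ℝ)) (by positivity) (by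
            rw [div_le_div_iff₀ (by linarith) (by norm_num)]; linarith)
          have h4 : (1 - 1 / (p:ℝ))⁻¹ = 1 + 1 / ((p : ℝ) - 1) := by
            have h5 : (p:ℝ) - 1 ≠ 0 := by linarith
            have h6 : (p:ℝ) ≠ 0 := by linarith
            field_simp
            ring
          rw [h4] at h3
          refine h3.trans (Real.exp_le_exp.2 ?_)
          have h7 : (1 / (p:ℝ)) ^ 2 ≤ 1 / ((p : ℝ) * (p - 1)) := by
            rw [div_pow, one_pow]
            apply one_div_le_one_div_of_le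
            · nlinarith
            · nlinarith
          linarith
    _ = Real.exp (∑ p ∈ (Ioc 0 z).filter Nat.Prime, (1 / (p : ℝ) +
          2 * (1 / ((p : ℝ) * (p - 1))))) := (Real.exp_sum _ _).symm
    _ ≤ Real.exp (Real.log (Real.log (z + 1)) + 8) := by
        refine Real.exp_le_exp.2 ?_
        rw [sum_add_distrib, ← mul_sum]
        have h2 := LPAP.sum_inv_prime_le z hz
        have h3 := sum_primes_le _ hP2
        linarith
    _ = Real.exp 8 * Real.log (z + 1) := by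
        rw [Real.exp_add, Real.exp_log hlog, mul_comm]

/-- Expansion of a product of divisibility indicators. -/
lemma expand (P : Finset ℕ) (hP : ∀ p ∈ P, p.Prime) (x : ℤ) :
    ∏ p ∈ P, (1 + if (p : ℤ) ∣ x then 1 / ((p : ℝ) - 1) else 0) =
      ∑ D ∈ P.powerset, (∏ p ∈ D, 1 / ((p : ℝ) - 1)) *
        (if ((∏ p ∈ D, p : ℕ) : ℤ) ∣ x then (1:ℝ) else 0) := by
  rw [prod_one_add]
  refine sum_congr rfl fun D hD => ?_
  have hDP := mem_powerset.1 hD
  by_cases hx : ((∏ p ∈ D, p : ℕ) : ℤ) ∣ x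
  · rw [if_pos hx, mul_one]
    refine prod_congr rfl fun p hp => ?_
    rw [if_pos]
    refine dvd_trans ?_ hx
    exact_mod_cast dvd_prod_of_mem (fun p => p) hp
  · rw [if_neg hx, mul_zero]
    by_contra hcon
    apply hx
    have h1 : ∀ p ∈ D, (p : ℤ) ∣ x := by
      intro p hp
      by_contra hpx
      exact hcon (prod_eq_zero hp (if_neg hpx))
    rw [Int.natCast_dvd]
    refine Finset.prod_primes_dvd _ (fun p hp => (hP p (hDP hp)).prime) fun p hp => ?_
    exact Int.natCast_dvd.1 (h1 p hp)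

/-- Few shifts `h ≤ H` satisfy a congruence `d ∣ m + b h`. -/
lemma card_shift (H d : ℕ) (m b : ℤ) (hcop : IsCoprime (d : ℤ) b) :
    (((Ioc 0 H).filter fun h : ℕ => (d : ℤ) ∣ m + b * h).card : ℝ) ≤ H * (1 / (d : ℝ)) + 1 := by
  have h1 : ((Ioc 0 H).filter fun h : ℕ => (d : ℤ) ∣ m + b * h).card ≤ H / d + 1 := by
    rw [← card_range (H / d + 1)]
    apply card_le_card_of_injOn (fun h => h / d)
    · intro h hh
      have hh' := (mem_filter.1 (mem_coe.1 hh)).1
      rw [mem_Ioc] at hh'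
      rw [mem_coe, mem_range, Nat.lt_succ_iff]
      exact Nat.div_le_div_right hh'.2
    · intro h hh h' hh' heq
      have e1 := (mem_filter.1 (mem_coe.1 hh)).2
      have e2 := (mem_filter.1 (mem_coe.1 hh')).2
      have e3 : (d : ℤ) ∣ b * ((h : ℤ) - h') := by
        have := dvd_sub e1 e2
        have e4 : m + b * (h : ℤ) - (m + b * h') = b * ((h : ℤ) - h') := by ring
        rwa [e4] at this
      have e5 : (d : ℤ) ∣ (h : ℤ) - h' := hcop.dvd_of_dvd_mul_left e3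
      have e6 : h' % d = h % d := by
        have := (Nat.modEq_iff_dvd (n := d) (a := h') (b := h)).2 e5
        exact this
      have e7 : h / d = h' / d := heq
      rw [← Nat.div_add_mod h d, ← Nat.div_add_mod h' d, e6, e7]
  have h2 : (((Ioc 0 H).filter fun h : ℕ => (d : ℤ) ∣ m + b * h).card : ℝ) ≤
      ((H / d + 1 : ℕ) : ℝ) := by exact_mod_cast h1
  refine h2.trans ?_
  push_cast
  have h3 : ((H / d : ℕ) : ℝ) ≤ (H : ℝ) / d := Nat.cast_div_le
  have h4 : (H : ℝ) / d = H * (1 / (d : ℝ)) := by ring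
  linarith

/-- The average of the weight over a short interval of shifts. -/
lemma short_avg (z H : ℕ) (hz : 1 ≤ z) (P : Finset ℕ) (hP : P ⊆ (Ioc 0 z).filter Nat.Prime)
    (m b : ℤ) (hb : ∀ p ∈ P, ¬ (p : ℤ) ∣ b) :
    ∑ h ∈ Ioc 0 H, ∏ p ∈ P, (1 + if (p : ℤ) ∣ m + b * (h : ℕ) then 1 / ((p : ℝ) - 1) else 0) ≤
      H * Real.exp 1 + Real.exp 8 * Real.log (z + 1) := by
  have hPp : ∀ p ∈ P, p.Prime := fun p hp => (mem_filter.1 (hP hp)).2
  have hP2 : ∀ p ∈ P, 2 ≤ p := fun p hp => (hPp p hp).two_le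
  have h1 : ∑ h ∈ Ioc 0 H, ∏ p ∈ P,
      (1 + if (p : ℤ) ∣ m + b * (h : ℕ) then 1 / ((p : ℝ) - 1) else 0) =
      ∑ D ∈ P.powerset, (∏ p ∈ D, 1 / ((p : ℝ) - 1)) *
        (((Ioc 0 H).filter fun h : ℕ => ((∏ p ∈ D, p : ℕ) : ℤ) ∣ m + b * h).card : ℝ) := by
    simp only [expand P hPp]
    rw [sum_comm]
    refine sum_congr rfl fun D _ => ?_
    rw [← mul_sum, sum_boole]
  rw [h1]
  have h2 : ∀ D ∈ P.powerset, (∏ p ∈ D, 1 / ((p : ℝ) - 1)) *
        (((Ioc 0 H).filter fun h : ℕ => ((∏ p ∈ D, p : ℕ) : ℤ) ∣ m + b * h).card : ℝ) ≤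
      H * ∏ p ∈ D, (1 / ((p : ℝ) * (p - 1))) + ∏ p ∈ D, 1 / ((p : ℝ) - 1) := by
    intro D hD
    have hDP := mem_powerset.1 hD
    have h0 : 0 ≤ ∏ p ∈ D, 1 / ((p : ℝ) - 1) := by
      refine prod_nonneg fun p hp => ?_
      have h2 : (2:ℝ) ≤ p := by exact_mod_cast hP2 p (hDP hp)
      have h1 : (0:ℝ) ≤ (p:ℝ) - 1 := by linarith
      positivity
    have hcop : IsCoprime ((∏ p ∈ D, p : ℕ) : ℤ) b := by
      push_cast
      refine IsCoprime.prod_left fun p hp => ?_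
      have hp' := Nat.prime_iff_prime_int.1 (hPp p (hDP hp))
      exact (Prime.coprime_iff_not_dvd hp').2 (hb p (hDP hp))
    have h3 := card_shift H (∏ p ∈ D, p) m b hcop
    refine (mul_le_mul_of_nonneg_left h3 h0).trans (le_of_eq ?_)
    have h4 : (1 : ℝ) / ((∏ p ∈ D, p : ℕ) : ℝ) = ∏ p ∈ D, 1 / (p : ℝ) := by
      push_cast
      rw [prod_div_distrib, prod_const_one]
    have h5 : ∏ p ∈ D, (1 / ((p : ℝ) * (p - 1))) =
        (∏ p ∈ D, 1 / ((p : ℝ) - 1)) * ∏ p ∈ D, 1 / (p : ℝ) := by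
      rw [← prod_mul_distrib]
      refine prod_congr rfl fun p hp => ?_
      have h2 : (2:ℝ) ≤ p := by exact_mod_cast hP2 p (hDP hp)
      have h3 : (p:ℝ) - 1 ≠ 0 := by linarith
      have h4 : (p:ℝ) ≠ 0 := by linarith
      field_simp
    rw [h4, h5]
    ring
  refine (sum_le_sum h2).trans ?_
  rw [sum_add_distrib, ← mul_sum, ← prod_one_add, ← prod_one_add]
  have h3 := prod_sq_le P hP2
  have h4 := prod_phi_le z hz P hP
  have h5 : (0:ℝ) ≤ H := Nat.cast_nonneg _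
  have := mul_le_mul_of_nonneg_left h3 h5
  linarith

/-- The average of the weight over `b ≤ k`. -/
lemma avg_b (k : ℕ) (P : Finset ℕ) (hP : ∀ p ∈ P, p.Prime) :
    ∑ b ∈ Ioc 0 k, ∏ p ∈ P, (1 + if (p : ℤ) ∣ ((b : ℕ) : ℤ) then 1 / ((p : ℝ) - 1) else 0) ≤
      k * Real.exp 1 := by
  have hP2 : ∀ p ∈ P, 2 ≤ p := fun p hp => (hP p hp).two_le
  have h1 : ∑ b ∈ Ioc 0 k, ∏ p ∈ P,
      (1 + if (p : ℤ) ∣ ((b : ℕ) : ℤ) then 1 / ((p : ℝ) - 1) else 0) =
      ∑ D ∈ P.powerset, (∏ p ∈ D, 1 / ((p : ℝ) - 1)) *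
        (((Ioc 0 k).filter fun b : ℕ => ((∏ p ∈ D, p : ℕ) : ℤ) ∣ (b : ℤ)).card : ℝ) := by
    simp only [expand P hP]
    rw [sum_comm]
    refine sum_congr rfl fun D _ => ?_
    rw [← mul_sum, sum_boole]
  rw [h1]
  have h2 : ∀ D ∈ P.powerset, (∏ p ∈ D, 1 / ((p : ℝ) - 1)) *
        (((Ioc 0 k).filter fun b : ℕ => ((∏ p ∈ D, p : ℕ) : ℤ) ∣ (b : ℤ)).card : ℝ) ≤
      k * ∏ p ∈ D, (1 / ((p : ℝ) * (p - 1))) := by
    intro D hD
    have hDP := mem_powerset.1 hD
    have h0 : 0 ≤ ∏ p ∈ D, 1 / ((p : ℝ) - 1) := by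
      refine prod_nonneg fun p hp => ?_
      have h2 : (2:ℝ) ≤ p := by exact_mod_cast hP2 p (hDP hp)
      have h1 : (0:ℝ) ≤ (p:ℝ) - 1 := by linarith
      positivity
    have h3 : (((Ioc 0 k).filter fun b : ℕ => ((∏ p ∈ D, p : ℕ) : ℤ) ∣ (b : ℤ)).card : ℝ) ≤
        k * (1 / ((∏ p ∈ D, p : ℕ) : ℝ)) := by
      simp only [Int.natCast_dvd_natCast]
      rw [Nat.Ioc_filter_dvd_card_eq_div]
      calc ((k / (∏ p ∈ D, p) : ℕ) : ℝ) ≤ (k : ℝ) / ((∏ p ∈ D, p : ℕ) : ℝ) := Nat.cast_div_le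
        _ = _ := by ring
    refine (mul_le_mul_of_nonneg_left h3 h0).trans (le_of_eq ?_)
    have h4 : (1 : ℝ) / ((∏ p ∈ D, p : ℕ) : ℝ) = ∏ p ∈ D, 1 / (p : ℝ) := by
      push_cast
      rw [prod_div_distrib, prod_const_one]
    have h5 : ∏ p ∈ D, (1 / ((p : ℝ) * (p - 1))) =
        (∏ p ∈ D, 1 / ((p : ℝ) - 1)) * ∏ p ∈ D, 1 / (p : ℝ) := by
      rw [← prod_mul_distrib]
      refine prod_congr rfl fun p hp => ?_
      have h2 : (2:ℝ) ≤ p := by exact_mod_cast hP2 p (hDP hp)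
      have h3 : (p:ℝ) - 1 ≠ 0 := by linarith
      have h4 : (p:ℝ) ≠ 0 := by linarith
      field_simp
    rw [h4, h5]
    ring
  refine (sum_le_sum h2).trans ?_
  rw [← mul_sum, ← prod_one_add]
  exact mul_le_mul_of_nonneg_left (prod_sq_le P hP2) (Nat.cast_nonneg _)

end Pool.Agent.FixedClass
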