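import Mathlib

/-!
# An `L²` sieve on a product space

For a list `L` of moduli we consider the product space `Om ι L` whose coordinate at `q ∈ L` is an
element of `Option ι` (which of the linear forms indexed by `ι` is divisible by `q`, if any).
`T p L R` is the projection onto functions of `log`-degree at most `log R` (Efron-Stein
decomposition), `D p θ L` the quadratic form with weights `∏_{q ∈ S} θ q` on the `S`-component.
-/

namespace LPAP

open Finset

/-- Outcomes: for every modulus of the list, the index that is hit (if any). -/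
inductive Om (ι : Type) : List ℕ → Type
  | nil : Om ι []
  | cons {q : ℕ} {L : List ℕ} (s : Option ι) (ω : Om ι L) : Om ι (q :: L)

variable {ι : Type}

/-- First coordinate. -/
def Om.hd {q : ℕ} {L : List ℕ} : Om ι (q :: L) → Option ι
  | .cons s _ => s

/-- Remaining coordinates. -/
def Om.tl {q : ℕ} {L : List ℕ} : Om ι (q :: L) → Om ι L
  | .cons _ ω => ω

@[simp] lemma Om.hd_cons {q : ℕ} {L : List ℕ} (s : Option ι) (ω : Om ι L) :
    (Om.cons (q := q) s ω).hd = s := rfl

@[simp] lemma Om.tl_cons {q : ℕ} {L : List ℕ} (s : Option ι) (ω : Om ι L) :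
    (Om.cons (q := q) s ω).tl = ω := rfl

lemma Om.eta {q : ℕ} {L : List ℕ} (ω : Om ι (q :: L)) : Om.cons ω.hd ω.tl = ω := by
  cases ω; rfl

/-- The slice of a function. -/
def sl {q : ℕ} {L : List ℕ} (F : Om ι (q :: L) → ℝ) (s : Option ι) : Om ι L → ℝ :=
  fun ω => F (.cons s ω)

variable [Fintype ι]

/-- Expectation with weights `p q s`. -/
noncomputable def ex (p : ℕ → Option ι → ℝ) : (L : List ℕ) → (Om ι L → ℝ) → ℝ
  | [], F => F .nil
  | q :: L, F => ∑ s, p q s * ex p L (sl F s)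

/-- Averaging over the first coordinate. -/
noncomputable def avg (p : ℕ → Option ι → ℝ) {q : ℕ} {L : List ℕ} (F : Om ι (q :: L) → ℝ) :
    Om ι L → ℝ :=
  fun ω => ∑ s, p q s * sl F s ω

/-- Centered slice. -/
noncomputable def ct (p : ℕ → Option ι → ℝ) {q : ℕ} {L : List ℕ} (F : Om ι (q :: L) → ℝ)
    (s : Option ι) : Om ι L → ℝ :=
  fun ω => sl F s ω - avg p F ω

/-- Projection onto degree `≤ R`. -/
noncomputable def T (p : ℕ → Option ι → ℝ) : (L : List ℕ) → ℝ → (Om ι L → ℝ) → Om ι L → ℝ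
  | [], R, F => fun ω => if 1 ≤ R then F ω else 0
  | q :: L, R, F => fun ω => T p L R (avg p F) ω.tl + T p L (R / q) (ct p F ω.hd) ω.tl

/-- The multiplier operator with multiplier `∏_{q ∈ S} √(θ q)` on the `S`-component. -/
noncomputable def A (p : ℕ → Option ι → ℝ) (θ : ℕ → ℝ) :
    (L : List ℕ) → (Om ι L → ℝ) → Om ι L → ℝ
  | [], F => F
  | q :: L, F => fun ω => A p θ L (avg p F) ω.tl + Real.sqrt (θ q) * A p θ L (ct p F ω.hd) ω.tl

/-- The quadratic form `∑_S ∏_{q ∈ S} θ q ‖F_S‖²`. -/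
noncomputable def D (p : ℕ → Option ι → ℝ) (θ : ℕ → ℝ) (L : List ℕ) (F : Om ι L → ℝ) : ℝ :=
  ex p L (fun ω => (A p θ L F ω) ^ 2)

section linear

variable (p : ℕ → Option ι → ℝ) (θ : ℕ → ℝ)

lemma ex_lin (L : List ℕ) (x y : ℝ) (F G : Om ι L → ℝ) :
    ex p L (fun ω => x * F ω + y * G ω) = x * ex p L F + y * ex p L G := by
  induction L with
  | nil => simp [ex]
  | cons q L ih =>
    rw [ex, ex, ex, Finset.mul_sum, Finset.mul_sum, ← Finset.sum_add_distrib]
    refine Finset.sum_congr rfl fun s _ => ?_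
    have := ih (sl F s) (sl G s)
    have h2 : sl (fun ω => x * F ω + y * G ω) s = fun ω => x * sl F s ω + y * sl G s ω := rfl
    rw [h2, this]; ring

lemma ex_zero (L : List ℕ) : ex p L (fun _ => 0) = 0 := by
  have := ex_lin p L 0 0 (fun _ => 0) (fun _ => 0)
  simpa using this

lemma ex_sum {κ : Type*} (S : Finset κ) (L : List ℕ) (c : κ → ℝ) (G : κ → Om ι L → ℝ) :
    ex p L (fun ω => ∑ k ∈ S, c k * G k ω) = ∑ k ∈ S, c k * ex p L (G k) := by
  classical
  induction S using Finset.induction_on with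
  | empty => simp [ex_zero]
  | insert a S ha ih =>
    rw [Finset.sum_insert ha, ← ih]
    have := ex_lin p L (c a) 1 (G a) (fun ω => ∑ k ∈ S, c k * G k ω)
    simp only [one_mul] at this
    rw [← this]
    congr 1
    funext ω
    rw [Finset.sum_insert ha]

lemma ex_add (L : List ℕ) (F G : Om ι L → ℝ) :
    ex p L (fun ω => F ω + G ω) = ex p L F + ex p L G := by
  have := ex_lin p L 1 1 F G
  simpa using this

lemma ex_sub (L : List ℕ) (F G : Om ι L → ℝ) :
    ex p L (fun ω => F ω - G ω) = ex p L F - ex p L G := by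
  have := ex_lin p L 1 (-1) F G
  simp only [one_mul, neg_mul, ← sub_eq_add_neg] at this
  exact this

lemma ex_smul (L : List ℕ) (x : ℝ) (F : Om ι L → ℝ) :
    ex p L (fun ω => x * F ω) = x * ex p L F := by
  have := ex_lin p L x 0 F F
  simpa using this

lemma ex_nonneg {L : List ℕ} (hp : ∀ q ∈ L, ∀ s, 0 ≤ p q s)
    (F : Om ι L → ℝ) (hF : ∀ ω, 0 ≤ F ω) : 0 ≤ ex p L F := by
  induction L with
  | nil => exact hF _
  | cons q L ih =>
    rw [ex]
    refine Finset.sum_nonneg fun s _ => mul_nonneg (hp q List.mem_cons_self s) ?_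
    exact ih (fun x hx => hp x (List.mem_cons_of_mem _ hx)) _ fun ω => hF _

lemma ex_mono {L : List ℕ} (hp : ∀ q ∈ L, ∀ s, 0 ≤ p q s)
    (F G : Om ι L → ℝ) (hF : ∀ ω, F ω ≤ G ω) : ex p L F ≤ ex p L G := by
  have := ex_nonneg p hp (fun ω => G ω - F ω) fun ω => sub_nonneg.mpr (hF ω)
  rw [ex_sub] at this
  linarith

lemma avg_lin {q : ℕ} {L : List ℕ} (x y : ℝ) (F G : Om ι (q :: L) → ℝ) :
    avg p (fun ω => x * F ω + y * G ω) = fun ω => x * avg p F ω + y * avg p G ω := by
  funext ω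
  simp only [avg, sl, Finset.mul_sum, ← Finset.sum_add_distrib]
  refine Finset.sum_congr rfl fun s _ => by ring

lemma ct_lin {q : ℕ} {L : List ℕ} (x y : ℝ) (F G : Om ι (q :: L) → ℝ) (s : Option ι) :
    ct p (fun ω => x * F ω + y * G ω) s = fun ω => x * ct p F s ω + y * ct p G s ω := by
  funext ω
  simp only [ct, avg_lin, sl]
  ring

lemma T_lin (L : List ℕ) (R : ℝ) (x y : ℝ) (F G : Om ι L → ℝ) :
    T p L R (fun ω => x * F ω + y * G ω) = fun ω => x * T p L R F ω + y * T p L R G ω := by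
  induction L generalizing R with
  | nil =>
    funext ω
    simp only [T]
    split_ifs <;> ring
  | cons q L ih =>
    funext ω
    simp only [T, avg_lin, ct_lin, ih]
    ring

lemma A_lin (L : List ℕ) (x y : ℝ) (F G : Om ι L → ℝ) :
    A p θ L (fun ω => x * F ω + y * G ω) = fun ω => x * A p θ L F ω + y * A p θ L G ω := by
  induction L with
  | nil => rfl
  | cons q L ih =>
    funext ω
    simp only [A, avg_lin, ct_lin, ih]
    ring

lemma T_zero (L : List ℕ) (R : ℝ) : T p L R (fun _ => 0) = fun _ => 0 := by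
  have := T_lin p L R 0 0 (fun _ => 0) (fun _ => 0)
  simpa using this

lemma A_zero (L : List ℕ) : A p θ L (fun _ => 0) = fun _ => 0 := by
  have := A_lin p θ L 0 0 (fun _ => 0) (fun _ => 0)
  simpa using this

lemma T_sum {κ : Type*} (S : Finset κ) (L : List ℕ) (R : ℝ) (c : κ → ℝ) (G : κ → Om ι L → ℝ) :
    T p L R (fun ω => ∑ k ∈ S, c k * G k ω) = fun ω => ∑ k ∈ S, c k * T p L R (G k) ω := by
  classical
  induction S using Finset.induction_on with
  | empty => simp [T_zero]
  | insert a S ha ih =>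
    have h := T_lin p L R (c a) 1 (G a) (fun ω => ∑ k ∈ S, c k * G k ω)
    simp only [one_mul] at h
    have h2 : (fun ω => ∑ k ∈ insert a S, c k * G k ω) =
        fun ω => c a * G a ω + ∑ k ∈ S, c k * G k ω := by
      funext ω; rw [Finset.sum_insert ha]
    rw [h2, h, ih]
    funext ω; rw [Finset.sum_insert ha]

lemma A_sum {κ : Type*} (S : Finset κ) (L : List ℕ) (c : κ → ℝ) (G : κ → Om ι L → ℝ) :
    A p θ L (fun ω => ∑ k ∈ S, c k * G k ω) = fun ω => ∑ k ∈ S, c k * A p θ L (G k) ω := by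
  classical
  induction S using Finset.induction_on with
  | empty => simp [A_zero]
  | insert a S ha ih =>
    have h := A_lin p θ L (c a) 1 (G a) (fun ω => ∑ k ∈ S, c k * G k ω)
    simp only [one_mul] at h
    have h2 : (fun ω => ∑ k ∈ insert a S, c k * G k ω) =
        fun ω => c a * G a ω + ∑ k ∈ S, c k * G k ω := by
      funext ω; rw [Finset.sum_insert ha]
    rw [h2, h, ih]
    funext ω; rw [Finset.sum_insert ha]

lemma T_sub (L : List ℕ) (R : ℝ) (F G : Om ι L → ℝ) :
    T p L R (fun ω => F ω - G ω) = fun ω => T p L R F ω - T p L R G ω := by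
  have := T_lin p L R 1 (-1) F G
  simp only [one_mul, neg_mul, ← sub_eq_add_neg] at this
  exact this

lemma A_sub (L : List ℕ) (F G : Om ι L → ℝ) :
    A p θ L (fun ω => F ω - G ω) = fun ω => A p θ L F ω - A p θ L G ω := by
  have := A_lin p θ L 1 (-1) F G
  simp only [one_mul, neg_mul, ← sub_eq_add_neg] at this
  exact this

lemma A_avg {q : ℕ} {L : List ℕ} (F : Om ι (q :: L) → ℝ) :
    A p θ L (avg p F) = fun ω => ∑ s, p q s * A p θ L (sl F s) ω := by
  have := A_sum p θ Finset.univ L (fun s => p q s) (fun s => sl F s)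
  rw [← this]
  rfl

lemma A_ct {q : ℕ} {L : List ℕ} (F : Om ι (q :: L) → ℝ) (s : Option ι) :
    A p θ L (ct p F s) = fun ω => A p θ L (sl F s) ω - A p θ L (avg p F) ω := by
  have := A_sub p θ L (sl F s) (avg p F)
  rw [← this]
  rfl

end linear

section pyth

variable (p : ℕ → Option ι → ℝ) (θ : ℕ → ℝ)

/-- The sum of the centered slices vanishes. -/
lemma sum_T_ct {q : ℕ} {L : List ℕ} (hq : ∑ s, p q s = 1) (R : ℝ) (F : Om ι (q :: L) → ℝ)
    (ω : Om ι L) : ∑ s, p q s * T p L R (ct p F s) ω = 0 := by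
  have h := T_sum p Finset.univ L R (fun s => p q s) (fun s => ct p F s)
  have h2 : (fun ω => ∑ s, p q s * ct p F s ω) = fun _ => 0 := by
    funext ω
    simp only [ct, mul_sub, Finset.sum_sub_distrib, ← Finset.sum_mul, hq, one_mul]
    simp only [avg, sub_self]
  rw [h2, T_zero] at h
  exact (congrFun h ω).symm

/-- `F - T F`. -/
noncomputable def H (L : List ℕ) (R : ℝ) (F : Om ι L → ℝ) : Om ι L → ℝ :=
  fun ω => F ω - T p L R F ω

lemma H_cons {q : ℕ} {L : List ℕ} (R : ℝ) (F : Om ι (q :: L) → ℝ) (s : Option ι) (ω : Om ι L) :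
    H p (q :: L) R F (.cons s ω) = H p L R (avg p F) ω + H p L (R / q) (ct p F s) ω := by
  simp only [H, T, Om.tl_cons, Om.hd_cons, ct, sl]
  ring

lemma T_cons {q : ℕ} {L : List ℕ} (R : ℝ) (F : Om ι (q :: L) → ℝ) (s : Option ι) (ω : Om ι L) :
    T p (q :: L) R F (.cons s ω) = T p L R (avg p F) ω + T p L (R / q) (ct p F s) ω := rfl

lemma sum_H_ct {q : ℕ} {L : List ℕ} (hq : ∑ s, p q s = 1) (R : ℝ) (F : Om ι (q :: L) → ℝ)
    (ω : Om ι L) : ∑ s, p q s * H p L R (ct p F s) ω = 0 := by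
  have h1 := sum_T_ct p hq R F ω
  simp only [H, mul_sub, Finset.sum_sub_distrib, h1, sub_zero]
  simp only [ct, mul_sub, Finset.sum_sub_distrib, ← Finset.sum_mul, hq, one_mul]
  simp only [avg, sub_self]

/-- expectation over `q :: L` of a product of two functions with the structure `a + x_s`. -/
lemma ex_cons_mul {q : ℕ} {L : List ℕ} (hq : ∑ s, p q s = 1)
    (U V : Om ι (q :: L) → ℝ) (a b : Om ι L → ℝ) (x y : Option ι → Om ι L → ℝ)
    (hU : ∀ s ω, U (.cons s ω) = a ω + x s ω) (hV : ∀ s ω, V (.cons s ω) = b ω + y s ω)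
    (hx : ∀ ω, ∑ s, p q s * x s ω = 0) (hy : ∀ ω, ∑ s, p q s * y s ω = 0) :
    ex p (q :: L) (fun ω => U ω * V ω) =
      ex p L (fun ω => a ω * b ω) + ∑ s, p q s * ex p L (fun ω => x s ω * y s ω) := by
  rw [ex]
  have h1 : ∀ s, ex p L (sl (fun ω => U ω * V ω) s) =
      ex p L (fun ω => (a ω + x s ω) * (b ω + y s ω)) := by
    intro s
    congr 1
    funext ω
    simp only [sl, hU, hV]
  simp only [h1]
  rw [← ex_sum p Finset.univ L (fun s => p q s), ← ex_sum p Finset.univ L (fun s => p q s),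
    ← ex_add]
  congr 1
  funext ω
  have h2 : ∀ s, p q s * ((a ω + x s ω) * (b ω + y s ω)) =
      p q s * (a ω * b ω) + a ω * (p q s * y s ω) + b ω * (p q s * x s ω) +
        p q s * (x s ω * y s ω) := fun s => by ring
  simp only [h2, Finset.sum_add_distrib, ← Finset.mul_sum, hx, hy, ← Finset.sum_mul, hq]
  ring

lemma ex_T_mul_H {L : List ℕ} (hq : ∀ q ∈ L, ∑ s, p q s = 1) (R : ℝ) (F : Om ι L → ℝ) :
    ex p L (fun ω => T p L R F ω * H p L R F ω) = 0 := by
  induction L generalizing R with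
  | nil =>
    simp only [ex, H, T]
    split_ifs <;> ring
  | cons q L ih =>
    rw [ex_cons_mul p (hq q List.mem_cons_self) _ _ (T p L R (avg p F)) (H p L R (avg p F))
      (fun s => T p L (R / q) (ct p F s)) (fun s => H p L (R / q) (ct p F s))
      (T_cons p R F) (H_cons p R F) (sum_T_ct p (hq q List.mem_cons_self) _ F)
      (sum_H_ct p (hq q List.mem_cons_self) _ F)]
    rw [ih (fun x hx => hq x (List.mem_cons_of_mem _ hx))]
    simp only [ih (fun x hx => hq x (List.mem_cons_of_mem _ hx)), mul_zero,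
      Finset.sum_const_zero, add_zero]

/-- Pythagoras. -/
lemma ex_sq_eq {L : List ℕ} (hq : ∀ q ∈ L, ∑ s, p q s = 1) (R : ℝ) (F : Om ι L → ℝ) :
    ex p L (fun ω => F ω ^ 2) =
      ex p L (fun ω => T p L R F ω ^ 2) + ex p L (fun ω => H p L R F ω ^ 2) := by
  have h := ex_T_mul_H p hq R F
  have h1 : (fun ω => F ω ^ 2) = fun ω => (T p L R F ω ^ 2 + H p L R F ω ^ 2) +
      2 * (T p L R F ω * H p L R F ω) := by
    funext ω; simp only [H]; ring
  rw [h1, ex_add, ex_add, ex_smul, h, mul_zero, add_zero]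

lemma sum_A_ct {q : ℕ} {L : List ℕ} (hq : ∑ s, p q s = 1) (F : Om ι (q :: L) → ℝ)
    (ω : Om ι L) : ∑ s, p q s * A p θ L (ct p F s) ω = 0 := by
  simp only [A_ct, mul_sub, Finset.sum_sub_distrib, ← Finset.sum_mul, hq, one_mul]
  rw [A_avg]
  simp

/-- The recursion for the quadratic form. -/
lemma D_cons {q : ℕ} {L : List ℕ} (hq : ∑ s, p q s = 1) (hθ : 0 ≤ θ q)
    (F : Om ι (q :: L) → ℝ) :
    D p θ (q :: L) F = D p θ L (avg p F) + θ q * ∑ s, p q s * D p θ L (ct p F s) := by
  unfold D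
  simp only [pow_two]
  rw [ex_cons_mul p hq _ _ (A p θ L (avg p F)) (A p θ L (avg p F))
      (fun s ω => Real.sqrt (θ q) * A p θ L (ct p F s) ω)
      (fun s ω => Real.sqrt (θ q) * A p θ L (ct p F s) ω) (fun _ _ => rfl) (fun _ _ => rfl)]
  · congr 1
    rw [Finset.mul_sum]
    refine Finset.sum_congr rfl fun s _ => ?_
    have h1 : (fun ω => Real.sqrt (θ q) * A p θ L (ct p F s) ω *
        (Real.sqrt (θ q) * A p θ L (ct p F s) ω)) =
        fun ω => θ q * (A p θ L (ct p F s) ω * A p θ L (ct p F s) ω) := by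
      funext ω
      have := Real.mul_self_sqrt hθ
      linear_combination (A p θ L (ct p F s) ω * A p θ L (ct p F s) ω) * this
    rw [h1, ex_smul]
    ring
  · intro ω
    have := sum_A_ct p θ hq F ω
    simp only [mul_left_comm (p q _) (Real.sqrt (θ q)), ← Finset.mul_sum, this, mul_zero]
  · intro ω
    have := sum_A_ct p θ hq F ω
    simp only [mul_left_comm (p q _) (Real.sqrt (θ q)), ← Finset.mul_sum, this, mul_zero]

lemma D_avg {q : ℕ} {L : List ℕ} (hq : ∑ s, p q s = 1) (F : Om ι (q :: L) → ℝ) :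
    D p θ L (avg p F) + ∑ s, p q s * D p θ L (ct p F s) = ∑ s, p q s * D p θ L (sl F s) := by
  unfold D
  rw [← ex_sum p Finset.univ L (fun s => p q s), ← ex_sum p Finset.univ L (fun s => p q s),
    ← ex_add]
  congr 1
  funext ω
  have h1 : A p θ L (avg p F) ω = ∑ s, p q s * A p θ L (sl F s) ω := congrFun (A_avg p θ F) ω
  simp only [A_ct]
  set m := A p θ L (avg p F) ω with hm
  have h2 : ∀ s, p q s * (A p θ L (sl F s) ω - m) ^ 2 =
      p q s * A p θ L (sl F s) ω ^ 2 - 2 * m * (p q s * A p θ L (sl F s) ω) +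
        p q s * m ^ 2 := fun s => by ring
  simp only [h2, Finset.sum_add_distrib, Finset.sum_sub_distrib, ← Finset.mul_sum,
    ← Finset.sum_mul, hq, ← h1]
  ring

lemma D_nonneg {L : List ℕ} (hp : ∀ q ∈ L, ∀ s, 0 ≤ p q s) (F : Om ι L → ℝ) :
    0 ≤ D p θ L F :=
  ex_nonneg p hp _ fun ω => sq_nonneg _

/-- Variance is bounded by the mean square deviation from the `none` slice. -/
lemma sum_D_ct_le {q : ℕ} {L : List ℕ} (hp : ∀ q ∈ L, ∀ s, 0 ≤ p q s)
    (hq : ∑ s, p q s = 1) (F : Om ι (q :: L) → ℝ) :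
    ∑ s, p q s * D p θ L (ct p F s) ≤
      ∑ i, p q (some i) * D p θ L (fun ω => sl F (some i) ω - sl F none ω) := by
  have h0 : ∑ i, p q (some i) * D p θ L (fun ω => sl F (some i) ω - sl F none ω) =
      ∑ s, p q s * D p θ L (fun ω => sl F s ω - sl F none ω) := by
    rw [Fintype.sum_option]
    have : D p θ L (fun ω => sl F none ω - sl F none ω) = 0 := by
      unfold D
      have h1 : (fun ω => sl F none ω - sl F none ω) = fun _ => (0 : ℝ) := by
        funext ω; exact sub_self _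
      rw [h1, A_zero]
      simp [ex_zero]
    rw [this, mul_zero, zero_add]
  rw [h0]
  unfold D
  rw [← ex_sum p Finset.univ L (fun s => p q s), ← ex_sum p Finset.univ L (fun s => p q s)]
  refine ex_mono p hp _ _ fun ω => ?_
  have h1 : A p θ L (avg p F) ω = ∑ s, p q s * A p θ L (sl F s) ω := congrFun (A_avg p θ F) ω
  simp only [A_ct, A_sub]
  set m := A p θ L (avg p F) ω with hm
  set c := A p θ L (sl F none) ω with hc
  have h2 : ∀ s, p q s * (A p θ L (sl F s) ω - m) ^ 2 =
      p q s * A p θ L (sl F s) ω ^ 2 - 2 * m * (p q s * A p θ L (sl F s) ω) +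
        p q s * m ^ 2 := fun s => by ring
  have h3 : ∀ s, p q s * (A p θ L (sl F s) ω - c) ^ 2 =
      p q s * A p θ L (sl F s) ω ^ 2 - 2 * c * (p q s * A p θ L (sl F s) ω) +
        p q s * c ^ 2 := fun s => by ring
  simp only [h2, h3, Finset.sum_add_distrib, Finset.sum_sub_distrib, ← Finset.mul_sum,
    ← Finset.sum_mul, hq, ← h1]
  nlinarith [sq_nonneg (m - c)]

/-- Upper bound for the recursion of the quadratic form. -/
lemma D_cons_le {q : ℕ} {L : List ℕ} (hp : ∀ q ∈ L, ∀ s, 0 ≤ p q s)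
    (hq : ∑ s, p q s = 1) (hθ : 1 ≤ θ q) (F : Om ι (q :: L) → ℝ) :
    D p θ (q :: L) F ≤ ∑ s, p q s * D p θ L (sl F s) +
      (θ q - 1) * ∑ i, p q (some i) * D p θ L (fun ω => sl F (some i) ω - sl F none ω) := by
  rw [D_cons p θ hq (by linarith), ← D_avg p θ hq F]
  have := sum_D_ct_le p θ hp hq F
  nlinarith

/-- Rankin's trick: the high part is controlled by the quadratic form. -/
lemma ex_H_sq_le {L : List ℕ} (hp : ∀ q ∈ L, ∀ s, 0 ≤ p q s) (hq : ∀ q ∈ L, ∑ s, p q s = 1)
    (hpos : ∀ q ∈ L, 0 < q) {κ : ℝ} (hκ : 0 ≤ κ) (hθ : ∀ q ∈ L, (q : ℝ) ^ κ ≤ θ q) {R : ℝ}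
    (hR : 0 < R) (F : Om ι L → ℝ) :
    ex p L (fun ω => H p L R F ω ^ 2) ≤ R ^ (-κ) * D p θ L F := by
  induction L generalizing R with
  | nil =>
    simp only [ex, H, T, D, A]
    split_ifs with h
    · rw [sub_self, zero_pow two_ne_zero]
      exact mul_nonneg (Real.rpow_nonneg hR.le _) (sq_nonneg _)
    · have : 1 ≤ R ^ (-κ) := by
        apply Real.one_le_rpow_of_pos_of_le_one_of_nonpos hR (le_of_not_ge h) (by linarith)
      rw [sub_zero]
      nlinarith [sq_nonneg (F Om.nil)]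
  | cons q L ih =>
    have hq0 : (0 : ℝ) < q := by exact_mod_cast hpos q List.mem_cons_self
    have hq1 := hq q List.mem_cons_self
    have hθ1 := hθ q List.mem_cons_self
    have hθ0 : 0 ≤ θ q := le_trans (Real.rpow_nonneg hq0.le _) hθ1
    have ihL : ∀ {R : ℝ}, 0 < R → ∀ F : Om ι L → ℝ,
        ex p L (fun ω => H p L R F ω ^ 2) ≤ R ^ (-κ) * D p θ L F := fun {R} hR F =>
      ih (fun x hx => hp x (List.mem_cons_of_mem _ hx))
        (fun x hx => hq x (List.mem_cons_of_mem _ hx))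
        (fun x hx => hpos x (List.mem_cons_of_mem _ hx))
        (fun x hx => hθ x (List.mem_cons_of_mem _ hx)) hR F
    have h1 : ex p (q :: L) (fun ω => H p (q :: L) R F ω ^ 2) =
        ex p L (fun ω => H p L R (avg p F) ω ^ 2) +
          ∑ s, p q s * ex p L (fun ω => H p L (R / q) (ct p F s) ω ^ 2) := by
      simp only [pow_two]
      exact ex_cons_mul p hq1 _ _ (H p L R (avg p F)) (H p L R (avg p F))
        (fun s => H p L (R / q) (ct p F s)) (fun s => H p L (R / q) (ct p F s))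
        (H_cons p R F) (H_cons p R F) (sum_H_ct p hq1 _ F) (sum_H_ct p hq1 _ F)
    rw [h1, D_cons p θ hq1 hθ0, mul_add]
    refine add_le_add (ihL hR _) ?_
    have hRq : 0 < R / q := by positivity
    calc ∑ s, p q s * ex p L (fun ω => H p L (R / q) (ct p F s) ω ^ 2)
        ≤ ∑ s, p q s * ((R / q) ^ (-κ) * D p θ L (ct p F s)) :=
          Finset.sum_le_sum fun s _ =>
            mul_le_mul_of_nonneg_left (ihL hRq _) (hp q List.mem_cons_self s)
      _ = (R / q) ^ (-κ) * ∑ s, p q s * D p θ L (ct p F s) := by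
          rw [Finset.mul_sum]; exact Finset.sum_congr rfl fun s _ => by ring
      _ = R ^ (-κ) * (q : ℝ) ^ κ * ∑ s, p q s * D p θ L (ct p F s) := by
          congr 1
          rw [Real.div_rpow hR.le hq0.le, Real.rpow_neg hq0.le, div_inv_eq_mul]
      _ ≤ R ^ (-κ) * θ q * ∑ s, p q s * D p θ L (ct p F s) := by
          have h2 : 0 ≤ ∑ s, p q s * D p θ L (ct p F s) :=
            Finset.sum_nonneg fun s _ => mul_nonneg (hp q List.mem_cons_self s)
              (D_nonneg p θ (fun x hx => hp x (List.mem_cons_of_mem _ hx)) _)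
          have h3 : 0 ≤ R ^ (-κ) := Real.rpow_nonneg hR.le _
          gcongr
      _ = R ^ (-κ) * (θ q * ∑ s, p q s * D p θ L (ct p F s)) := by ring

end pyth

end LPAP
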