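import Pool.Agent.Lib.MP_5b0a7e_nt.Energy

/-!
# Block structure: bounds for the energy of the product function
-/

namespace LPAP

open Finset

/-- Concatenation of the blocks `k, k + 1, ..., k + m - 1`. -/
def LL (Lb : ℕ → List ℕ) : ℕ → ℕ → List ℕ
  | _, 0 => []
  | k, m + 1 => Lb k ++ LL Lb (k + 1) m

lemma mem_LL {Lb : ℕ → List ℕ} {k m q : ℕ} (hq : q ∈ LL Lb k m) :
    ∃ j, k ≤ j ∧ j < k + m ∧ q ∈ Lb j := by
  induction m generalizing k with
  | zero => simp [LL] at hq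
  | succ m ih =>
    rw [LL, List.mem_append] at hq
    rcases hq with hq | hq
    · exact ⟨k, le_refl _, by omega, hq⟩
    · obtain ⟨j, h1, h2, h3⟩ := ih hq
      exact ⟨j, by omega, by omega, h3⟩

/-- The data of the block structure. -/
structure BS (h h' θ g : ℕ → ℝ) (Lb : ℕ → List ℕ) (J : ℕ) (u t : ℕ → ℝ) (ε : ℝ) : Prop where
  h0 : ∀ k < J, ∀ q ∈ Lb k, 0 ≤ h q
  h1 : ∀ k < J, ∀ q ∈ Lb k, h q ≤ 1
  hh : ∀ k < J, ∀ q ∈ Lb k, h q ≤ h' q
  hh' : ∀ k < J, ∀ q ∈ Lb k, h' q ≤ 2 * h q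
  hg : ∀ k < J, ∀ q ∈ Lb k, g q + ε = u k
  hθ : ∀ k < J, ∀ q ∈ Lb k, θ q = 1 + t k
  ht0 : ∀ k < J, 0 ≤ t k
  ht : ∀ k < J, t k ≤ 1 / 2
  hcc : cc h h' (LL Lb 0 J) ≤ 2

/-- `P k j`: probability of no hit in the blocks `k, ..., k + j - 1`. -/
noncomputable def PP (h : ℕ → ℝ) (Lb : ℕ → List ℕ) (k j : ℕ) : ℝ :=
  ∏ i ∈ Finset.range j, vv h (Lb (k + i))

lemma PP_zero (h : ℕ → ℝ) (Lb : ℕ → List ℕ) (k : ℕ) : PP h Lb k 0 = 1 := by simp [PP]

lemma PP_succ (h : ℕ → ℝ) (Lb : ℕ → List ℕ) (k j : ℕ) :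
    PP h Lb k (j + 1) = vv h (Lb k) * PP h Lb (k + 1) j := by
  unfold PP
  rw [Finset.prod_range_succ', mul_comm]
  congr 1
  refine Finset.prod_congr rfl fun i _ => ?_
  congr 2
  ring

lemma LL_suffix (Lb : ℕ → List ℕ) (k m : ℕ) : LL Lb k m <:+ LL Lb 0 (k + m) := by
  induction k generalizing m with
  | zero => rw [Nat.zero_add]
  | succ k ih =>
    have h1 := ih (m + 1)
    rw [LL] at h1
    have h2 : LL Lb (k + 1) m <:+ Lb k ++ LL Lb (k + 1) m := List.suffix_append _ _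
    have h3 : k + 1 + m = k + (m + 1) := by ring
    rw [h3]
    exact h2.trans h1

lemma cc_suffix {h h' : ℕ → ℝ} {l l' : List ℕ} (hs : l' <:+ l) (hh : ∀ q ∈ l, h q ≤ h' q) :
    cc h h' l' ≤ cc h h' l := by
  obtain ⟨r, rfl⟩ := hs
  induction r with
  | nil => exact le_refl _
  | cons a r ih =>
    rw [List.cons_append, cc_cons]
    have h1 := ih (fun q hq => hh q (List.mem_cons_of_mem _ hq))
    have h2 := hh a List.mem_cons_self
    have h3 : 1 ≤ cc h h' (r ++ l') := cc_ge_one (fun q hq => hh q (List.mem_cons_of_mem _ hq))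
    nlinarith

section

variable {h h' θ g : ℕ → ℝ} {Lb : ℕ → List ℕ} {J : ℕ} {u t : ℕ → ℝ} {ε : ℝ}

lemma BS.X_nonneg (hB : BS h h' θ g Lb J u t ε) {L : List ℕ} (hL : L <:+ LL Lb 0 J) (v : ℝ) :
    0 ≤ X h h' θ g ε L v := by
  have hm : ∀ q ∈ L, ∃ j, j < J ∧ q ∈ Lb j := by
    intro q hq
    obtain ⟨j, _, h2, h3⟩ := mem_LL (hL.mem hq)
    exact ⟨j, by omega, h3⟩
  refine LPAP.X_nonneg ?_ ?_ ?_ v
  · intro q hq; obtain ⟨j, hj, hqj⟩ := hm q hq
    exact hB.h1 j hj q hqj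
  · intro q hq; obtain ⟨j, hj, hqj⟩ := hm q hq
    exact le_trans (hB.h0 j hj q hqj) (hB.hh j hj q hqj)
  · intro q hq; obtain ⟨j, hj, hqj⟩ := hm q hq
    rw [hB.hθ j hj q hqj]
    linarith [hB.ht0 j hj]

lemma BS.hh_all (hB : BS h h' θ g Lb J u t ε) : ∀ q ∈ LL Lb 0 J, h q ≤ h' q := by
  intro q hq
  obtain ⟨j, _, h2, h3⟩ := mem_LL hq
  exact hB.hh j (by omega) q h3

/-- the numbers `y k` -/
noncomputable def yy (h h' θ g : ℕ → ℝ) (Lb : ℕ → List ℕ) (J : ℕ) (u : ℕ → ℝ) (ε : ℝ) (k : ℕ) :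
    ℝ := X h h' θ g ε (LL Lb (k + 1) (J - k - 1)) (u k)

lemma BS.suffix_block (_hB : BS h h' θ g Lb J u t ε) {k m : ℕ} (hkm : k + (m + 1) = J)
    {l' : List ℕ} (hl' : l' <:+ Lb k) : l' ++ LL Lb (k + 1) m <:+ LL Lb 0 J := by
  have h1 := LL_suffix Lb k (m + 1)
  rw [hkm, LL] at h1
  refine List.IsSuffix.trans ?_ h1
  obtain ⟨r, hr⟩ := hl'
  exact ⟨r, by rw [← hr]; simp⟩

/-- The unrolled bound for the difference energy. -/
lemma BS.X_LL (hB : BS h h' θ g Lb J u t ε) (k m : ℕ) (hkm : k + m = J) (v : ℝ) :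
    X h h' θ g ε (LL Lb k m) v ≤
      ∑ j ∈ Finset.range m, PP h Lb k j *
        (4 * (v - u (k + j)) ^ 2 + 2 * t (k + j) * yy h h' θ g Lb J u ε (k + j)) +
      PP h Lb k m * (v - ε) ^ 2 := by
  induction m generalizing k with
  | zero => simp [LL, X_nil, PP_zero]
  | succ m ih =>
    have hk : k < J := by omega
    have ih' := ih (k + 1) (by omega)
    have hsuf : ∀ l', l' <:+ Lb k → l' ++ LL Lb (k + 1) m <:+ LL Lb 0 J := fun l' hl' =>
      hB.suffix_block hkm hl'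
    have hvv0 : 0 ≤ vv h (Lb k) := vv_nonneg (hB.h1 k hk)
    have hvv1 : vv h (Lb k) ≤ 1 := vv_le_one (hB.h0 k hk) (hB.h1 k hk)
    have hccL : 1 ≤ cc h h' (LL Lb (k + 1) m) := by
      refine cc_ge_one fun q hq => ?_
      obtain ⟨j, h1, h2, h3⟩ := mem_LL hq
      exact hB.hh j (by omega) q h3
    have hblock := X_block (L := LL Lb (k + 1) m) (hB.h0 k hk) (hB.h1 k hk) (hB.hh k hk)
      (hB.hh' k hk) (hB.hg k hk) (hB.hθ k hk) (hB.ht0 k hk) (hB.ht k hk)
      (fun l' hl' => hB.X_nonneg (hsuf l' hl') _) hccL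
      (le_trans (cc_suffix (hsuf _ (List.suffix_refl _)) hB.hh_all) hB.hcc) v
    have hyk : X h h' θ g ε (LL Lb (k + 1) m) (u k) = yy h h' θ g Lb J u ε k := by
      unfold yy
      congr 2
      omega
    rw [hyk] at hblock
    have hy0 : 0 ≤ yy h h' θ g Lb J u ε k := by
      rw [← hyk]
      exact hB.X_nonneg (hsuf [] (List.nil_suffix)) _
    rw [LL]
    refine le_trans hblock ?_
    rw [Finset.sum_range_succ', PP_zero, PP_succ]
    have e1 : ∀ j, PP h Lb k (j + 1) * (4 * (v - u (k + (j + 1))) ^ 2 +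
        2 * t (k + (j + 1)) * yy h h' θ g Lb J u ε (k + (j + 1))) =
        vv h (Lb k) * (PP h Lb (k + 1) j * (4 * (v - u (k + 1 + j)) ^ 2 +
        2 * t (k + 1 + j) * yy h h' θ g Lb J u ε (k + 1 + j))) := by
      intro j
      have : k + (j + 1) = k + 1 + j := by ring
      rw [PP_succ, this]
      ring
    simp only [e1, ← Finset.mul_sum, add_zero, one_mul]
    have h3 := mul_le_mul_of_nonneg_left ih' hvv0
    have h4 : 0 ≤ 4 * (v - u k) ^ 2 + 2 * t k * yy h h' θ g Lb J u ε k := by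
      have := mul_nonneg (hB.ht0 k hk) hy0
      have := sq_nonneg (v - u k)
      linarith
    have h5 : (1 - vv h (Lb k)) * (4 * (v - u k) ^ 2 + 2 * t k * yy h h' θ g Lb J u ε k) ≤
        4 * (v - u k) ^ 2 + 2 * t k * yy h h' θ g Lb J u ε k := by
      nlinarith
    rw [mul_add] at h3
    linarith

/-- The unrolled bound for the full energy. -/
lemma BS.Kf_LL (hB : BS h h' θ g Lb J u t ε) {Γ : ℝ} (hΓ1 : 1 ≤ Γ)
    (hΓ : ∀ q L, q :: L <:+ LL Lb 0 J → h' q * cc h h' L ≤ Γ * h q)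
    (k m : ℕ) (hkm : k + m = J) :
    K h h' θ g (LL Lb k m) ε 1 ≤ Γ * Ms h g (LL Lb k m) ε 1 +
      ∑ j ∈ Finset.range m, PP h Lb k j *
        (2 * t (k + j) * yy h h' θ g Lb J u ε (k + j)) := by
  induction m generalizing k with
  | zero =>
    simp only [LL, Finset.range_zero, Finset.sum_empty, add_zero, K, Ms]
    nlinarith [sq_nonneg ε]
  | succ m ih =>
    have hk : k < J := by omega
    have ih' := ih (k + 1) (by omega)
    have hsuf : ∀ l', l' <:+ Lb k → l' ++ LL Lb (k + 1) m <:+ LL Lb 0 J := fun l' hl' =>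
      hB.suffix_block hkm hl'
    have hvv0 : 0 ≤ vv h (Lb k) := vv_nonneg (hB.h1 k hk)
    have hvv1 : vv h (Lb k) ≤ 1 := vv_le_one (hB.h0 k hk) (hB.h1 k hk)
    have hblock := Kf_block (L := LL Lb (k + 1) m) (hB.h0 k hk) (hB.h1 k hk)
      (hB.hh' k hk) (hB.hg k hk) (hB.hθ k hk) (hB.ht0 k hk) (hB.ht k hk)
      (fun l' hl' => hB.X_nonneg (hsuf l' hl') _)
      (fun q l' hl' => hΓ q _ (hsuf (q :: l') hl')) ih'
    have hyk : X h h' θ g ε (LL Lb (k + 1) m) (u k) = yy h h' θ g Lb J u ε k := by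
      unfold yy
      congr 2
      omega
    rw [hyk] at hblock
    have hy0 : 0 ≤ yy h h' θ g Lb J u ε k := by
      rw [← hyk]
      exact hB.X_nonneg (hsuf [] (List.nil_suffix)) _
    rw [LL]
    refine le_trans hblock ?_
    rw [Finset.sum_range_succ', PP_zero]
    have e1 : ∀ j, PP h Lb k (j + 1) * (2 * t (k + (j + 1)) *
        yy h h' θ g Lb J u ε (k + (j + 1))) =
        vv h (Lb k) * (PP h Lb (k + 1) j * (2 * t (k + 1 + j) *
        yy h h' θ g Lb J u ε (k + 1 + j))) := by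
      intro j
      have : k + (j + 1) = k + 1 + j := by ring
      rw [PP_succ, this]
      ring
    simp only [e1, ← Finset.mul_sum, add_zero, one_mul]
    have h4 : 0 ≤ 2 * t k * yy h h' θ g Lb J u ε k := by
      have := mul_nonneg (hB.ht0 k hk) hy0
      linarith
    have h5 : (1 - vv h (Lb k)) * (2 * t k * yy h h' θ g Lb J u ε k) ≤
        2 * t k * yy h h' θ g Lb J u ε k := by
      nlinarith
    linarith

lemma sum_sq_geom (m : ℕ) : ∑ j ∈ Finset.range m, ((j : ℝ) + 1) ^ 2 / 2 ^ j +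
    (2 * ((m : ℝ) + 1) ^ 2 + 4 * ((m : ℝ) + 1) + 6) / 2 ^ m = 12 := by
  induction m with
  | zero => norm_num
  | succ m ih =>
    rw [Finset.sum_range_succ]
    have h2 : (2 * (((m + 1 : ℕ) : ℝ) + 1) ^ 2 + 4 * (((m + 1 : ℕ) : ℝ) + 1) + 6) / 2 ^ (m + 1) =
        (2 * ((m : ℝ) + 1) ^ 2 + 4 * ((m : ℝ) + 1) + 6) / 2 ^ m -
          ((m : ℝ) + 1) ^ 2 / 2 ^ m := by
      push_cast
      rw [pow_succ]
      field_simp
      ring
    rw [h2]
    linarith

lemma nat_le_two_pow (m : ℕ) : (m : ℝ) ≤ 2 ^ m / 2 := by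
  induction m with
  | zero => norm_num
  | succ m ih =>
    rcases Nat.eq_zero_or_pos m with h | h
    · subst h; norm_num
    · have : (1 : ℝ) ≤ m := by exact_mod_cast h
      rw [pow_succ]
      push_cast
      linarith

/-- The bound for `y k`. -/
lemma BS.yy_le (hB : BS h h' θ g Lb J u t ε) {C : ℝ} (hC : 1 ≤ C)
    (hε0 : 0 ≤ ε) (hεJ : ε ≤ 1 / J)
    (hu : ∀ k, u k = ((J : ℝ) - k) / J) (ht : ∀ k, t k = 1 / (4 * C) * 2 ^ k / 2 ^ J)
    (hP : ∀ k j, k + j ≤ J → PP h Lb k j ≤ C / 2 ^ j) (m k : ℕ) (hkm : k + 1 + m = J) :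
    yy h h' θ g Lb J u ε k ≤ 64 * C / J ^ 2 := by
  induction m using Nat.strong_induction_on generalizing k with
  | _ m ih =>
    have hJ : 0 < J := by omega
    have hJR : (0 : ℝ) < J := by exact_mod_cast hJ
    have hJm : (J : ℝ) = k + 1 + m := by rw [← hkm]; push_cast; ring
    unfold yy
    have hm : J - k - 1 = m := by omega
    rw [hm]
    refine le_trans (hB.X_LL (k + 1) m hkm (u k)) ?_
    have hterm : ∀ j ∈ Finset.range m, PP h Lb (k + 1) j *
        (4 * (u k - u (k + 1 + j)) ^ 2 + 2 * t (k + 1 + j) * yy h h' θ g Lb J u ε (k + 1 + j)) ≤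
        (4 * C / J ^ 2) * (((j : ℝ) + 1) ^ 2 / 2 ^ j) + (32 * C / J ^ 2) / 2 ^ m := by
      intro j hj
      have hjm := Finset.mem_range.mp hj
      have hy := ih (m - 1 - j) (by omega) (k + 1 + j) (by omega)
      have hP1 := hP (k + 1) j (by omega)
      have hyn : 0 ≤ yy h h' θ g Lb J u ε (k + 1 + j) := by
        unfold yy
        have h1 := LL_suffix Lb (k + 1 + j + 1) (J - (k + 1 + j) - 1)
        have h2 : k + 1 + j + 1 + (J - (k + 1 + j) - 1) = J := by omega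
        rw [h2] at h1
        exact hB.X_nonneg h1 _
      have hu1 : (u k - u (k + 1 + j)) ^ 2 = ((j : ℝ) + 1) ^ 2 / J ^ 2 := by
        rw [hu, hu]
        push_cast
        field_simp
        ring
      have ht1 : t (k + 1 + j) = 1 / (4 * C) * 2 ^ j / 2 ^ m := by
        rw [ht, ← hkm, pow_add 2 (k + 1) j, pow_add 2 (k + 1) m]
        field_simp
      rw [hu1]
      have ht0 : 0 ≤ t (k + 1 + j) := by rw [ht]; positivity
      have hPn : 0 ≤ PP h Lb (k + 1) j := by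
        unfold PP
        exact Finset.prod_nonneg fun i hi => vv_nonneg (hB.h1 _ (by
          have := Finset.mem_range.mp hi; omega))
      have hW0 : 0 ≤ 4 * (((j : ℝ) + 1) ^ 2 / (J : ℝ) ^ 2) +
          2 * t (k + 1 + j) * (64 * C / J ^ 2) := by positivity
      calc PP h Lb (k + 1) j * (4 * (((j : ℝ) + 1) ^ 2 / (J : ℝ) ^ 2) +
            2 * t (k + 1 + j) * yy h h' θ g Lb J u ε (k + 1 + j))
          ≤ PP h Lb (k + 1) j * (4 * (((j : ℝ) + 1) ^ 2 / (J : ℝ) ^ 2) +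
            2 * t (k + 1 + j) * (64 * C / J ^ 2)) := by
            refine mul_le_mul_of_nonneg_left ?_ hPn
            have := mul_le_mul_of_nonneg_left hy (by linarith : 0 ≤ 2 * t (k + 1 + j))
            linarith
        _ ≤ C / 2 ^ j * (4 * (((j : ℝ) + 1) ^ 2 / (J : ℝ) ^ 2) +
            2 * t (k + 1 + j) * (64 * C / J ^ 2)) := mul_le_mul_of_nonneg_right hP1 hW0
        _ = (4 * C / J ^ 2) * (((j : ℝ) + 1) ^ 2 / 2 ^ j) + (32 * C / J ^ 2) / 2 ^ m := by
            rw [ht1]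
            field_simp
            ring
    have hlast : PP h Lb (k + 1) m * (u k - ε) ^ 2 ≤
        (4 * C / J ^ 2) * (((m : ℝ) + 1) ^ 2 / 2 ^ m) := by
      have hP1 := hP (k + 1) m (by omega)
      have huk : u k = ((m : ℝ) + 1) / J := by
        rw [hu, hJm]; congr 1; ring
      have h1 : (u k - ε) ^ 2 ≤ (((m : ℝ) + 1) / J) ^ 2 := by
        have h2 : ε ≤ u k := by
          rw [huk]
          refine le_trans hεJ ?_
          apply div_le_div_of_nonneg_right _ hJR.le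
          have : (0 : ℝ) ≤ m := Nat.cast_nonneg m
          linarith
        rw [← huk]
        apply pow_le_pow_left₀ (by linarith) (by linarith)
      calc PP h Lb (k + 1) m * (u k - ε) ^ 2 ≤ C / 2 ^ m * (((m : ℝ) + 1) / J) ^ 2 :=
            mul_le_mul hP1 h1 (sq_nonneg _) (by positivity)
        _ = (C / J ^ 2) * (((m : ℝ) + 1) ^ 2 / 2 ^ m) := by field_simp
        _ ≤ (4 * C / J ^ 2) * (((m : ℝ) + 1) ^ 2 / 2 ^ m) := by
            apply mul_le_mul_of_nonneg_right _ (by positivity)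
            apply div_le_div_of_nonneg_right _ (by positivity)
            linarith
    refine le_trans (add_le_add (Finset.sum_le_sum hterm) hlast) ?_
    rw [Finset.sum_add_distrib, ← Finset.mul_sum, Finset.sum_const, Finset.card_range,
      nsmul_eq_mul]
    have hS := sum_sq_geom m
    have hm2 := nat_le_two_pow m
    have h2m : (0 : ℝ) < 2 ^ m := by positivity
    have h3 : (m : ℝ) * ((32 * C / J ^ 2) / 2 ^ m) ≤ 16 * C / J ^ 2 := by
      have h4 : (m : ℝ) / 2 ^ m ≤ 1 / 2 := by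
        rw [div_le_div_iff₀ h2m (by norm_num)]
        linarith
      calc (m : ℝ) * ((32 * C / J ^ 2) / 2 ^ m) = (32 * C / J ^ 2) * ((m : ℝ) / 2 ^ m) := by
            field_simp
        _ ≤ (32 * C / J ^ 2) * (1 / 2) := mul_le_mul_of_nonneg_left h4 (by positivity)
        _ = _ := by ring
    have h5 : ∑ j ∈ Finset.range m, ((j : ℝ) + 1) ^ 2 / 2 ^ j + ((m : ℝ) + 1) ^ 2 / 2 ^ m ≤ 12 := by
      rw [← hS]
      refine add_le_add_right ?_ _
      apply div_le_div_of_nonneg_right _ h2m.le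
      have : (0 : ℝ) ≤ m := Nat.cast_nonneg m
      nlinarith
    have h6 := mul_le_mul_of_nonneg_left h5 (by positivity : 0 ≤ 4 * C / (J : ℝ) ^ 2)
    rw [mul_add] at h6
    have h7 : 4 * C / (J : ℝ) ^ 2 * 12 + 16 * C / J ^ 2 = 64 * C / J ^ 2 := by ring
    linarith

/-- The full energy of one index. -/
lemma BS.Kf_le (hB : BS h h' θ g Lb J u t ε) {C : ℝ} (hC : 1 ≤ C) (hJ : 0 < J)
    (hε0 : 0 ≤ ε) (hεJ : ε ≤ 1 / J)
    (hu : ∀ k, u k = ((J : ℝ) - k) / J) (ht : ∀ k, t k = 1 / (4 * C) * 2 ^ k / 2 ^ J)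
    (hP : ∀ k j, k + j ≤ J → PP h Lb k j ≤ C / 2 ^ j) {Γ : ℝ} (hΓ1 : 1 ≤ Γ)
    (hΓ : ∀ q L, q :: L <:+ LL Lb 0 J → h' q * cc h h' L ≤ Γ * h q) :
    K h h' θ g (LL Lb 0 J) ε 1 ≤ Γ * Ms h g (LL Lb 0 J) ε 1 + 32 * C / (2 ^ J * J) := by
  refine le_trans (hB.Kf_LL hΓ1 hΓ 0 J (by omega)) ?_
  refine add_le_add (le_refl _) ?_
  have hJR : (0 : ℝ) < J := by exact_mod_cast hJ
  have hterm : ∀ j ∈ Finset.range J, PP h Lb 0 j *
      (2 * t (0 + j) * yy h h' θ g Lb J u ε (0 + j)) ≤ 32 * C / (2 ^ J * J ^ 2) := by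
    intro j hj
    have hjJ := Finset.mem_range.mp hj
    rw [Nat.zero_add]
    have hy := hB.yy_le hC hε0 hεJ hu ht hP (J - 1 - j) j (by omega)
    have hP1 := hP 0 j (by omega)
    have ht0 : 0 ≤ t j := by rw [ht]; positivity
    have hyn : 0 ≤ yy h h' θ g Lb J u ε j := by
      unfold yy
      have h1 := LL_suffix Lb (j + 1) (J - j - 1)
      have h2 : j + 1 + (J - j - 1) = J := by omega
      rw [h2] at h1
      exact hB.X_nonneg h1 _
    calc PP h Lb 0 j * (2 * t j * yy h h' θ g Lb J u ε j)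
        ≤ C / 2 ^ j * (2 * t j * yy h h' θ g Lb J u ε j) :=
          mul_le_mul_of_nonneg_right hP1 (mul_nonneg (by linarith) hyn)
      _ ≤ C / 2 ^ j * (2 * t j * (64 * C / J ^ 2)) := by
          refine mul_le_mul_of_nonneg_left ?_ (by positivity)
          exact mul_le_mul_of_nonneg_left hy (by linarith)
      _ = 32 * C / (2 ^ J * J ^ 2) := by
          rw [ht]
          field_simp
          ring
  refine le_trans (Finset.sum_le_sum hterm) ?_
  rw [Finset.sum_const, Finset.card_range, nsmul_eq_mul]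
  apply le_of_eq
  field_simp

/-- The energy with trivial weights `θ`. -/
lemma K_one_le {Γ : ℝ} (hΓ1 : 1 ≤ Γ) {L : List ℕ} (h1 : ∀ q ∈ L, h q ≤ 1)
    (hΓ : ∀ q l, q :: l <:+ L → h' q * cc h h' l ≤ Γ * h q) :
    K h h' (fun _ => 1) g L ε 1 ≤ Γ * Ms h g L ε 1 := by
  induction L with
  | nil =>
    simp only [K, Ms]
    nlinarith [sq_nonneg ε]
  | cons q L ih =>
    have ih' := ih (fun x hx => h1 x (List.mem_cons_of_mem _ hx))
      (fun x l hl => hΓ x l (hl.trans (List.suffix_cons q L)))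
    have e1 := hΓ q L (List.suffix_refl _)
    have e2 := h1 q List.mem_cons_self
    rw [Ms_cons, Ms_zero, K, K_zero]
    simp only [sub_self, zero_mul, add_zero]
    have f1 := mul_le_mul_of_nonneg_right e1 (sq_nonneg (ε + 1 * g q))
    have f2 := mul_le_mul_of_nonneg_left ih' (by linarith : 0 ≤ 1 - h q)
    nlinarith

/-- Lower bound for the norm of one factor. -/
lemma Ms_LL_ge (h0 : ∀ k < J, ∀ q ∈ Lb k, 0 ≤ h q) (h1 : ∀ k < J, ∀ q ∈ Lb k, h q ≤ 1)
    (hg : ∀ k < J, ∀ q ∈ Lb k, g q + ε = u k) {w : ℝ}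
    (j k m : ℕ) (hkm : k + m = J) (hj : j ≤ m) (hw : ∀ i < j, w ≤ u (k + i) ^ 2)
    (hMs : ∀ k m, k + m = J → 0 ≤ Ms h g (LL Lb k m) ε 1) :
    (1 - PP h Lb k j) * w ≤ Ms h g (LL Lb k m) ε 1 := by
  induction j generalizing k m with
  | zero =>
    rw [PP_zero, sub_self, zero_mul]
    exact hMs k m hkm
  | succ j ih =>
    obtain ⟨m, rfl⟩ : ∃ m', m = m' + 1 := ⟨m - 1, by omega⟩
    have hk : k < J := by omega
    have ih' := ih (k + 1) m (by omega) (by omega) (fun i hi => by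
      have := hw (i + 1) (by omega)
      have e : k + (i + 1) = k + 1 + i := by ring
      rwa [e] at this)
    rw [LL, Ms_block (hg k hk), PP_succ]
    have hv0 := vv_nonneg (h1 k hk)
    have hv1 := vv_le_one (h0 k hk) (h1 k hk)
    have hw0 := hw 0 (by omega)
    rw [Nat.add_zero] at hw0
    have f1 := mul_le_mul_of_nonneg_left ih' hv0
    have f2 := mul_le_mul_of_nonneg_left hw0 (by linarith : 0 ≤ 1 - vv h (Lb k))
    nlinarith

end

end LPAP
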