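import Pool.Agent.Lib.MP_5b0a7e_nt.Blocks

/-!
# The core inequality
-/

namespace LPAP

open Finset

variable {ι : Type} [Fintype ι] [DecidableEq ι]

omit [DecidableEq ι] in
lemma ex_T_sq_le {p p₀ : ℕ → Option ι → ℝ} {L : List ℕ} (hp : ∀ q ∈ L, ∀ s, 0 ≤ p q s) (R : ℝ)
    (F : Om ι L → ℝ) :
    ex p L (fun ω => T p₀ L R F ω ^ 2) ≤
      2 * ex p L (fun ω => F ω ^ 2) + 2 * ex p L (fun ω => H p₀ L R F ω ^ 2) := by
  rw [← ex_smul, ← ex_smul, ← ex_add]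
  refine ex_mono p hp _ _ fun ω => ?_
  simp only [H]
  nlinarith [sq_nonneg (F ω + (F ω - T p₀ L R F ω)), sq_nonneg (T p₀ L R F ω)]

/-- The core inequality. -/
theorem core (N : ℕ) (hN : 1 ≤ N) (hcard : Fintype.card ι ≤ N) {h h' θ g : ℕ → ℝ}
    {Lb : ℕ → List ℕ} {J : ℕ} {u t : ℕ → ℝ} {ε : ℝ} (hB : BS h h' θ g Lb J u t ε)
    {C : ℝ} (hC : 1 ≤ C) (hJ : 0 < J) (hε : 0 < ε) (hεJ : ε ≤ 1 / J) (hε1 : ε ≤ 1)
    (hu : ∀ k, u k = ((J : ℝ) - k) / J) (ht : ∀ k, t k = 1 / (4 * C) * 2 ^ k / 2 ^ J)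
    (hP : ∀ k j, k + j ≤ J → PP h Lb k j ≤ C / 2 ^ j) {Γ : ℝ} (hΓ1 : 1 ≤ Γ)
    (hΓN : Γ ≤ 1 + 1 / N)
    (hΓ : ∀ q L, q :: L <:+ LL Lb 0 J → h' q * cc h h' L ≤ Γ * h q)
    (hnh : ∀ q ∈ LL Lb 0 J, (N : ℝ) * h q ≤ 1 / 2)
    (hnε : ∀ q ∈ LL Lb 0 J, (N : ℝ) * h q / ε ^ 2 ≤ 1 / 8)
    (hh'n : ∀ q ∈ LL Lb 0 J, h q ≤ h' q * (1 - h q) ^ (Fintype.card ι))
    (hsq : ((LL Lb 0 J).map (fun q => 2 * ((N : ℝ) * h q / ε ^ 2) ^ 2)).sum ≤ 1)
    (hg0 : ∀ q ∈ LL Lb 0 J, 0 ≤ g q) (hg1 : ∀ q ∈ LL Lb 0 J, g q + ε ≤ 1)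
    {κ R W : ℝ} (hκ : 0 ≤ κ) (hR : 0 < R)
    (hθκ : ∀ q ∈ LL Lb 0 J, (q : ℝ) ^ κ ≤ θ q) (hpos : ∀ q ∈ LL Lb 0 J, 0 < q)
    (hMs : 1 / 2 ≤ Ms h g (LL Lb 0 J) ε 1)
    (hW : ((LL Lb 0 J).map (fun q => 1 + 2 * h q)).prod ≤ W)
    (htail : 2 * (N : ℝ) * W * (R ^ (-κ) * Real.exp (1 + 64 * C * N / (2 ^ J * J))) ≤
      Real.exp (-1) / 8)
    (hεN : ε ^ 2 ≤ 1 / (1024 * N)) :
    Real.exp (-1) / 2 * (1 / 2) ^ N ≤
      ex (wt h) (LL Lb 0 J) (fun ω => T (wt (ι := ι) h) (LL Lb 0 J) R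
        (FP g (LL Lb 0 J) (fun _ => ε) (fun _ => 1)) ω ^ 2) -
      ∑ i : ι, ex (wk h i) (LL Lb 0 J) (fun ω => T (wt (ι := ι) h) (LL Lb 0 J) R
        (FP g (LL Lb 0 J) (fun _ => ε) (fun _ => 1)) ω ^ 2) := by
  set L := LL Lb 0 J with hL
  set n := Fintype.card ι with hn
  set F : Om ι L → ℝ := FP g L (fun _ => ε) (fun _ => 1) with hF
  set M := Ms h g L ε 1 with hM
  have hNR : (1 : ℝ) ≤ N := by exact_mod_cast hN
  have hnN : (n : ℝ) ≤ N := by exact_mod_cast hcard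
  have hn0 : (0 : ℝ) ≤ n := Nat.cast_nonneg _
  have hmem : ∀ q ∈ L, ∃ j, j < J ∧ q ∈ Lb j := by
    intro q hq
    obtain ⟨j, _, h2, h3⟩ := mem_LL hq
    exact ⟨j, by omega, h3⟩
  have hh0 : ∀ q ∈ L, 0 ≤ h q := fun q hq => by
    obtain ⟨j, hj, hqj⟩ := hmem q hq
    exact hB.h0 j hj q hqj
  have hh1 : ∀ q ∈ L, h q ≤ 1 := fun q hq => by
    obtain ⟨j, hj, hqj⟩ := hmem q hq
    exact hB.h1 j hj q hqj
  have hh'0 : ∀ q ∈ L, 0 ≤ h' q := fun q hq => le_trans (hh0 q hq) (hB.hh_all q hq)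
  have hθ1 : ∀ q ∈ L, 1 ≤ θ q := fun q hq => by
    obtain ⟨j, hj, hqj⟩ := hmem q hq
    rw [hB.hθ j hj q hqj]; linarith [hB.ht0 j hj]
  have hnh' : ∀ q ∈ L, (n : ℝ) * h q ≤ 1 / 2 := fun q hq =>
    le_trans (mul_le_mul_of_nonneg_right hnN (hh0 q hq)) (hnh q hq)
  have hnh1 : ∀ q ∈ L, (n : ℝ) * h q ≤ 1 := fun q hq => by linarith [hnh' q hq]
  have hwp : ∀ q ∈ L, ∀ s : Option ι, 0 ≤ wt h q s := fun q hq s =>
    wt_nonneg (hh0 q hq) (hnh1 q hq) s
  have hws : ∀ q ∈ L, ∑ s : Option ι, wt h q s = 1 := fun q _ => wt_sum h q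
  have hM0 : 0 < M := by linarith
  have hMn : 0 < M ^ n := pow_pos hM0 n
  have hε2 : 0 < ε ^ 2 := by positivity
  -- A1
  have A1 : Real.exp (-1) * M ^ n ≤ ex (wt h) L (fun ω => F ω ^ 2) := by
    have h1 := ex_FP_sq_ge (ι := ι) hε hh0
      (fun q hq => le_trans (by
        apply div_le_div_of_nonneg_right _ hε2.le
        exact mul_le_mul_of_nonneg_right hnN (hh0 q hq)) (hnε q hq))
      hg0 hg1 hh1 hε1 (α := fun _ => ε) (β := fun _ => 1) (fun i => Or.inl ⟨rfl, rfl⟩)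
    rw [Finset.prod_const, Finset.card_univ] at h1
    refine le_trans ?_ h1
    refine mul_le_mul_of_nonneg_right ?_ hMn.le
    apply Real.exp_le_exp.mpr
    apply neg_le_neg
    refine le_trans ?_ hsq
    apply List.sum_le_sum
    intro q hq
    have h2 : (n : ℝ) * h q / ε ^ 2 ≤ N * h q / ε ^ 2 := by
      apply div_le_div_of_nonneg_right _ hε2.le
      exact mul_le_mul_of_nonneg_right hnN (hh0 q hq)
    have h3 : 0 ≤ (n : ℝ) * h q / ε ^ 2 := div_nonneg (mul_nonneg hn0 (hh0 q hq)) hε2.le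
    have := pow_le_pow_left₀ h3 h2 2
    linarith
  -- A2
  set a := 32 * C / (2 ^ J * (J : ℝ)) with ha
  have hJR : (0 : ℝ) < J := by exact_mod_cast hJ
  have ha0 : 0 ≤ a := by positivity
  have hKf := hB.Kf_le hC hJ hε.le hεJ hu ht hP hΓ1 hΓ
  have hK0 : 0 ≤ K h h' θ g L ε 1 := K_nonneg hh1 hh'0 hθ1 _ _
  have A2 : D (wt h) θ L F ≤ M ^ n * Real.exp (1 + 64 * C * N / (2 ^ J * J)) := by
    have h1 := D_FP_le (ι := ι) (g := g) hh0 hh1 hnh1 hh'n hh'0 hθ1 (fun _ => ε) (fun _ => 1)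
    rw [Finset.prod_const, Finset.card_univ] at h1
    refine le_trans h1 ?_
    have h2 : K h h' θ g L ε 1 ≤ M * Real.exp (Γ - 1 + 2 * a) := by
      refine le_trans hKf ?_
      have h3 := Real.add_one_le_exp (Γ - 1 + 2 * a)
      have h4 : Γ * M + a ≤ M * (Γ - 1 + 2 * a + 1) := by nlinarith
      exact le_trans h4 (mul_le_mul_of_nonneg_left h3 hM0.le)
    calc K h h' θ g L ε 1 ^ n ≤ (M * Real.exp (Γ - 1 + 2 * a)) ^ n := pow_le_pow_left₀ hK0 h2 n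
      _ = M ^ n * Real.exp (n * (Γ - 1 + 2 * a)) := by
          rw [mul_pow, ← Real.exp_nat_mul]
      _ ≤ M ^ n * Real.exp (1 + 64 * C * N / (2 ^ J * J)) := by
          refine mul_le_mul_of_nonneg_left ?_ hMn.le
          apply Real.exp_le_exp.mpr
          have h5 : (n : ℝ) * (Γ - 1) ≤ 1 := by
            have h6 : Γ - 1 ≤ 1 / N := by linarith
            calc (n : ℝ) * (Γ - 1) ≤ N * (1 / N) :=
                  mul_le_mul hnN h6 (by linarith) (by linarith)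
              _ = 1 := by field_simp
          have h7 : (n : ℝ) * (2 * a) ≤ 64 * C * N / (2 ^ J * J) := by
            calc (n : ℝ) * (2 * a) ≤ N * (2 * a) :=
                  mul_le_mul_of_nonneg_right hnN (by linarith)
              _ = 64 * C * N / (2 ^ J * J) := by rw [ha]; ring
          linarith
  -- A3
  set τ := R ^ (-κ) * Real.exp (1 + 64 * C * N / (2 ^ J * J)) with hτ
  have hτ0 : 0 ≤ τ := mul_nonneg (Real.rpow_nonneg hR.le _) (Real.exp_pos _).le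
  have A3 : ex (wt h) L (fun ω => H (wt h) L R F ω ^ 2) ≤ τ * M ^ n := by
    refine le_trans (ex_H_sq_le (wt h) θ hwp hws hpos hκ hθκ hR F) ?_
    calc R ^ (-κ) * D (wt h) θ L F
        ≤ R ^ (-κ) * (M ^ n * Real.exp (1 + 64 * C * N / (2 ^ J * J))) :=
          mul_le_mul_of_nonneg_left A2 (Real.rpow_nonneg hR.le _)
      _ = τ * M ^ n := by rw [hτ]; ring
  have hW1 : 1 ≤ W := by
    refine le_trans ?_ hW
    have : ∀ l : List ℕ, (∀ q ∈ l, 0 ≤ h q) → 1 ≤ (l.map (fun q => 1 + 2 * h q)).prod := by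
      intro l
      induction l with
      | nil => intro _; simp
      | cons q l ih =>
        intro hl
        rw [List.map_cons, List.prod_cons]
        have h1 := ih (fun x hx => hl x (List.mem_cons_of_mem _ hx))
        have h2 := hl q List.mem_cons_self
        nlinarith
    exact this L hh0
  -- A4
  have hΓn : Γ ^ (n - 1) ≤ Real.exp 1 := by
    calc Γ ^ (n - 1) ≤ Γ ^ N := pow_le_pow_right₀ hΓ1 (by omega)
      _ ≤ (Real.exp (1 / N)) ^ N := by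
          apply pow_le_pow_left₀ (by linarith)
          have := Real.add_one_le_exp (1 / (N : ℝ))
          linarith
      _ = Real.exp 1 := by
          rw [← Real.exp_nat_mul]
          congr 1
          field_simp
  have A4 : ∀ i : ι, ex (wk h i) L (fun ω => T (wt h) L R F ω ^ 2) ≤
      (4 * Real.exp 1 * ε ^ 2 + 2 * (W * τ)) * M ^ n := by
    intro i
    have hwk : ∀ q ∈ L, ∀ s : Option ι, 0 ≤ wk h i q s := fun q hq s =>
      wk_nonneg (hh0 q hq) (hnh1 q hq) i s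
    refine le_trans (ex_T_sq_le hwk R F) ?_
    have h1 : ex (wk h i) L (fun ω => F ω ^ 2) ≤ 2 * Real.exp 1 * ε ^ 2 * M ^ n := by
      refine le_trans (ex_wk_FP_sq_le hh0 hh1 hnh1 hh'n hh'0 i _ _) ?_
      have hnpos : 0 < n := Fintype.card_pos_iff.mpr ⟨i⟩
      rw [Finset.prod_const, Finset.card_erase_of_mem (Finset.mem_univ i), Finset.card_univ,
        ← hn]
      have h2 := K_one_le (g := g) (ε := ε) hΓ1 hh1 hΓ
      have h3 : 0 ≤ K h h' (fun _ => 1) g L ε 1 :=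
        K_nonneg hh1 hh'0 (fun _ _ => le_refl _) _ _
      have h4 : K h h' (fun _ => 1) g L ε 1 ^ (n - 1) ≤ Real.exp 1 * (2 * M ^ n) := by
        calc K h h' (fun _ => 1) g L ε 1 ^ (n - 1) ≤ (Γ * M) ^ (n - 1) :=
              pow_le_pow_left₀ h3 h2 _
          _ = Γ ^ (n - 1) * M ^ (n - 1) := mul_pow _ _ _
          _ ≤ Real.exp 1 * (2 * M ^ n) := by
              refine mul_le_mul hΓn ?_ (pow_nonneg hM0.le _) (Real.exp_pos _).le
              have h5 : M ^ n = M ^ (n - 1) * M := by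
                rw [← pow_succ]; congr 1; omega
              rw [h5]
              have := pow_nonneg hM0.le (n - 1)
              nlinarith
      calc ε ^ 2 * K h h' (fun _ => 1) g L ε 1 ^ (n - 1)
          ≤ ε ^ 2 * (Real.exp 1 * (2 * M ^ n)) := mul_le_mul_of_nonneg_left h4 hε2.le
        _ = _ := by ring
    have h2 : ex (wk h i) L (fun ω => H (wt h) L R F ω ^ 2) ≤ W * (τ * M ^ n) := by
      refine le_trans (ex_le_of_weights (c := fun q => 1 + 2 * h q) hwp hwk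
        (fun q hq => by have := hh0 q hq; linarith)
        (fun q hq s => wk_le (hh0 q hq) (hnh' q hq) i s) _ (fun ω => sq_nonneg _)) ?_
      refine mul_le_mul hW A3 (ex_nonneg _ hwp _ fun ω => sq_nonneg _) (by linarith)
    nlinarith [h1, h2]
  -- A5
  have A5 : ∑ i : ι, ex (wk h i) L (fun ω => T (wt h) L R F ω ^ 2) ≤
      (4 * Real.exp 1 / 1024 + Real.exp (-1) / 8) * M ^ n := by
    refine le_trans (Finset.sum_le_sum fun i _ => A4 i) ?_
    rw [Finset.sum_const, Finset.card_univ, nsmul_eq_mul, ← hn, ← mul_assoc]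
    refine mul_le_mul_of_nonneg_right ?_ hMn.le
    have hpos1 : 0 ≤ 4 * Real.exp 1 * ε ^ 2 + 2 * (W * τ) := by
      have := Real.exp_pos 1
      have := mul_nonneg (by linarith : 0 ≤ W) hτ0
      positivity
    have h1 : (N : ℝ) * ε ^ 2 ≤ 1 / 1024 := by
      calc (N : ℝ) * ε ^ 2 ≤ N * (1 / (1024 * N)) := mul_le_mul_of_nonneg_left hεN (by linarith)
        _ = 1 / 1024 := by field_simp
    calc (n : ℝ) * (4 * Real.exp 1 * ε ^ 2 + 2 * (W * τ))
        ≤ N * (4 * Real.exp 1 * ε ^ 2 + 2 * (W * τ)) := mul_le_mul_of_nonneg_right hnN hpos1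
      _ = 4 * Real.exp 1 * (N * ε ^ 2) + 2 * N * W * τ := by ring
      _ ≤ 4 * Real.exp 1 * (1 / 1024) + Real.exp (-1) / 8 := by
          refine add_le_add (mul_le_mul_of_nonneg_left h1 ?_) htail
          have := Real.exp_pos 1
          linarith
      _ = _ := by ring
  -- A6
  have A6 : τ ≤ Real.exp (-1) / 8 := by
    refine le_trans ?_ htail
    have h1 : 1 ≤ 2 * (N : ℝ) * W := by nlinarith
    exact le_mul_of_one_le_left hτ0 h1
  have hpyth := ex_sq_eq (wt h) hws R F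
  have hTge : (Real.exp (-1) - Real.exp (-1) / 8) * M ^ n ≤
      ex (wt h) L (fun ω => T (wt h) L R F ω ^ 2) := by
    have h1 : τ * M ^ n ≤ Real.exp (-1) / 8 * M ^ n := mul_le_mul_of_nonneg_right A6 hMn.le
    have h2 : (Real.exp (-1) - Real.exp (-1) / 8) * M ^ n =
        Real.exp (-1) * M ^ n - Real.exp (-1) / 8 * M ^ n := by ring
    rw [h2]
    linarith
  -- A7
  have he1 : Real.exp 1 < 2.7182818286 := Real.exp_one_lt_d9
  have he2 : (0.36787944116 : ℝ) < Real.exp (-1) := Real.exp_neg_one_gt_d9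
  have hMnN : (1 / 2 : ℝ) ^ N ≤ M ^ n := by
    calc (1 / 2 : ℝ) ^ N ≤ (1 / 2) ^ n :=
          pow_le_pow_of_le_one (by norm_num) (by norm_num) hcard
      _ ≤ M ^ n := pow_le_pow_left₀ (by norm_num) hMs n
  have hfin : Real.exp (-1) / 2 * M ^ n ≤ ex (wt h) L (fun ω => T (wt h) L R F ω ^ 2) -
      ∑ i : ι, ex (wk h i) L (fun ω => T (wt h) L R F ω ^ 2) := by
    have h1 : Real.exp (-1) / 2 * M ^ n ≤ (Real.exp (-1) - Real.exp (-1) / 8) * M ^ n -
        (4 * Real.exp 1 / 1024 + Real.exp (-1) / 8) * M ^ n := by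
      rw [← sub_mul]
      refine mul_le_mul_of_nonneg_right ?_ hMn.le
      linarith
    linarith
  refine le_trans ?_ hfin
  exact mul_le_mul_of_nonneg_left hMnN (by positivity)

end LPAP
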