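import Pool.Agent.Lib.MP_5b0a7e_nt.PrimeBlocks

/-!
# Counting integers coprime to `a` in residue classes
-/

namespace LPAP

open Finset

lemma count_mod (Y X m c : ℕ) (hm : 0 < m) (hYX : Y ≤ X) :
    |(((Finset.Ioc Y X).filter (fun b => b ≡ c [MOD m])).card : ℝ) - ((X : ℝ) - Y) / m| ≤ 1 := by
  have h := Nat.Ioc_filter_modEq_card (a := Y) (b := X) hm c
  have hmR : (0 : ℝ) < m := by exact_mod_cast hm
  set A : ℤ := ⌊((X : ℚ) - c) / (m : ℚ)⌋ with hA
  set B : ℤ := ⌊((Y : ℚ) - c) / (m : ℚ)⌋ with hB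
  have hBA : B ≤ A := by
    apply Int.floor_le_floor
    have hmQ : (0 : ℚ) < m := by exact_mod_cast hm
    apply div_le_div_of_nonneg_right _ hmQ.le
    have : (Y : ℚ) ≤ X := by exact_mod_cast hYX
    linarith
  rw [max_eq_left (by omega)] at h
  have hcard : (((Finset.Ioc Y X).filter (fun b => b ≡ c [MOD m])).card : ℝ) = (A : ℝ) - B := by
    exact_mod_cast h
  rw [hcard]
  have a1 : (A : ℚ) ≤ ((X : ℚ) - c) / m := Int.floor_le _
  have a2 : ((X : ℚ) - c) / m < A + 1 := Int.lt_floor_add_one _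
  have b1 : (B : ℚ) ≤ ((Y : ℚ) - c) / m := Int.floor_le _
  have b2 : ((Y : ℚ) - c) / m < B + 1 := Int.lt_floor_add_one _
  have a1' : (A : ℝ) ≤ ((X : ℝ) - c) / m := by exact_mod_cast a1
  have a2' : ((X : ℝ) - c) / m < A + 1 := by exact_mod_cast a2
  have b1' : (B : ℝ) ≤ ((Y : ℝ) - c) / m := by exact_mod_cast b1
  have b2' : ((Y : ℝ) - c) / m < B + 1 := by exact_mod_cast b2
  have e : ((X : ℝ) - Y) / m = ((X : ℝ) - c) / m - ((Y : ℝ) - c) / m := by
    rw [← sub_div]; congr 1; ring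
  rw [e, abs_le]
  constructor <;> linarith

lemma count_coprime (P : Finset ℕ) (hP : ∀ p ∈ P, p.Prime) (Y X m c : ℕ) (hm : 0 < m)
    (hmP : ∀ p ∈ P, m.Coprime p) (hYX : Y ≤ X) :
    |(((Finset.Ioc Y X).filter (fun b => b ≡ c [MOD m] ∧ ∀ p ∈ P, ¬ p ∣ b)).card : ℝ) -
      ((X : ℝ) - Y) / m * ∏ p ∈ P, (1 - 1 / (p : ℝ))| ≤ 2 ^ P.card := by
  induction P using Finset.induction_on generalizing m c with
  | empty =>
    simp only [Finset.notMem_empty, false_imp_iff, implies_true, and_true, Finset.prod_empty,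
      mul_one, Finset.card_empty, pow_zero]
    exact count_mod Y X m c hm hYX
  | insert p P hpP ih =>
    have hp := hP p (Finset.mem_insert_self _ _)
    have hP' : ∀ x ∈ P, x.Prime := fun x hx => hP x (Finset.mem_insert_of_mem hx)
    have hmp := hmP p (Finset.mem_insert_self _ _)
    have hmP' : ∀ x ∈ P, m.Coprime x := fun x hx => hmP x (Finset.mem_insert_of_mem hx)
    have ih1 := ih hP' m c hm hmP'
    set c' := (Nat.chineseRemainder hmp c 0 : ℕ) with hc'
    have hc1 : c' ≡ c [MOD m] := (Nat.chineseRemainder hmp c 0).2.1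
    have hc2 : c' ≡ 0 [MOD p] := (Nat.chineseRemainder hmp c 0).2.2
    have ih2 := ih hP' (m * p) c' (Nat.mul_pos hm hp.pos) (fun x hx => by
      apply Nat.Coprime.mul_left (hmP' x hx)
      rw [Nat.coprime_primes hp (hP' x hx)]
      rintro rfl
      exact hpP hx)
    set S1 := (Finset.Ioc Y X).filter (fun b => b ≡ c [MOD m] ∧ ∀ x ∈ P, ¬ x ∣ b) with hS1
    set S2 := (Finset.Ioc Y X).filter (fun b => b ≡ c' [MOD m * p] ∧ ∀ x ∈ P, ¬ x ∣ b) with hS2
    set S := (Finset.Ioc Y X).filter (fun b => b ≡ c [MOD m] ∧ ∀ x ∈ insert p P, ¬ x ∣ b) with hS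
    have hiff : ∀ b, b ≡ c' [MOD m * p] ↔ b ≡ c [MOD m] ∧ p ∣ b := by
      intro b
      rw [← Nat.modEq_and_modEq_iff_modEq_mul hmp]
      constructor
      · rintro ⟨h1, h2⟩
        exact ⟨h1.trans hc1, (Nat.modEq_zero_iff_dvd).mp (h2.trans hc2)⟩
      · rintro ⟨h1, h2⟩
        exact ⟨h1.trans hc1.symm, ((Nat.modEq_zero_iff_dvd).mpr h2).trans hc2.symm⟩
    have hunion : S1 = S ∪ S2 := by
      ext b
      simp only [hS1, hS2, hS, Finset.mem_union, Finset.mem_filter, Finset.mem_insert,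
        forall_eq_or_imp, hiff]
      constructor
      · rintro ⟨h1, h2, h3⟩
        by_cases hpb : p ∣ b
        · right; exact ⟨h1, ⟨h2, hpb⟩, h3⟩
        · left; exact ⟨h1, h2, hpb, h3⟩
      · rintro (⟨h1, h2, _, h3⟩ | ⟨h1, ⟨h2, _⟩, h3⟩)
        · exact ⟨h1, h2, h3⟩
        · exact ⟨h1, h2, h3⟩
    have hdisj : Disjoint S S2 := by
      rw [Finset.disjoint_left]
      intro b hb hb'
      have h1 := (Finset.mem_filter.mp hb).2.2 p (Finset.mem_insert_self _ _)
      have h2 := ((hiff b).mp (Finset.mem_filter.mp hb').2.1).2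
      exact h1 h2
    have hcard : (S.card : ℝ) = S1.card - S2.card := by
      rw [hunion, Finset.card_union_of_disjoint hdisj]
      push_cast; ring
    rw [hcard, Finset.prod_insert hpP, Finset.card_insert_of_notMem hpP, pow_succ]
    have hpR : (0 : ℝ) < p := by exact_mod_cast hp.pos
    have hmR : (0 : ℝ) < m := by exact_mod_cast hm
    have e : ((X : ℝ) - Y) / m * ((1 - 1 / (p : ℝ)) * ∏ x ∈ P, (1 - 1 / (x : ℝ))) =
        ((X : ℝ) - Y) / m * ∏ x ∈ P, (1 - 1 / (x : ℝ)) -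
        ((X : ℝ) - Y) / ((m * p : ℕ) : ℝ) * ∏ x ∈ P, (1 - 1 / (x : ℝ)) := by
      push_cast
      field_simp
    rw [e]
    rw [abs_le] at ih1 ih2 ⊢
    constructor <;> linarith [ih1.1, ih1.2, ih2.1, ih2.2]

/-- The set of `b ∈ (Y, X]`, coprime to `a`, in a residue class. -/
def Bset (Y X a m c : ℕ) : Finset ℕ :=
  (Finset.Ioc Y X).filter (fun b => b ≡ c [MOD m] ∧ b.Coprime a)

lemma coprime_iff {a b : ℕ} (ha : a ≠ 0) : b.Coprime a ↔ ∀ p ∈ a.primeFactors, ¬ p ∣ b := by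
  constructor
  · intro h p hp hpb
    have h1 := Nat.prime_of_mem_primeFactors hp
    have h2 := Nat.dvd_of_mem_primeFactors hp
    exact Nat.not_coprime_of_dvd_of_dvd h1.one_lt hpb h2 h
  · intro h
    apply Nat.Coprime.symm
    by_contra hcon
    obtain ⟨p, hp, h1, h2⟩ := Nat.Prime.not_coprime_iff_dvd.mp hcon
    exact h p (Nat.mem_primeFactors.mpr ⟨hp, h1, ha⟩) h2

lemma totient_div (a : ℕ) (ha : a ≠ 0) :
    (a.totient : ℝ) / a = ∏ p ∈ a.primeFactors, (1 - 1 / (p : ℝ)) := by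
  have h := Nat.totient_eq_mul_prod_factors a
  have h2 : (a.totient : ℝ) = a * ∏ p ∈ a.primeFactors, (1 - (p : ℝ)⁻¹) := by
    have h3 := congrArg (fun x : ℚ => (x : ℝ)) h
    push_cast at h3
    exact h3
  rw [h2]
  have : (a : ℝ) ≠ 0 := by exact_mod_cast ha
  rw [mul_div_cancel_left₀ _ this]
  simp only [one_div]

lemma Bset_card {a : ℕ} (ha : a ≠ 0) (Y X m c : ℕ) (hm : 0 < m) (hma : m.Coprime a)
    (hYa : Y ≤ X) :
    |((Bset Y X a m c).card : ℝ) - ((X : ℝ) - Y) / m * (a.totient / a)| ≤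
      2 ^ a.primeFactors.card := by
  rw [totient_div a ha]
  have h1 : Bset Y X a m c = (Finset.Ioc Y X).filter
      (fun b => b ≡ c [MOD m] ∧ ∀ p ∈ a.primeFactors, ¬ p ∣ b) := by
    unfold Bset
    apply Finset.filter_congr
    intro b _
    rw [coprime_iff ha]
  rw [h1]
  exact count_coprime a.primeFactors (fun p hp => Nat.prime_of_mem_primeFactors hp) Y X m c hm
    (fun p hp => Nat.Coprime.coprime_dvd_right (Nat.dvd_of_mem_primeFactors hp) hma) hYa

/-- Equidistribution of `Bset`. -/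
lemma equi_Bset {a : ℕ} (ha : a ≠ 0) (Y X : ℕ) (hYa : Y ≤ X) (L : List ℕ) (hnodup : L.Nodup)
    (hL : ∀ q ∈ L, q.Prime ∧ ¬ q ∣ a) (m c : ℕ) (hm : 0 < m) (hma : m.Coprime a)
    (hmL : ∀ q ∈ L, m.Coprime q) :
    Equi L (Bset Y X a m c) (((X : ℝ) - Y) / m * (a.totient / a)) (2 ^ a.primeFactors.card) := by
  induction L generalizing m c with
  | nil => exact Bset_card ha Y X m c hm hma hYa
  | cons q L ih =>
    have hnd := List.nodup_cons.mp hnodup
    have ih' := ih hnd.2 (fun x hx => hL x (List.mem_cons_of_mem _ hx))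
    refine ⟨ih' m c hm hma (fun x hx => hmL x (List.mem_cons_of_mem _ hx)), ?_⟩
    intro d hd
    obtain ⟨hqp, hqa⟩ := hL q List.mem_cons_self
    have hmq := hmL q List.mem_cons_self
    set c' := (Nat.chineseRemainder hmq c d : ℕ) with hc'
    have hc1 : c' ≡ c [MOD m] := (Nat.chineseRemainder hmq c d).2.1
    have hc2 : c' ≡ d [MOD q] := (Nat.chineseRemainder hmq c d).2.2
    have h1 : (Bset Y X a m c).filter (fun b => b % q = d) = Bset Y X a (m * q) c' := by
      unfold Bset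
      rw [Finset.filter_filter]
      apply Finset.filter_congr
      intro b _
      rw [← Nat.modEq_and_modEq_iff_modEq_mul hmq]
      have hbd : b % q = d ↔ b ≡ d [MOD q] := by
        unfold Nat.ModEq
        rw [Nat.mod_eq_of_lt hd]
      rw [hbd]
      constructor
      · rintro ⟨⟨h1, h2⟩, h3⟩
        exact ⟨⟨h1.trans hc1.symm, h3.trans hc2.symm⟩, h2⟩
      · rintro ⟨⟨h1, h3⟩, h2⟩
        exact ⟨⟨h1.trans hc1, h2⟩, h3.trans hc2⟩
    rw [h1]
    have h2 := ih' (m * q) c' (Nat.mul_pos hm hqp.pos) (by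
      apply Nat.Coprime.mul_left hma
      exact (Nat.Prime.coprime_iff_not_dvd hqp).mpr hqa) (fun x hx => by
      apply Nat.Coprime.mul_left (hmL x (List.mem_cons_of_mem _ hx))
      rw [Nat.coprime_primes hqp (hL x (List.mem_cons_of_mem _ hx)).1]
      rintro rfl
      exact hnd.1 hx)
    have e : ((X : ℝ) - Y) / ((m * q : ℕ) : ℝ) * (a.totient / a) =
        ((X : ℝ) - Y) / m * (a.totient / a) / q := by
      push_cast
      have hqR : (q : ℝ) ≠ 0 := by exact_mod_cast hqp.ne_zero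
      have hmR : (m : ℝ) ≠ 0 := by exact_mod_cast hm.ne'
      field_simp
    rw [← e]
    exact h2

end LPAP
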