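import Pool.Agent.Lib.MP_5b0a7e_nt.Exist

/-!
# Estimates for the energy recursion
-/

namespace LPAP

open Finset

/-- The product `∏ (1 - h q)`. -/
noncomputable def vv (h : ℕ → ℝ) (L : List ℕ) : ℝ := (L.map (fun q => 1 - h q)).prod

/-- The product `∏ (1 - h q + h' q)`. -/
noncomputable def cc (h h' : ℕ → ℝ) (L : List ℕ) : ℝ := (L.map (fun q => 1 - h q + h' q)).prod

lemma vv_nil (h : ℕ → ℝ) : vv h [] = 1 := rfl
lemma vv_cons (h : ℕ → ℝ) (q : ℕ) (L : List ℕ) : vv h (q :: L) = (1 - h q) * vv h L := by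
  simp [vv]
lemma vv_append (h : ℕ → ℝ) (l L : List ℕ) : vv h (l ++ L) = vv h l * vv h L := by
  simp [vv]
lemma cc_nil (h h' : ℕ → ℝ) : cc h h' [] = 1 := rfl
lemma cc_cons (h h' : ℕ → ℝ) (q : ℕ) (L : List ℕ) :
    cc h h' (q :: L) = (1 - h q + h' q) * cc h h' L := by
  simp [cc]

lemma vv_nonneg {h : ℕ → ℝ} {L : List ℕ} (h1 : ∀ q ∈ L, h q ≤ 1) : 0 ≤ vv h L :=
  List.prod_nonneg (by
    intro a ha
    obtain ⟨x, hx, rfl⟩ := List.mem_map.mp ha
    linarith [h1 x hx])

lemma vv_le_one {h : ℕ → ℝ} {L : List ℕ} (h0 : ∀ q ∈ L, 0 ≤ h q) (h1 : ∀ q ∈ L, h q ≤ 1) :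
    vv h L ≤ 1 := by
  induction L with
  | nil => rw [vv_nil]
  | cons q L ih =>
    rw [vv_cons]
    have := ih (fun x hx => h0 x (List.mem_cons_of_mem _ hx))
      (fun x hx => h1 x (List.mem_cons_of_mem _ hx))
    have h2 := vv_nonneg (h := h) (L := L) (fun x hx => h1 x (List.mem_cons_of_mem _ hx))
    have h3 := h0 q List.mem_cons_self
    have h4 := h1 q List.mem_cons_self
    nlinarith

lemma cc_ge_one {h h' : ℕ → ℝ} {L : List ℕ} (hh : ∀ q ∈ L, h q ≤ h' q) : 1 ≤ cc h h' L := by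
  induction L with
  | nil => rw [cc_nil]
  | cons q L ih =>
    rw [cc_cons]
    have := ih (fun x hx => hh x (List.mem_cons_of_mem _ hx))
    have h2 := hh q List.mem_cons_self
    nlinarith

lemma K_zero (h h' θ g : ℕ → ℝ) (L : List ℕ) (α : ℝ) :
    K h h' θ g L α 0 = α ^ 2 * cc h h' L := by
  induction L generalizing α with
  | nil => simp [K, cc_nil]
  | cons q L ih =>
    rw [K, cc_cons]
    simp only [zero_mul, add_zero, neg_zero, ih]
    ring

lemma K_neg (h h' θ g : ℕ → ℝ) (L : List ℕ) (α β : ℝ) :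
    K h h' θ g L (-α) (-β) = K h h' θ g L α β := by
  induction L generalizing α β with
  | nil => simp [K]
  | cons q L ih =>
    rw [K, K]
    have e1 : -α + -β * g q = -(α + β * g q) := by ring
    have e2 : -β * g q = -(β * g q) := by ring
    have h0 : K h h' θ g L (-(α + β * g q)) 0 = K h h' θ g L (α + β * g q) 0 := by
      have := ih (α + β * g q) 0
      rwa [neg_zero] at this
    rw [e1, e2, ih α β, h0, ih (β * g q) (-β)]

/-- The energy of the difference function. -/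
noncomputable def X (h h' θ g : ℕ → ℝ) (ε : ℝ) (L : List ℕ) (v : ℝ) : ℝ :=
  K h h' θ g L (v - ε) (-1)

lemma X_nil (h h' θ g : ℕ → ℝ) (ε : ℝ) (v : ℝ) : X h h' θ g ε [] v = (v - ε) ^ 2 := rfl

lemma X_cons (h h' θ g : ℕ → ℝ) (ε : ℝ) (q : ℕ) (L : List ℕ) (v : ℝ) :
    X h h' θ g ε (q :: L) v = (1 - h q) * X h h' θ g ε L v +
      h' q * ((v - (g q + ε)) ^ 2 * cc h h' L + (θ q - 1) * X h h' θ g ε L (g q + ε)) := by
  unfold X
  rw [K, K_zero]
  have e1 : v - ε + -1 * g q = v - (g q + ε) := by ring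
  have e2 : (-1 : ℝ) * g q = -(g q + ε - ε) := by ring
  rw [e1, e2, K_neg]

lemma X_nonneg {h h' θ g : ℕ → ℝ} {ε : ℝ} {L : List ℕ} (hh1 : ∀ q ∈ L, h q ≤ 1)
    (h'0 : ∀ q ∈ L, 0 ≤ h' q) (hθ : ∀ q ∈ L, 1 ≤ θ q) (v : ℝ) : 0 ≤ X h h' θ g ε L v :=
  K_nonneg hh1 h'0 hθ _ _

section block

variable {h h' θ g : ℕ → ℝ} {ε u t : ℝ} {l L : List ℕ}

/-- Inside a block the difference energy does not exceed its value after the block. -/
lemma X_block_self (h0 : ∀ q ∈ l, 0 ≤ h q)
    (hh' : ∀ q ∈ l, h' q ≤ 2 * h q) (hg : ∀ q ∈ l, g q + ε = u) (hθ : ∀ q ∈ l, θ q = 1 + t)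
    (ht0 : 0 ≤ t) (ht : t ≤ 1 / 2) (hX : ∀ l', l' <:+ l → 0 ≤ X h h' θ g ε (l' ++ L) u) :
    X h h' θ g ε (l ++ L) u ≤ X h h' θ g ε L u := by
  induction l with
  | nil => exact le_refl _
  | cons q l ih =>
    have ih' := ih (fun x hx => h0 x (List.mem_cons_of_mem _ hx))
      (fun x hx => hh' x (List.mem_cons_of_mem _ hx))
      (fun x hx => hg x (List.mem_cons_of_mem _ hx))
      (fun x hx => hθ x (List.mem_cons_of_mem _ hx))
      (fun l' hl' => hX l' (hl'.trans (List.suffix_cons q l)))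
    have e1 := h0 q List.mem_cons_self
    have e2 := hh' q List.mem_cons_self
    have e3 := hg q List.mem_cons_self
    have e4 := hθ q List.mem_cons_self
    rw [List.cons_append, X_cons, e3, e4]
    have e5 := hX l (List.suffix_cons q l)
    have e6 : 0 ≤ t * X h h' θ g ε (l ++ L) u := mul_nonneg ht0 e5
    have e7 : h' q * (t * X h h' θ g ε (l ++ L) u) ≤
        2 * h q * (t * X h h' θ g ε (l ++ L) u) := mul_le_mul_of_nonneg_right e2 e6
    have e8 : h q * X h h' θ g ε (l ++ L) u * (1 - 2 * t) ≥ 0 :=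
      mul_nonneg (mul_nonneg e1 e5) (by linarith)
    nlinarith

/-- One block. -/
lemma X_block (h0 : ∀ q ∈ l, 0 ≤ h q) (h1 : ∀ q ∈ l, h q ≤ 1) (hh : ∀ q ∈ l, h q ≤ h' q)
    (hh' : ∀ q ∈ l, h' q ≤ 2 * h q) (hg : ∀ q ∈ l, g q + ε = u) (hθ : ∀ q ∈ l, θ q = 1 + t)
    (ht0 : 0 ≤ t) (ht : t ≤ 1 / 2) (hX : ∀ l', l' <:+ l → 0 ≤ X h h' θ g ε (l' ++ L) u)
    (hcc0 : 1 ≤ cc h h' L)
    (hcc : cc h h' (l ++ L) ≤ 2) (v : ℝ) :
    X h h' θ g ε (l ++ L) v ≤ vv h l * X h h' θ g ε L v +
      (1 - vv h l) * (4 * (v - u) ^ 2 + 2 * t * X h h' θ g ε L u) := by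
  induction l with
  | nil => simp [vv_nil]
  | cons q l ih =>
    have e1 := h0 q List.mem_cons_self
    have e2 := hh' q List.mem_cons_self
    have e3 := hg q List.mem_cons_self
    have e4 := hθ q List.mem_cons_self
    have e5 := h1 q List.mem_cons_self
    have e6 := hh q List.mem_cons_self
    have hccl : 1 ≤ cc h h' (l ++ L) := by
      clear ih hX hθ hg hh' h1 h0
      have hh2 : ∀ x ∈ l, h x ≤ h' x := fun x hx => hh x (List.mem_cons_of_mem _ hx)
      clear hh hcc
      induction l with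
      | nil => exact hcc0
      | cons a l ih2 =>
        rw [List.cons_append, cc_cons]
        have := ih2 (fun x hx => hh2 x (List.mem_cons_of_mem _ hx))
        have h3 := hh2 a List.mem_cons_self
        nlinarith
    have hccl2 : cc h h' (l ++ L) ≤ 2 := by
      rw [List.cons_append, cc_cons] at hcc
      nlinarith
    have ih' := ih (fun x hx => h0 x (List.mem_cons_of_mem _ hx))
      (fun x hx => h1 x (List.mem_cons_of_mem _ hx))
      (fun x hx => hh x (List.mem_cons_of_mem _ hx))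
      (fun x hx => hh' x (List.mem_cons_of_mem _ hx))
      (fun x hx => hg x (List.mem_cons_of_mem _ hx))
      (fun x hx => hθ x (List.mem_cons_of_mem _ hx))
      (fun l' hl' => hX l' (hl'.trans (List.suffix_cons q l))) hccl2
    have hself := X_block_self (fun x hx => h0 x (List.mem_cons_of_mem _ hx))
      (fun x hx => hh' x (List.mem_cons_of_mem _ hx))
      (fun x hx => hg x (List.mem_cons_of_mem _ hx))
      (fun x hx => hθ x (List.mem_cons_of_mem _ hx)) ht0 ht
      (fun l' hl' => hX l' (hl'.trans (List.suffix_cons q l)))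
    have hXu : 0 ≤ X h h' θ g ε (l ++ L) u := hX l (List.suffix_cons q l)
    rw [List.cons_append, X_cons, e3, e4, vv_cons]
    set W := 4 * (v - u) ^ 2 + 2 * t * X h h' θ g ε L u with hW
    have f1 : h' q * ((v - u) ^ 2 * cc h h' (l ++ L) + (1 + t - 1) * X h h' θ g ε (l ++ L) u) ≤
        h q * W := by
      have g1 : (v - u) ^ 2 * cc h h' (l ++ L) ≤ (v - u) ^ 2 * 2 :=
        mul_le_mul_of_nonneg_left hccl2 (sq_nonneg _)
      have g2 : (1 + t - 1) * X h h' θ g ε (l ++ L) u ≤ t * X h h' θ g ε L u := by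
        have : (1 + t - 1) = t := by ring
        rw [this]
        exact mul_le_mul_of_nonneg_left hself ht0
      have g3 : 0 ≤ (v - u) ^ 2 * cc h h' (l ++ L) + (1 + t - 1) * X h h' θ g ε (l ++ L) u := by
        have : (1 + t - 1) = t := by ring
        rw [this]
        have := mul_nonneg ht0 hXu
        have := mul_nonneg (sq_nonneg (v - u)) (by linarith : 0 ≤ cc h h' (l ++ L))
        linarith
      calc h' q * ((v - u) ^ 2 * cc h h' (l ++ L) + (1 + t - 1) * X h h' θ g ε (l ++ L) u)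
          ≤ 2 * h q * ((v - u) ^ 2 * cc h h' (l ++ L) +
            (1 + t - 1) * X h h' θ g ε (l ++ L) u) := mul_le_mul_of_nonneg_right e2 g3
        _ ≤ 2 * h q * ((v - u) ^ 2 * 2 + t * X h h' θ g ε L u) :=
            mul_le_mul_of_nonneg_left (add_le_add g1 g2) (by linarith)
        _ = h q * W := by rw [hW]; ring
    have f2 := mul_le_mul_of_nonneg_left ih' (by linarith : 0 ≤ 1 - h q)
    calc (1 - h q) * X h h' θ g ε (l ++ L) v + h' q * ((v - u) ^ 2 * cc h h' (l ++ L) +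
          (1 + t - 1) * X h h' θ g ε (l ++ L) u)
        ≤ (1 - h q) * (vv h l * X h h' θ g ε L v + (1 - vv h l) * W) + h q * W :=
          add_le_add f2 f1
      _ = _ := by ring

lemma Ms_zero (h g : ℕ → ℝ) (L : List ℕ) (α : ℝ) : Ms h g L α 0 = α ^ 2 := by
  unfold Ms
  rw [K_zero]
  have : cc h h L = 1 := by
    unfold cc
    have : (fun q => 1 - h q + h q) = fun _ : ℕ => (1 : ℝ) := by funext q; ring
    rw [this]
    simp
  rw [this, mul_one]

/-- One block for the norm. -/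
lemma Ms_block (hg : ∀ q ∈ l, g q + ε = u) :
    Ms h g (l ++ L) ε 1 = vv h l * Ms h g L ε 1 + (1 - vv h l) * u ^ 2 := by
  induction l with
  | nil => simp [vv_nil]
  | cons q l ih =>
    have ih' := ih (fun x hx => hg x (List.mem_cons_of_mem _ hx))
    have e3 := hg q List.mem_cons_self
    rw [List.cons_append, Ms_cons, ih', Ms_zero, vv_cons]
    have : ε + 1 * g q = u := by linarith
    rw [this]
    ring

/-- One block for the full energy. -/
lemma Kf_block (h0 : ∀ q ∈ l, 0 ≤ h q) (h1 : ∀ q ∈ l, h q ≤ 1)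
    (hh' : ∀ q ∈ l, h' q ≤ 2 * h q) (hg : ∀ q ∈ l, g q + ε = u) (hθ : ∀ q ∈ l, θ q = 1 + t)
    (ht0 : 0 ≤ t) (ht : t ≤ 1 / 2) (hX : ∀ l', l' <:+ l → 0 ≤ X h h' θ g ε (l' ++ L) u)
    {Γ Δ : ℝ} (hΓ : ∀ q l', q :: l' <:+ l → h' q * cc h h' (l' ++ L) ≤ Γ * h q)
    (hK : K h h' θ g L ε 1 ≤ Γ * Ms h g L ε 1 + Δ) :
    K h h' θ g (l ++ L) ε 1 ≤ Γ * Ms h g (l ++ L) ε 1 +
      (vv h l * Δ + (1 - vv h l) * (2 * t * X h h' θ g ε L u)) := by
  induction l with
  | nil => simpa [vv_nil] using hK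
  | cons q l ih =>
    have e1 := h0 q List.mem_cons_self
    have e2 := hh' q List.mem_cons_self
    have e3 := hg q List.mem_cons_self
    have e4 := hθ q List.mem_cons_self
    have e5 := h1 q List.mem_cons_self
    have ih' := ih (fun x hx => h0 x (List.mem_cons_of_mem _ hx))
      (fun x hx => h1 x (List.mem_cons_of_mem _ hx))
      (fun x hx => hh' x (List.mem_cons_of_mem _ hx))
      (fun x hx => hg x (List.mem_cons_of_mem _ hx))
      (fun x hx => hθ x (List.mem_cons_of_mem _ hx))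
      (fun l' hl' => hX l' (hl'.trans (List.suffix_cons q l)))
      (fun x l' hl' => hΓ x l' (hl'.trans (List.suffix_cons q l)))
    have hself := X_block_self (fun x hx => h0 x (List.mem_cons_of_mem _ hx))
      (fun x hx => hh' x (List.mem_cons_of_mem _ hx))
      (fun x hx => hg x (List.mem_cons_of_mem _ hx))
      (fun x hx => hθ x (List.mem_cons_of_mem _ hx)) ht0 ht
      (fun l' hl' => hX l' (hl'.trans (List.suffix_cons q l)))
    have hXu : 0 ≤ X h h' θ g ε (l ++ L) u := hX l (List.suffix_cons q l)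
    have hΓq := hΓ q l (List.suffix_refl _)
    rw [List.cons_append, Ms_cons, Ms_zero, vv_cons, K, K_zero, e4]
    have a1 : ε + 1 * g q = u := by linarith
    have a2 : K h h' θ g (l ++ L) (1 * g q) (-1) = X h h' θ g ε (l ++ L) u := by
      unfold X
      congr 1
      linarith
    rw [a1, a2]
    have f0 := mul_le_mul_of_nonneg_left ih' (by linarith : 0 ≤ 1 - h q)
    have f1 : h' q * (u ^ 2 * cc h h' (l ++ L)) ≤ Γ * (h q * u ^ 2) := by
      have := mul_le_mul_of_nonneg_right hΓq (sq_nonneg u)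
      linarith
    have f2 : h' q * ((1 + t - 1) * X h h' θ g ε (l ++ L) u) ≤
        h q * (2 * t * X h h' θ g ε L u) := by
      have g2 : (1 + t - 1) * X h h' θ g ε (l ++ L) u ≤ t * X h h' θ g ε L u := by
        have : (1 + t - 1) = t := by ring
        rw [this]
        exact mul_le_mul_of_nonneg_left hself ht0
      have g3 : 0 ≤ (1 + t - 1) * X h h' θ g ε (l ++ L) u := by
        have : (1 + t - 1) = t := by ring
        rw [this]
        exact mul_nonneg ht0 hXu
      calc h' q * ((1 + t - 1) * X h h' θ g ε (l ++ L) u)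
          ≤ 2 * h q * ((1 + t - 1) * X h h' θ g ε (l ++ L) u) :=
            mul_le_mul_of_nonneg_right e2 g3
        _ ≤ 2 * h q * (t * X h h' θ g ε L u) := mul_le_mul_of_nonneg_left g2 (by linarith)
        _ = _ := by ring
    rw [mul_add]
    nlinarith [f0, f1, f2]

end block

end LPAP
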