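import Pool.Agent.Lib.MP_5b0a7e_nt.Lower

/-!
# Equidistribution and the existence criterion
-/

namespace LPAP

open Finset

variable {ι : Type} [Fintype ι] [DecidableEq ι]

/-- The outcome attached to an integer. -/
def ev (χ : ℕ → ℕ → Option ι) : (L : List ℕ) → ℕ → Om ι L
  | [], _ => .nil
  | q :: L, b => .cons (χ q (b % q)) (ev χ L b)

/-- Equidistribution of a finite set in all classes, with main term `M` and error `E`. -/
def Equi : List ℕ → Finset ℕ → ℝ → ℝ → Prop
  | [], B, M, E => |(B.card : ℝ) - M| ≤ E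
  | q :: L, B, M, E => Equi L B M E ∧ ∀ c < q, Equi L (B.filter (fun b => b % q = c)) (M / q) E

/-- The weights induced by the class maps. -/
noncomputable def pc (χ : ℕ → ℕ → Option ι) (q : ℕ) (s : Option ι) : ℝ :=
  (((Finset.range q).filter (fun c => χ q c = s)).card : ℝ) / q

/-- sum over the classes -/
lemma sum_pc (χ : ℕ → ℕ → Option ι) {q : ℕ} (f : Option ι → ℝ) :
    ∑ s, pc χ q s * f s = (∑ c ∈ Finset.range q, f (χ q c)) / q := by
  have h1 : ∑ c ∈ Finset.range q, f (χ q c) =
      ∑ s : Option ι, ∑ c ∈ (Finset.range q).filter (fun c => χ q c = s), f (χ q c) :=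
    (Finset.sum_fiberwise (Finset.range q) (χ q) (fun c => f (χ q c))).symm
  rw [h1, Finset.sum_div]
  refine Finset.sum_congr rfl fun s _ => ?_
  have h2 : ∑ c ∈ (Finset.range q).filter (fun c => χ q c = s), f (χ q c) =
      ∑ c ∈ (Finset.range q).filter (fun c => χ q c = s), f s := by
    refine Finset.sum_congr rfl fun c hc => ?_
    rw [(Finset.mem_filter.mp hc).2]
  rw [h2, Finset.sum_const, nsmul_eq_mul, pc]
  ring

omit [DecidableEq ι] in
lemma abs_avg_le {p : ℕ → Option ι → ℝ} {q : ℕ} {L : List ℕ} (hp : ∀ s, 0 ≤ p q s)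
    (hq : ∑ s, p q s = 1) {F : Om ι (q :: L) → ℝ} {C : ℝ} (hF : ∀ ω, |F ω| ≤ C)
    (ω : Om ι L) : |avg p F ω| ≤ C := by
  calc |avg p F ω| ≤ ∑ s, |p q s * sl F s ω| := Finset.abs_sum_le_sum_abs _ _
    _ ≤ ∑ s, p q s * C := by
        refine Finset.sum_le_sum fun s _ => ?_
        rw [abs_mul, abs_of_nonneg (hp s)]
        exact mul_le_mul_of_nonneg_left (hF _) (hp s)
    _ = C := by rw [← Finset.sum_mul, hq, one_mul]

omit [DecidableEq ι] in
lemma abs_ct_le {p : ℕ → Option ι → ℝ} {q : ℕ} {L : List ℕ} (hp : ∀ s, 0 ≤ p q s)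
    (hq : ∑ s, p q s = 1) {F : Om ι (q :: L) → ℝ} {C : ℝ} (hF : ∀ ω, |F ω| ≤ C)
    (s : Option ι) (ω : Om ι L) : |ct p F s ω| ≤ 2 * C := by
  have h1 := abs_avg_le hp hq hF ω
  have h2 : |sl F s ω| ≤ C := hF _
  calc |ct p F s ω| ≤ |sl F s ω| + |avg p F ω| := abs_sub _ _
    _ ≤ 2 * C := by linarith

/-- The error lemma. -/
lemma equi_error {p : ℕ → Option ι → ℝ} (χ : ℕ → ℕ → Option ι) {L : List ℕ}
    (hp : ∀ q ∈ L, ∀ s, 0 ≤ p q s) (hq : ∀ q ∈ L, ∑ s, p q s = 1) (hpos : ∀ q ∈ L, 0 < q)
    {E : ℝ} (hE : 0 ≤ E) {B : Finset ℕ} {M : ℝ} (hB : Equi L B M E) {R R' : ℝ} (hR : 0 < R)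
    (hR' : 0 < R') {F G : Om ι L → ℝ} {C C' : ℝ} (hC : 0 ≤ C) (hC' : 0 ≤ C')
    (hF : ∀ ω, |F ω| ≤ C) (hG : ∀ ω, |G ω| ≤ C') :
    |∑ b ∈ B, T p L R F (ev χ L b) * T p L R' G (ev χ L b) -
      M * ex (pc χ) L (fun ω => T p L R F ω * T p L R' G ω)| ≤
      E * C * C' * (R * R') ^ 3 * (L.map (fun q : ℕ => 1 + 8 / (q : ℝ) ^ 2)).prod := by
  induction L generalizing B M R R' C C' with
  | nil =>
    simp only [Equi] at hB
    simp only [List.map_nil, List.prod_nil, mul_one, ex, T, ev]
    rw [Finset.sum_const, nsmul_eq_mul, ← sub_mul, abs_mul]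
    have h1 : |(if 1 ≤ R then F Om.nil else 0) * (if 1 ≤ R' then G Om.nil else 0)| ≤
        C * C' * (R * R') ^ 3 := by
      rw [abs_mul]
      by_cases h : 1 ≤ R
      · by_cases h' : 1 ≤ R'
        · rw [if_pos h, if_pos h']
          have h2 : 1 ≤ (R * R') ^ 3 := one_le_pow₀ (one_le_mul_of_one_le_of_one_le h h')
          calc |F Om.nil| * |G Om.nil| ≤ C * C' :=
                mul_le_mul (hF _) (hG _) (abs_nonneg _) hC
            _ ≤ C * C' * (R * R') ^ 3 := le_mul_of_one_le_right (mul_nonneg hC hC') h2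
        · rw [if_neg h', abs_zero, mul_zero]
          positivity
      · rw [if_neg h, abs_zero, zero_mul]
        positivity
    calc |(B.card : ℝ) - M| * |(if 1 ≤ R then F Om.nil else 0) * (if 1 ≤ R' then G Om.nil else 0)|
        ≤ E * (C * C' * (R * R') ^ 3) := mul_le_mul hB h1 (abs_nonneg _) hE
      _ = _ := by ring
  | cons q L ih =>
    obtain ⟨hB0, hBc⟩ := hB
    have hq0 : 0 < q := hpos q List.mem_cons_self
    have hqR : (0 : ℝ) < q := by exact_mod_cast hq0
    have hq1 : (1 : ℝ) ≤ q := by exact_mod_cast hq0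
    have hpq := hp q List.mem_cons_self
    have hsq := hq q List.mem_cons_self
    have ih' := @ih (fun x hx => hp x (List.mem_cons_of_mem _ hx))
      (fun x hx => hq x (List.mem_cons_of_mem _ hx))
      (fun x hx => hpos x (List.mem_cons_of_mem _ hx))
    set P := (L.map (fun q : ℕ => 1 + 8 / (q : ℝ) ^ 2)).prod with hP
    have hP0 : 0 ≤ P := List.prod_nonneg (by
      intro a ha
      obtain ⟨x, hx, rfl⟩ := List.mem_map.mp ha
      positivity)
    set a := T p L R (avg p F) with ha
    set a' := T p L R' (avg p G) with ha'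
    set x := fun s => T p L (R / q) (ct p F s) with hx
    set x' := fun s => T p L (R' / q) (ct p G s) with hx'
    have hRq : 0 < R / q := by positivity
    have hRq' : 0 < R' / q := by positivity
    -- the four errors
    have e0 := @ih' B M hB0 R R' hR hR' (avg p F) (avg p G) C C' hC hC'
      (abs_avg_le hpq hsq hF) (abs_avg_le hpq hsq hG)
    have e1 : ∀ c < q, _ := fun c hc => @ih' _ _ (hBc c hc) R (R' / q) hR hRq' (avg p F)
      (ct p G (χ q c)) C (2 * C') hC (by positivity) (abs_avg_le hpq hsq hF)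
      (abs_ct_le hpq hsq hG _)
    have e2 : ∀ c < q, _ := fun c hc => @ih' _ _ (hBc c hc) (R / q) R' hRq hR'
      (ct p F (χ q c)) (avg p G) (2 * C) C' (by positivity) hC' (abs_ct_le hpq hsq hF _)
      (abs_avg_le hpq hsq hG)
    have e3 : ∀ c < q, _ := fun c hc => @ih' _ _ (hBc c hc) (R / q) (R' / q) hRq hRq'
      (ct p F (χ q c)) (ct p G (χ q c)) (2 * C) (2 * C') (by positivity) (by positivity)
      (abs_ct_le hpq hsq hF _) (abs_ct_le hpq hsq hG _)
    -- splitting the sum
    have hsum : ∑ b ∈ B, T p (q :: L) R F (ev χ (q :: L) b) * T p (q :: L) R' G (ev χ (q :: L) b)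
        = ∑ b ∈ B, a (ev χ L b) * a' (ev χ L b) +
          ∑ c ∈ Finset.range q, (∑ b ∈ B.filter (fun b => b % q = c),
              a (ev χ L b) * x' (χ q c) (ev χ L b) +
            ∑ b ∈ B.filter (fun b => b % q = c), x (χ q c) (ev χ L b) * a' (ev χ L b) +
            ∑ b ∈ B.filter (fun b => b % q = c),
              x (χ q c) (ev χ L b) * x' (χ q c) (ev χ L b)) := by
      have h1 : ∀ b, T p (q :: L) R F (ev χ (q :: L) b) * T p (q :: L) R' G (ev χ (q :: L) b) =
          a (ev χ L b) * a' (ev χ L b) + (a (ev χ L b) * x' (χ q (b % q)) (ev χ L b) +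
            x (χ q (b % q)) (ev χ L b) * a' (ev χ L b) +
            x (χ q (b % q)) (ev χ L b) * x' (χ q (b % q)) (ev χ L b)) := by
        intro b
        change (a (ev χ L b) + x (χ q (b % q)) (ev χ L b)) *
          (a' (ev χ L b) + x' (χ q (b % q)) (ev χ L b)) = _
        ring
      simp only [h1]
      rw [Finset.sum_add_distrib]
      congr 1
      have hmaps : ∀ b ∈ B, b % q ∈ Finset.range q := fun b _ =>
        Finset.mem_range.mpr (Nat.mod_lt _ hq0)
      rw [← Finset.sum_fiberwise_of_maps_to hmaps]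
      refine Finset.sum_congr rfl fun c _ => ?_
      rw [← Finset.sum_add_distrib, ← Finset.sum_add_distrib]
      refine Finset.sum_congr rfl fun b hb => ?_
      rw [(Finset.mem_filter.mp hb).2]
    have hexp : M * ex (pc χ) (q :: L) (fun ω => T p (q :: L) R F ω * T p (q :: L) R' G ω) =
        M * ex (pc χ) L (fun ω => a ω * a' ω) +
          ∑ c ∈ Finset.range q, (M / q * ex (pc χ) L (fun ω => a ω * x' (χ q c) ω) +
            M / q * ex (pc χ) L (fun ω => x (χ q c) ω * a' ω) +
            M / q * ex (pc χ) L (fun ω => x (χ q c) ω * x' (χ q c) ω)) := by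
      rw [ex, sum_pc χ (fun s => ex (pc χ) L
        (sl (fun ω => T p (q :: L) R F ω * T p (q :: L) R' G ω) s))]
      have h1 : ∀ s, ex (pc χ) L (sl (fun ω => T p (q :: L) R F ω * T p (q :: L) R' G ω) s) =
          ex (pc χ) L (fun ω => a ω * a' ω) + (ex (pc χ) L (fun ω => a ω * x' s ω) +
            ex (pc χ) L (fun ω => x s ω * a' ω) + ex (pc χ) L (fun ω => x s ω * x' s ω)) := by
        intro s
        rw [← ex_add, ← ex_add, ← ex_add]
        congr 1
        funext ω
        change (a ω + x s ω) * (a' ω + x' s ω) = _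
        ring
      simp only [h1]
      rw [Finset.sum_add_distrib, Finset.sum_const, Finset.card_range, nsmul_eq_mul, add_div,
        mul_add]
      congr 1
      · field_simp
      · rw [mul_div_assoc', div_eq_mul_inv, mul_assoc, Finset.sum_mul, Finset.mul_sum]
        refine Finset.sum_congr rfl fun c _ => ?_
        field_simp
    rw [hsum, hexp]
    have key : ∀ c ∈ Finset.range q,
        |(∑ b ∈ B.filter (fun b => b % q = c), a (ev χ L b) * x' (χ q c) (ev χ L b) +
            ∑ b ∈ B.filter (fun b => b % q = c), x (χ q c) (ev χ L b) * a' (ev χ L b) +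
            ∑ b ∈ B.filter (fun b => b % q = c),
              x (χ q c) (ev χ L b) * x' (χ q c) (ev χ L b)) -
          (M / q * ex (pc χ) L (fun ω => a ω * x' (χ q c) ω) +
            M / q * ex (pc χ) L (fun ω => x (χ q c) ω * a' ω) +
            M / q * ex (pc χ) L (fun ω => x (χ q c) ω * x' (χ q c) ω))| ≤
          E * C * C' * (R * R') ^ 3 * P * (8 / (q : ℝ) ^ 3) := by
      intro c hc
      have hc' := Finset.mem_range.mp hc
      have f1 := e1 c hc'
      have f2 := e2 c hc'
      have f3 := e3 c hc'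
      have tri : ∀ u v w u' v' w' : ℝ, |(u + v + w) - (u' + v' + w')| ≤
          |u - u'| + |v - v'| + |w - w'| := by
        intro u v w u' v' w'
        have : (u + v + w) - (u' + v' + w') = (u - u') + (v - v') + (w - w') := by ring
        rw [this]
        exact le_trans (abs_add_le _ _) (add_le_add_left (abs_add_le _ _) _)
      refine le_trans (tri _ _ _ _ _ _) ?_
      refine le_trans (add_le_add (add_le_add f1 f2) f3) ?_
      have g1 : E * C * (2 * C') * (R * (R' / q)) ^ 3 * P =
          E * C * C' * (R * R') ^ 3 * P * (2 / (q : ℝ) ^ 3) := by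
        field_simp
      have g2 : E * (2 * C) * C' * (R / q * R') ^ 3 * P =
          E * C * C' * (R * R') ^ 3 * P * (2 / (q : ℝ) ^ 3) := by
        field_simp
      have g3 : E * (2 * C) * (2 * C') * (R / q * (R' / q)) ^ 3 * P =
          E * C * C' * (R * R') ^ 3 * P * (4 / (q : ℝ) ^ 6) := by
        field_simp; ring
      rw [g1, g2, g3, ← mul_add, ← mul_add]
      refine mul_le_mul_of_nonneg_left ?_ (by positivity)
      have g4 : 4 / (q : ℝ) ^ 6 ≤ 4 / (q : ℝ) ^ 3 := by
        refine div_le_div_of_nonneg_left (by norm_num) (by positivity) ?_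
        exact pow_le_pow_right₀ hq1 (by norm_num)
      have g5 : (2 : ℝ) / (q : ℝ) ^ 3 + 2 / (q : ℝ) ^ 3 + 4 / (q : ℝ) ^ 3 = 8 / (q : ℝ) ^ 3 := by
        ring
      linarith
    have tri2 : ∀ u u' : ℝ, ∀ f f' : ℕ → ℝ, |(u + ∑ c ∈ Finset.range q, f c) -
        (u' + ∑ c ∈ Finset.range q, f' c)| ≤ |u - u'| +
          ∑ c ∈ Finset.range q, |f c - f' c| := by
      intro u u' f f'
      have : (u + ∑ c ∈ Finset.range q, f c) - (u' + ∑ c ∈ Finset.range q, f' c) =
          (u - u') + ∑ c ∈ Finset.range q, (f c - f' c) := by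
        rw [Finset.sum_sub_distrib]; ring
      rw [this]
      exact le_trans (abs_add_le _ _) (add_le_add_right (Finset.abs_sum_le_sum_abs _ _) _)
    refine le_trans (tri2 _ _ _ _) ?_
    refine le_trans (add_le_add e0 (Finset.sum_le_sum key)) ?_
    rw [Finset.sum_const, Finset.card_range, nsmul_eq_mul, List.map_cons, List.prod_cons]
    rw [← hP]
    have : (q : ℝ) * (E * C * C' * (R * R') ^ 3 * P * (8 / (q : ℝ) ^ 3)) =
        E * C * C' * (R * R') ^ 3 * P * (8 / (q : ℝ) ^ 2) := by
      field_simp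
    rw [this]
    apply le_of_eq
    ring

end LPAP
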