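import Pool.Agent.Lib.MP_5b0a7e_nt.Equi

/-!
# The existence criterion
-/

namespace LPAP

open Finset

variable {ι : Type} [Fintype ι] [DecidableEq ι]

/-- Forget all hits of the index `i`. -/
def kill (i : ι) (χ : ℕ → ℕ → Option ι) (q c : ℕ) : Option ι :=
  if χ q c = some i then none else χ q c

omit [Fintype ι] in
lemma ev_kill {χ : ℕ → ℕ → Option ι} {i : ι} {L : List ℕ} {b : ℕ}
    (hb : ∀ q ∈ L, χ q (b % q) ≠ some i) : ev (kill i χ) L b = ev χ L b := by
  induction L with
  | nil => rfl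
  | cons q L ih =>
    simp only [ev]
    rw [ih (fun x hx => hb x (List.mem_cons_of_mem _ hx))]
    congr 1
    exact if_neg (hb q List.mem_cons_self)

omit [DecidableEq ι] in
lemma ex_congr_weights {p p' : ℕ → Option ι → ℝ} {L : List ℕ}
    (hpp : ∀ q ∈ L, ∀ s, p q s = p' q s) (F : Om ι L → ℝ) : ex p L F = ex p' L F := by
  induction L with
  | nil => rfl
  | cons q L ih =>
    rw [ex, ex]
    refine Finset.sum_congr rfl fun s _ => ?_
    rw [hpp q List.mem_cons_self s, ih (fun x hx => hpp x (List.mem_cons_of_mem _ hx))]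

lemma pc_sum (χ : ℕ → ℕ → Option ι) {q : ℕ} (hq : 0 < q) : ∑ s, pc χ q s = 1 := by
  have h := sum_pc χ (q := q) (fun _ => (1 : ℝ))
  simp only [mul_one, Finset.sum_const, Finset.card_range, nsmul_eq_mul] at h
  rw [h]
  have : (q : ℝ) ≠ 0 := by exact_mod_cast hq.ne'
  exact div_self this

lemma pc_eq_wt {χ : ℕ → ℕ → Option ι} {h : ℕ → ℝ} {q : ℕ} (hq : 0 < q)
    (hχ : ∀ i : ι, pc χ q (some i) = h q) (s : Option ι) : pc χ q s = wt h q s := by
  cases s with
  | some i => exact hχ i
  | none =>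
    have h1 := pc_sum χ hq
    rw [Fintype.sum_option] at h1
    simp only [hχ, Finset.sum_const, Finset.card_univ, nsmul_eq_mul] at h1
    simp only [wt]
    linarith

lemma pc_kill {χ : ℕ → ℕ → Option ι} {h : ℕ → ℝ} {q : ℕ} (hq : 0 < q)
    (hχ : ∀ i : ι, pc χ q (some i) = h q) (i : ι) (s : Option ι) :
    pc (kill i χ) q s = wk h i q s := by
  have h0 : ∀ j : ι, pc (kill i χ) q (some j) = if j = i then 0 else h q := by
    intro j
    by_cases hj : j = i
    · rw [if_pos hj]
      subst hj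
      have : (Finset.range q).filter (fun c => kill j χ q c = some j) = ∅ := by
        apply Finset.filter_eq_empty_iff.mpr
        intro c _
        unfold kill
        split_ifs with h1
        · simp
        · exact h1
      unfold pc
      rw [this]
      simp
    · rw [if_neg hj, ← hχ j]
      unfold pc
      congr 3
      apply Finset.filter_congr
      intro c _
      unfold kill
      split_ifs with h1
      · rw [h1]
        constructor
        · intro h2; cases h2
        · intro h2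
          exact absurd (Option.some.inj h2).symm hj
      · exact Iff.rfl
  cases s with
  | some j => rw [h0 j]; rfl
  | none =>
    have h1 := pc_sum (kill i χ) hq
    rw [Fintype.sum_option] at h1
    simp only [h0] at h1
    have h2 : ∑ j : ι, (if j = i then (0 : ℝ) else h q) = ((Fintype.card ι : ℝ) - 1) * h q := by
      rw [← Finset.add_sum_erase Finset.univ _ (Finset.mem_univ i), if_pos rfl, zero_add]
      have h3 : ∑ j ∈ Finset.univ.erase i, (if j = i then (0 : ℝ) else h q) =
          ∑ j ∈ Finset.univ.erase i, h q := by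
        refine Finset.sum_congr rfl fun j hj => ?_
        rw [if_neg (Finset.ne_of_mem_erase hj)]
      rw [h3, Finset.sum_const, Finset.card_erase_of_mem (Finset.mem_univ i), Finset.card_univ,
        nsmul_eq_mul, Nat.cast_sub (Fintype.card_pos_iff.mpr ⟨i⟩)]
      simp
    rw [h2] at h1
    simp only [wk]
    linarith

/-- The existence criterion: some element of `B` hits all indices. -/
lemma exists_hit {h : ℕ → ℝ} {χ : ℕ → ℕ → Option ι} {L : List ℕ}
    (hh : ∀ q ∈ L, 0 ≤ h q) (hn : ∀ q ∈ L, (Fintype.card ι : ℝ) * h q ≤ 1)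
    (hχ : ∀ q ∈ L, ∀ i : ι, pc χ q (some i) = h q) (hpos : ∀ q ∈ L, 0 < q)
    {E : ℝ} (hE : 0 ≤ E) {B : Finset ℕ} {M : ℝ} (hB : Equi L B M E) {R : ℝ} (hR : 0 < R)
    {F : Om ι L → ℝ} (hF : ∀ ω, |F ω| ≤ 1)
    (hmain : ((Fintype.card ι : ℝ) + 1) * (E * (R * R) ^ 3 *
        (L.map (fun q : ℕ => 1 + 8 / (q : ℝ) ^ 2)).prod) <
      M * (ex (wt h) L (fun ω => T (wt h) L R F ω ^ 2) -
        ∑ i, ex (wk h i) L (fun ω => T (wt h) L R F ω ^ 2))) :
    ∃ b ∈ B, ∀ i : ι, ∃ q ∈ L, χ q (b % q) = some i := by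
  by_contra hcon
  push Not at hcon
  set TF := T (wt h) L R F with hTF
  set er := E * (R * R) ^ 3 * (L.map (fun q : ℕ => 1 + 8 / (q : ℝ) ^ 2)).prod with her
  have hwp : ∀ q ∈ L, ∀ s : Option ι, 0 ≤ wt h q s := fun q hq s =>
    wt_nonneg (hh q hq) (hn q hq) s
  have hws : ∀ q ∈ L, ∑ s : Option ι, wt h q s = 1 := fun q _ => wt_sum h q
  have hS : ∑ b ∈ B, TF (ev χ L b) ^ 2 ≤ ∑ i : ι, ∑ b ∈ B, TF (ev (kill i χ) L b) ^ 2 := by
    rw [Finset.sum_comm]
    refine Finset.sum_le_sum fun b hb => ?_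
    obtain ⟨i, hi⟩ := hcon b hb
    rw [← ev_kill hi]
    exact Finset.single_le_sum (f := fun i => TF (ev (kill i χ) L b) ^ 2)
      (fun j _ => sq_nonneg _) (Finset.mem_univ i)
  have h1 := equi_error χ hwp hws hpos hE hB hR hR (zero_le_one) (zero_le_one) hF hF
  have h2 : ∀ i, _ := fun i => equi_error (kill i χ) hwp hws hpos hE hB hR hR
    (zero_le_one) (zero_le_one) hF hF
  simp only [mul_one, ← hTF, ← pow_two (TF _)] at h1 h2
  rw [← her] at h1
  rw [ex_congr_weights (fun q hq s => pc_eq_wt (hpos q hq) (hχ q hq) s)] at h1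
  have h2' : ∀ i, |∑ b ∈ B, TF (ev (kill i χ) L b) ^ 2 -
      M * ex (wk h i) L (fun ω => TF ω ^ 2)| ≤ er := by
    intro i
    have := h2 i
    rw [ex_congr_weights (fun q hq s => pc_kill (hpos q hq) (hχ q hq) i s)] at this
    exact this
  have h3 := (abs_le.mp h1).1
  have h4 : ∑ i : ι, ∑ b ∈ B, TF (ev (kill i χ) L b) ^ 2 ≤
      ∑ i : ι, (M * ex (wk h i) L (fun ω => TF ω ^ 2) + er) :=
    Finset.sum_le_sum fun i _ => by linarith [(abs_le.mp (h2' i)).2]
  rw [Finset.sum_add_distrib, Finset.sum_const, Finset.card_univ, nsmul_eq_mul,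
    ← Finset.mul_sum] at h4
  rw [mul_sub] at hmain
  linarith

end LPAP
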