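import Pool.Agent.Lib.MP_5b0a7e_nt.Transfer
import Pool.Agent.Lib.GapSieve.Presieve5

/-!
# Moduli with few prime factors
-/

namespace LPAP

open Finset

lemma exponent_shift {δ t t' : ℝ} (hδ : 0 < δ) (hδ1 : δ ≤ 1 / 2) (ht : 9 / δ ≤ t)
    (ht1 : 1000 ≤ t) (h1 : t - 3 ≤ t') (h2 : t' ≤ t) (h3 : 2 ≤ Real.log (Real.log t)) :
    (1 / 2 - δ) * t * Real.log (Real.log t) / Real.log t ≤
      (1 / 2 - δ / 2) * t' * Real.log (Real.log t') / Real.log t' ∧
    Real.log (Real.log t) / 2 ≤ Real.log (Real.log t') ∧ 6 ≤ Real.log t' := by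
  have ht0 : 0 < t := by linarith
  have ht'0 : 0 < t' := by linarith
  have hm : 7 ≤ Real.log t := by
    by_contra hcon
    push Not at hcon
    have h0 : 0 < Real.log t := Real.log_pos (by linarith)
    have h4 : Real.log (Real.log t) ≤ Real.log 7 := Real.log_le_log h0 hcon.le
    have h5 : Real.log 7 < 2 := by
      rw [Real.log_lt_iff_lt_exp (by norm_num)]
      have := Real.exp_one_gt_d9
      have h6 : Real.exp 2 = Real.exp 1 * Real.exp 1 := by rw [← Real.exp_add]; norm_num
      rw [h6]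
      nlinarith
    linarith
  have hd : Real.log t - Real.log t' ≤ 6 / t := by
    rw [← Real.log_div ht0.ne' ht'0.ne']
    have h4 := Real.log_le_sub_one_of_pos (show 0 < t / t' by positivity)
    have h5 : t / t' - 1 ≤ 6 / t := by
      rw [div_sub_one ht'0.ne', div_le_div_iff₀ ht'0 ht0]
      nlinarith
    linarith
  have h6t : 6 / t ≤ 1 := by rw [div_le_one ht0]; linarith
  have hm' : 6 ≤ Real.log t' := by linarith
  have hmm' : Real.log t' ≤ Real.log t := Real.log_le_log ht'0 h2
  have hdd : Real.log (Real.log t) - Real.log (Real.log t') ≤ 6 / t := by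
    rw [← Real.log_div (by linarith) (by linarith)]
    have h4 := Real.log_le_sub_one_of_pos
      (show 0 < Real.log t / Real.log t' by apply div_pos <;> linarith)
    have h5 : Real.log t / Real.log t' - 1 ≤ 6 / t := by
      rw [div_sub_one (by linarith), div_le_iff₀ (by linarith)]
      have h6 : 0 < 6 / t := by positivity
      nlinarith
    linarith
  set l := Real.log (Real.log t) with hl
  set l' := Real.log (Real.log t') with hl'
  set m := Real.log t with hmdef
  set m' := Real.log t' with hm'def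
  have hl'2 : l / 2 ≤ l' := by linarith
  refine ⟨?_, hl'2, hm'⟩
  have h4 : (1 - 6 / t) * l ≤ l' := by
    have : 0 < 6 / t := by positivity
    nlinarith
  have h5 : (1 - 3 / t) * t ≤ t' := by
    have : (1 - 3 / t) * t = t - 3 := by field_simp
    linarith
  have h3t : 3 / t ≤ 1 := by rw [div_le_one ht0]; linarith
  have h6 : (1 - 3 / t) * t * ((1 - 6 / t) * l) ≤ t' * l' :=
    mul_le_mul h5 h4 (by apply mul_nonneg <;> linarith) ht'0.le
  have h7 : (1 - 9 / t) * (t * l) ≤ t' * l' := by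
    refine le_trans ?_ h6
    have h8 : (1 - 3 / t) * t * ((1 - 6 / t) * l) - (1 - 9 / t) * (t * l) = 18 / t * l := by
      field_simp
      ring
    have h9 : 0 ≤ 18 / t * l := by positivity
    linarith
  have h9δ : 9 / t ≤ δ := by
    rw [div_le_iff₀ hδ] at ht
    rw [div_le_iff₀ ht0]
    linarith
  have h10 : (1 / 2 - δ) * (t * l) ≤ (1 / 2 - δ / 2) * (t' * l') := by
    have h11 : (1 / 2 - δ) * (t * l) ≤ (1 / 2 - δ / 2) * ((1 - 9 / t) * (t * l)) := by
      have h12 : 0 ≤ 9 / t := by positivity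
      have h13 : (1 / 2 - δ) ≤ (1 / 2 - δ / 2) * (1 - 9 / t) := by nlinarith
      calc (1 / 2 - δ) * (t * l) ≤ (1 / 2 - δ / 2) * (1 - 9 / t) * (t * l) :=
            mul_le_mul_of_nonneg_right h13 (by positivity)
        _ = _ := by ring
    exact h11.trans (mul_le_mul_of_nonneg_left h7 (by linarith))
  calc (1 / 2 - δ) * t * l / m = (1 / 2 - δ) * (t * l) / m := by ring
    _ ≤ (1 / 2 - δ / 2) * (t' * l') / m := div_le_div_of_nonneg_right h10 (by linarith)
    _ ≤ (1 / 2 - δ / 2) * (t' * l') / m' := by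
        apply div_le_div_of_nonneg_left _ (by linarith) hmm'
        apply mul_nonneg (by linarith)
        apply mul_nonneg ht'0.le
        linarith
    _ = _ := by ring

open Classical in
/-- A progression modulo `a` starting with many composite terms, for the moduli `a` with few
prime factors up to `log a`. -/
theorem few_factors (δ : ℝ) (hδ : 0 < δ) : ∃ c : ℝ, 0 < c ∧ ∃ A₀ : ℕ, ∀ a : ℕ, A₀ ≤ a →
    ((a.primeFactors.filter (fun p : ℕ => (p : ℝ) ≤ Real.log a)).card : ℝ) ≤
      Real.exp ((1 / 2 - δ) * Real.log (Real.log a) *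
        Real.log (Real.log (Real.log (Real.log a))) / Real.log (Real.log (Real.log a))) →
    ∃ b U : ℕ, 1 ≤ b ∧ b < a ∧ b.Coprime a ∧ (∀ n < U, ¬ (a * n + b).Prime) ∧
      c * (a.totient : ℝ) * Real.log a * Real.log (Real.log a) ^ 2 *
        Real.log (Real.log (Real.log (Real.log a))) / Real.log (Real.log (Real.log a)) ^ 2 ≤
        (a : ℝ) * U := by
  obtain ⟨c₁, hc₁, hc₁10, X₀, htr⟩ := composite_of_presieve
  set δ' := min δ (1 / 2) with hδ'
  have hδ'0 : 0 < δ' := by positivity
  have hδ'1 : δ' ≤ 1 / 2 := min_le_right _ _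
  have hδ'δ : δ' ≤ δ := min_le_left _ _
  obtain ⟨c₂, hc₂, x₀, hps⟩ := Pool.Agent.Presieve.presieve5 (δ' / 2) (by positivity)
    (by linarith) c₁ hc₁
  set c' := min c₂ 1 with hc'
  have hc'0 : 0 < c' := by positivity
  have hc'1 : c' ≤ 1 := min_le_right _ _
  have hc'2 : c' ≤ c₂ := min_le_left _ _
  refine ⟨c' / 320, by positivity, ?_⟩
  have hlog := Real.tendsto_log_atTop
  have hev : ∀ᶠ x : ℝ in Filter.atTop, 1000 ≤ Real.log x ∧ 9 / δ' ≤ Real.log x ∧
      6 / c' + 3 ≤ Real.log x ∧ 2 ≤ Real.log (Real.log (Real.log x)) ∧ X₀ ≤ x ∧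
      10 * ((x₀ : ℝ) + 20) ≤ x :=
    (hlog.eventually_ge_atTop _).and ((hlog.eventually_ge_atTop _).and
      ((hlog.eventually_ge_atTop _).and ((((hlog.comp hlog).comp hlog).eventually_ge_atTop _).and
        ((Filter.eventually_ge_atTop _).and (Filter.eventually_ge_atTop _)))))
  obtain ⟨X₁, hX₁⟩ := Filter.eventually_atTop.1 hev
  refine ⟨⌈Real.exp X₁⌉₊, ?_⟩
  intro a ha hfew
  have haR : Real.exp X₁ ≤ a := le_trans (Nat.le_ceil _) (by exact_mod_cast ha)
  have ha0R : (0 : ℝ) < a := lt_of_lt_of_le (Real.exp_pos _) haR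
  have ha0 : a ≠ 0 := by
    intro h; rw [h] at ha0R; simp at ha0R
  have hxX : X₁ ≤ Real.log a := by
    rw [Real.le_log_iff_exp_le ha0R]; exact haR
  obtain ⟨ht1000, ht9, ht6, hl2, hX₀, hx₀⟩ := hX₁ _ hxX
  have hexpx : Real.exp (Real.log a) = a := Real.exp_log ha0R
  set x := Real.log a with hx
  set t := Real.log x with ht
  have hx₀' : (0 : ℝ) ≤ x₀ := Nat.cast_nonneg _
  have hx0 : 0 < x := by linarith
  set w := ⌊x / 10⌋₊ with hw
  have hwle : (w : ℝ) ≤ x / 10 := Nat.floor_le (by positivity)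
  have hwgt : x / 10 < w + 1 := Nat.lt_floor_add_one _
  have hw20 : x / 20 ≤ w := by linarith
  have hw0 : (0 : ℝ) < w := by linarith
  have hx₀w : x₀ ≤ w := by
    have : (x₀ : ℝ) ≤ w := by linarith
    exact_mod_cast this
  set t' := Real.log (w : ℝ) with ht'
  have htt' : t' ≤ t := Real.log_le_log hw0 (by linarith)
  have htt'3 : t - 3 ≤ t' := by
    have h1 : Real.log (x / 20) ≤ t' := Real.log_le_log (by positivity) hw20
    rw [Real.log_div hx0.ne' (by norm_num)] at h1
    have h2 : Real.log 20 ≤ 3 := by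
      rw [Real.log_le_iff_le_exp (by norm_num)]
      have h3 := Real.exp_one_gt_d9
      have h4 : Real.exp 3 = Real.exp 1 ^ 3 := by rw [← Real.exp_nat_mul]; norm_num
      rw [h4]
      have h5 : (2.7182818283 : ℝ) ^ 3 ≤ Real.exp 1 ^ 3 := pow_le_pow_left₀ (by norm_num) h3.le 3
      norm_num at h5 ⊢
      linarith
    linarith
  have hexpt' : Real.exp t' = w := Real.exp_log hw0
  obtain ⟨hshift, hl'l, hm'6⟩ := exponent_shift hδ'0 hδ'1 ht9 ht1000 htt'3 htt' hl2
  set m := Real.log t with hm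
  set m' := Real.log t' with hm'
  set l := Real.log m with hl
  set l' := Real.log m' with hl'
  have ht'0 : 0 < t' := by linarith
  have hm'0 : 0 < m' := by linarith
  have hl'1 : 1 ≤ l' := by linarith
  have hmm' : m' ≤ m := Real.log_le_log ht'0 htt'
  have hl0 : 0 < l := by linarith
  have hm0 : 0 < m := by linarith
  have hm't' : m' ≤ t' := by
    have := Real.log_le_sub_one_of_pos ht'0
    linarith
  have hl'm'2 : l' ≤ m' / 2 := by
    have h1 := Real.log_le_sub_one_of_pos (show 0 < m' / 2 by positivity)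
    rw [Real.log_div hm'0.ne' (by norm_num)] at h1
    have := Real.log_two_lt_d9
    linarith
  -- the excluded primes
  set E := a.primeFactors.filter (fun p => p ≤ w) with hE
  have hEp : ∀ p ∈ E, p.Prime := fun p hp =>
    Nat.prime_of_mem_primeFactors (Finset.mem_filter.mp hp).1
  have hEcard : (E.card : ℝ) ≤ Real.exp ((1 / 2 - δ' / 2) * t' * l' / m') := by
    have h1 : (E.card : ℝ) ≤
        ((a.primeFactors.filter (fun p : ℕ => (p : ℝ) ≤ Real.log a)).card : ℝ) := by
      have h2 : E ⊆ a.primeFactors.filter (fun p : ℕ => (p : ℝ) ≤ Real.log a) := by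
        intro p hp
        rw [hE, Finset.mem_filter] at hp
        rw [Finset.mem_filter]
        refine ⟨hp.1, ?_⟩
        have h3 : (p : ℝ) ≤ w := by exact_mod_cast hp.2
        rw [← hx]
        linarith
      exact_mod_cast Finset.card_le_card h2
    refine h1.trans (hfew.trans (Real.exp_le_exp.mpr (le_trans ?_ hshift)))
    apply div_le_div_of_nonneg_right _ hm0.le
    apply mul_le_mul_of_nonneg_right _ hl0.le
    apply mul_le_mul_of_nonneg_right _ (by linarith)
    linarith
  set ρ := ∏ p ∈ E, (1 - 1 / (p : ℝ)) with hρ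
  have hρ0 : 0 < ρ := Finset.prod_pos fun p hp => one_sub_inv_pos (hEp p hp)
  have hρ1 : ρ ≤ 1 := Finset.prod_le_one (fun p hp => (one_sub_inv_pos (hEp p hp)).le)
    (fun p _ => one_sub_inv_le_one p)
  have hρφ : (a.totient : ℝ) / a ≤ ρ := by
    rw [totient_div a ha0]
    exact prod_le_prod_subset (Finset.filter_subset _ _)
      (fun p hp => (one_sub_inv_pos (Nat.prime_of_mem_primeFactors hp)).le)
      (fun p _ => one_sub_inv_le_one p)
  have hρge : 1 / (2 * Real.exp (t' / 4)) ≤ ρ := by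
    have h1 := prod_one_sub_ge_card E (fun p hp => (hEp p hp).two_le)
    refine le_trans (one_div_le_one_div_of_le (by positivity) ?_) h1
    have h2 : (1 / 2 - δ' / 2) * t' * l' / m' ≤ t' / 4 := by
      rw [div_le_iff₀ hm'0]
      have h3 : (1 / 2 - δ' / 2) * t' * l' ≤ 1 / 2 * t' * (m' / 2) := by
        apply mul_le_mul _ hl'm'2 (by linarith) (by positivity)
        apply mul_le_mul_of_nonneg_right _ ht'0.le
        linarith
      linarith
    have h3 : (E.card : ℝ) ≤ Real.exp (t' / 4) := hEcard.trans (Real.exp_le_exp.mpr h2)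
    have h4 : 1 ≤ Real.exp (t' / 4) := Real.one_le_exp (by positivity)
    linarith
  -- the length
  set G := t' ^ 2 * l' / m' ^ 2 with hG
  have hG1 : 1 ≤ G := by
    rw [hG, one_le_div (by positivity)]
    have h1 : m' ^ 2 ≤ t' ^ 2 := pow_le_pow_left₀ hm'0.le hm't' 2
    nlinarith
  have hG2 : G ≤ t' ^ 2 := by
    rw [hG, div_le_iff₀ (by positivity)]
    apply mul_le_mul_of_nonneg_left _ (by positivity)
    nlinarith
  set V := c' * w * t' ^ 2 * l' / m' ^ 2 * ρ with hV
  have hVG : V = c' * w * G * ρ := by rw [hV, hG]; ring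
  have hV0 : 0 < V := by rw [hVG]; positivity
  have hV2 : 2 ≤ V := by
    have h1 : c' * w * 1 * (1 / (2 * Real.exp (t' / 4))) ≤ V := by
      rw [hVG]
      gcongr
    refine le_trans ?_ h1
    rw [← hexpt', mul_one, mul_one_div, le_div_iff₀ (by positivity)]
    have h2 : Real.exp t' = Real.exp (3 * t' / 4) * Real.exp (t' / 4) := by
      rw [← Real.exp_add]; congr 1; ring
    rw [h2]
    have h3 : 4 ≤ c' * Real.exp (3 * t' / 4) := by
      have h4 := Real.add_one_le_exp (3 * t' / 4)
      have h5 : 6 / c' ≤ t' := by linarith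
      rw [div_le_iff₀ hc'0] at h5
      nlinarith
    have h4 := Real.exp_pos (t' / 4)
    nlinarith
  set U := ⌊V⌋₊ with hU
  have hUV : (U : ℝ) ≤ V := Nat.floor_le hV0.le
  have hUV2 : V / 2 ≤ U := by
    have := Nat.lt_floor_add_one V
    linarith
  have hUw : U ≤ w ^ 2 := by
    have h1 : V ≤ (w : ℝ) ^ 2 := by
      have h2 : V ≤ 1 * w * t' ^ 2 * 1 := by
        rw [hVG]
        gcongr
      have h3 : t' ^ 2 ≤ w := by
        have h4 := Real.quadratic_le_exp_of_nonneg (show 0 ≤ t' / 2 by positivity)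
        have h5 : t' ≤ Real.exp (t' / 2) := by nlinarith
        have h6 : (w : ℝ) = Real.exp (t' / 2) * Real.exp (t' / 2) := by
          rw [← Real.exp_add, ← hexpt']; congr 1; ring
        rw [h6]
        nlinarith
      nlinarith
    have h2 : (U : ℝ) ≤ (w : ℝ) ^ 2 := hUV.trans h1
    exact_mod_cast h2
  obtain ⟨r, hr⟩ := hps w hx₀w E hEp hEcard U (by
    refine hUV.trans ?_
    rw [hV]
    gcongr)
  obtain ⟨b, hb1, hba, hbcop, hbU⟩ := htr a (le_trans (Real.exp_le_exp.mpr hX₀) (by rw [hexpx]))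
    U r hUw (by
      refine le_trans ?_ hr
      rw [← Finset.card_image_of_injective _ (add_left_injective 1)]
      refine Nat.cast_le.mpr (Finset.card_le_card ?_)
      intro n hn
      rw [Finset.mem_image] at hn
      obtain ⟨k, hk, rfl⟩ := hn
      have hk1 := (@Finset.mem_filter _ _ (_) _ _).1 hk
      refine (@Finset.mem_filter _ _ (_) _ _).2 ⟨?_, ?_⟩
      · rw [Finset.mem_Ioc]
        have := Finset.mem_range.mp hk1.1
        omega
      · intro p hp hpw hpE
        refine hk1.2 p (mem_sp.mpr ⟨hpw, hp, fun hpa => hpE ?_⟩)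
        rw [hE, Finset.mem_filter, Nat.mem_primeFactors]
        exact ⟨⟨hp, hpa, ha0⟩, hpw⟩)
  refine ⟨b, U, hb1, hba, hbcop, hbU, ?_⟩
  have h1 : (a : ℝ) * (V / 2) ≤ a * U := mul_le_mul_of_nonneg_left hUV2 ha0R.le
  refine le_trans ?_ h1
  have h2 : c' * (x / 20) * (t / 2) ^ 2 * (l / 2) / m ^ 2 * (a.totient / a) ≤ V := by
    rw [hV]
    have h3 : t / 2 ≤ t' := by linarith
    gcongr
  calc c' / 320 * (a.totient : ℝ) * x * t ^ 2 * l / m ^ 2 =
      a * ((c' * (x / 20) * (t / 2) ^ 2 * (l / 2) / m ^ 2 * (a.totient / a)) / 2) := by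
        field_simp
        ring
    _ ≤ a * (V / 2) := by
        apply mul_le_mul_of_nonneg_left _ ha0R.le
        linarith

end LPAP
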