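import Pool.Agent.Lib.MP_5b0a7e_nt.GridSieve
import Pool.Agent.Lib.MP_5b0a7e_nt.FewFactors
import Pool.Agent.Lib.L2Apps.Gen

/-!
# Moduli `a` for which all the classes `b`, `0 < |b| ≤ k`, have a large least prime
-/

open Finset
open scoped Classical

namespace Pool.Agent.FixedClass

open LPAP

/-- Chinese remainder theorem for the primes `p ≤ w`. -/
lemma exists_crt' (w : ℕ) (ρ : ℕ → ℕ) :
    ∃ a₀ : ℕ, ∀ p : ℕ, p.Prime → p ≤ w → a₀ ≡ ρ p [MOD p] := by
  have hpw : Set.Pairwise (↑(sp w 1) : Set ℕ) (Function.onFun Nat.Coprime (fun p : ℕ => p)) := by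
    intro p hp q hq hpq
    exact (Nat.coprime_primes (mem_sp.mp hp).2.1 (mem_sp.mp hq).2.1).mpr hpq
  obtain ⟨a₀, ha₀⟩ := Nat.chineseRemainderOfFinset ρ
    (fun p : ℕ => p) (sp w 1) (fun p hp => (mem_sp.mp hp).2.1.ne_zero) hpw
  refine ⟨a₀, fun p hp hpw => ha₀ p (mem_sp.2 ⟨hpw, hp, ?_⟩)⟩
  intro h
  exact hp.one_lt.ne' (Nat.dvd_one.1 h)

/-- decoded residue of a site -/
noncomputable def fs (m q : ℕ) : ℕ :=
  match (Encodable.decode m : Option (ℕ × ℤ)) with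
  | some s => rs q s.1 s.2
  | none => 0

lemma fs_encode (s : ℕ × ℤ) (q : ℕ) : fs (Encodable.encode s) q = rs q s.1 s.2 := by
  unfold fs
  rw [Encodable.encodek]

lemma site_inj {q U k : ℕ} (hq : q.Prime) (hU : 2 * (k * U) < q) {n n' : ℕ} {b b' : ℤ}
    (hn : 1 ≤ n) (hnU : n ≤ U) (hn' : 1 ≤ n') (hnU' : n' ≤ U) (hb : |b| ≤ k) (hb' : |b'| ≤ k)
    (hk : 1 ≤ k)
    (hg : Int.gcd n b = 1) (hg' : Int.gcd n' b' = 1) (h : rs q n b = rs q n' b') :
    n = n' ∧ b = b' := by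
  have hUk : U ≤ k * U := Nat.le_mul_of_pos_left U hk
  have hqn : ¬ q ∣ n := Nat.not_dvd_of_pos_of_lt (by omega) (by omega)
  have hqn' : ¬ q ∣ n' := Nat.not_dvd_of_pos_of_lt (by omega) (by omega)
  have h1 := rs_dvd hq hqn b (Nat.ModEq.refl (rs q n b))
  have h2 := rs_dvd hq hqn' b' (Nat.ModEq.refl (rs q n' b'))
  rw [← h] at h2
  have h3 : (q : ℤ) ∣ b * n' - b' * n := by
    have h4 : b * n' - b' * n = ((rs q n b : ℤ) * n + b) * n' - ((rs q n b : ℤ) * n' + b') * n := by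
      ring
    rw [h4]
    exact dvd_sub (h1.mul_right _) (h2.mul_right _)
  have h5 : b * n' - b' * n = 0 := by
    apply Int.eq_zero_of_abs_lt_dvd h3
    have e1 : |b * n'| ≤ k * U := by
      rw [abs_mul, abs_of_nonneg (show (0:ℤ) ≤ n' by positivity)]
      exact mul_le_mul hb (by exact_mod_cast hnU') (by positivity) (by positivity)
    have e2 : |b' * n| ≤ k * U := by
      rw [abs_mul, abs_of_nonneg (show (0:ℤ) ≤ n by positivity)]
      exact mul_le_mul hb' (by exact_mod_cast hnU) (by positivity) (by positivity)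
    have e3 := abs_sub (b * n') (b' * n)
    have e4 : (2 * (k * U) : ℤ) < q := by exact_mod_cast hU
    linarith
  have h6 : b * n' = b' * n := by linarith
  have h7 : (n : ℤ) ∣ n' := by
    have h8 : (n : ℤ) ∣ b * n' := ⟨b', by rw [h6]; ring⟩
    exact (Int.isCoprime_iff_gcd_eq_one.2 hg).dvd_of_dvd_mul_left h8
  have h8 : (n' : ℤ) ∣ n := by
    have h8 : (n' : ℤ) ∣ b' * n := ⟨b, by rw [← h6]; ring⟩
    exact (Int.isCoprime_iff_gcd_eq_one.2 hg').dvd_of_dvd_mul_left h8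
  have h9 : n = n' := Nat.dvd_antisymm (by exact_mod_cast h7) (by exact_mod_cast h8)
  refine ⟨h9, ?_⟩
  subst h9
  have : (n : ℤ) ≠ 0 := by positivity
  exact mul_right_cancel₀ this h6

lemma eventually_w (c : ℝ) (hc : 0 < c) : ∀ᶠ w : ℕ in Filter.atTop,
    4 * Real.log (Real.log w) ^ 2 * ((w : ℝ) ^ (1 - 1 / 32 : ℝ) + 4) ≤ c * w := by
  have h1 : Filter.Tendsto (fun x : ℕ => (x : ℝ)) Filter.atTop Filter.atTop :=
    tendsto_natCast_atTop_atTop
  have h2 : (fun x : ℝ => Real.log x ^ 2) =o[Filter.atTop] (fun x : ℝ => x ^ (1 / 32 : ℝ)) := by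
    have h := isLittleO_log_rpow_rpow_atTop (s := (1 / 32 : ℝ)) (2 : ℝ) (by norm_num)
    refine h.congr_left fun x => ?_
    exact_mod_cast Real.rpow_natCast (Real.log x) 2
  have h3 := h2.bound (show (0:ℝ) < c / 20 by positivity)
  filter_upwards [h1.eventually h3, h1.eventually (Filter.eventually_ge_atTop 1),
    h1.eventually (Real.tendsto_log_atTop.eventually_ge_atTop 1)] with w hw hw1 hlw
  have hw0 : (0:ℝ) < w := by linarith
  have h4 : 0 ≤ Real.log w ^ 2 := sq_nonneg _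
  rw [Real.norm_of_nonneg h4, Real.norm_of_nonneg (by positivity)] at hw
  have h5 : 0 ≤ Real.log (Real.log w) := Real.log_nonneg hlw
  have h6 : Real.log (Real.log w) ≤ Real.log w := by
    have := Real.log_le_sub_one_of_pos (show 0 < Real.log w by linarith)
    linarith
  have h7 : Real.log (Real.log w) ^ 2 ≤ Real.log w ^ 2 := pow_le_pow_left₀ h5 h6 2
  have h8 : (1:ℝ) ≤ (w : ℝ) ^ (1 - 1 / 32 : ℝ) := Real.one_le_rpow hw1 (by norm_num)
  have h9 : (w : ℝ) ^ (1 / 32 : ℝ) * (w : ℝ) ^ (1 - 1 / 32 : ℝ) = w := by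
    rw [← Real.rpow_add hw0]; norm_num
  calc 4 * Real.log (Real.log w) ^ 2 * ((w : ℝ) ^ (1 - 1 / 32 : ℝ) + 4)
      ≤ 4 * (c / 20 * (w : ℝ) ^ (1 / 32 : ℝ)) * (5 * (w : ℝ) ^ (1 - 1 / 32 : ℝ)) := by
        gcongr
        · exact h7.trans hw
        · linarith
    _ = c * ((w : ℝ) ^ (1 / 32 : ℝ) * (w : ℝ) ^ (1 - 1 / 32 : ℝ)) := by ring
    _ = c * w := by rw [h9]

lemma four_sq_le_exp {t : ℝ} (ht : 100 ≤ t) : 4 * t ^ 2 ≤ Real.exp t := by
  have h4 := Real.quadratic_le_exp_of_nonneg (show 0 ≤ t / 2 by linarith)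
  have h6 : Real.exp t = Real.exp (t / 2) ^ 2 := by
    rw [← Real.exp_nat_mul]; congr 1; push_cast; ring
  have h5 : 2 * t ≤ Real.exp (t / 2) := by nlinarith
  rw [h6]
  have h7 := pow_le_pow_left₀ (by linarith) h5 2
  linarith [mul_pow 2 t 2]

lemma big_exp {x Y : ℝ} (hx : 1000 ≤ x) (hY : Y ≤ Real.exp (x / 10)) :
    x + x + Y + x / 10 ≤ Real.exp x := by
  have h3 : Real.exp x = Real.exp (x / 10) * Real.exp (9 * x / 10) := by
    rw [← Real.exp_add]; congr 1; ring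
  have h4 := Real.quadratic_le_exp_of_nonneg (show 0 ≤ 9 * x / 10 by linarith)
  have h5 : 1 ≤ Real.exp (x / 10) := Real.one_le_exp (by linarith)
  have h6 : 1 + 3 * x ≤ Real.exp (9 * x / 10) := by nlinarith
  have h7 : Real.exp (x / 10) * (1 + 3 * x) ≤ Real.exp x := by
    rw [h3]
    exact mul_le_mul_of_nonneg_left h6 (by linarith)
  have h8 : 3 * x ≤ Real.exp (x / 10) * (3 * x) := by
    have : 0 ≤ 3 * x := by linarith
    nlinarith
  linarith

lemma exp_three : Real.log 20 ≤ 3 := by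
  rw [Real.log_le_iff_le_exp (by norm_num)]
  have h3 := Real.exp_one_gt_d9
  have h4 : Real.exp 3 = Real.exp 1 ^ 3 := by rw [← Real.exp_nat_mul]; norm_num
  rw [h4]
  have h5 : (2.7182818283 : ℝ) ^ 3 ≤ Real.exp 1 ^ 3 := pow_le_pow_left₀ (by norm_num) h3.le 3
  norm_num at h5 ⊢
  linarith

/-- Every interval `(X, X + H]`, `X ≥ H`, contains an `a` such that no number `a n + b` with
`1 ≤ n ≤ U`, `0 < |b| ≤ k` is prime; here `k U` is about
`log H (log₂ H)² log₄ H / (log₃ H)²`. -/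
theorem composite_grid : ∃ c : ℝ, 0 < c ∧ ∃ H₀ : ℕ, ∀ H X k : ℕ, H₀ ≤ H → H ≤ X → 1 ≤ k →
    (k : ℝ) ≤ Real.log (Real.log H) ^ 2 →
    ∃ a U : ℕ, X < a ∧ a ≤ X + H ∧ 2 * k < a ∧ (∀ b : ℕ, 1 ≤ b → b ≤ k → a.Coprime b) ∧
      (∀ n : ℕ, 1 ≤ n → n ≤ U → ∀ b : ℤ, b ≠ 0 → |b| ≤ k → ∀ p : ℕ, p.Prime →
        (p : ℤ) ≠ a * n + b) ∧
      c * Real.log H * Real.log (Real.log H) ^ 2 *
        Real.log (Real.log (Real.log (Real.log H))) / Real.log (Real.log (Real.log H)) ^ 2 ≤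
        (k : ℝ) * U := by
  obtain ⟨A, hA, N₀, hmain⟩ := Pool.Agent.L2Apps.exists_all_hit_gen
  obtain ⟨N₁, hN₁⟩ := eventually_numeric
  set c₁ : ℝ := min (1 / 10) (1 / (10 * A)) with hc₁
  have hc0 : 0 < c₁ := by rw [hc₁]; positivity
  have hc10 : c₁ ≤ 1 / 10 := min_le_left _ _
  have hcA : c₁ * A ≤ 1 / 10 := by
    have h1 : c₁ ≤ 1 / (10 * A) := min_le_right _ _
    calc c₁ * A ≤ 1 / (10 * A) * A := mul_le_mul_of_nonneg_right h1 hA.le
      _ = 1 / 10 := by field_simp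
  obtain ⟨c₂, hc₂, hc₂1, x₀, hps⟩ := presieve_grid c₁ hc0
  obtain ⟨w₀, hw₀⟩ := Filter.eventually_atTop.1 (eventually_w c₂ hc₂)
  refine ⟨c₂ / 320, by positivity, ?_⟩
  have hlog := Real.tendsto_log_atTop
  have hev : ∀ᶠ x : ℝ in Filter.atTop, 1000 ≤ Real.log x ∧ 9 / (1 / 2) ≤ Real.log x ∧
      2 ≤ Real.log (Real.log (Real.log x)) ∧
      10 * ((x₀ : ℝ) + w₀ + 20) ≤ x ∧ 4 / c₁ ^ 2 ≤ x ∧
      ((N₀ : ℝ) + N₁ + 10) * (2 / c₁) ≤ x ∧ 1000 ≤ x :=
    (hlog.eventually_ge_atTop _).and ((hlog.eventually_ge_atTop _).and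
      ((((hlog.comp hlog).comp hlog).eventually_ge_atTop _).and
        ((Filter.eventually_ge_atTop _).and ((Filter.eventually_ge_atTop _).and
          ((Filter.eventually_ge_atTop _).and (Filter.eventually_ge_atTop _))))))
  obtain ⟨X₁, hX₁⟩ := Filter.eventually_atTop.1 hev
  refine ⟨⌈Real.exp X₁⌉₊, ?_⟩
  intro H X k hH hHX hk hkH
  have hHR : Real.exp X₁ ≤ H := le_trans (Nat.le_ceil _) (by exact_mod_cast hH)
  have hH0R : (0 : ℝ) < H := lt_of_lt_of_le (Real.exp_pos _) hHR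
  have hxX : X₁ ≤ Real.log H := by
    rw [Real.le_log_iff_exp_le hH0R]; exact hHR
  obtain ⟨ht1000, ht9, hl2, hx₀w₀, hx3, hx4, hx1⟩ := hX₁ _ hxX
  have hexpx : Real.exp (Real.log H) = H := Real.exp_log hH0R
  set x := Real.log H with hx
  set t := Real.log x with ht
  have hx₀' : (0 : ℝ) ≤ x₀ := Nat.cast_nonneg _
  have hw₀' : (0 : ℝ) ≤ w₀ := Nat.cast_nonneg _
  have hx0 : 0 < x := by linarith
  have hkR : (1:ℝ) ≤ k := by exact_mod_cast hk
  -- N
  set N := ⌊c₁ * x⌋₊ with hN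
  have hNle : (N : ℝ) ≤ c₁ * x := Nat.floor_le (by positivity)
  have hNgt : c₁ * x < N + 1 := Nat.lt_floor_add_one _
  have hcx : ((N₀ : ℝ) + N₁ + 10) ≤ c₁ * x / 2 := by
    have h1 := mul_le_mul_of_nonneg_left hx4 (by positivity : 0 ≤ c₁ / 2)
    have h2 : c₁ / 2 * (((N₀ : ℝ) + N₁ + 10) * (2 / c₁)) = (N₀ : ℝ) + N₁ + 10 := by
      field_simp
    rw [h2] at h1
    linarith
  have hN0' : (0 : ℝ) ≤ N₀ := Nat.cast_nonneg _
  have hN1' : (0 : ℝ) ≤ N₁ := Nat.cast_nonneg _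
  have hNhalf : c₁ * x / 2 ≤ N := by linarith
  have hNbig : (N₀ : ℝ) + N₁ + 10 ≤ N := by linarith
  have hNN₀ : N₀ ≤ N := by
    have : (N₀ : ℝ) ≤ N := by linarith
    exact_mod_cast this
  have hNN₁ : N₁ ≤ N := by
    have : (N₁ : ℝ) ≤ N := by linarith
    exact_mod_cast this
  have hN10 : 10 ≤ N := by
    have : (10 : ℝ) ≤ N := by linarith
    exact_mod_cast this
  have hNR : (10 : ℝ) ≤ N := by exact_mod_cast hN10
  obtain ⟨hlog10, hlog6⟩ := hN₁ N hNN₁
  have hxN2 : x ≤ (N : ℝ) ^ 2 := by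
    have h1 : (c₁ * x / 2) ^ 2 ≤ (N : ℝ) ^ 2 := pow_le_pow_left₀ (by positivity) hNhalf 2
    refine le_trans ?_ h1
    have h2 : 4 ≤ x * c₁ ^ 2 := by
      rw [div_le_iff₀ (by positivity)] at hx3; exact hx3
    have h3 : (c₁ * x / 2) ^ 2 = x * (x * c₁ ^ 2) / 4 := by ring
    rw [h3]
    nlinarith
  -- w
  set w := ⌊x / 10⌋₊ with hw
  have hwle : (w : ℝ) ≤ x / 10 := Nat.floor_le (by positivity)
  have hwgt : x / 10 < w + 1 := Nat.lt_floor_add_one _
  have hw20 : x / 20 ≤ w := by linarith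
  have hw0 : (0 : ℝ) < w := by linarith
  have hx₀w : x₀ ≤ w := by
    have : (x₀ : ℝ) ≤ w := by linarith
    exact_mod_cast this
  have hw₀w : w₀ ≤ w := by
    have : (w₀ : ℝ) ≤ w := by linarith
    exact_mod_cast this
  have hwN : w ≤ N ^ 2 := by
    have : (w : ℝ) ≤ (N : ℝ) ^ 2 := by linarith
    exact_mod_cast this
  have hN25 : N ^ 2 ≤ N ^ 5 := Nat.pow_le_pow_right (by omega) (by norm_num)
  set W := Wp w 1 with hW
  have hWpos : 0 < W := Wp_pos w 1
  have hWR : (0 : ℝ) < W := by exact_mod_cast hWpos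
  have hWle : (W : ℝ) ≤ Real.exp (0.14 * x) := by
    have h1 : (W : ℝ) ≤ (4 : ℝ) ^ w := by exact_mod_cast Wp_le w 1
    refine le_trans h1 ?_
    have h2 : (4 : ℝ) ^ w = Real.exp (w * Real.log 4) := by
      rw [Real.exp_nat_mul, Real.exp_log (by norm_num)]
    rw [h2]
    apply Real.exp_le_exp.mpr
    have h3 : Real.log 4 ≤ 1.3863 := by
      have h4 : Real.log 4 = 2 * Real.log 2 := by
        have : (4 : ℝ) = 2 ^ 2 := by norm_num
        rw [this, Real.log_pow]; norm_num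
      rw [h4]
      have := Real.log_two_lt_d9
      linarith
    calc (w : ℝ) * Real.log 4 ≤ (x / 10) * 1.3863 :=
          mul_le_mul hwle h3 (Real.log_nonneg (by norm_num)) (by positivity)
      _ ≤ 0.14 * x := by linarith
  -- Y
  set Y := (N ^ 5) ^ 2 ^ (Nat.log 8 N) with hY
  have hYexp : (Y : ℝ) ≤ Real.exp (x / 10) := by
    refine le_trans (log_Y_le hlog10 hlog6 (by omega)) ?_
    apply Real.exp_le_exp.mpr
    calc (N : ℝ) ≤ c₁ * x := hNle
      _ ≤ 1 / 10 * x := mul_le_mul_of_nonneg_right hc10 hx0.le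
      _ = x / 10 := by ring
  -- the logarithms
  set t' := Real.log (w : ℝ) with ht'
  have htt' : t' ≤ t := Real.log_le_log hw0 (by linarith)
  have htt'3 : t - 3 ≤ t' := by
    have h1 : Real.log (x / 20) ≤ t' := Real.log_le_log (by positivity) hw20
    rw [Real.log_div hx0.ne' (by norm_num)] at h1
    have h2 := exp_three
    linarith
  obtain ⟨-, hl'l, hm'6⟩ := exponent_shift (δ := 1 / 2) (by norm_num) le_rfl ht9 ht1000 htt'3
    htt' hl2
  set m := Real.log t with hm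
  set m' := Real.log t' with hm'
  set l := Real.log m with hl
  set l' := Real.log m' with hl'
  have ht'0 : 0 < t' := by linarith
  have hm'0 : 0 < m' := by linarith
  have hl'1 : 1 ≤ l' := by linarith
  have hmm' : m' ≤ m := Real.log_le_log ht'0 htt'
  have hl0 : 0 < l := by linarith
  have hm0 : 0 < m := by linarith
  have hl'm' : l' ≤ m' := by
    have := Real.log_le_sub_one_of_pos hm'0
    linarith
  have hkt : (k : ℝ) ≤ 4 * t' ^ 2 := by
    have h1 : t ≤ 2 * t' := by linarith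
    have h2 : t ^ 2 ≤ (2 * t') ^ 2 := pow_le_pow_left₀ (by linarith) h1 2
    have h3 : (2 * t') ^ 2 = 4 * t' ^ 2 := by ring
    linarith
  have htw : 4 * t' ^ 2 ≤ w := by
    have hexpt' : Real.exp t' = w := Real.exp_log hw0
    rw [← hexpt']
    exact four_sq_le_exp (by linarith)
  -- the length
  set V := c₂ * w * t' ^ 2 * l' / m' ^ 2 with hV
  have hV0 : 0 < V := by rw [hV]; positivity
  have hVw := hw₀ w hw₀w
  have hVge : 4 * t' ^ 2 * ((w : ℝ) ^ (1 - 1 / 32 : ℝ) + 4) ≤ V := by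
    rw [hV, le_div_iff₀ (by positivity)]
    calc 4 * t' ^ 2 * ((w : ℝ) ^ (1 - 1 / 32 : ℝ) + 4) * m' ^ 2
        = (4 * m' ^ 2 * ((w : ℝ) ^ (1 - 1 / 32 : ℝ) + 4)) * t' ^ 2 * 1 := by ring
      _ ≤ (c₂ * w) * t' ^ 2 * l' := by gcongr
  have hVk : (k : ℝ) * ((w : ℝ) ^ (1 - 1 / 32 : ℝ) + 4) ≤ V := by
    refine le_trans ?_ hVge
    exact mul_le_mul_of_nonneg_right hkt (by positivity)
  set U := ⌊V / k⌋₊ with hU
  have hUV : (k : ℝ) * U ≤ V := by
    have h1 : (U : ℝ) ≤ V / k := Nat.floor_le (by positivity)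
    calc (k : ℝ) * U ≤ k * (V / k) := mul_le_mul_of_nonneg_left h1 (by linarith)
      _ = V := by field_simp
  have hUgt : V / k < U + 1 := Nat.lt_floor_add_one _
  have hUbig : (w : ℝ) ^ (1 - 1 / 32 : ℝ) < U := by
    have h1 : (w : ℝ) ^ (1 - 1 / 32 : ℝ) + 4 ≤ V / k := by
      rw [le_div_iff₀ (by linarith)]
      linarith
    linarith
  have hUV2 : V / 2 ≤ (k : ℝ) * U := by
    rw [div_lt_iff₀ (by linarith)] at hUgt
    have h1 : (0:ℝ) ≤ (w : ℝ) ^ (1 - 1 / 32 : ℝ) := by positivity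
    have h2 : (k : ℝ) * 4 ≤ V := by
      refine le_trans ?_ hVk
      exact mul_le_mul_of_nonneg_left (by linarith) (by linarith)
    linarith
  have hUw : 2 * (k * U) ≤ N ^ 5 := by
    have h1 : V ≤ (w : ℝ) ^ 2 := by
      have h2 : V ≤ 1 / 2 * w * t' ^ 2 * 1 := by
        have h5 : l' / m' ^ 2 ≤ 1 := by
          rw [div_le_one (by positivity)]
          nlinarith
        have h6 : V = c₂ * w * t' ^ 2 * (l' / m' ^ 2) := by rw [hV]; ring
        rw [h6]
        gcongr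
      have h3 : 1 / 2 * (w : ℝ) * t' ^ 2 ≤ 1 / 2 * (w : ℝ) * w :=
        mul_le_mul_of_nonneg_left (by linarith [sq_nonneg t']) (by linarith)
      have h4 : 0 ≤ (w : ℝ) * w := by positivity
      rw [pow_two]
      linarith
    have h2 : (2 * (k * U) : ℝ) ≤ 2 * (w : ℝ) ^ 2 := by linarith
    have h3 : 2 * (k * U) ≤ 2 * w ^ 2 := by exact_mod_cast h2
    calc 2 * (k * U) ≤ 2 * w ^ 2 := h3
      _ ≤ N * (N ^ 2) ^ 2 := Nat.mul_le_mul (by omega) (Nat.pow_le_pow_left hwN 2)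
      _ = N ^ 5 := by ring
  obtain ⟨ρ, hρ1, hρ2⟩ := hps w hx₀w k U hk hkt hUbig hUV
  obtain ⟨a₀, ha₀⟩ := exists_crt' w ρ
  -- the sites
  set SS : Finset (ℕ × ℤ) := ((Ioc 0 U) ×ˢ (BB k)).filter fun s =>
    (∀ p : ℕ, p.Prime → p ≤ w → ¬ (p : ℤ) ∣ (ρ p : ℤ) * s.1 + s.2) ∧ Int.gcd s.1 s.2 = 1 with hSS
  set S : Finset ℕ := SS.image Encodable.encode with hS
  have hScard : S.card ≤ N := by
    have h1 : S.card ≤ SS.card := card_image_le
    have h2 : SS ⊆ (((Ioc 0 U) ×ˢ (BB k)).filter fun s => ∀ p : ℕ, p.Prime → p ≤ w →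
        ¬ (p : ℤ) ∣ (ρ p : ℤ) * s.1 + s.2) := by
      intro s hs
      rw [hSS, mem_filter] at hs
      rw [mem_filter]
      exact ⟨hs.1, hs.2.1⟩
    have h3 : (S.card : ℝ) ≤ c₁ * w := by
      refine le_trans ?_ hρ2
      refine le_trans (b := (SS.card : ℝ)) (by exact_mod_cast h1) ?_
      exact_mod_cast card_le_card h2
    apply Nat.le_floor
    refine h3.trans (mul_le_mul_of_nonneg_left ?_ hc0.le)
    linarith
  have hineq : (2 : ℝ) ^ (1 : ℕ).primeFactors.card * Real.exp (A * N) <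
      (((X + H : ℕ) : ℝ) - X) / W * (((1 : ℕ).totient : ℝ) / ((1 : ℕ) : ℝ)) := by
    have h1 : Real.exp (A * N) ≤ Real.exp (x / 10) := by
      apply Real.exp_le_exp.mpr
      calc A * (N : ℝ) ≤ A * (c₁ * x) := mul_le_mul_of_nonneg_left hNle hA.le
        _ = (c₁ * A) * x := by ring
        _ ≤ 1 / 10 * x := mul_le_mul_of_nonneg_right hcA hx0.le
        _ = x / 10 := by ring
    have h2 : (((X + H : ℕ) : ℝ) - X) = H := by push_cast; ring
    rw [h2, Nat.primeFactors_one, card_empty, pow_zero, one_mul, Nat.totient_one, Nat.cast_one,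
      div_one, mul_one, lt_div_iff₀ hWR]
    calc Real.exp (A * N) * W ≤ Real.exp (x / 10) * Real.exp (0.14 * x) :=
          mul_le_mul h1 hWle hWR.le (Real.exp_pos _).le
      _ = Real.exp (x / 10 + 0.14 * x) := by rw [← Real.exp_add]
      _ < Real.exp x := Real.exp_lt_exp.2 (by linarith)
      _ = H := hexpx
  obtain ⟨a, haX, haXH, haa₀, -, haS⟩ := hmain N hNN₀ 1 X (X + H) one_ne_zero S hScard
    (by simp) fs
    (by
      intro q hq hNq _
      refine ⟨?_, ?_⟩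
      · intro i hi
        obtain ⟨s, hs, rfl⟩ := mem_image.1 hi
        rw [fs_encode]
        exact rs_lt hq.pos _ _
      · intro i hi j hj hij
        obtain ⟨s, hs, rfl⟩ := mem_image.1 hi
        obtain ⟨s', hs', rfl⟩ := mem_image.1 hj
        rw [fs_encode, fs_encode] at hij
        rw [hSS, mem_filter, mem_product, mem_Ioc, mem_BB] at hs hs'
        obtain ⟨⟨⟨a1, a2⟩, a3, a4⟩, -, a5⟩ := hs
        obtain ⟨⟨⟨b1, b2⟩, b3, b4⟩, -, b5⟩ := hs'
        obtain ⟨e1, e2⟩ := site_inj hq (by omega) a1 a2 b1 b2 a4 b4 hk a5 b5 hij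
        rw [Prod.ext e1 e2])
    W hWpos (Wp_coprime w 1) (fun p hp hpW => le_trans (mem_sp.mp ((prime_dvd_Wp hp).mp hpW)).1
      (le_trans hwN hN25)) (Nat.le_add_right _ _) hineq a₀
  -- sizes
  have hbig : (k : ℝ) + k + Y + w ≤ X := by
    have h1 : (H : ℝ) ≤ X := by exact_mod_cast hHX
    refine le_trans ?_ h1
    rw [← hexpx]
    have h2 : (k : ℝ) ≤ x := by
      linarith
    have h3 := big_exp hx1 hYexp
    linarith
  have hbigN : k + k + Y + w ≤ X := by exact_mod_cast hbig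
  have hpval : ∀ n : ℕ, 1 ≤ n → ∀ b : ℤ, |b| ≤ k → ((k + Y + w : ℕ) : ℤ) < a * n + b := by
    intro n hn b hb
    have h1 : (a : ℤ) ≤ a * n := by
      have : (1 : ℤ) ≤ n := by exact_mod_cast hn
      nlinarith
    have h2 := (abs_le.1 hb).1
    have h3 : ((k + k + Y + w : ℕ) : ℤ) < a := by exact_mod_cast lt_of_le_of_lt hbigN haX
    push_cast at h3 ⊢
    linarith
  have haρ : ∀ p : ℕ, p.Prime → p ≤ w → a ≡ ρ p [MOD p] := by
    intro p hp hpw
    have h1 : p ∣ W := (prime_dvd_Wp hp).mpr (mem_sp.2 ⟨hpw, hp, fun h =>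
      hp.one_lt.ne' (Nat.dvd_one.1 h)⟩)
    exact (haa₀.of_dvd h1).trans (ha₀ p hp hpw)
  have hkw : k ≤ w := by
    have h1 : (k : ℝ) ≤ w := hkt.trans htw
    exact_mod_cast h1
  refine ⟨a, U, haX, haXH, by omega, ?_, ?_, ?_⟩
  · intro b hb1 hbk
    by_contra hcon
    obtain ⟨p, hp, hpa, hpb⟩ := Nat.Prime.not_coprime_iff_dvd.mp hcon
    have hpw : p ≤ w := (Nat.le_of_dvd hb1 hpb).trans (hbk.trans hkw)
    apply hρ1 p hp hpw
    exact (Nat.modEq_zero_iff_dvd).1 ((haρ p hp hpw).symm.trans ((Nat.modEq_zero_iff_dvd).2 hpa))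
  · intro n hn hnU b hb0 hbk p hp hpeq
    have hbnd := hpval n hn b hbk
    rw [← hpeq] at hbnd
    have hbnd' : k + Y + w < p := by exact_mod_cast hbnd
    by_cases hg : Int.gcd n b = 1
    · by_cases hpre : ∀ p' : ℕ, p'.Prime → p' ≤ w → ¬ (p' : ℤ) ∣ (ρ p' : ℤ) * n + b
      · have hsS : (n, b) ∈ SS := by
          rw [hSS, mem_filter, mem_product, mem_Ioc, mem_BB]
          exact ⟨⟨⟨hn, hnU⟩, hb0, hbk⟩, hpre, hg⟩
        obtain ⟨q, hq, hNq, hqY, -, hqa⟩ := haS (Encodable.encode (n, b))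
          (mem_image_of_mem _ hsS)
        rw [fs_encode] at hqa
        have hUq : 2 * (k * U) < q := by omega
        have hUk : U ≤ k * U := Nat.le_mul_of_pos_left U hk
        have hqn : ¬ q ∣ n := Nat.not_dvd_of_pos_of_lt (by omega) (by omega)
        have h1 : a ≡ rs q n b [MOD q] := by
          unfold Nat.ModEq
          rw [hqa]
          exact (Nat.mod_eq_of_lt (rs_lt hq.pos _ _)).symm
        have h2 := rs_dvd hq hqn b h1
        rw [← hpeq] at h2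
        have h3 : q ∣ p := by exact_mod_cast h2
        have h4 := (Nat.prime_dvd_prime_iff_eq hq hp).mp h3
        rw [← hY] at hqY
        omega
      · push Not at hpre
        obtain ⟨p', hp', hp'w, hdvd⟩ := hpre
        have h1 := haρ p' hp' hp'w
        have h2 : (p' : ℤ) ∣ a * n + b := by
          have h3 : (p' : ℤ) ∣ (a : ℤ) - ρ p' := (Nat.modEq_iff_dvd.1 h1.symm)
          have h4 : (a : ℤ) * n + b = ((ρ p' : ℤ) * n + b) + ((a : ℤ) - ρ p') * n := by ring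
          rw [h4]
          exact dvd_add hdvd (h3.mul_right _)
        rw [← hpeq] at h2
        have h3 : p' ∣ p := by exact_mod_cast h2
        have h4 := (Nat.prime_dvd_prime_iff_eq hp' hp).mp h3
        omega
    · have hgp : Int.gcd n b ∣ p := by
        have h1 : ((Int.gcd n b : ℕ) : ℤ) ∣ a * n + b :=
          dvd_add ((Int.gcd_dvd_left (n : ℤ) b).mul_left _) (Int.gcd_dvd_right (n : ℤ) b)
        rw [← hpeq] at h1
        exact_mod_cast h1
      have h2 : Int.gcd n b ∣ b.natAbs := Int.gcd_dvd_natAbs_right _ _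
      have h3 : Int.gcd n b ≤ b.natAbs := Nat.le_of_dvd (by omega) h2
      have h4 : b.natAbs ≤ k := by
        zify
        exact hbk
      rcases (Nat.dvd_prime hp).1 hgp with h5 | h5
      · exact hg h5
      · omega
  · refine le_trans ?_ hUV2
    have h2 : c₂ * (x / 20) * (t / 2) ^ 2 * (l / 2) / m ^ 2 ≤ V := by
      rw [hV]
      have h3 : t / 2 ≤ t' := by linarith
      gcongr
    calc c₂ / 320 * x * t ^ 2 * l / m ^ 2 =
        (c₂ * (x / 20) * (t / 2) ^ 2 * (l / 2) / m ^ 2) / 2 := by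
          field_simp
          ring
      _ ≤ V / 2 := by linarith

end Pool.Agent.FixedClass
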