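import Pool.Agent.Lib.MP_5b0a7e_nt.Count

/-!
# Application of the sieve to linear forms
-/

namespace LPAP

open Finset

open Classical in
/-- The class map: which of the forms `a n + b`, `n ∈ S`, is divisible by `q`. -/
noncomputable def chi (a : ℕ) (S : Finset ℕ) (q c : ℕ) : Option S :=
  if h : ∃ i : S, q ∣ a * i.1 + c then some (Classical.choose h) else none

lemma chi_some {a : ℕ} {S : Finset ℕ} {q c : ℕ} {i : S} (h : chi a S q c = some i) :
    q ∣ a * i.1 + c := by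
  unfold chi at h
  split_ifs at h with h1
  have h2 := Classical.choose_spec h1
  have h3 := Option.some.inj h
  rwa [h3] at h2

lemma chi_of_dvd {a : ℕ} {S : Finset ℕ} {q c : ℕ} (hq : q.Prime) (hqa : ¬ q ∣ a)
    (hS : ∀ n ∈ S, n < q) {i : S} (h : q ∣ a * i.1 + c) : chi a S q c = some i := by
  unfold chi
  have h1 : ∃ i : S, q ∣ a * i.1 + c := ⟨i, h⟩
  rw [dif_pos h1]
  congr 1
  have h2 := Classical.choose_spec h1
  set j := Classical.choose h1 with hj
  have h3 : a * j.1 + c ≡ a * i.1 + c [MOD q] :=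
    ((Nat.modEq_zero_iff_dvd).mpr h2).trans ((Nat.modEq_zero_iff_dvd).mpr h).symm
  have h4 : a * j.1 ≡ a * i.1 [MOD q] := Nat.ModEq.add_right_cancel' c h3
  have h5 : j.1 ≡ i.1 [MOD q] :=
    Nat.ModEq.cancel_left_of_coprime ((Nat.Prime.coprime_iff_not_dvd hq).mpr hqa) h4
  have h6 : j.1 = i.1 := Nat.ModEq.eq_of_lt_of_lt h5 (hS _ j.2) (hS _ i.2)
  exact Subtype.ext h6

lemma pc_chi {a : ℕ} {S : Finset ℕ} {q : ℕ} (hq : q.Prime) (hqa : ¬ q ∣ a)
    (hS : ∀ n ∈ S, n < q) (i : S) : pc (chi a S) q (some i) = 1 / (q : ℝ) := by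
  unfold pc
  have h1 : (Finset.range q).filter (fun c => chi a S q c = some i) =
      {(q - (a * i.1) % q) % q} := by
    ext c
    rw [Finset.mem_filter, Finset.mem_range, Finset.mem_singleton]
    have hr : (a * i.1) % q < q := Nat.mod_lt _ hq.pos
    constructor
    · rintro ⟨hc, hc2⟩
      have h2 := chi_some hc2
      have h3 : q ∣ (a * i.1) % q + c := by
        have h4 : a * i.1 + c = (a * i.1) % q + c + q * (a * i.1 / q) := by
          have := Nat.mod_add_div (a * i.1) q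
          omega
        rw [h4] at h2
        exact (Nat.dvd_add_left (Dvd.intro _ rfl)).mp h2
      obtain ⟨k, hk⟩ := h3
      rcases Nat.lt_or_ge k 1 with hk1 | hk1
      · have : k = 0 := by omega
        subst this
        rw [mul_zero] at hk
        have h5 : (a * i.1) % q = 0 := by omega
        rw [h5, Nat.sub_zero, Nat.mod_self]; omega
      · rcases Nat.lt_or_ge k 2 with hk2 | hk2
        · have : k = 1 := by omega
          subst this
          rw [mul_one] at hk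
          rcases Nat.eq_zero_or_pos ((a * i.1) % q) with h0 | h0
          · omega
          · rw [Nat.mod_eq_of_lt (by omega)]; omega
        · exfalso
          have : q * 2 ≤ q * k := Nat.mul_le_mul_left q hk2
          omega
    · intro hc
      have hcq : c < q := by rw [hc]; exact Nat.mod_lt _ hq.pos
      refine ⟨hcq, chi_of_dvd hq hqa hS ?_⟩
      have h4 : a * i.1 + c = (a * i.1) % q + c + q * (a * i.1 / q) := by
        have := Nat.mod_add_div (a * i.1) q
        omega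
      rw [h4]
      refine (Nat.dvd_add_left (Dvd.intro _ rfl)).mpr ?_
      rcases Nat.eq_zero_or_pos ((a * i.1) % q) with h0 | h0
      · rw [h0, Nat.sub_zero, Nat.mod_self] at hc
        rw [h0, hc]; exact dvd_zero q
      · rw [Nat.mod_eq_of_lt (by omega)] at hc
        have : (a * i.1) % q + c = q := by omega
        rw [this]
  rw [h1, Finset.card_singleton]
  push_cast
  rfl

/-- The sieve for linear forms. -/
theorem exists_all_hit : ∃ A : ℝ, 0 < A ∧ ∃ N₀ : ℕ, ∀ N : ℕ, N₀ ≤ N → ∀ (a X : ℕ), a ≠ 0 →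
    ∀ (S : Finset ℕ), S.card ≤ N → (∀ n ∈ S, n < N ^ 5) → a.primeFactors.card ≤ N ^ 5 →
    ∀ (W : ℕ), 0 < W → W.Coprime a → (∀ p, p.Prime → p ∣ W → p ≤ N ^ 5) →
    (N ^ 5) ^ 2 ^ (Nat.log 8 N) ≤ X →
    (2 : ℝ) ^ a.primeFactors.card * Real.exp (A * N) <
      ((X : ℝ) - (((N ^ 5) ^ 2 ^ (Nat.log 8 N) : ℕ) : ℝ)) / W * (a.totient / a) →
    ∀ b₀ : ℕ, ∃ b : ℕ, (N ^ 5) ^ 2 ^ (Nat.log 8 N) < b ∧ b ≤ X ∧ b ≡ b₀ [MOD W] ∧ b.Coprime a ∧
      ∀ n ∈ S, ∃ q : ℕ, q.Prime ∧ q ≤ (N ^ 5) ^ 2 ^ (Nat.log 8 N) ∧ q ∣ a * n + b := by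
  have he9 : 1 ≤ 2 * Real.exp 9 := by
    have := Real.add_one_le_exp (9 : ℝ); linarith
  obtain ⟨A, hA, N₀, hsieve⟩ := sieve (2 * Real.exp 9) he9
  refine ⟨A, hA, max N₀ 2, ?_⟩
  intro N hN a X ha S hScard hS haN W hW hWa hWp hYa hmain b₀
  have hN0 : N₀ ≤ N := le_trans (le_max_left _ _) hN
  have hN2 : 2 ≤ N := le_trans (le_max_right _ _) hN
  set z := N ^ 5 with hz
  have hz2 : 2 ≤ z := by
    rw [hz]
    calc 2 ≤ N := hN2
      _ = N ^ 1 := (pow_one N).symm
      _ ≤ N ^ 5 := Nat.pow_le_pow_right (by omega) (by norm_num)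
  set J := Nat.log 8 N with hJ
  set P : ℕ → Prop := fun q => q.Prime ∧ ¬ q ∣ a with hP
  have hcard : Fintype.card S ≤ N := by rw [Fintype.card_coe]; exact hScard
  set Y := z ^ 2 ^ J with hY
  have hLmem : ∀ q ∈ LL (Lbk z P) 0 J, z < q ∧ q ≤ Y ∧ q.Prime ∧ ¬ q ∣ a := by
    intro q hq
    obtain ⟨j, _, h2, h3⟩ := mem_LL hq
    obtain ⟨h4, h5, h6⟩ := mem_Lbk.mp h3
    refine ⟨?_, le_trans h5 (pow_mono (by omega) (by omega)), h6.1, h6.2⟩
    calc z = z ^ 2 ^ 0 := by simp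
      _ ≤ z ^ 2 ^ j := pow_mono (by omega) (Nat.zero_le j)
      _ < q := h4
  have hnodup := LL_Lbk_nodup (z := z) (P := P) (by omega) 0 J
  obtain ⟨b, hb, hbS⟩ := hsieve N hN0 S hcard (fun q => 1 / (q : ℝ)) (Lbk z P) (blkz z) (chi a S)
    (by
      intro k hk q hq
      obtain ⟨h4, h5, h6⟩ := mem_Lbk.mp hq
      have hzq : z < q := by
        calc z = z ^ 2 ^ 0 := by simp
          _ ≤ z ^ 2 ^ k := pow_mono (by omega) (Nat.zero_le k)
          _ < q := h4
      have hq0 : (0 : ℝ) < q := by exact_mod_cast (by omega : 0 < q)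
      refine ⟨blkz_eq (by omega) hq, hzq, h5, by positivity, ?_, ?_⟩
      · exact div_le_div_of_nonneg_right (by norm_num) hq0.le
      · intro i
        exact pc_chi h6.1 h6.2 (fun n hn => lt_trans (hS n hn) hzq) i)
    hnodup
    (fun k j _ => PP_prime_le hz2 ha haN k j)
    (Bset Y X a W b₀) (((X : ℝ) - Y) / W * (a.totient / a)) (2 ^ a.primeFactors.card)
    (by positivity)
    (equi_Bset ha Y X hYa _ hnodup (fun q hq => (hLmem q hq).2.2) W b₀ hW hWa (fun q hq => by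
      obtain ⟨h1, _, h3, _⟩ := hLmem q hq
      apply Nat.Coprime.symm
      rw [Nat.Prime.coprime_iff_not_dvd h3]
      intro hdvd
      have := hWp q h3 hdvd
      omega))
    hmain
  unfold Bset at hb
  rw [Finset.mem_filter, Finset.mem_Ioc] at hb
  refine ⟨b, hb.1.1, hb.1.2, hb.2.1, hb.2.2, ?_⟩
  intro n hn
  obtain ⟨q, hq, hq2⟩ := hbS ⟨n, hn⟩
  obtain ⟨_, h2, h3, _⟩ := hLmem q hq
  refine ⟨q, h3, h2, ?_⟩
  have h4 := chi_some hq2
  have h5 : a * n + b = (a * n + b % q) + q * (b / q) := by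
    have := Nat.mod_add_div b q
    omega
  rw [h5]
  exact (Nat.dvd_add_left (Dvd.intro _ rfl)).mpr h4

end LPAP
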