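import Pool.Agent.Lib.MP_5b0a7e_nt.Avg

/-!
# The presieve for the numbers `a n + b`, `n ≤ U`, `0 < |b| ≤ k`, in the variable `a`
-/

open Finset
open scoped Classical

namespace Pool.Agent.FixedClass

/-- the nonzero integers `b` with `|b| ≤ k` -/
noncomputable def BB (k : ℕ) : Finset ℤ := (Icc (-(k : ℤ)) k).erase 0

lemma mem_BB {k : ℕ} {b : ℤ} : b ∈ BB k ↔ b ≠ 0 ∧ |b| ≤ k := by
  unfold BB
  rw [mem_erase, mem_Icc, abs_le]

/-- the integers up to `U` without prime factors in `(z, x]` -/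
noncomputable def M0 (z x U : ℕ) : Finset ℕ :=
  (Ioc 0 U).filter fun n => ∀ p : ℕ, p.Prime → z < p → p ≤ x → ¬ p ∣ n

/-- the sites surviving the medium primes with shift `h` -/
noncomputable def TT (z x U k h : ℕ) : Finset (ℕ × ℤ) :=
  ((Ioc 0 U) ×ˢ (BB k)).filter fun s => ∀ p : ℕ, p.Prime → z < p → p ≤ x →
    ¬ (p : ℤ) ∣ (s.1 : ℤ) - s.2 * h

/-- the weight of a site -/
noncomputable def GG (z : ℕ) (s : ℕ × ℤ) : ℝ := ∏ p ∈ (Ioc 0 z).filter Nat.Prime,
  (1 + if (p : ℤ) ∣ (s.1 : ℤ) ∨ (p : ℤ) ∣ s.2 then 1 / ((p : ℝ) - 1) else 0)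

/-- the weight of `b` -/
noncomputable def gb (z : ℕ) (b : ℤ) : ℝ := ∏ p ∈ (Ioc 0 z).filter Nat.Prime,
  (1 + if (p : ℤ) ∣ b then 1 / ((p : ℝ) - 1) else 0)

/-- the weight of `n` relative to `b` -/
noncomputable def gn (z : ℕ) (b x : ℤ) : ℝ :=
  ∏ p ∈ ((Ioc 0 z).filter Nat.Prime).filter (fun p : ℕ => ¬ (p : ℤ) ∣ b),
    (1 + if (p : ℤ) ∣ x then 1 / ((p : ℝ) - 1) else 0)

lemma factor_nonneg {p : ℕ} (hp : p.Prime) (c : Prop) [Decidable c] :
    (0 : ℝ) ≤ 1 + if c then 1 / ((p : ℝ) - 1) else 0 := by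
  have h2 : (2:ℝ) ≤ p := by exact_mod_cast hp.two_le
  have h1 : (0:ℝ) ≤ (p:ℝ) - 1 := by linarith
  split_ifs <;> positivity

lemma GG_eq (z n : ℕ) (b : ℤ) : GG z (n, b) = gb z b * gn z b n := by
  unfold GG gb gn
  rw [prod_filter (fun p : ℕ => ¬ (p : ℤ) ∣ b), ← prod_mul_distrib]
  refine prod_congr rfl fun p _ => ?_
  by_cases h1 : (p : ℤ) ∣ b
  · simp [h1]
  · simp [h1]

lemma gb_nonneg (z : ℕ) (b : ℤ) : 0 ≤ gb z b :=
  prod_nonneg fun _ hp => factor_nonneg (mem_filter.1 hp).2 _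

lemma gn_nonneg (z : ℕ) (b x : ℤ) : 0 ≤ gn z b x :=
  prod_nonneg fun _ hp => factor_nonneg (mem_filter.1 (mem_filter.1 hp).1).2 _

/-- the possible values of `n - b h` -/
noncomputable def MM (z x U : ℕ) : Finset ℤ :=
  insert 0 (((M0 z x U).image fun n : ℕ => (n : ℤ)) ∪ ((M0 z x U).image fun n : ℕ => -(n : ℤ)))

lemma card_MM (z x U : ℕ) (hU : 1 ≤ U) : (MM z x U).card ≤ 3 * (M0 z x U).card := by
  have h1 : 1 ∈ M0 z x U := by
    unfold M0
    rw [mem_filter, mem_Ioc]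
    refine ⟨⟨by norm_num, hU⟩, fun p hp _ _ h => ?_⟩
    exact hp.one_lt.ne' (Nat.dvd_one.1 h)
  have h2 : 0 < (M0 z x U).card := card_pos.2 ⟨1, h1⟩
  have h3 : (MM z x U).card ≤ (((M0 z x U).image fun n : ℕ => (n : ℤ)) ∪
      ((M0 z x U).image fun n : ℕ => -(n : ℤ))).card + 1 := card_insert_le _ _
  have h4 := card_union_le ((M0 z x U).image fun n : ℕ => (n : ℤ))
    ((M0 z x U).image fun n : ℕ => -(n : ℤ))
  have h5 : ((M0 z x U).image fun n : ℕ => (n : ℤ)).card ≤ (M0 z x U).card := card_image_le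
  have h6 : ((M0 z x U).image fun n : ℕ => -(n : ℤ)).card ≤ (M0 z x U).card := card_image_le
  omega

lemma sum_fixed (z x U k h H : ℕ) (hh : h ≤ H) (b : ℤ) (hb : b ∈ BB k) :
    ∑ n ∈ (Ioc 0 U).filter (fun n : ℕ => ∀ p : ℕ, p.Prime → z < p → p ≤ x →
      ¬ (p : ℤ) ∣ (n : ℤ) - b * h), gn z b n ≤
      ∑ m ∈ MM z x (U + k * H), gn z b (m + b * h) := by
  have h1 : ∑ n ∈ (Ioc 0 U).filter (fun n : ℕ => ∀ p : ℕ, p.Prime → z < p → p ≤ x →
      ¬ (p : ℤ) ∣ (n : ℤ) - b * h), gn z b n =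
      ∑ m ∈ ((Ioc 0 U).filter (fun n : ℕ => ∀ p : ℕ, p.Prime → z < p → p ≤ x →
      ¬ (p : ℤ) ∣ (n : ℤ) - b * h)).image (fun n : ℕ => (n : ℤ) - b * h),
        gn z b (m + b * h) := by
    rw [sum_image]
    · refine sum_congr rfl fun n _ => ?_
      rw [sub_add_cancel]
    · intro n _ n' _ hnn
      have : (n : ℤ) - b * h = (n' : ℤ) - b * h := hnn
      have h2 : (n : ℤ) = n' := by linarith
      exact_mod_cast h2
  rw [h1]
  refine sum_le_sum_of_subset_of_nonneg ?_ fun _ _ _ => gn_nonneg _ _ _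
  intro m hm
  obtain ⟨n, hn, rfl⟩ := mem_image.1 hm
  rw [mem_filter, mem_Ioc] at hn
  obtain ⟨⟨hn0, hnU⟩, hn2⟩ := hn
  have hb2 := (mem_BB.1 hb).2
  have hbh : |b * h| ≤ k * H := by
    rw [abs_mul]
    have : |(h : ℤ)| ≤ H := by rw [abs_of_nonneg (by positivity)]; exact_mod_cast hh
    exact mul_le_mul hb2 this (abs_nonneg _) (by positivity)
  rw [abs_le] at hbh
  have hnU' : (n : ℤ) ≤ U := by exact_mod_cast hnU
  have hn0' : (0 : ℤ) < n := by exact_mod_cast hn0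
  unfold MM
  rw [mem_insert, mem_union, mem_image, mem_image]
  rcases lt_trichotomy ((n : ℤ) - b * h) 0 with hlt | heq | hgt
  · right; right
    refine ⟨((n : ℤ) - b * h).natAbs, ?_, ?_⟩
    · unfold M0
      rw [mem_filter, mem_Ioc]
      refine ⟨⟨by omega, ?_⟩, fun p hp h1 h2 hdvd => hn2 p hp h1 h2 (Int.natCast_dvd.2 hdvd)⟩
      zify
      rw [abs_of_neg hlt]
      linarith
    · push_cast
      rw [abs_of_neg hlt]; ring
  · left; exact heq
  · right; left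
    refine ⟨((n : ℤ) - b * h).natAbs, ?_, ?_⟩
    · unfold M0
      rw [mem_filter, mem_Ioc]
      refine ⟨⟨by omega, ?_⟩, fun p hp h1 h2 hdvd => hn2 p hp h1 h2 (Int.natCast_dvd.2 hdvd)⟩
      zify
      rw [abs_of_pos hgt]
      linarith
    · push_cast
      rw [abs_of_pos hgt]

lemma sum_gb (z k : ℕ) : ∑ b ∈ BB k, gb z b ≤ 2 * (k * Real.exp 1) := by
  have hsub : BB k ⊆ ((Ioc 0 k).image fun n : ℕ => (n : ℤ)) ∪
      ((Ioc 0 k).image fun n : ℕ => -(n : ℤ)) := by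
    intro b hb
    obtain ⟨hb0, hbk⟩ := mem_BB.1 hb
    rw [mem_union, mem_image, mem_image]
    rcases lt_or_gt_of_ne hb0 with hlt | hgt
    · right
      refine ⟨b.natAbs, ?_, by omega⟩
      rw [mem_Ioc]
      rw [abs_of_neg hlt] at hbk
      omega
    · left
      refine ⟨b.natAbs, ?_, by omega⟩
      rw [mem_Ioc]
      rw [abs_of_pos hgt] at hbk
      omega
  refine (sum_le_sum_of_subset_of_nonneg hsub fun b _ _ => gb_nonneg z b).trans ?_
  rw [sum_union]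
  · rw [sum_image (fun a _ b _ h => by exact_mod_cast h),
      sum_image (fun a _ b _ h => by
        have : -(a : ℤ) = -(b : ℤ) := h
        have h2 : (a : ℤ) = b := by linarith
        exact_mod_cast h2)]
    have h1 : ∀ n : ℕ, gb z (-(n : ℤ)) = gb z n := by
      intro n
      unfold gb
      refine prod_congr rfl fun p _ => ?_
      simp only [dvd_neg]
    simp only [h1]
    have h2 := avg_b k ((Ioc 0 z).filter Nat.Prime) (fun p hp => (mem_filter.1 hp).2)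
    have h3 : ∑ b ∈ Ioc 0 k, gb z ((b : ℕ) : ℤ) ≤ k * Real.exp 1 := h2
    linarith
  · rw [disjoint_left]
    intro b hb hb'
    obtain ⟨n, hn, rfl⟩ := mem_image.1 hb
    obtain ⟨n', hn', h⟩ := mem_image.1 hb'
    rw [mem_Ioc] at hn hn'
    omega

/-- A good shift. -/
lemma exists_shift (z x U k H : ℕ) (hz : 1 ≤ z) (hk : 1 ≤ k) (hH : 1 ≤ H)
    (hlog : Real.log (z + 1) ≤ H) :
    ∃ h, 1 ≤ h ∧ h ≤ H ∧ ∑ s ∈ TT z x U k h, GG z s ≤
      6 * (k * Real.exp 1) * (Real.exp 1 + Real.exp 8) * ((M0 z x (U + k * H)).card : ℝ) := by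
  set C : ℝ := 6 * (k * Real.exp 1) * (Real.exp 1 + Real.exp 8) *
    ((M0 z x (U + k * H)).card : ℝ) with hC
  have hHR : (1:ℝ) ≤ H := by exact_mod_cast hH
  have hcard : ((MM z x (U + k * H)).card : ℝ) ≤ 3 * ((M0 z x (U + k * H)).card : ℝ) := by
    have h1 : 1 ≤ U + k * H := by
      have : 1 ≤ k * H := Nat.mul_pos hk hH
      omega
    exact_mod_cast card_MM z x (U + k * H) h1
  have htot : ∑ h ∈ Ioc 0 H, ∑ s ∈ TT z x U k h, GG z s ≤ ∑ h ∈ Ioc 0 H, C := by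
    have h1 : ∀ h ∈ Ioc 0 H, ∑ s ∈ TT z x U k h, GG z s ≤
        ∑ b ∈ BB k, gb z b * ∑ m ∈ MM z x (U + k * H), gn z b (m + b * (h : ℕ)) := by
      intro h hh
      have h2 : ∑ s ∈ TT z x U k h, GG z s = ∑ b ∈ BB k, ∑ n ∈ (Ioc 0 U).filter
          (fun n : ℕ => ∀ p : ℕ, p.Prime → z < p → p ≤ x → ¬ (p : ℤ) ∣ (n : ℤ) - b * h),
            GG z (n, b) := by
        unfold TT
        rw [sum_filter, sum_product_right]
        refine sum_congr rfl fun b _ => ?_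
        rw [sum_filter]
      rw [h2]
      refine sum_le_sum fun b hb => ?_
      simp only [GG_eq]
      rw [← mul_sum]
      exact mul_le_mul_of_nonneg_left (sum_fixed z x U k h H (mem_Ioc.1 hh).2 b hb)
        (gb_nonneg z b)
    refine (sum_le_sum h1).trans ?_
    rw [sum_comm]
    have h2 : ∀ b ∈ BB k, ∑ h ∈ Ioc 0 H, gb z b *
        ∑ m ∈ MM z x (U + k * H), gn z b (m + b * (h : ℕ)) ≤
        gb z b * (((MM z x (U + k * H)).card : ℝ) * (H * (Real.exp 1 + Real.exp 8))) := by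
      intro b _
      rw [← mul_sum]
      refine mul_le_mul_of_nonneg_left ?_ (gb_nonneg z b)
      rw [sum_comm, ← nsmul_eq_mul, ← sum_const]
      refine sum_le_sum fun m _ => ?_
      have h3 := short_avg z H hz (((Ioc 0 z).filter Nat.Prime).filter
        (fun p : ℕ => ¬ (p : ℤ) ∣ b)) (filter_subset _ _) m b
        (fun p hp => (mem_filter.1 hp).2)
      have h4 : ∑ h ∈ Ioc 0 H, gn z b (m + b * (h : ℕ)) ≤
        H * Real.exp 1 + Real.exp 8 * Real.log (z + 1) := h3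
      refine h4.trans ?_
      have h5 := mul_le_mul_of_nonneg_left hlog (Real.exp_pos 8).le
      nlinarith
    refine (sum_le_sum h2).trans ?_
    rw [← sum_mul]
    have h3 := sum_gb z k
    rw [sum_const, Nat.card_Ioc, Nat.sub_zero, nsmul_eq_mul]
    have h4 : 0 ≤ (((MM z x (U + k * H)).card : ℝ) * (H * (Real.exp 1 + Real.exp 8))) := by
      positivity
    calc (∑ b ∈ BB k, gb z b) * (((MM z x (U + k * H)).card : ℝ) *
          (H * (Real.exp 1 + Real.exp 8)))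
        ≤ (2 * (k * Real.exp 1)) * ((3 * ((M0 z x (U + k * H)).card : ℝ)) *
          (H * (Real.exp 1 + Real.exp 8))) := by
          refine mul_le_mul h3 ?_ h4 (by positivity)
          exact mul_le_mul_of_nonneg_right hcard (by positivity)
      _ = H * C := by rw [hC]; ring
  obtain ⟨h, hh, hle⟩ := exists_le_of_sum_le (by rw [nonempty_Ioc]; omega) htot
  rw [mem_Ioc] at hh
  exact ⟨h, hh.1, hh.2, hle⟩

end Pool.Agent.FixedClass
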