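import Pool.Agent.Lib.MP_5b0a7e_nt.Grid

/-!
# The presieve theorem for the grid `a n + b`
-/

open Finset
open scoped Classical

namespace Pool.Agent.FixedClass

/-- the residue of `a` mod `p` for which `p ∣ a n + b` -/
noncomputable def rs (p : ℕ) (n : ℕ) (b : ℤ) : ℕ := ((-(b : ZMod p)) * ((n : ZMod p))⁻¹).val

lemma rs_lt {p : ℕ} (hp : 0 < p) (n : ℕ) (b : ℤ) : rs p n b < p := by
  have : NeZero p := ⟨hp.ne'⟩
  exact ZMod.val_lt _

lemma rs_dvd {p : ℕ} (hp : p.Prime) {n : ℕ} (hn : ¬ p ∣ n) (b : ℤ) {a : ℕ}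
    (ha : a ≡ rs p n b [MOD p]) : (p : ℤ) ∣ a * n + b := by
  have := Fact.mk hp
  have hn' : (n : ZMod p) ≠ 0 := by
    intro h
    exact hn ((ZMod.natCast_eq_zero_iff n p).1 h)
  rw [← ZMod.intCast_zmod_eq_zero_iff_dvd]
  push_cast
  have h1 : (a : ZMod p) = (rs p n b : ZMod p) := (ZMod.natCast_eq_natCast_iff a _ p).2 ha
  rw [h1]
  unfold rs
  rw [ZMod.natCast_zmod_val, mul_assoc, inv_mul_cancel₀ hn']
  ring

lemma rs_ne {p : ℕ} (hp : p.Prime) {n : ℕ} (hn : ¬ p ∣ n) {b : ℤ} (hb : ¬ (p : ℤ) ∣ b) :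
    1 ≤ rs p n b := by
  have := Fact.mk hp
  rw [Nat.one_le_iff_ne_zero]
  intro h
  unfold rs at h
  rw [ZMod.val_eq_zero, mul_eq_zero, neg_eq_zero, inv_eq_zero] at h
  rcases h with h | h
  · exact hb ((ZMod.intCast_zmod_eq_zero_iff_dvd b p).1 h)
  · exact hn ((ZMod.natCast_eq_zero_iff n p).1 h)

lemma eventually_k : ∀ᶠ x : ℕ in Filter.atTop,
    8 * Real.log x ^ 3 ≤ (x : ℝ) ^ (1 - 1 / 32 : ℝ) := by
  have h1 : Filter.Tendsto (fun x : ℕ => (x : ℝ)) Filter.atTop Filter.atTop :=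
    tendsto_natCast_atTop_atTop
  have h2 : (fun x : ℝ => Real.log x ^ 3) =o[Filter.atTop] (fun x : ℝ => x ^ (1 - 1 / 32 : ℝ)) :=
    by
      have h := isLittleO_log_rpow_rpow_atTop (s := (1 - 1 / 32 : ℝ)) (3 : ℝ) (by norm_num)
      refine h.congr_left fun x => ?_
      exact_mod_cast Real.rpow_natCast (Real.log x) 3
  have h3 := h2.bound (show (0:ℝ) < 1 / 8 by norm_num)
  filter_upwards [h1.eventually h3, h1.eventually (Filter.eventually_ge_atTop 1)] with x hx hx1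
  have h4 : 0 ≤ Real.log x ^ 3 := pow_nonneg (Real.log_nonneg hx1) 3
  rw [Real.norm_of_nonneg h4, Real.norm_of_nonneg (by positivity)] at hx
  linarith

/-- The presieve: nonzero residue classes for `a` modulo the primes up to `x` such that few
numbers `a n + b` with `n ≤ U`, `0 < |b| ≤ k` have no prime factor up to `x`. -/
theorem presieve_grid (ε : ℝ) (hε : 0 < ε) : ∃ c : ℝ, 0 < c ∧ c ≤ 1 / 2 ∧ ∃ x₀ : ℕ,
    ∀ x : ℕ, x₀ ≤ x → ∀ k U : ℕ, 1 ≤ k → (k : ℝ) ≤ 4 * Real.log x ^ 2 →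
    (x : ℝ) ^ (1 - 1 / 32 : ℝ) < U →
    (k : ℝ) * U ≤ c * x * Real.log x ^ 2 * Real.log (Real.log (Real.log x)) /
      Real.log (Real.log x) ^ 2 →
    ∃ ρ : ℕ → ℕ, (∀ p : ℕ, p.Prime → p ≤ x → ¬ p ∣ ρ p) ∧
      ((((Ioc 0 U) ×ˢ (BB k)).filter fun s => ∀ p : ℕ, p.Prime → p ≤ x →
        ¬ (p : ℤ) ∣ (ρ p : ℤ) * s.1 + s.2).card : ℝ) ≤ ε * x := by
  obtain ⟨x₀, hx₀⟩ := medium_sieve
  obtain ⟨x₁, hx₁⟩ := Filter.eventually_atTop.1 eventually_k
  set C : ℝ := 624 * (Real.exp 1 * (Real.exp 1 + Real.exp 8)) with hC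
  have hC0 : 0 < C := by positivity
  refine ⟨min (1 / 2) (ε / C), by positivity, min_le_left _ _, max x₀ (max x₁ 2), ?_⟩
  intro x hx k U hk hkL hU hkU
  have hxx0 : x₀ ≤ x := (le_max_left _ _).trans hx
  have hxx1 : x₁ ≤ x := (le_max_left _ _).trans ((le_max_right _ _).trans hx)
  have hxx2 : 2 ≤ x := (le_max_right _ _).trans ((le_max_right _ _).trans hx)
  obtain ⟨z, hz8, hzx, hlogz, hlogz1, hL100, hLL1, hLLL1, hmed⟩ := hx₀ x hxx0
  have h8L := hx₁ x hxx1
  set L := Real.log (x : ℝ) with hL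
  set LL := Real.log L with hLL
  set L3 := Real.log LL with hL3
  set c := min (1 / 2) (ε / C) with hc
  have hc0 : 0 < c := by positivity
  have hc1 : c ≤ 1 / 2 := min_le_left _ _
  have hc2 : c ≤ ε / C := min_le_right _ _
  have hx0 : (0:ℝ) < x := by positivity
  have hL0 : 0 < L := by linarith
  have hLL0 : 0 < LL := by linarith
  have hL30 : 0 < L3 := by linarith
  have hL3LL : L3 ≤ LL := by
    have := Real.log_le_sub_one_of_pos hLL0
    linarith
  have hU0 : (0:ℝ) < U := lt_of_le_of_lt (by positivity) hU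
  have hkR : (1:ℝ) ≤ k := by exact_mod_cast hk
  -- the shift
  have hz8R : (8:ℝ) ≤ z := by exact_mod_cast hz8
  have hlogzpos : 0 < Real.log ((z:ℝ) + 1) := Real.log_pos (by linarith)
  set H := ⌈Real.log ((z:ℝ) + 1)⌉₊ with hH
  have hH1 : 1 ≤ H := Nat.one_le_iff_ne_zero.2 (by
    intro h0
    rw [hH, Nat.ceil_eq_zero] at h0
    linarith)
  have hHlog : Real.log ((z:ℝ) + 1) ≤ H := Nat.le_ceil _
  have hHle : (H:ℝ) ≤ 2 * L := by
    have := Nat.ceil_lt_add_one hlogzpos.le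
    linarith
  have hHz : H ≤ z := by
    apply Nat.ceil_le.2
    have := Real.log_le_sub_one_of_pos (show (0:ℝ) < (z:ℝ) + 1 by linarith)
    linarith
  obtain ⟨h, hh1, hhH, hsum⟩ := exists_shift z x U k H (by omega) hk hH1 hHlog
  have hhz : h ≤ z := hhH.trans hHz
  -- the size of `U'`
  have hkH : (k:ℝ) * H ≤ U := by
    calc (k:ℝ) * H ≤ (4 * L ^ 2) * (2 * L) := by gcongr
      _ = 8 * L ^ 3 := by ring
      _ ≤ U := h8L.trans hU.le
  have hU' : ((U + k * H : ℕ) : ℝ) ≤ 2 * U := by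
    push_cast
    linarith
  have hU'1 : (x : ℝ) ^ (1 - 1 / 32 : ℝ) < ((U + k * H : ℕ) : ℝ) := by
    push_cast
    have : (0:ℝ) ≤ (k:ℝ) * H := by positivity
    linarith
  have hU'2 : ((U + k * H : ℕ) : ℝ) ≤ L ^ 2 * x := by
    refine hU'.trans ?_
    have h1 : (U : ℝ) ≤ k * U := by nlinarith
    have h2 : c * x * L ^ 2 * L3 / LL ^ 2 ≤ 1 / 2 * x * L ^ 2 * 1 := by
      have h4 : L3 / LL ^ 2 ≤ 1 := by
        rw [div_le_one (by positivity)]
        nlinarith
      have h5 : c * x * L ^ 2 * L3 / LL ^ 2 = c * x * L ^ 2 * (L3 / LL ^ 2) := by ring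
      rw [h5]
      gcongr
    linarith
  have hM := hmed (U + k * H) hU'1 hU'2
  have hM' : ((M0 z x (U + k * H)).card : ℝ) ≤ (2 * U) * (13 * LL / L) := by
    refine le_trans (le_of_eq ?_) (hM.trans (mul_le_mul_of_nonneg_right hU' (by positivity)))
    unfold M0
    congr!
  -- the small primes
  set P := (Ioc 0 z).filter Nat.Prime with hP
  have hPp : ∀ p ∈ P, p.Prime := fun p hp => (mem_filter.1 hp).2
  have hP2 : ∀ p ∈ P, 2 ≤ p := fun p hp => (hPp p hp).two_le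
  obtain ⟨r, hr1, hr2⟩ := greedy_abs (σ := ℕ × ℤ) P
    (fun p s c => (p : ℤ) ∣ (c : ℤ) * s.1 + s.2)
    (fun p s => (p : ℤ) ∣ (s.1 : ℤ) ∨ (p : ℤ) ∣ s.2) hP2
    (by
      intro p hp s hs
      push Not at hs
      have hpp := hPp p hp
      have hn : ¬ p ∣ s.1 := fun h => hs.1 (by exact_mod_cast h)
      exact ⟨rs p s.1 s.2, rs_ne hpp hn hs.2, rs_lt hpp.pos _ _,
        rs_dvd hpp hn s.2 (Nat.ModEq.refl _)⟩) (TT z x U k h)
  refine ⟨fun p => if p ≤ z then r p else rs p h 1, ?_, ?_⟩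
  · intro p hp hpx
    simp only
    split_ifs with hpz
    · have hpP : p ∈ P := by rw [hP, mem_filter, mem_Ioc]; exact ⟨⟨hp.pos, hpz⟩, hp⟩
      obtain ⟨h1, h2⟩ := hr1 p hpP
      exact Nat.not_dvd_of_pos_of_lt (by omega) h2
    · have hph : ¬ p ∣ h := Nat.not_dvd_of_pos_of_lt (by omega) (by omega)
      have h1 : ¬ (p : ℤ) ∣ 1 := fun h1 => by
        have : p ∣ 1 := by exact_mod_cast h1
        exact hp.one_lt.ne' (Nat.dvd_one.1 this)
      exact Nat.not_dvd_of_pos_of_lt (rs_ne hp hph h1) (rs_lt hp.pos _ _)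
  · have hsub : (((Ioc 0 U) ×ˢ (BB k)).filter fun s => ∀ p : ℕ, p.Prime → p ≤ x →
        ¬ (p : ℤ) ∣ ((if p ≤ z then r p else rs p h 1 : ℕ) : ℤ) * s.1 + s.2) ⊆
        (TT z x U k h).filter fun s => ∀ p ∈ P, ¬ (p : ℤ) ∣ (r p : ℤ) * s.1 + s.2 := by
      intro s hs
      rw [mem_filter] at hs
      rw [mem_filter]
      refine ⟨?_, ?_⟩
      · unfold TT
        rw [mem_filter]
        refine ⟨hs.1, fun p hp hzp hpx hdvd => ?_⟩
        have h1 := hs.2 p hp hpx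
        rw [if_neg (by omega)] at h1
        apply h1
        have hph : ¬ p ∣ h := Nat.not_dvd_of_pos_of_lt (by omega) (by omega)
        have h2 := rs_dvd hp hph 1 (Nat.ModEq.refl (rs p h 1))
        have h3 : (p : ℤ) ∣ ((rs p h 1 : ℤ) * s.1 + s.2) * h := by
          have h4 : ((rs p h 1 : ℤ) * s.1 + s.2) * h =
              ((rs p h 1 : ℤ) * h + 1) * s.1 - ((s.1 : ℤ) - s.2 * h) := by ring
          rw [h4]
          exact dvd_sub (h2.mul_right _) hdvd
        have hp' := Nat.prime_iff_prime_int.1 hp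
        rcases hp'.dvd_or_dvd h3 with h4 | h4
        · exact h4
        · exact absurd (by exact_mod_cast h4) hph
      · intro p hp
        rw [hP, mem_filter, mem_Ioc] at hp
        have h1 := hs.2 p hp.2 (hp.1.2.trans hzx.le)
        rwa [if_pos hp.1.2] at h1
    have h1 : ((((Ioc 0 U) ×ˢ (BB k)).filter fun s => ∀ p : ℕ, p.Prime → p ≤ x →
        ¬ (p : ℤ) ∣ ((if p ≤ z then r p else rs p h 1 : ℕ) : ℤ) * s.1 + s.2).card : ℝ) ≤
        (((TT z x U k h).filter fun s => ∀ p ∈ P,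
          ¬ (p : ℤ) ∣ (r p : ℤ) * s.1 + s.2).card : ℝ) := by
      exact_mod_cast card_le_card hsub
    have h2 : ∑ s ∈ TT z x U k h, ∏ p ∈ P,
        (if (p : ℤ) ∣ (s.1 : ℤ) ∨ (p : ℤ) ∣ s.2 then (1 : ℝ) else (1 - 1 / ((p : ℝ) - 1))) ≤
        (∏ p ∈ P, (1 - 1 / (p : ℝ))) * ∑ s ∈ TT z x U k h, GG z s := by
      rw [mul_sum]
      refine sum_le_sum fun s _ => ?_
      have := weight_le P hP2 (fun p => (p : ℤ) ∣ (s.1 : ℤ) ∨ (p : ℤ) ∣ s.2)
      unfold GG
      refine le_trans (le_of_eq ?_) (this.trans (le_of_eq ?_))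
      · congr!
      · congr!
    have h3 : ∏ p ∈ P, (1 - 1 / (p : ℝ)) ≤ 4 * LL / (L * L3) := by
      refine (Pool.Agent.Presieve.prod_le z (by omega)).trans ?_
      refine (one_div_le_one_div_of_le (by positivity) hlogz).trans (le_of_eq ?_)
      field_simp
    have h4 : 0 ≤ ∑ s ∈ TT z x U k h, GG z s := by
      refine sum_nonneg fun s _ => ?_
      unfold GG
      exact prod_nonneg fun p hp => factor_nonneg (mem_filter.1 hp).2 _
    have h5 : ∑ s ∈ TT z x U k h, GG z s ≤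
        6 * (k * Real.exp 1) * (Real.exp 1 + Real.exp 8) * ((2 * U) * (13 * LL / L)) :=
      hsum.trans (mul_le_mul_of_nonneg_left hM' (by positivity))
    refine h1.trans (le_trans ?_ (le_trans h2 ?_))
    · refine le_trans (le_of_eq ?_) (hr2.trans (le_of_eq ?_))
      · congr!
      · congr!
    · calc (∏ p ∈ P, (1 - 1 / (p : ℝ))) * ∑ s ∈ TT z x U k h, GG z s
          ≤ (4 * LL / (L * L3)) *
            (6 * (k * Real.exp 1) * (Real.exp 1 + Real.exp 8) * ((2 * U) * (13 * LL / L))) :=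
            mul_le_mul h3 h5 h4 (by positivity)
        _ = C * (k * U) * (LL ^ 2 / (L ^ 2 * L3)) := by
            rw [hC]
            field_simp
            ring
        _ ≤ C * (c * x * L ^ 2 * L3 / LL ^ 2) * (LL ^ 2 / (L ^ 2 * L3)) := by
            gcongr
        _ = C * c * x := by
            field_simp
        _ ≤ ε * x := by
            apply mul_le_mul_of_nonneg_right _ hx0.le
            calc C * c ≤ C * (ε / C) := mul_le_mul_of_nonneg_left hc2 hC0.le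
              _ = ε := by field_simp

end Pool.Agent.FixedClass
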