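import Pool.Agent.Lib.MP_5b0a7e_nt.Prod

/-!
# The lower bound for the norm, the killed weights, change of measure
-/

namespace LPAP

open Finset

variable {ι : Type} [Fintype ι] [DecidableEq ι]

/-- Energy with trivial weights. -/
noncomputable def Ms (h g : ℕ → ℝ) (L : List ℕ) (α β : ℝ) : ℝ := K h h (fun _ => 1) g L α β

lemma Ms_cons (h g : ℕ → ℝ) (q : ℕ) (L : List ℕ) (α β : ℝ) :
    Ms h g (q :: L) α β = (1 - h q) * Ms h g L α β + h q * Ms h g L (α + β * g q) 0 := by
  simp only [Ms, K, sub_self, zero_mul, add_zero]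

/-- admissible states -/
def Good (ε α β : ℝ) : Prop := (α = ε ∧ β = 1) ∨ (ε ≤ α ∧ α ≤ 1 ∧ β = 0)

lemma Good.step {ε α β g : ℝ} (h : Good ε α β) (hg : 0 ≤ g) (hg1 : g + ε ≤ 1) :
    Good ε (α + β * g) 0 := by
  rcases h with ⟨h1, h2⟩ | ⟨h1, h2, h3⟩
  · right; subst h1; subst h2
    exact ⟨by linarith, by linarith, rfl⟩
  · right; subst h3
    exact ⟨by linarith, by linarith, rfl⟩

lemma Ms_bounds {ε : ℝ} (hε : 0 < ε) {h g : ℕ → ℝ} {L : List ℕ} (hh : ∀ q ∈ L, 0 ≤ h q)
    (hh1 : ∀ q ∈ L, h q ≤ 1) (hg : ∀ q ∈ L, 0 ≤ g q) (hg1 : ∀ q ∈ L, g q + ε ≤ 1)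
    (hε1 : ε ≤ 1) {α β : ℝ} (hG : Good ε α β) : ε ^ 2 ≤ Ms h g L α β ∧ Ms h g L α β ≤ 1 := by
  induction L generalizing α β with
  | nil =>
    simp only [Ms, K]
    rcases hG with ⟨h1, h2⟩ | ⟨h1, h2, h3⟩
    · subst h1; constructor <;> nlinarith
    · constructor <;> nlinarith
  | cons q L ih =>
    have ih' := @ih (fun x hx => hh x (List.mem_cons_of_mem _ hx))
      (fun x hx => hh1 x (List.mem_cons_of_mem _ hx))
      (fun x hx => hg x (List.mem_cons_of_mem _ hx))
      (fun x hx => hg1 x (List.mem_cons_of_mem _ hx))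
    have e1 := hh q List.mem_cons_self
    have e2 := hh1 q List.mem_cons_self
    have e3 := hg q List.mem_cons_self
    have e4 := hg1 q List.mem_cons_self
    rw [Ms_cons]
    obtain ⟨a1, a2⟩ := ih' hG
    obtain ⟨b1, b2⟩ := ih' (hG.step e3 e4)
    constructor <;> nlinarith

lemma one_add_ge_exp {s : ℝ} (hs : |s| ≤ 1 / 8) : Real.exp (s - 2 * s ^ 2) ≤ 1 + s := by
  obtain ⟨h1, h2⟩ := abs_le.mp hs
  have hx : |s - 2 * s ^ 2| ≤ 1 := by
    rw [abs_le]; constructor <;> nlinarith
  have h3 := (abs_le.mp (Real.abs_exp_sub_one_sub_id_le hx)).2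
  have h4 : (s - 2 * s ^ 2) ^ 2 ≤ 2 * s ^ 2 := by
    have : (s - 2 * s ^ 2) ^ 2 = s ^ 2 * (1 - 2 * s) ^ 2 := by ring
    rw [this]
    have h5 : (1 - 2 * s) ^ 2 ≤ 2 := by nlinarith
    nlinarith [sq_nonneg s]
  linarith

/-- Lower bound for the norm of the product function. -/
lemma ex_FP_sq_ge {ε : ℝ} (hε : 0 < ε) {h g : ℕ → ℝ} {L : List ℕ} (hh : ∀ q ∈ L, 0 ≤ h q)
    (hn : ∀ q ∈ L, (Fintype.card ι : ℝ) * h q / ε ^ 2 ≤ 1 / 8)
    (hg : ∀ q ∈ L, 0 ≤ g q) (hg1 : ∀ q ∈ L, g q + ε ≤ 1)
    (hh1 : ∀ q ∈ L, h q ≤ 1)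
    (hε1 : ε ≤ 1) {α β : ι → ℝ} (hG : ∀ i, Good ε (α i) (β i)) :
    Real.exp (-(L.map (fun q => 2 * ((Fintype.card ι : ℝ) * h q / ε ^ 2) ^ 2)).sum) *
      ∏ i, Ms h g L (α i) (β i) ≤ ex (wt h) L (fun ω => FP g L α β ω ^ 2) := by
  induction L generalizing α β with
  | nil =>
    simp only [List.map_nil, List.sum_nil, neg_zero, Real.exp_zero, one_mul, Ms, K, ex, FP,
      Finset.prod_pow]
    exact le_refl _
  | cons q L ih =>
    have ih' := @ih (fun x hx => hh x (List.mem_cons_of_mem _ hx))
      (fun x hx => hn x (List.mem_cons_of_mem _ hx))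
      (fun x hx => hg x (List.mem_cons_of_mem _ hx))
      (fun x hx => hg1 x (List.mem_cons_of_mem _ hx))
      (fun x hx => hh1 x (List.mem_cons_of_mem _ hx))
    have hMb : ∀ {α β : ℝ}, Good ε α β → ε ^ 2 ≤ Ms h g L α β ∧ Ms h g L α β ≤ 1 := fun hG =>
      Ms_bounds hε (fun x hx => hh x (List.mem_cons_of_mem _ hx))
      (fun x hx => hh1 x (List.mem_cons_of_mem _ hx))
      (fun x hx => hg x (List.mem_cons_of_mem _ hx))
      (fun x hx => hg1 x (List.mem_cons_of_mem _ hx)) hε1 hG
    have e1 := hh q List.mem_cons_self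
    have e2 := hn q List.mem_cons_self
    have e3 := hg q List.mem_cons_self
    have e4 := hg1 q List.mem_cons_self
    have hε2 : 0 < ε ^ 2 := by positivity
    set n : ℝ := (Fintype.card ι : ℝ) with hndef
    have hn0 : 0 ≤ n := Nat.cast_nonneg _
    set E := Real.exp (-(L.map (fun q => 2 * (n * h q / ε ^ 2) ^ 2)).sum) with hE
    have hE0 : 0 < E := Real.exp_pos _
    set x : ι → ℝ := fun i => Ms h g L (α i) (β i) with hx
    set y : ι → ℝ := fun i => Ms h g L (α i + β i * g q) 0 with hy
    have hxb : ∀ i, ε ^ 2 ≤ x i ∧ x i ≤ 1 := fun i => hMb (hG i)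
    have hyb : ∀ i, ε ^ 2 ≤ y i ∧ y i ≤ 1 := fun i => hMb ((hG i).step e3 e4)
    have hxpos : ∀ i, 0 < x i := fun i => lt_of_lt_of_le hε2 (hxb i).1
    have hypos : ∀ i, 0 < y i := fun i => lt_of_lt_of_le hε2 (hyb i).1
    have hnh : n * h q ≤ 1 / 8 := by
      have h1 : ε ^ 2 ≤ 1 := by nlinarith
      rw [div_le_iff₀ hε2] at e2
      nlinarith
    -- the sum s
    set s : ℝ := ∑ i, h q * (y i / x i - 1) with hs
    have hratio : ∀ i, |y i / x i - 1| ≤ 1 / ε ^ 2 := by
      intro i
      have h1 : y i / x i ≤ 1 / ε ^ 2 := by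
        rw [div_le_div_iff₀ (hxpos i) hε2]
        nlinarith [(hxb i).1, (hyb i).2, hypos i]
      have h2 : 0 < y i / x i := div_pos (hypos i) (hxpos i)
      have h3 : 1 ≤ 1 / ε ^ 2 := by
        rw [le_div_iff₀ hε2]; nlinarith
      rw [abs_le]; constructor <;> linarith
    have hsabs : |s| ≤ n * h q / ε ^ 2 := by
      calc |s| ≤ ∑ i, |h q * (y i / x i - 1)| := Finset.abs_sum_le_sum_abs _ _
        _ ≤ ∑ i : ι, h q * (1 / ε ^ 2) := by
            refine Finset.sum_le_sum fun i _ => ?_
            rw [abs_mul, abs_of_nonneg e1]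
            exact mul_le_mul_of_nonneg_left (hratio i) e1
        _ = n * h q / ε ^ 2 := by
            rw [Finset.sum_const, Finset.card_univ, nsmul_eq_mul]; ring
    have hs8 : |s| ≤ 1 / 8 := le_trans hsabs e2
    have hse := one_add_ge_exp hs8
    have hs2 : s ^ 2 ≤ (n * h q / ε ^ 2) ^ 2 := by
      rw [← sq_abs s]
      exact pow_le_pow_left₀ (abs_nonneg _) hsabs 2
    -- main computation
    have hlow : E * (∏ i, x i) * (1 + s) ≤
        ex (wt h) (q :: L) (fun ω => FP g (q :: L) α β ω ^ 2) := by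
      rw [ex, Fintype.sum_option]
      have s0 : sl (fun ω => FP g (q :: L) α β ω ^ 2) none = fun ω => FP g L α β ω ^ 2 := rfl
      have s1 : ∀ i, sl (fun ω => FP g (q :: L) α β ω ^ 2) (some i) =
          fun ω => FP g L (Function.update α i (α i + β i * g q))
            (Function.update β i 0) ω ^ 2 := fun i => rfl
      simp only [s0, s1, wt]
      have b1 : ∀ i : ι, E * (y i * ∏ j ∈ Finset.univ.erase i, x j) ≤
          ex (wt h) L (fun ω => FP g L (Function.update α i (α i + β i * g q))
            (Function.update β i 0) ω ^ 2) := by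
        intro i
        have hG' : ∀ j, Good ε (Function.update α i (α i + β i * g q) j)
            (Function.update β i 0 j) := by
          intro j
          by_cases hj : j = i
          · subst hj; rw [Function.update_self, Function.update_self]
            exact (hG j).step e3 e4
          · rw [Function.update_of_ne hj, Function.update_of_ne hj]; exact hG j
        refine le_trans (le_of_eq ?_) (ih' hG')
        rw [← Finset.mul_prod_erase Finset.univ _ (Finset.mem_univ i)]
        rw [Function.update_self, Function.update_self]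
        congr 1
        congr 1
        refine Finset.prod_congr rfl fun j hj => ?_
        have hji : j ≠ i := Finset.ne_of_mem_erase hj
        rw [Function.update_of_ne hji, Function.update_of_ne hji]
      have b0 := ih' hG
      have b2 : E * (∏ i, x i) * (1 + s) = (1 - n * h q) * (E * ∏ i, x i) +
          ∑ i, h q * (E * (y i * ∏ j ∈ Finset.univ.erase i, x j)) := by
        have b3 : ∀ i, h q * (E * (y i * ∏ j ∈ Finset.univ.erase i, x j)) =
            (h q * (y i / x i - 1)) * (E * ∏ i, x i) + h q * (E * ∏ i, x i) := by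
          intro i
          rw [← Finset.mul_prod_erase Finset.univ x (Finset.mem_univ i)]
          have := (hxpos i).ne'
          field_simp
          ring
        simp only [b3, Finset.sum_add_distrib, ← Finset.sum_mul, ← hs]
        rw [Finset.sum_const, Finset.card_univ, nsmul_eq_mul]
        ring
      rw [b2]
      refine add_le_add (mul_le_mul_of_nonneg_left b0 (by linarith)) ?_
      exact Finset.sum_le_sum fun i _ => mul_le_mul_of_nonneg_left (b1 i) e1
    refine le_trans ?_ hlow
    have hup : ∏ i, Ms h g (q :: L) (α i) (β i) ≤ (∏ i, x i) * Real.exp s := by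
      rw [hs, Real.exp_sum, ← Finset.prod_mul_distrib]
      refine Finset.prod_le_prod (fun i _ => ?_) fun i _ => ?_
      · rw [Ms_cons]
        have := hxpos i
        have := hypos i
        have := hh1 q List.mem_cons_self
        exact add_nonneg (mul_nonneg (by linarith) (hxpos i).le) (mul_nonneg e1 (hypos i).le)
      · rw [Ms_cons]
        have h1 := Real.add_one_le_exp (h q * (y i / x i - 1))
        have h2 : (1 - h q) * Ms h g L (α i) (β i) + h q * Ms h g L (α i + β i * g q) 0 =
            x i * (h q * (y i / x i - 1) + 1) := by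
          have := (hxpos i).ne'
          field_simp
          ring
        rw [h2]
        exact mul_le_mul_of_nonneg_left h1 (hxpos i).le
    have hprod : 0 ≤ ∏ i, x i := Finset.prod_nonneg fun i _ => (hxpos i).le
    have hE' : Real.exp (-((q :: L).map (fun q => 2 * (n * h q / ε ^ 2) ^ 2)).sum) =
        E * Real.exp (-(2 * (n * h q / ε ^ 2) ^ 2)) := by
      rw [hE, ← Real.exp_add, List.map_cons, List.sum_cons]
      congr 1; ring
    rw [hE']
    calc E * Real.exp (-(2 * (n * h q / ε ^ 2) ^ 2)) * ∏ i, Ms h g (q :: L) (α i) (β i)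
        ≤ E * Real.exp (-(2 * s ^ 2)) * ((∏ i, x i) * Real.exp s) := by
          refine mul_le_mul ?_ hup (Finset.prod_nonneg fun i _ => ?_) (by positivity)
          · refine mul_le_mul_of_nonneg_left ?_ hE0.le
            apply Real.exp_le_exp.mpr; linarith
          · rw [Ms_cons]
            have := hh1 q List.mem_cons_self
            exact add_nonneg (mul_nonneg (by linarith) (hxpos i).le)
              (mul_nonneg e1 (hypos i).le)
      _ = E * (∏ i, x i) * Real.exp (s - 2 * s ^ 2) := by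
          rw [sub_eq_add_neg, Real.exp_add]; ring
      _ ≤ E * (∏ i, x i) * (1 + s) := by
          refine mul_le_mul_of_nonneg_left hse (mul_nonneg hE0.le hprod)

omit [DecidableEq ι] in
/-- Change of measure. -/
lemma ex_le_of_weights {p p' : ℕ → Option ι → ℝ} {c : ℕ → ℝ} {L : List ℕ}
    (hp : ∀ q ∈ L, ∀ s, 0 ≤ p q s) (hp' : ∀ q ∈ L, ∀ s, 0 ≤ p' q s) (hc : ∀ q ∈ L, 0 ≤ c q)
    (hpp : ∀ q ∈ L, ∀ s, p' q s ≤ c q * p q s) (F : Om ι L → ℝ) (hF : ∀ ω, 0 ≤ F ω) :
    ex p' L F ≤ (L.map c).prod * ex p L F := by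
  induction L with
  | nil => simp [ex]
  | cons q L ih =>
    rw [ex, ex, List.map_cons, List.prod_cons, Finset.mul_sum]
    refine Finset.sum_le_sum fun s _ => ?_
    have h1 := ih (fun x hx => hp x (List.mem_cons_of_mem _ hx))
      (fun x hx => hp' x (List.mem_cons_of_mem _ hx))
      (fun x hx => hc x (List.mem_cons_of_mem _ hx))
      (fun x hx => hpp x (List.mem_cons_of_mem _ hx)) (sl F s) (fun ω => hF _)
    have h2 := hpp q List.mem_cons_self s
    have h3 : 0 ≤ ex p L (sl F s) := ex_nonneg p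
      (fun x hx => hp x (List.mem_cons_of_mem _ hx)) _ (fun ω => hF _)
    have h4 : 0 ≤ (L.map c).prod := List.prod_nonneg (by
      intro a ha
      obtain ⟨x, hx, rfl⟩ := List.mem_map.mp ha
      exact hc x (List.mem_cons_of_mem _ hx))
    calc p' q s * ex p' L (sl F s) ≤ p' q s * ((L.map c).prod * ex p L (sl F s)) :=
          mul_le_mul_of_nonneg_left h1 (hp' q List.mem_cons_self s)
      _ ≤ (c q * p q s) * ((L.map c).prod * ex p L (sl F s)) :=
          mul_le_mul_of_nonneg_right h2 (mul_nonneg h4 h3)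
      _ = _ := by ring

lemma wk_nonneg {h : ℕ → ℝ} {q : ℕ} (h0 : 0 ≤ h q) (h1 : (Fintype.card ι : ℝ) * h q ≤ 1)
    (i : ι) (s : Option ι) : 0 ≤ wk h i q s := by
  cases s with
  | none => simp only [wk]; nlinarith
  | some j => simp only [wk]; split_ifs <;> linarith

lemma wk_le {h : ℕ → ℝ} {q : ℕ} (h0 : 0 ≤ h q) (h1 : (Fintype.card ι : ℝ) * h q ≤ 1 / 2)
    (i : ι) (s : Option ι) : wk h i q s ≤ (1 + 2 * h q) * wt h q s := by
  cases s with
  | none => simp only [wk, wt]; nlinarith
  | some j => simp only [wk, wt]; split_ifs <;> nlinarith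

/-- Upper bound for the norm of the product function for the killed weights. -/
lemma ex_wk_FP_sq_le {h h' g : ℕ → ℝ} {L : List ℕ} (hh : ∀ q ∈ L, 0 ≤ h q)
    (hh1 : ∀ q ∈ L, h q ≤ 1)
    (hn : ∀ q ∈ L, (Fintype.card ι : ℝ) * h q ≤ 1)
    (hh' : ∀ q ∈ L, h q ≤ h' q * (1 - h q) ^ (Fintype.card ι)) (h'0 : ∀ q ∈ L, 0 ≤ h' q)
    (i : ι) (α β : ι → ℝ) :
    ex (wk h i) L (fun ω => FP g L α β ω ^ 2) ≤
      α i ^ 2 * ∏ j ∈ Finset.univ.erase i, K h h' (fun _ => 1) g L (α j) (β j) := by
  induction L generalizing α β with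
  | nil =>
    simp only [ex, FP, K]
    rw [← Finset.mul_prod_erase Finset.univ α (Finset.mem_univ i), mul_pow, Finset.prod_pow]
  | cons q L ih =>
    have ih' := ih (fun x hx => hh x (List.mem_cons_of_mem _ hx))
      (fun x hx => hh1 x (List.mem_cons_of_mem _ hx))
      (fun x hx => hn x (List.mem_cons_of_mem _ hx))
      (fun x hx => hh' x (List.mem_cons_of_mem _ hx))
      (fun x hx => h'0 x (List.mem_cons_of_mem _ hx))
    have hKn : ∀ α β, 0 ≤ K h h' (fun _ => 1) g L α β := K_nonneg
      (fun x hx => hh1 x (List.mem_cons_of_mem _ hx))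
      (fun x hx => h'0 x (List.mem_cons_of_mem _ hx))
      (fun x hx => le_refl _)
    have e1 := hh q List.mem_cons_self
    have e2 := hh1 q List.mem_cons_self
    have e3 := hn q List.mem_cons_self
    have e4 := hh' q List.mem_cons_self
    have e5 := h'0 q List.mem_cons_self
    rw [ex, Fintype.sum_option]
    have s0 : sl (fun ω => FP g (q :: L) α β ω ^ 2) none = fun ω => FP g L α β ω ^ 2 := rfl
    have s1 : ∀ i, sl (fun ω => FP g (q :: L) α β ω ^ 2) (some i) =
        fun ω => FP g L (Function.update α i (α i + β i * g q))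
          (Function.update β i 0) ω ^ 2 := fun i => rfl
    simp only [s0, s1]
    set X : ι → ℝ := fun j => K h h' (fun _ => 1) g L (α j) (β j) with hX
    set Y : ι → ℝ := fun j => K h h' (fun _ => 1) g L (α j + β j * g q) 0 with hY
    have b1 : ∀ j ∈ Finset.univ.erase i, ex (wk h i) L (fun ω => FP g L
        (Function.update α j (α j + β j * g q)) (Function.update β j 0) ω ^ 2) ≤
        α i ^ 2 * (Y j * ∏ k ∈ (Finset.univ.erase i).erase j, X k) := by
      intro j hj
      have hji : j ≠ i := Finset.ne_of_mem_erase hj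
      refine le_trans (ih' _ _) (le_of_eq ?_)
      rw [Function.update_of_ne (Ne.symm hji)]
      rw [← Finset.mul_prod_erase _ _ hj]
      rw [Function.update_self, Function.update_self]
      congr 1
      congr 1
      refine Finset.prod_congr rfl fun k hk => ?_
      have hkj : k ≠ j := Finset.ne_of_mem_erase hk
      rw [Function.update_of_ne hkj, Function.update_of_ne hkj]
    have b0 := ih' α β
    have hcard : ((Finset.univ.erase i).card : ℝ) = (Fintype.card ι : ℝ) - 1 := by
      rw [Finset.card_erase_of_mem (Finset.mem_univ i), Finset.card_univ,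
        Nat.cast_sub (Fintype.card_pos_iff.mpr ⟨i⟩)]
      simp
    have b2 := prod_step (Finset.univ.erase i) e1 e2 (Fintype.card ι)
      (le_trans (Finset.card_le_card (Finset.erase_subset _ _)) (le_of_eq rfl)) e4 e5
      X Y (fun j _ => hKn _ _) (fun j _ => hKn _ _)
    rw [hcard] at b2
    have b3 : ∏ j ∈ Finset.univ.erase i, K h h' (fun _ => 1) g (q :: L) (α j) (β j) =
        ∏ j ∈ Finset.univ.erase i, ((1 - h q) * X j + h' q * Y j) := by
      refine Finset.prod_congr rfl fun j _ => ?_
      simp only [K, sub_self, zero_mul, add_zero, hX, hY]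
    rw [b3]
    refine le_trans ?_ (mul_le_mul_of_nonneg_left b2 (sq_nonneg (α i)))
    rw [mul_add]
    refine add_le_add ?_ ?_
    · simp only [wk]
      have hw : 0 ≤ 1 - ((Fintype.card ι : ℝ) - 1) * h q := by nlinarith
      calc (1 - ((Fintype.card ι : ℝ) - 1) * h q) * ex (wk h i) L (fun ω => FP g L α β ω ^ 2)
          ≤ (1 - ((Fintype.card ι : ℝ) - 1) * h q) *
            (α i ^ 2 * ∏ j ∈ Finset.univ.erase i, X j) := mul_le_mul_of_nonneg_left b0 hw
        _ = _ := by ring
    · rw [← Finset.add_sum_erase Finset.univ _ (Finset.mem_univ i)]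
      have hz : wk h i q (some i) = 0 := by simp [wk]
      rw [hz, zero_mul, zero_add, Finset.mul_sum, Finset.mul_sum]
      refine Finset.sum_le_sum fun j hj => ?_
      have hji : j ≠ i := Finset.ne_of_mem_erase hj
      have hw : wk h i q (some j) = h q := by simp [wk, hji]
      rw [hw]
      calc h q * ex (wk h i) L (fun ω => FP g L
            (Function.update α j (α j + β j * g q)) (Function.update β j 0) ω ^ 2)
          ≤ h q * (α i ^ 2 * (Y j * ∏ k ∈ (Finset.univ.erase i).erase j, X k)) :=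
            mul_le_mul_of_nonneg_left (b1 j hj) e1
        _ = _ := by ring

end LPAP
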