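import Pool.Agent.Lib.GapSieve.Presieve5

/-!
# Integers without medium prime factors are rare
-/

open Finset
open scoped Classical

namespace Pool.Agent.FixedClass

open Pool.Agent.Presieve

/-- For every large `x` there is `z` with `log z ≍ log x log₃ x / log₂ x` such that an interval
`(0, U]`, `x ^ (31/32) < U ≤ x (log x)^2`, contains few integers without prime factors in
`(z, x]`. -/
theorem medium_sieve : ∃ x₀ : ℕ, ∀ x : ℕ, x₀ ≤ x → ∃ z : ℕ, 8 ≤ z ∧ z < x ∧
    1 / 4 * Real.log x * Real.log (Real.log (Real.log x)) / Real.log (Real.log x) ≤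
      Real.log (z + 1) ∧ Real.log (z + 1) ≤ Real.log x ∧
    100 ≤ Real.log x ∧ 1 ≤ Real.log (Real.log x) ∧ 1 ≤ Real.log (Real.log (Real.log x)) ∧
    ∀ U : ℕ, (x : ℝ) ^ (1 - 1 / 32 : ℝ) < U → (U : ℝ) ≤ Real.log x ^ 2 * x →
      (((Ioc 0 U).filter fun n => ∀ p : ℕ, p.Prime → z < p → p ≤ x → ¬ p ∣ n).card : ℝ) ≤
        U * (13 * Real.log (Real.log x) / Real.log x) := by
  obtain ⟨C₀, hC₀⟩ := smooth_count''
  have hcast : Filter.Tendsto (fun x : ℕ => Real.log (x : ℝ)) Filter.atTop Filter.atTop :=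
    Real.tendsto_log_atTop.comp tendsto_natCast_atTop_atTop
  obtain ⟨x₀, hx₀⟩ := Filter.eventually_atTop.1 ((hcast.eventually
    (eventually_L'' (1 / 4) C₀ (by norm_num) le_rfl)).and (Filter.eventually_ge_atTop 2))
  refine ⟨x₀, fun x hx => ?_⟩
  obtain ⟨⟨hL100, hLL1, hLLL1, hLexp, hL32, hL5⟩, hx2⟩ := hx₀ x hx
  set L := Real.log (x : ℝ) with hL
  set LL := Real.log L with hLL
  set L3 := Real.log LL with hL3
  have hx0 : (0:ℝ) < x := by positivity
  have hL0 : 0 < L := by linarith
  have hLL0 : 0 < LL := by linarith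
  have hL30 : 0 < L3 := by linarith
  have hL3LL : L3 ≤ LL := by
    have := Real.log_le_sub_one_of_pos hLL0
    linarith
  -- the parameter z
  set y := (3 / 8) * L * L3 / LL with hy
  have hLLL : 0 < L / LL := by positivity
  have hy1 : y = (3 / 8) * L3 * (L / LL) := by rw [hy]; ring
  have hLLL32 : 32 ≤ L / LL := by
    rw [le_div_iff₀ hLL0]
    exact hL32
  have hy8 : 8 * L3 ≤ y := by
    rw [hy1]
    nlinarith
  have hy5 : 5 ≤ y := by linarith
  have hyL : y ≤ L := by
    rw [hy, div_le_iff₀ (by positivity)]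
    have : (3 / 8) * L * L3 ≤ 1 * L * LL := by
      apply mul_le_mul _ hL3LL hL30.le (by positivity)
      apply mul_le_mul_of_nonneg_right _ hL0.le
      norm_num
    linarith
  set z := ⌊Real.exp y⌋₊ with hz
  have hexp8 : (8:ℝ) ≤ Real.exp y := by
    have h1 := Real.quadratic_le_exp_of_nonneg (show 0 ≤ y by linarith)
    nlinarith
  have hz8 : 8 ≤ z := by
    rw [hz]
    exact Nat.le_floor (by exact_mod_cast hexp8)
  have hz0 : (0:ℝ) < z := by positivity
  have hzle : (z:ℝ) ≤ Real.exp y := Nat.floor_le (Real.exp_pos y).le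
  have hzge : Real.exp y < z + 1 := Nat.lt_floor_add_one _
  have hlogz : Real.log z ≤ y := by
    rw [Real.log_le_iff_le_exp hz0]
    exact hzle
  have hlogz1 : y ≤ Real.log (z + 1) := by
    rw [Real.le_log_iff_exp_le (by linarith)]
    exact hzge.le
  have hlogzpos : 0 < Real.log z := Real.log_pos (by
    have : (8:ℝ) ≤ z := by exact_mod_cast hz8
    linarith)
  have hzx' : z < x := by
    have h3 : (z:ℝ) < x := by
      refine lt_of_le_of_lt hzle ?_
      rw [← Real.exp_log hx0]
      apply Real.exp_lt_exp.2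
      have h4 : y < L := by
        rw [hy, div_lt_iff₀ (by positivity)]
        have h5 : (3 / 8) * L * L3 ≤ 3 / 8 * L * LL := by
          apply mul_le_mul_of_nonneg_left hL3LL (by positivity)
        nlinarith
      exact h4
    exact_mod_cast h3
  have hlz1 : Real.log (z + 1) ≤ L := by
    have h1 : (z:ℝ) + 1 ≤ x := by
      have h2 : z + 1 ≤ x := hzx'
      exact_mod_cast h2
    exact Real.log_le_log (by positivity) h1
  -- the number of blocks
  set K := ⌈2 * LL / Real.log 2⌉₊ with hK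
  have hlog2 : 0 < Real.log 2 := Real.log_pos (by norm_num)
  have hlog2' : 0.6931471803 < Real.log 2 := Real.log_two_gt_d9
  have hlog2'' : Real.log 2 < 0.6931471808 := Real.log_two_lt_d9
  have hK1 : 2 * LL / Real.log 2 ≤ K := Nat.le_ceil _
  have hK2 : (K:ℝ) ≤ 4 * LL := by
    have h1 : (K:ℝ) < 2 * LL / Real.log 2 + 1 := Nat.ceil_lt_add_one (by positivity)
    have h2 : 2 * LL / Real.log 2 ≤ 3 * LL := by
      rw [div_le_iff₀ hlog2]
      nlinarith
    linarith
  refine ⟨z, hz8, hzx', ?_, hlz1, hL100, hLL1, hLLL1, ?_⟩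
  · refine le_trans ?_ hlogz1
    rw [hy]
    apply div_le_div_of_nonneg_right _ hLL0.le
    apply mul_le_mul_of_nonneg_right _ hL30.le
    apply mul_le_mul_of_nonneg_right _ hL0.le
    norm_num
  intro U hUs hUx
  have hU0 : (0:ℝ) < U := lt_of_le_of_lt (by positivity) hUs
  have hU0' : 0 < U := by exact_mod_cast hU0
  have hlogU : (31 / 32) * L ≤ Real.log U := by
    have h1 := Real.log_le_log (by positivity) hUs.le
    rw [Real.log_rpow hx0] at h1
    have h2 : (1 - 1 / 32 : ℝ) * L = (31 / 32) * L := by ring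
    rw [← h2]
    exact h1
  have hUK : U ≤ 2 ^ K * x := by
    have h1 : L ^ 2 ≤ (2:ℝ) ^ K := by
      rw [← Real.log_le_log_iff (by positivity) (by positivity), Real.log_pow, Real.log_pow]
      push_cast
      rw [div_le_iff₀ hlog2] at hK1
      exact hK1
    have h3 : (U:ℝ) ≤ 2 ^ K * x := hUx.trans (mul_le_mul_of_nonneg_right h1 hx0.le)
    exact_mod_cast h3
  set S := (Ioc 0 U).filter fun n => ∀ p : ℕ, p.Prime → z < p → p ≤ x → ¬ p ∣ n with hS
  -- the size of S
  have hcover : S ⊆ ((Ioc 0 U).filter fun n => ∃ p : ℕ, p.Prime ∧ x < p ∧ p ∣ n) ∪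
      ((Ioc 0 U).filter fun n => ∀ p : ℕ, p.Prime → p ∣ n → p ≤ z) := by
    intro n hn
    rw [hS, mem_filter] at hn
    rw [mem_union, mem_filter, mem_filter]
    by_cases h1 : ∃ p : ℕ, p.Prime ∧ x < p ∧ p ∣ n
    · exact Or.inl ⟨hn.1, h1⟩
    · right
      refine ⟨hn.1, fun p hp hpn => ?_⟩
      by_contra hcon
      push Not at h1 hcon
      have hpx : p ≤ x := by
        by_contra hcon2
        exact h1 p hp (by omega) hpn
      exact hn.2 p hp hcon hpx hpn
  have hA := count_big U x K hx2 hUK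
  have hlogz2 : y / 2 ≤ Real.log z := by
    have h1 : Real.exp y ≤ 2 * z := by
      have : (8:ℝ) ≤ z := by exact_mod_cast hz8
      linarith
    have h2 := Real.log_le_log (Real.exp_pos y) h1
    rw [Real.log_exp, Real.log_mul (by norm_num) hz0.ne'] at h2
    linarith
  have hηz : 4 * ((31 / 32) * L3) ≤ Real.log z := by
    linarith
  have hC := hC₀ z U ((31 / 32) * L3) (by positivity) hz8 hηz hU0'
  -- bounds for the two pieces
  have hlog4 : Real.log 4 < 1.3863 := by
    rw [show (4:ℝ) = 2 ^ 2 by norm_num, Real.log_pow]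
    push_cast
    linarith
  have hlog4' : 0 < Real.log 4 := Real.log_pos (by norm_num)
  have hA' : (K:ℝ) * (2 * Real.log 4 / Real.log x) ≤ 12 * LL / L := by
    rw [← hL, ← mul_div_assoc]
    apply div_le_div_of_nonneg_right _ hL0.le
    have : (0:ℝ) ≤ K := by positivity
    nlinarith
  have hL5' : C₀ + 2 * Real.exp ((31 / 32) * L3) ≤ 1 / 4 * LL := by
    have h1 : (1 - 1 / 4 / 8 : ℝ) * L3 = (31 / 32) * L3 := by ring
    rw [h1] at hL5
    exact hL5
  have hC' : Real.exp (- ((31 / 32) * L3 * Real.log U / Real.log z)) *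
        Real.exp (Real.log (Real.log (z + 1)) + 2 * Real.exp ((31 / 32) * L3) + C₀) ≤
        LL / L := by
    rw [← Real.exp_add]
    have h1 : (2 + 1 / 4) * LL ≤ (31 / 32) * L3 * Real.log U / Real.log z := by
      rw [le_div_iff₀ hlogzpos]
      calc (2 + 1 / 4) * LL * Real.log z ≤ (2 + 1 / 4) * LL * y := by gcongr
        _ = (2 + 1 / 4) * (3 / 8) * (L3 * L) := by
            rw [hy]
            field_simp
        _ ≤ (31 / 32) * (31 / 32) * (L3 * L) := by
            apply mul_le_mul_of_nonneg_right _ (by positivity)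
            norm_num
        _ = (31 / 32) * L3 * ((31 / 32) * L) := by ring
        _ ≤ _ := mul_le_mul_of_nonneg_left hlogU (by positivity)
    have h2 : Real.log (Real.log (z + 1)) ≤ LL := by
      apply Real.log_le_log _ hlz1
      linarith
    have h3 : -((31 / 32) * L3 * Real.log U / Real.log z) +
        (Real.log (Real.log (z + 1)) + 2 * Real.exp ((31 / 32) * L3) + C₀) ≤ -LL := by
      linarith
    refine (Real.exp_le_exp.2 h3).trans ?_
    rw [Real.exp_neg, hLL, Real.exp_log hL0, ← hLL, ← one_div]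
    exact div_le_div_of_nonneg_right hLL1 hL0.le
  have h1 := card_le_card hcover
  have h2 := h1.trans (card_union_le _ _)
  have h3 : (S.card : ℝ) ≤
      (((Ioc 0 U).filter fun n => ∃ p : ℕ, p.Prime ∧ x < p ∧ p ∣ n).card : ℝ) +
      (((Ioc 0 U).filter fun n => ∀ p : ℕ, p.Prime → p ∣ n → p ≤ z).card : ℝ) := by
    exact_mod_cast h2
  have h4 : (U:ℝ) * (K * (2 * Real.log 4 / Real.log x)) ≤ U * (12 * LL / L) :=
    mul_le_mul_of_nonneg_left hA' hU0.le
  have h6 : (U:ℝ) * Real.exp (- ((31 / 32) * L3 * Real.log U / Real.log z)) *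
      Real.exp (Real.log (Real.log (z + 1)) + 2 * Real.exp ((31 / 32) * L3) + C₀) ≤
      U * (LL / L) := by
    rw [mul_assoc]
    exact mul_le_mul_of_nonneg_left hC' hU0.le
  have h7 : (U:ℝ) * (13 * LL / L) = U * (12 * LL / L) + U * (LL / L) := by ring
  rw [h7]
  linarith

end Pool.Agent.FixedClass
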