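import Pool.Agent.Lib.MP_5b0a7e_nt.Final

/-!
# A lower bound for the largest least prime in a progression modulo `a`, for every large `a`

`p(a) ≥ c φ(a) log a log log a` for all sufficiently large `a`.
-/

namespace Pool.Agent.Results.MP_5b0a7e_nt.LeastPrimeLower

/-- `p(a, b)`: the smallest prime of the form `a n + b` with `n ≥ 0`. -/
noncomputable def leastPrime (a b : ℕ) : ℕ := sInf {p : ℕ | p.Prime ∧ ∃ n : ℕ, p = a * n + b}

/-- `p(a)`: the largest `p(a, b)` over `1 ≤ b < a` coprime to `a`. -/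
noncomputable def maxLeastPrime (a : ℕ) : ℕ :=
  ((Finset.Ico 1 a).filter (fun b => Nat.Coprime a b)).sup (leastPrime a)

lemma le_leastPrime {a b U : ℕ} (ha : a ≠ 0) (hba : b.Coprime a)
    (hU : ∀ n < U, ¬ (a * n + b).Prime) : a * U ≤ leastPrime a b := by
  have hne : {p : ℕ | p.Prime ∧ ∃ n : ℕ, p = a * n + b}.Nonempty := by
    obtain ⟨p, hp, hpp, hmod⟩ := Nat.forall_exists_prime_gt_and_modEq b ha hba
    refine ⟨p, hpp, (p - b) / a, ?_⟩
    have h1 : a ∣ p - b := (Nat.modEq_iff_dvd' hp.le).mp hmod.symm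
    rw [Nat.mul_div_cancel' h1]
    omega
  obtain ⟨h1, n, hn⟩ := Nat.sInf_mem hne
  have h2 : leastPrime a b = a * n + b := hn
  have h3 : U ≤ n := by
    by_contra hcon
    push Not at hcon
    exact hU n hcon (hn ▸ h1)
  rw [h2]
  calc a * U ≤ a * n := Nat.mul_le_mul_left a h3
    _ ≤ a * n + b := Nat.le_add_right _ _

/-- There are `c > 0` and `A₀` with `p(a) ≥ c φ(a) log a log log a` for all `a ≥ A₀`. -/
theorem result : ∃ c : ℝ, 0 < c ∧ ∃ A₀ : ℕ, ∀ a : ℕ, A₀ ≤ a →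
    c * (a.totient : ℝ) * Real.log a * Real.log (Real.log a) ≤ (maxLeastPrime a : ℝ) := by
  obtain ⟨c, hc, A₀, h⟩ := LPAP.exists_composite_start
  refine ⟨c, hc, A₀, fun a ha => ?_⟩
  obtain ⟨b, U, hb1, hba, hcop, hU, hle⟩ := h a ha
  refine le_trans hle ?_
  have h1 : a * U ≤ leastPrime a b := le_leastPrime (by omega) hcop hU
  have h2 : leastPrime a b ≤ maxLeastPrime a := by
    apply Finset.le_sup (f := leastPrime a)
    rw [Finset.mem_filter, Finset.mem_Ico]
    exact ⟨⟨hb1, hba⟩, hcop.symm⟩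
  exact_mod_cast le_trans h1 h2

end Pool.Agent.Results.MP_5b0a7e_nt.LeastPrimeLower
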