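import Pool.Agent.Lib.MP_5b0a7e_nt.Sieve
import Pool.Agent.Lib.MP_5b0a7e_nt.Mertens

/-!
# Blocks of primes
-/

namespace LPAP

open Finset

section

variable (z : ℕ) (P : ℕ → Prop) [DecidablePred P]

/-- The `k`-th block. -/
noncomputable def Lbk (k : ℕ) : List ℕ :=
  ((Finset.Ioc (z ^ 2 ^ k) (z ^ 2 ^ (k + 1))).filter P).toList

/-- The index of the block of `q`. -/
noncomputable def blkz (q : ℕ) : ℕ := sInf {k | q ≤ z ^ 2 ^ (k + 1)}

variable {z} {P}

lemma mem_Lbk {k q : ℕ} : q ∈ Lbk z P k ↔ z ^ 2 ^ k < q ∧ q ≤ z ^ 2 ^ (k + 1) ∧ P q := by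
  unfold Lbk
  rw [Finset.mem_toList, Finset.mem_filter, Finset.mem_Ioc, and_assoc]

lemma pow_mono (hz : 1 ≤ z) {k l : ℕ} (hkl : k ≤ l) : z ^ 2 ^ k ≤ z ^ 2 ^ l :=
  Nat.pow_le_pow_right hz (Nat.pow_le_pow_right (by norm_num) hkl)

lemma blkz_eq (hz : 1 ≤ z) {k q : ℕ} (hq : q ∈ Lbk z P k) : blkz z q = k := by
  obtain ⟨h1, h2, _⟩ := mem_Lbk.mp hq
  unfold blkz
  apply le_antisymm
  · exact Nat.sInf_le h2
  · by_contra hcon
    push Not at hcon
    have hne : {k | q ≤ z ^ 2 ^ (k + 1)}.Nonempty := ⟨k, h2⟩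
    have h3 := Nat.sInf_mem hne
    have h4 : q ≤ z ^ 2 ^ (sInf {k | q ≤ z ^ 2 ^ (k + 1)} + 1) := h3
    have h5 := pow_mono hz (show sInf {k | q ≤ z ^ 2 ^ (k + 1)} + 1 ≤ k by omega)
    omega

lemma vv_Lbk (h : ℕ → ℝ) (k : ℕ) : vv h (Lbk z P k) =
    ∏ q ∈ (Finset.Ioc (z ^ 2 ^ k) (z ^ 2 ^ (k + 1))).filter P, (1 - h q) := by
  unfold vv Lbk
  exact Finset.prod_map_toList _ _

lemma PP_Lbk (hz : 1 ≤ z) (h : ℕ → ℝ) (k j : ℕ) : PP h (Lbk z P) k j =
    ∏ q ∈ (Finset.Ioc (z ^ 2 ^ k) (z ^ 2 ^ (k + j))).filter P, (1 - h q) := by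
  induction j with
  | zero => simp [PP]
  | succ j ih =>
    unfold PP at ih ⊢
    rw [Finset.prod_range_succ, ih, vv_Lbk]
    have h1 : Finset.Ioc (z ^ 2 ^ k) (z ^ 2 ^ (k + (j + 1))) =
        Finset.Ioc (z ^ 2 ^ k) (z ^ 2 ^ (k + j)) ∪
          Finset.Ioc (z ^ 2 ^ (k + j)) (z ^ 2 ^ (k + j + 1)) := by
      rw [Finset.Ioc_union_Ioc_eq_Ioc (pow_mono hz (by omega)) (pow_mono hz (by omega))]
      rfl
    rw [h1, Finset.filter_union, Finset.prod_union]
    apply Finset.disjoint_filter_filter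
    rw [Finset.disjoint_left]
    intro x hx hx'
    rw [Finset.mem_Ioc] at hx hx'
    omega

lemma LL_Lbk_gt (hz : 1 ≤ z) {k m q : ℕ} (hq : q ∈ LL (Lbk z P) k m) : z ^ 2 ^ k < q := by
  obtain ⟨j, h1, _, h3⟩ := mem_LL hq
  exact lt_of_le_of_lt (pow_mono hz h1) (mem_Lbk.mp h3).1

lemma LL_Lbk_nodup (hz : 1 ≤ z) (k m : ℕ) : (LL (Lbk z P) k m).Nodup := by
  induction m generalizing k with
  | zero => exact List.nodup_nil
  | succ m ih =>
    rw [LL]
    refine List.Nodup.append (Finset.nodup_toList _) (ih (k + 1)) ?_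
    intro q hq hq'
    have h1 := (mem_Lbk.mp hq).2.1
    have h2 := LL_Lbk_gt hz hq'
    omega

lemma LL_Lbk_P {k m q : ℕ} (hq : q ∈ LL (Lbk z P) k m) : P q := by
  obtain ⟨j, _, _, h3⟩ := mem_LL hq
  exact (mem_Lbk.mp h3).2.2

end

lemma two_pow_card_primeFactors_le {a : ℕ} (ha : a ≠ 0) : 2 ^ a.primeFactors.card ≤ a := by
  calc 2 ^ a.primeFactors.card = ∏ _p ∈ a.primeFactors, 2 := by rw [Finset.prod_const]
    _ ≤ ∏ p ∈ a.primeFactors, p :=
        Finset.prod_le_prod' fun p hp => (Nat.prime_of_mem_primeFactors hp).two_le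
    _ ≤ a := Nat.le_of_dvd (Nat.pos_of_ne_zero ha) (Nat.prod_primeFactors_dvd a)

/-- Mertens type upper bound on a range, omitting the primes dividing `a`. -/
lemma prod_range_le {x y a : ℕ} (hx : 2 ≤ x) (hxy : x ≤ y) (ha : a ≠ 0)
    (hax : a.primeFactors.card ≤ x) :
    ∏ q ∈ (Finset.Ioc x y).filter (fun q => q.Prime ∧ ¬ q ∣ a), (1 - (1 : ℝ) / q) ≤
      Real.exp 9 * Real.log (x + 1) / Real.log (y + 1) := by
  have hxR : (2 : ℝ) ≤ x := by exact_mod_cast hx
  have hyR : (2 : ℝ) ≤ y := by exact_mod_cast (le_trans hx hxy)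
  have hlx : 0 < Real.log (x + 1) := Real.log_pos (by linarith)
  have hly : 0 < Real.log (y + 1) := Real.log_pos (by linarith)
  set A := ∏ p ∈ (Finset.Ioc 0 x).filter Nat.Prime, (1 - (1 : ℝ) / p) with hA
  set B := ∏ p ∈ (Finset.Ioc 0 y).filter Nat.Prime, (1 - (1 : ℝ) / p) with hB
  set G := ∏ q ∈ (Finset.Ioc x y).filter (fun q => q.Prime ∧ ¬ q ∣ a), (1 - (1 : ℝ) / q) with hG
  set Z := ∏ q ∈ (Finset.Ioc x y).filter (fun q => q.Prime ∧ q ∣ a), (1 - (1 : ℝ) / q) with hZ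
  have hsplit : B = A * (G * Z) := by
    have h1 : (Finset.Ioc 0 y).filter Nat.Prime = (Finset.Ioc 0 x).filter Nat.Prime ∪
        ((Finset.Ioc x y).filter (fun q => q.Prime ∧ ¬ q ∣ a) ∪
          (Finset.Ioc x y).filter (fun q => q.Prime ∧ q ∣ a)) := by
      ext q
      simp only [Finset.mem_union, Finset.mem_filter, Finset.mem_Ioc]
      constructor
      · rintro ⟨⟨h1, h2⟩, h3⟩
        by_cases hqx : q ≤ x
        · left; exact ⟨⟨h1, hqx⟩, h3⟩
        · right
          by_cases hqa : q ∣ a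
          · right; exact ⟨⟨by omega, h2⟩, h3, hqa⟩
          · left; exact ⟨⟨by omega, h2⟩, h3, hqa⟩
      · rintro (⟨⟨h1, h2⟩, h3⟩ | ⟨⟨h1, h2⟩, h3, _⟩ | ⟨⟨h1, h2⟩, h3, _⟩)
        · exact ⟨⟨h1, by omega⟩, h3⟩
        · exact ⟨⟨by omega, h2⟩, h3⟩
        · exact ⟨⟨by omega, h2⟩, h3⟩
    rw [hB, h1, Finset.prod_union, Finset.prod_union]
    · rw [Finset.disjoint_left]
      intro q hq hq'
      exact (Finset.mem_filter.mp hq).2.2 (Finset.mem_filter.mp hq').2.2
    · rw [Finset.disjoint_left]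
      intro q hq hq'
      rw [Finset.mem_filter, Finset.mem_Ioc] at hq
      rw [Finset.mem_union, Finset.mem_filter, Finset.mem_filter, Finset.mem_Ioc] at hq'
      rcases hq' with h | h <;> omega
  have hBle := prod_one_sub_le y (by omega)
  have hAge := prod_one_sub_ge x (by omega)
  rw [← hB] at hBle
  rw [← hA] at hAge
  have hZge : Real.exp (-2) ≤ Z := by
    have h1 : Real.exp (-(∑ p ∈ (Finset.Ioc x y).filter (fun q => q.Prime ∧ q ∣ a),
        ((1 : ℝ) / p + (1 / p) ^ 2))) ≤ Z := by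
      rw [← Finset.sum_neg_distrib, Real.exp_sum]
      refine Finset.prod_le_prod (fun _ _ => (Real.exp_pos _).le) fun p hp => ?_
      have hp2 := (Finset.mem_filter.mp hp).2.1.two_le
      have hp2R : (2 : ℝ) ≤ p := by exact_mod_cast hp2
      exact exp_neg_le_one_sub (by positivity) (one_div_le_one_div_of_le (by norm_num) hp2R)
    refine le_trans ?_ h1
    apply Real.exp_le_exp.mpr
    apply neg_le_neg
    have hcard : ((Finset.Ioc x y).filter (fun q => q.Prime ∧ q ∣ a)).card ≤ x := by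
      refine le_trans (Finset.card_le_card ?_) hax
      intro q hq
      have h2 := (Finset.mem_filter.mp hq).2
      exact Nat.mem_primeFactors.mpr ⟨h2.1, h2.2, ha⟩
    calc ∑ p ∈ (Finset.Ioc x y).filter (fun q => q.Prime ∧ q ∣ a),
          ((1 : ℝ) / p + (1 / p) ^ 2)
        ≤ ∑ p ∈ (Finset.Ioc x y).filter (fun q => q.Prime ∧ q ∣ a), (2 : ℝ) / x := by
          refine Finset.sum_le_sum fun p hp => ?_
          have h2 := (Finset.mem_Ioc.mp (Finset.mem_filter.mp hp).1).1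
          have h3 : (x : ℝ) ≤ p := by exact_mod_cast h2.le
          have hx0 : (0 : ℝ) < x := by linarith
          have h4 : (1 : ℝ) / p ≤ 1 / x := one_div_le_one_div_of_le hx0 h3
          have h5 : (1 : ℝ) / x ≤ 1 := by rw [div_le_one hx0]; linarith
          have h6 : (0 : ℝ) ≤ 1 / p := by positivity
          have h7 : (2 : ℝ) / x = 1 / x + 1 / x := by ring
          rw [h7]
          nlinarith
      _ ≤ x * (2 / x) := by
          rw [Finset.sum_const, nsmul_eq_mul]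
          apply mul_le_mul_of_nonneg_right _ (by positivity)
          exact_mod_cast hcard
      _ = 2 := by
          have hx0 : (x : ℝ) ≠ 0 := by positivity
          field_simp
  have hG0 : 0 ≤ G := by
    refine Finset.prod_nonneg fun p hp => ?_
    have hp2 := (Finset.mem_filter.mp hp).2.1.two_le
    have hp2R : (2 : ℝ) ≤ p := by exact_mod_cast hp2
    have : (1 : ℝ) / p ≤ 1 / 2 := one_div_le_one_div_of_le (by norm_num) hp2R
    linarith
  have hA0 : 0 < Real.exp (-7) / Real.log (x + 1) := div_pos (Real.exp_pos _) hlx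
  have h1 : Real.exp (-7) / Real.log (x + 1) * (G * Real.exp (-2)) ≤ 1 / Real.log (y + 1) := by
    calc Real.exp (-7) / Real.log (x + 1) * (G * Real.exp (-2)) ≤ A * (G * Z) := by
          apply mul_le_mul hAge (mul_le_mul_of_nonneg_left hZge hG0)
            (mul_nonneg hG0 (Real.exp_pos _).le) (le_trans hA0.le hAge)
      _ = B := hsplit.symm
      _ ≤ _ := hBle
  have h2 : Real.exp 9 * Real.exp (-7) * Real.exp (-2) = 1 := by
    rw [← Real.exp_add, ← Real.exp_add]; norm_num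
  calc G = (Real.exp 9 * Real.log (x + 1)) *
        (Real.exp (-7) / Real.log (x + 1) * (G * Real.exp (-2))) := by
        have h3 : (Real.exp 9 * Real.log (x + 1)) *
          (Real.exp (-7) / Real.log (x + 1) * (G * Real.exp (-2))) =
          G * (Real.exp 9 * Real.exp (-7) * Real.exp (-2)) := by field_simp
        rw [h3, h2, mul_one]
    _ ≤ (Real.exp 9 * Real.log (x + 1)) * (1 / Real.log (y + 1)) :=
        mul_le_mul_of_nonneg_left h1 (by positivity)
    _ = _ := by ring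

/-- The Mertens condition for the blocks. -/
lemma PP_prime_le {z a : ℕ} (hz : 2 ≤ z) (ha : a ≠ 0) (hax : a.primeFactors.card ≤ z)
    (k j : ℕ) :
    PP (fun q => 1 / (q : ℝ)) (Lbk z (fun q => q.Prime ∧ ¬ q ∣ a)) k j ≤
      2 * Real.exp 9 / 2 ^ j := by
  rw [PP_Lbk (by omega)]
  have hzk : z ≤ z ^ 2 ^ k := by
    calc z = z ^ 1 := (pow_one z).symm
      _ ≤ z ^ 2 ^ k := Nat.pow_le_pow_right (by omega) Nat.one_le_two_pow
  refine le_trans (prod_range_le (le_trans hz hzk) (pow_mono (by omega) (by omega)) ha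
    (le_trans hax hzk)) ?_
  have hzR : (2 : ℝ) ≤ z := by exact_mod_cast hz
  have hlz : 0 < Real.log z := Real.log_pos (by linarith)
  set X : ℝ := ((z ^ 2 ^ k : ℕ) : ℝ) with hX
  have hX2 : (2 : ℝ) ≤ X := by rw [hX]; exact_mod_cast le_trans hz hzk
  have hlX : Real.log X = 2 ^ k * Real.log z := by
    rw [hX]; push_cast; rw [Real.log_pow]; push_cast; ring
  have h1 : Real.log (X + 1) ≤ 2 * Real.log X := by
    calc Real.log (X + 1) ≤ Real.log (X ^ 2) := Real.log_le_log (by linarith) (by nlinarith)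
      _ = 2 * Real.log X := by rw [Real.log_pow]; push_cast; ring
  have h2 : 2 ^ (k + j) * Real.log z ≤ Real.log (((z ^ 2 ^ (k + j) : ℕ) : ℝ) + 1) := by
    have h3 : 2 ^ (k + j) * Real.log z = Real.log ((z ^ 2 ^ (k + j) : ℕ) : ℝ) := by
      push_cast; rw [Real.log_pow]; push_cast; ring
    rw [h3]
    apply Real.log_le_log
    · positivity
    · linarith
  have hlpos : 0 < 2 ^ (k + j) * Real.log z := by positivity
  rw [div_le_div_iff₀ (lt_of_lt_of_le hlpos h2) (by positivity)]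
  rw [hlX] at h1
  have h4 : Real.log (X + 1) * 2 ^ j ≤ 2 * (2 ^ (k + j) * Real.log z) := by
    calc Real.log (X + 1) * 2 ^ j ≤ 2 * (2 ^ k * Real.log z) * 2 ^ j :=
          mul_le_mul_of_nonneg_right h1 (by positivity)
      _ = 2 * (2 ^ (k + j) * Real.log z) := by rw [pow_add]; ring
  have he : 0 < Real.exp 9 := Real.exp_pos 9
  calc Real.exp 9 * Real.log (X + 1) * 2 ^ j = Real.exp 9 * (Real.log (X + 1) * 2 ^ j) := by ring
    _ ≤ Real.exp 9 * (2 * (2 ^ (k + j) * Real.log z)) := mul_le_mul_of_nonneg_left h4 he.le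
    _ ≤ Real.exp 9 * (2 * Real.log (((z ^ 2 ^ (k + j) : ℕ) : ℝ) + 1)) := by
        apply mul_le_mul_of_nonneg_left _ he.le
        linarith
    _ = _ := by ring

end LPAP
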