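import Pool.Agent.Lib.MP_5b0a7e_nt.Basic

/-!
# The product function and its energy
-/

namespace LPAP

open Finset

variable {ι : Type} [Fintype ι] [DecidableEq ι]

/-- The weights: every index is hit with probability `h q`, the events being disjoint. -/
noncomputable def wt (h : ℕ → ℝ) (q : ℕ) : Option ι → ℝ
  | none => 1 - (Fintype.card ι : ℝ) * h q
  | some _ => h q

/-- The weights when the index `i` is never hit. -/
noncomputable def wk (h : ℕ → ℝ) (i : ι) (q : ℕ) : Option ι → ℝ
  | none => 1 - ((Fintype.card ι : ℝ) - 1) * h q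
  | some j => if j = i then 0 else h q

/-- The product function. -/
noncomputable def FP (g : ℕ → ℝ) : (L : List ℕ) → (α β : ι → ℝ) → Om ι L → ℝ
  | [], α, _, _ => ∏ i, α i
  | _ :: L, α, β, .cons none ω => FP g L α β ω
  | q :: L, α, β, .cons (some i) ω =>
      FP g L (Function.update α i (α i + β i * g q)) (Function.update β i 0) ω

/-- The energy recursion for one index. -/
noncomputable def K (h h' θ g : ℕ → ℝ) : List ℕ → ℝ → ℝ → ℝ
  | [], α, _ => α ^ 2
  | q :: L, α, β => (1 - h q) * K h h' θ g L α β +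
      h' q * (K h h' θ g L (α + β * g q) 0 + (θ q - 1) * K h h' θ g L (β * g q) (-β))

lemma FP_lin (g : ℕ → ℝ) (L : List ℕ) (i : ι) (α β : ι → ℝ) (x y a a' b b' : ℝ) (ω : Om ι L) :
    FP g L (Function.update α i (x * a + y * a')) (Function.update β i (x * b + y * b')) ω =
      x * FP g L (Function.update α i a) (Function.update β i b) ω +
      y * FP g L (Function.update α i a') (Function.update β i b') ω := by
  induction L generalizing α β a a' b b' with
  | nil =>
    simp only [FP, Finset.prod_update_of_mem (Finset.mem_univ i)]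
    ring
  | cons q L ih =>
    cases ω with
    | cons s ω =>
      cases s with
      | none => exact ih α β a a' b b' ω
      | some j =>
        by_cases hj : j = i
        · subst hj
          simp only [FP, Function.update_self, Function.update_idem]
          have := ih α β (a + b * g q) (a' + b' * g q) 0 0 ω
          simp only [mul_zero, add_zero] at this
          rw [← this]
          congr 2
          ring
        · simp only [FP, Function.update_of_ne hj]
          simp only [Function.update_comm (Ne.symm hj)]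
          exact ih _ _ a a' b b' ω

lemma FP_diff (g : ℕ → ℝ) (L : List ℕ) (i : ι) (α β : ι → ℝ) (c : ℝ) (ω : Om ι L) :
    FP g L (Function.update α i (α i + β i * c)) (Function.update β i 0) ω - FP g L α β ω =
      FP g L (Function.update α i (β i * c)) (Function.update β i (-β i)) ω := by
  have := FP_lin g L i α β 1 (-1) (α i + β i * c) (α i) 0 (β i) ω
  have h1 : Function.update α i (α i) = α := Function.update_eq_self i α
  have h2 : Function.update β i (β i) = β := Function.update_eq_self i β
  rw [h1, h2] at this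
  have h3 : 1 * (α i + β i * c) + -1 * α i = β i * c := by ring
  have h4 : (1 : ℝ) * 0 + -1 * β i = - β i := by ring
  rw [h3, h4] at this
  linarith

omit [Fintype ι] in
/-- An elementary inequality. -/
lemma prod_add_ge (s : Finset ι) (a b : ι → ℝ) (ha : ∀ i ∈ s, 0 ≤ a i) (hb : ∀ i ∈ s, 0 ≤ b i) :
    ∏ i ∈ s, a i + ∑ i ∈ s, b i * ∏ j ∈ s.erase i, a j ≤ ∏ i ∈ s, (a i + b i) := by
  induction s using Finset.induction_on with
  | empty => simp
  | insert k s hk ih =>
    have ih' := ih (fun i hi => ha i (Finset.mem_insert_of_mem hi))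
      (fun i hi => hb i (Finset.mem_insert_of_mem hi))
    have hak := ha k (Finset.mem_insert_self k s)
    have hbk := hb k (Finset.mem_insert_self k s)
    rw [Finset.prod_insert hk, Finset.sum_insert hk, Finset.prod_insert hk,
      Finset.erase_insert hk]
    have h1 : ∑ i ∈ s, b i * ∏ j ∈ (insert k s).erase i, a j =
        a k * ∑ i ∈ s, b i * ∏ j ∈ s.erase i, a j := by
      rw [Finset.mul_sum]
      refine Finset.sum_congr rfl fun i hi => ?_
      have hik : k ≠ i := fun h => hk (h ▸ hi)
      rw [Finset.erase_insert_of_ne hik, Finset.prod_insert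
        (fun h => hk (Finset.mem_of_mem_erase h))]
      ring
    rw [h1]
    have h2 : 0 ≤ ∑ i ∈ s, b i * ∏ j ∈ s.erase i, a j :=
      Finset.sum_nonneg fun i hi => mul_nonneg (hb i (Finset.mem_insert_of_mem hi))
        (Finset.prod_nonneg fun j hj => ha j (Finset.mem_insert_of_mem
          (Finset.mem_of_mem_erase hj)))
    have h3 : 0 ≤ ∏ i ∈ s, a i :=
      Finset.prod_nonneg fun j hj => ha j (Finset.mem_insert_of_mem hj)
    nlinarith [mul_le_mul_of_nonneg_left ih' (add_nonneg hak hbk), mul_nonneg hbk h2]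

omit [Fintype ι] in
/-- The product inequality behind all upper bounds. -/
lemma prod_step (s : Finset ι) {h h' : ℝ} (hh : 0 ≤ h) (hh1 : h ≤ 1) (n : ℕ) (hs : s.card ≤ n)
    (hh' : h ≤ h' * (1 - h) ^ n) (h'0 : 0 ≤ h') (x Y : ι → ℝ) (hx : ∀ i ∈ s, 0 ≤ x i)
    (hY : ∀ i ∈ s, 0 ≤ Y i) :
    (1 - (s.card : ℝ) * h) * ∏ i ∈ s, x i + h * ∑ i ∈ s, Y i * ∏ j ∈ s.erase i, x j ≤
      ∏ i ∈ s, ((1 - h) * x i + h' * Y i) := by
  have h1 := prod_add_ge s (fun i => (1 - h) * x i) (fun i => h' * Y i)
    (fun i hi => mul_nonneg (by linarith) (hx i hi)) (fun i hi => mul_nonneg h'0 (hY i hi))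
  refine le_trans ?_ h1
  have h2 : ∏ i ∈ s, ((1 - h) * x i) = (1 - h) ^ s.card * ∏ i ∈ s, x i := by
    rw [Finset.prod_mul_distrib, Finset.prod_const]
  rw [h2]
  have hb : 1 - (s.card : ℝ) * h ≤ (1 - h) ^ s.card := by
    have := one_add_mul_le_pow (a := -h) (by linarith) s.card
    have e : (1 + -h) = 1 - h := by ring
    rw [e] at this
    linarith
  have hp : 0 ≤ ∏ i ∈ s, x i := Finset.prod_nonneg hx
  refine add_le_add (mul_le_mul_of_nonneg_right hb hp) ?_
  rw [Finset.mul_sum]
  refine Finset.sum_le_sum fun i hi => ?_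
  have h3 : ∏ j ∈ s.erase i, ((1 - h) * x j) = (1 - h) ^ (s.erase i).card *
      ∏ j ∈ s.erase i, x j := by
    rw [Finset.prod_mul_distrib, Finset.prod_const]
  rw [h3]
  have h4 : (1 - h) ^ n ≤ (1 - h) ^ (s.erase i).card :=
    pow_le_pow_of_le_one (by linarith) (by linarith)
      (le_trans (Finset.card_le_card (Finset.erase_subset i s)) hs)
  have h5 : h ≤ h' * (1 - h) ^ (s.erase i).card :=
    le_trans hh' (mul_le_mul_of_nonneg_left h4 h'0)
  have h6 : 0 ≤ Y i * ∏ j ∈ s.erase i, x j := mul_nonneg (hY i hi)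
    (Finset.prod_nonneg fun j hj => hx j (Finset.mem_of_mem_erase hj))
  calc h * (Y i * ∏ j ∈ s.erase i, x j)
      ≤ (h' * (1 - h) ^ (s.erase i).card) * (Y i * ∏ j ∈ s.erase i, x j) :=
        mul_le_mul_of_nonneg_right h5 h6
    _ = _ := by ring

lemma K_nonneg {h h' θ g : ℕ → ℝ} {L : List ℕ} (hh1 : ∀ q ∈ L, h q ≤ 1)
    (h'0 : ∀ q ∈ L, 0 ≤ h' q) (hθ : ∀ q ∈ L, 1 ≤ θ q) (α β : ℝ) : 0 ≤ K h h' θ g L α β := by
  induction L generalizing α β with
  | nil => exact sq_nonneg α
  | cons q L ih =>
    have ih' := ih (fun x hx => hh1 x (List.mem_cons_of_mem _ hx))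
      (fun x hx => h'0 x (List.mem_cons_of_mem _ hx)) (fun x hx => hθ x (List.mem_cons_of_mem _ hx))
    have e1 := hh1 q List.mem_cons_self
    have e2 := h'0 q List.mem_cons_self
    have e3 := hθ q List.mem_cons_self
    rw [K]
    exact add_nonneg (mul_nonneg (by linarith) (ih' _ _)) (mul_nonneg e2
      (add_nonneg (ih' _ _) (mul_nonneg (by linarith) (ih' _ _))))

omit [DecidableEq ι] in
lemma wt_sum (h : ℕ → ℝ) (q : ℕ) : ∑ s : Option ι, wt h q s = 1 := by
  rw [Fintype.sum_option]
  simp [wt]

omit [DecidableEq ι] in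
lemma wt_nonneg {h : ℕ → ℝ} {q : ℕ} (h0 : 0 ≤ h q) (h1 : (Fintype.card ι : ℝ) * h q ≤ 1)
    (s : Option ι) : 0 ≤ wt h q s := by
  cases s with
  | none => simp only [wt]; linarith
  | some i => exact h0

/-- Upper bound for the energy of the product function. -/
lemma D_FP_le {h h' θ g : ℕ → ℝ} {L : List ℕ} (hh : ∀ q ∈ L, 0 ≤ h q) (hh1 : ∀ q ∈ L, h q ≤ 1)
    (hn : ∀ q ∈ L, (Fintype.card ι : ℝ) * h q ≤ 1)
    (hh' : ∀ q ∈ L, h q ≤ h' q * (1 - h q) ^ (Fintype.card ι)) (h'0 : ∀ q ∈ L, 0 ≤ h' q)
    (hθ : ∀ q ∈ L, 1 ≤ θ q) (α β : ι → ℝ) :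
    D (wt h) θ L (FP g L α β) ≤ ∏ i, K h h' θ g L (α i) (β i) := by
  induction L generalizing α β with
  | nil =>
    simp only [D, ex, A, FP, K, Finset.prod_pow]
    exact le_refl _
  | cons q L ih =>
    have ih' := ih (fun x hx => hh x (List.mem_cons_of_mem _ hx))
      (fun x hx => hh1 x (List.mem_cons_of_mem _ hx))
      (fun x hx => hn x (List.mem_cons_of_mem _ hx))
      (fun x hx => hh' x (List.mem_cons_of_mem _ hx))
      (fun x hx => h'0 x (List.mem_cons_of_mem _ hx))
      (fun x hx => hθ x (List.mem_cons_of_mem _ hx))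
    have hKn : ∀ α β, 0 ≤ K h h' θ g L α β := K_nonneg
      (fun x hx => hh1 x (List.mem_cons_of_mem _ hx))
      (fun x hx => h'0 x (List.mem_cons_of_mem _ hx))
      (fun x hx => hθ x (List.mem_cons_of_mem _ hx))
    have e1 := hh q List.mem_cons_self
    have e2 := hh1 q List.mem_cons_self
    have e3 := hn q List.mem_cons_self
    have e4 := hh' q List.mem_cons_self
    have e5 := h'0 q List.mem_cons_self
    have e6 := hθ q List.mem_cons_self
    have hwp : ∀ x ∈ L, ∀ s : Option ι, 0 ≤ wt h x s := fun x hx s =>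
      wt_nonneg (hh x (List.mem_cons_of_mem _ hx)) (hn x (List.mem_cons_of_mem _ hx)) s
    refine le_trans (D_cons_le (wt h) θ hwp (wt_sum h q) e6 _) ?_
    rw [Fintype.sum_option]
    have s0 : sl (FP g (q :: L) α β) none = FP g L α β := rfl
    have s1 : ∀ i, sl (FP g (q :: L) α β) (some i) =
        FP g L (Function.update α i (α i + β i * g q)) (Function.update β i 0) := fun i => rfl
    have s2 : ∀ i, (fun ω => sl (FP g (q :: L) α β) (some i) ω -
        sl (FP g (q :: L) α β) none ω) =
        FP g L (Function.update α i (β i * g q)) (Function.update β i (-β i)) := by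
      intro i; funext ω
      rw [s0, s1]
      exact FP_diff g L i α β (g q) ω
    simp only [s2]
    simp only [s0, s1, wt]
    have b1 : ∀ (i : ι) (a b : ℝ), D (wt h) θ L (FP g L (Function.update α i a)
        (Function.update β i b)) ≤ K h h' θ g L a b *
          ∏ j ∈ Finset.univ.erase i, K h h' θ g L (α j) (β j) := by
      intro i a b
      refine le_trans (ih' _ _) (le_of_eq ?_)
      rw [← Finset.mul_prod_erase Finset.univ _ (Finset.mem_univ i)]
      rw [Function.update_self, Function.update_self]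
      congr 1
      refine Finset.prod_congr rfl fun j hj => ?_
      have hji : j ≠ i := Finset.ne_of_mem_erase hj
      rw [Function.update_of_ne hji, Function.update_of_ne hji]
    have b2 := prod_step (Finset.univ : Finset ι) e1 e2 (Fintype.card ι) (le_of_eq rfl) e4 e5
      (fun i => K h h' θ g L (α i) (β i))
      (fun i => K h h' θ g L (α i + β i * g q) 0 + (θ q - 1) * K h h' θ g L (β i * g q) (-β i))
      (fun i _ => hKn _ _)
      (fun i _ => add_nonneg (hKn _ _) (mul_nonneg (by linarith) (hKn _ _)))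
    simp only [K]
    refine le_trans ?_ b2
    rw [Finset.card_univ]
    have b3 : (1 - (Fintype.card ι : ℝ) * h q) * D (wt h) θ L (FP g L α β) ≤
        (1 - (Fintype.card ι : ℝ) * h q) * ∏ i, K h h' θ g L (α i) (β i) :=
      mul_le_mul_of_nonneg_left (ih' α β) (by linarith)
    have b4 : ∑ i, h q * D (wt h) θ L (FP g L (Function.update α i (α i + β i * g q))
          (Function.update β i 0)) +
        (θ q - 1) * ∑ i, h q * D (wt h) θ L (FP g L (Function.update α i (β i * g q))
          (Function.update β i (-β i))) ≤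
        h q * ∑ i, (K h h' θ g L (α i + β i * g q) 0 +
          (θ q - 1) * K h h' θ g L (β i * g q) (-β i)) *
            ∏ j ∈ Finset.univ.erase i, K h h' θ g L (α j) (β j) := by
      rw [Finset.mul_sum, Finset.mul_sum, ← Finset.sum_add_distrib]
      refine Finset.sum_le_sum fun i _ => ?_
      have c1 := b1 i (α i + β i * g q) 0
      have c2 := b1 i (β i * g q) (-β i)
      have c3 := mul_le_mul_of_nonneg_left c1 e1
      have c4 := mul_le_mul_of_nonneg_left c2 (mul_nonneg (by linarith : 0 ≤ θ q - 1) e1)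
      nlinarith [c3, c4]
    linarith [b3, b4]

end LPAP
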