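import Pool.Agent.Lib.MP_5b0a7e_nt.Core

/-!
# The sieve theorem
-/

namespace LPAP

open Finset

lemma sum_inv_sq_le {z : ℕ} (hz : 0 < z) {L : List ℕ} (hL : L.Nodup) (hq : ∀ q ∈ L, z < q) :
    (L.map (fun q : ℕ => (1 : ℝ) / (q : ℝ) ^ 2)).sum ≤ 1 / (z : ℝ) := by
  rw [← List.sum_toFinset _ hL]
  set Y := max z (L.toFinset.sup id) with hY
  have hsub : L.toFinset ⊆ Finset.Ioc z Y := by
    intro q hq'
    rw [Finset.mem_Ioc]
    refine ⟨hq q (List.mem_toFinset.mp hq'), ?_⟩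
    exact le_trans (Finset.le_sup (f := id) hq') (le_max_right _ _)
  calc ∑ q ∈ L.toFinset, 1 / (q : ℝ) ^ 2 ≤ ∑ q ∈ Finset.Ioc z Y, 1 / (q : ℝ) ^ 2 :=
        Finset.sum_le_sum_of_subset_of_nonneg hsub fun _ _ _ => by positivity
    _ = ∑ q ∈ Finset.Ioc z Y, ((q : ℝ) ^ 2)⁻¹ := by simp only [one_div]
    _ ≤ (z : ℝ)⁻¹ - (Y : ℝ)⁻¹ := sum_Ioc_inv_sq_le_sub hz.ne' (le_max_left _ _)
    _ ≤ 1 / z := by
        rw [one_div]
        have : (0 : ℝ) ≤ (Y : ℝ)⁻¹ := by positivity
        linarith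

lemma sum_inv_le {Y : ℕ} {L : List ℕ} (hL : L.Nodup) (hq : ∀ q ∈ L, 0 < q ∧ q ≤ Y) :
    (L.map (fun q : ℕ => 1 / (q : ℝ))).sum ≤ 1 + Real.log Y := by
  rw [← List.sum_toFinset _ hL]
  have hsub : L.toFinset ⊆ Finset.Icc 1 Y := by
    intro q hq'
    rw [Finset.mem_Icc]
    have := hq q (List.mem_toFinset.mp hq')
    omega
  calc ∑ q ∈ L.toFinset, 1 / (q : ℝ) ≤ ∑ q ∈ Finset.Icc 1 Y, 1 / (q : ℝ) :=
        Finset.sum_le_sum_of_subset_of_nonneg hsub fun _ _ _ => by positivity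
    _ = ((harmonic Y : ℚ) : ℝ) := by
        rw [harmonic_eq_sum_Icc]
        push_cast
        simp only [one_div]
    _ ≤ 1 + Real.log Y := harmonic_le_one_add_log Y

lemma prod_le_exp_sum (f : ℕ → ℝ) {L : List ℕ} (hf : ∀ q ∈ L, 0 ≤ 1 + f q) :
    (L.map (fun q => 1 + f q)).prod ≤ Real.exp ((L.map f).sum) := by
  induction L with
  | nil => simp
  | cons q L ih =>
    rw [List.map_cons, List.prod_cons, List.map_cons, List.sum_cons, Real.exp_add]
    refine mul_le_mul ?_ (ih (fun x hx => hf x (List.mem_cons_of_mem _ hx))) ?_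
      (Real.exp_pos _).le
    · have := Real.add_one_le_exp (f q)
      linarith
    · exact List.prod_nonneg (by
        intro a ha
        obtain ⟨x, hx, rfl⟩ := List.mem_map.mp ha
        exact hf x (List.mem_cons_of_mem _ hx))

lemma list_sum_mul_left (c : ℝ) (f : ℕ → ℝ) (L : List ℕ) :
    (L.map (fun q => c * f q)).sum = c * (L.map f).sum := by
  induction L with
  | nil => simp
  | cons q L ih => simp only [List.map_cons, List.sum_cons, ih]; ring

lemma exp_le_one_add_two_mul {x : ℝ} (h0 : 0 ≤ x) (h1 : x ≤ 1) : Real.exp x ≤ 1 + 2 * x := by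
  have := (abs_le.mp (Real.abs_exp_sub_one_sub_id_le (x := x) (by rw [abs_of_nonneg h0]; exact h1))).2
  nlinarith

lemma mem_LL_of_mem {Lb : ℕ → List ℕ} {k m j q : ℕ} (h1 : k ≤ j) (h2 : j < k + m)
    (hq : q ∈ Lb j) : q ∈ LL Lb k m := by
  induction m generalizing k with
  | zero => omega
  | succ m ih =>
    rw [LL, List.mem_append]
    rcases Nat.eq_or_lt_of_le h1 with h | h
    · subst h; exact Or.inl hq
    · exact Or.inr (ih (by omega) (by omega))

lemma FP_abs_le {ι : Type} [Fintype ι] [DecidableEq ι] {g : ℕ → ℝ} {ε : ℝ} (hε1 : ε ≤ 1)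
    (hε0 : 0 ≤ ε) {L : List ℕ} (hg : ∀ q ∈ L, 0 ≤ g q) (hg1 : ∀ q ∈ L, g q + ε ≤ 1)
    (α β : ι → ℝ) (hG : ∀ i, Good ε (α i) (β i)) (ω : Om ι L) : |FP g L α β ω| ≤ 1 := by
  induction L generalizing α β with
  | nil =>
    simp only [FP]
    rw [Finset.abs_prod]
    apply Finset.prod_le_one (fun i _ => abs_nonneg _)
    intro i _
    rw [abs_le]
    rcases hG i with ⟨h1, _⟩ | ⟨h1, h2, _⟩
    · rw [h1]; constructor <;> linarith
    · constructor <;> linarith
  | cons q L ih =>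
    have ih' := ih (fun x hx => hg x (List.mem_cons_of_mem _ hx))
      (fun x hx => hg1 x (List.mem_cons_of_mem _ hx))
    cases ω with
    | cons s ω =>
      cases s with
      | none => exact ih' α β hG ω
      | some i =>
        simp only [FP]
        apply ih'
        intro j
        by_cases hj : j = i
        · subst hj; rw [Function.update_self, Function.update_self]
          exact (hG j).step (hg q List.mem_cons_self) (hg1 q List.mem_cons_self)
        · rw [Function.update_of_ne hj, Function.update_of_ne hj]; exact hG j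

/-- For large `N` the numerical inequalities hold. -/
lemma eventually_numeric : ∃ N₁ : ℕ, ∀ N : ℕ, N₁ ≤ N → 10 ≤ Real.log N ∧
    64000 * Real.log N ^ 6 ≤ N := by
  have h1 : Filter.Tendsto (fun N : ℕ => Real.log (N : ℝ)) Filter.atTop Filter.atTop :=
    Real.tendsto_log_atTop.comp tendsto_natCast_atTop_atTop
  have h2 := (Real.isLittleO_pow_log_id_atTop (n := 6)).comp_tendsto
    (tendsto_natCast_atTop_atTop (R := ℝ))
  have h3 := h2.def (c := 1 / 64000) (by norm_num)
  have h4 := (h1.eventually_ge_atTop 10).and h3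
  obtain ⟨N₁, hN₁⟩ := Filter.eventually_atTop.mp h4
  refine ⟨N₁, fun N hN => ?_⟩
  obtain ⟨a, b⟩ := hN₁ N hN
  refine ⟨a, ?_⟩
  simp only [Function.comp_apply, id_eq, Real.norm_eq_abs] at b
  rw [abs_of_nonneg (by positivity), abs_of_nonneg (Nat.cast_nonneg N)] at b
  linarith

/-- The key numerical inequality. -/
lemma key_numeric {N x L : ℝ} (hx : 0 < x) (hx1 : 1 ≤ x) (hxN : x ^ 3 ≤ N)
    (hL : 10 ≤ L) (hN : 64000 * L ^ 6 ≤ N) :
    20 * x * L + 2 * L ≤ N / (x * L) := by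
  have hL0 : 0 < L := by linarith
  have hN0 : 0 < N := lt_of_lt_of_le (by positivity) hN
  rw [le_div_iff₀ (by positivity)]
  have h1 : (20 * x ^ 2 * L ^ 2) ^ 3 ≤ (N / 2) ^ 3 := by
    have h2 : x ^ 6 ≤ N ^ 2 := by
      calc x ^ 6 = (x ^ 3) ^ 2 := by ring
        _ ≤ N ^ 2 := pow_le_pow_left₀ (by positivity) hxN 2
    calc (20 * x ^ 2 * L ^ 2) ^ 3 = 8000 * x ^ 6 * L ^ 6 := by ring
      _ ≤ 8000 * N ^ 2 * L ^ 6 := by gcongr
      _ = N ^ 2 * (64000 * L ^ 6) / 8 := by ring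
      _ ≤ N ^ 2 * N / 8 := by gcongr
      _ = (N / 2) ^ 3 := by ring
  have h3 : 20 * x ^ 2 * L ^ 2 ≤ N / 2 :=
    le_of_pow_le_pow_left₀ (by norm_num) (by positivity) h1
  have h4 : 2 * L * (x * L) ≤ 2 * x ^ 2 * L ^ 2 := by
    have : x * L ^ 2 ≤ x ^ 2 * L ^ 2 := by
      apply mul_le_mul_of_nonneg_right _ (by positivity)
      nlinarith
    nlinarith
  nlinarith

/-- The sieve theorem: if a finite set of integers is equidistributed enough in residue classes,
then one of its elements is hit for every index. -/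
theorem sieve (C : ℝ) (hC : 1 ≤ C) : ∃ A : ℝ, 0 < A ∧ ∃ N₀ : ℕ, ∀ N : ℕ, N₀ ≤ N →
    ∀ (ι : Type) [Fintype ι] [DecidableEq ι], Fintype.card ι ≤ N →
    ∀ (h : ℕ → ℝ) (Lb : ℕ → List ℕ) (blk : ℕ → ℕ) (χ : ℕ → ℕ → Option ι),
    (∀ k < Nat.log 8 N, ∀ q ∈ Lb k, blk q = k ∧ N ^ 5 < q ∧ q ≤ (N ^ 5) ^ 2 ^ (k + 1) ∧
      0 ≤ h q ∧ h q ≤ 2 / q ∧ ∀ i, pc χ q (some i) = h q) →
    (LL Lb 0 (Nat.log 8 N)).Nodup →
    (∀ k j, k + j ≤ Nat.log 8 N → PP h Lb k j ≤ C / 2 ^ j) →
    ∀ (B : Finset ℕ) (M E : ℝ), 0 ≤ E → Equi (LL Lb 0 (Nat.log 8 N)) B M E →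
      E * Real.exp (A * N) < M →
      ∃ b ∈ B, ∀ i, ∃ q ∈ LL Lb 0 (Nat.log 8 N), χ q (b % q) = some i := by
  set CR : ℝ := 80 * C * (192 * C + 1) with hCR
  have hCR0 : 0 < CR := by positivity
  obtain ⟨N₁, hN₁⟩ := eventually_numeric
  obtain ⟨k₀, hk₀⟩ := pow_unbounded_of_one_lt (8 * C) (one_lt_two (α := ℝ))
  refine ⟨6 * CR + 2, by positivity, max (max N₁ 10000000) (8 ^ (8 * k₀ + 8)), ?_⟩
  intro N hN ι _ _ hcard h Lb blk χ hLb hnodup hP B M E hE hEqui hEM
  have hNN₁ : N₁ ≤ N := le_trans (le_trans (le_max_left _ _) (le_max_left _ _)) hN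
  have hN7 : 10000000 ≤ N := le_trans (le_trans (le_max_right _ _) (le_max_left _ _)) hN
  have hN8 : 8 ^ (8 * k₀ + 8) ≤ N := le_trans (le_max_right _ _) hN
  have hN0 : N ≠ 0 := by omega
  have hNR7 : (10000000 : ℝ) ≤ N := by exact_mod_cast hN7
  have hNR : (0 : ℝ) < N := by linarith
  obtain ⟨hlog10, hlog6⟩ := hN₁ N hNN₁
  set J := Nat.log 8 N with hJdef
  set L := LL Lb 0 J with hLdef
  set lN := Real.log N with hlN
  have hJ8 : 8 * k₀ + 8 ≤ J := Nat.le_log_of_pow_le (by norm_num) hN8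
  have hJ : 0 < J := by omega
  have hJR : (0 : ℝ) < J := by exact_mod_cast hJ
  have h8J : 8 ^ J ≤ N := Nat.pow_log_le_self 8 hN0
  have h8J' : N < 8 ^ (J + 1) := Nat.lt_pow_succ_log_self (by norm_num) N
  have hx3 : ((2 : ℝ) ^ J) ^ 3 ≤ N := by
    have h1 : ((2 : ℝ) ^ J) ^ 3 = 8 ^ J := by
      rw [← pow_mul, mul_comm, pow_mul]; norm_num
    rw [h1]; exact_mod_cast h8J
  have hx1 : (1 : ℝ) ≤ 2 ^ J := one_le_pow₀ (by norm_num)
  have hx0 : (0 : ℝ) < 2 ^ J := by positivity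
  -- lower bound for J
  have hJlog : lN ≤ 3 * J := by
    have h1 : lN ≤ (J + 1) * Real.log 8 := by
      have h2 : (N : ℝ) ≤ 8 ^ (J + 1) := by exact_mod_cast h8J'.le
      calc lN ≤ Real.log (8 ^ (J + 1)) := Real.log_le_log hNR h2
        _ = (J + 1) * Real.log 8 := by rw [Real.log_pow]; push_cast; ring
    have h3 : Real.log 8 ≤ 2.0794415425 := by
      have : (8 : ℝ) = 2 ^ 3 := by norm_num
      rw [this, Real.log_pow]
      have := Real.log_two_lt_d9
      push_cast
      linarith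
    have h4 : (8 : ℝ) ≤ J := by exact_mod_cast (by omega : 8 ≤ J)
    nlinarith
  -- data on the elements of the list
  have hmem : ∀ q ∈ L, ∃ k, k < J ∧ q ∈ Lb k := by
    intro q hq
    obtain ⟨j, _, h2, h3⟩ := mem_LL hq
    exact ⟨j, by omega, h3⟩
  have hqN : ∀ q ∈ L, N ^ 5 < q := fun q hq => by
    obtain ⟨k, hk, hqk⟩ := hmem q hq
    exact (hLb k hk q hqk).2.1
  have hqpos : ∀ q ∈ L, 0 < q := fun q hq => by have := hqN q hq; omega
  have hqNR : ∀ q ∈ L, (N : ℝ) ^ 5 < q := fun q hq => by exact_mod_cast hqN q hq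
  have hh0 : ∀ q ∈ L, 0 ≤ h q := fun q hq => by
    obtain ⟨k, hk, hqk⟩ := hmem q hq
    exact (hLb k hk q hqk).2.2.2.1
  have hh2 : ∀ q ∈ L, h q ≤ 2 / q := fun q hq => by
    obtain ⟨k, hk, hqk⟩ := hmem q hq
    exact (hLb k hk q hqk).2.2.2.2.1
  have hqle : ∀ q ∈ L, q ≤ (N ^ 5) ^ 2 ^ J := fun q hq => by
    obtain ⟨k, hk, hqk⟩ := hmem q hq
    refine le_trans (hLb k hk q hqk).2.2.1 ?_
    apply Nat.pow_le_pow_right (by positivity)
    exact Nat.pow_le_pow_right (by norm_num) (by omega)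
  have hN5 : (0 : ℝ) < (N : ℝ) ^ 5 := by positivity
  have hhN5 : ∀ q ∈ L, h q ≤ 2 / (N : ℝ) ^ 5 := fun q hq =>
    le_trans (hh2 q hq) (div_le_div_of_nonneg_left (by norm_num) hN5 (hqNR q hq).le)
  have hN4 : (1 : ℝ) / N ^ 4 ≤ 1 / 10000000 := by
    apply one_div_le_one_div_of_le (by norm_num)
    calc (10000000 : ℝ) ≤ N := hNR7
      _ = (N : ℝ) ^ 1 := by ring
      _ ≤ N ^ 4 := pow_le_pow_right₀ (by linarith) (by norm_num)
  have hNh : ∀ q ∈ L, (N : ℝ) * h q ≤ 2 * (1 / N ^ 4) := fun q hq => by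
    calc (N : ℝ) * h q ≤ N * (2 / N ^ 5) := mul_le_mul_of_nonneg_left (hhN5 q hq) hNR.le
      _ = 2 * (1 / N ^ 4) := by field_simp
  have hnh : ∀ q ∈ L, (N : ℝ) * h q ≤ 1 / 2 := fun q hq => by
    have := hNh q hq
    linarith
  have hh1 : ∀ q ∈ L, h q ≤ 1 / 2 := fun q hq => by
    have h1 := hnh q hq
    have h2 := hh0 q hq
    nlinarith
  -- sum of squares
  have hsumsq : (L.map (fun q : ℕ => 1 / (q : ℝ) ^ 2)).sum ≤ 1 / (N : ℝ) ^ 5 := by
    have := sum_inv_sq_le (z := N ^ 5) (by positivity) hnodup hqN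
    push_cast at this
    exact this
  have hsumh2 : (L.map (fun q : ℕ => h q ^ 2)).sum ≤ 4 / (N : ℝ) ^ 5 := by
    calc (L.map (fun q : ℕ => h q ^ 2)).sum ≤ (L.map (fun q : ℕ => 4 * (1 / (q : ℝ) ^ 2))).sum := by
          apply List.sum_le_sum
          intro q hq
          have h1 := pow_le_pow_left₀ (hh0 q hq) (hh2 q hq) 2
          calc h q ^ 2 ≤ (2 / (q : ℝ)) ^ 2 := h1
            _ = 4 * (1 / (q : ℝ) ^ 2) := by ring
      _ = 4 * (L.map (fun q : ℕ => 1 / (q : ℝ) ^ 2)).sum := list_sum_mul_left 4 _ L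
      _ ≤ 4 * (1 / (N : ℝ) ^ 5) := mul_le_mul_of_nonneg_left hsumsq (by norm_num)
      _ = 4 / (N : ℝ) ^ 5 := by ring
  -- parameters
  set ε : ℝ := 1 / (32 * Real.sqrt N) with hε
  have hsqrt : 0 < Real.sqrt N := Real.sqrt_pos.mpr hNR
  have hε0 : 0 < ε := by positivity
  have hε2 : ε ^ 2 = 1 / (1024 * N) := by
    rw [hε, div_pow, mul_pow, Real.sq_sqrt hNR.le]; norm_num
  have hJsq : (J : ℝ) ^ 2 ≤ N := by
    have h1 : (J : ℝ) ≤ 2 ^ J / 2 := nat_le_two_pow J
    have h2 : (J : ℝ) ^ 2 ≤ (2 ^ J) ^ 2 := pow_le_pow_left₀ hJR.le (by linarith) 2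
    have h3 : ((2 : ℝ) ^ J) ^ 2 ≤ (2 ^ J) ^ 3 := pow_le_pow_right₀ hx1 (by norm_num)
    linarith
  have hεJ : ε ≤ 1 / J := by
    rw [hε]
    apply one_div_le_one_div_of_le hJR
    have : (J : ℝ) ≤ Real.sqrt N := Real.le_sqrt_of_sq_le hJsq
    linarith
  have hε1 : ε ≤ 1 := by
    refine le_trans hεJ ?_
    rw [div_le_one hJR]
    exact_mod_cast hJ
  set u : ℕ → ℝ := fun k => ((J : ℝ) - k) / J with hu
  set t : ℕ → ℝ := fun k => 1 / (4 * C) * 2 ^ k / 2 ^ J with ht
  set g : ℕ → ℝ := fun q => u (blk q) - ε with hg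
  set θ : ℕ → ℝ := fun q => 1 + t (blk q) with hθ
  set h' : ℕ → ℝ := fun q => h q * (1 + 2 * N * h q) with hh'
  have hC0 : 0 < C := by linarith
  have ht0 : ∀ k, 0 ≤ t k := fun k => by simp only [ht]; positivity
  have htle : ∀ k < J, t k ≤ 1 / 4 := by
    intro k hk
    simp only [ht]
    have h1 : (2 : ℝ) ^ k ≤ 2 ^ J := pow_le_pow_right₀ (by norm_num) hk.le
    have h2 : 1 / (4 * C) ≤ 1 / 4 := by
      apply one_div_le_one_div_of_le (by norm_num); linarith
    calc 1 / (4 * C) * 2 ^ k / 2 ^ J ≤ 1 / 4 * 2 ^ J / 2 ^ J := by gcongr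
      _ = 1 / 4 := by field_simp
  have hmono : ∀ q ∈ L, h q ≤ h' q := fun q hq => by
    have h1 := hh0 q hq
    simp only [hh']
    have : 0 ≤ h q * (2 * N * h q) := by positivity
    linarith
  have hcc : ∀ l, l <:+ L → cc h h' l ≤ Real.exp (8 * (1 / N ^ 4)) := by
    intro l hl
    refine le_trans (cc_suffix hl hmono) ?_
    have h1 : cc h h' L = (L.map (fun q => 1 + 2 * N * h q ^ 2)).prod := by
      unfold cc
      congr 2
      funext q
      simp only [hh']
      ring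
    rw [h1]
    refine le_trans (prod_le_exp_sum (fun q => 2 * N * h q ^ 2) (fun q _ => by positivity)) ?_
    apply Real.exp_le_exp.mpr
    rw [list_sum_mul_left]
    calc 2 * (N : ℝ) * (L.map (fun q : ℕ => h q ^ 2)).sum ≤ 2 * N * (4 / (N : ℝ) ^ 5) :=
          mul_le_mul_of_nonneg_left hsumh2 (by positivity)
      _ = 8 * (1 / N ^ 4) := by field_simp; ring
  have hΓ : ∀ q l, q :: l <:+ L → h' q * cc h h' l ≤ (1 + 1 / N) * h q := by
    intro q l hl
    have hqL : q ∈ L := hl.mem List.mem_cons_self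
    have h1 := hcc l ((List.suffix_cons q l).trans hl)
    have h2 := hNh q hqL
    have h3 := hh0 q hqL
    have h4 : 0 ≤ (1 : ℝ) / N ^ 4 := by positivity
    have h5 := exp_le_one_add_two_mul (x := 8 * (1 / (N : ℝ) ^ 4)) (by positivity) (by linarith)
    have h6 : (1 + 2 * N * h q) * cc h h' l ≤ 1 + 1 / N := by
      have h7 : 1 + 2 * (N : ℝ) * h q ≤ 1 + 4 * (1 / N ^ 4) := by linarith
      have h8 : cc h h' l ≤ 1 + 16 * (1 / N ^ 4) := by linarith
      have h9 : 0 ≤ cc h h' l := by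
        refine le_trans zero_le_one (cc_ge_one fun x hx => hmono x ?_)
        exact hl.mem (List.mem_cons_of_mem _ hx)
      have h10 : (1 + 4 * (1 / (N : ℝ) ^ 4)) * (1 + 16 * (1 / N ^ 4)) ≤ 1 + 84 * (1 / N ^ 4) := by
        nlinarith
      have h11 : 84 * (1 / (N : ℝ) ^ 4) ≤ 1 / N := by
        have h12 : (84 : ℝ) ≤ N ^ 3 := by
          calc (84 : ℝ) ≤ N := by linarith
            _ = (N : ℝ) ^ 1 := by ring
            _ ≤ N ^ 3 := pow_le_pow_right₀ (by linarith) (by norm_num)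
        rw [mul_one_div, div_le_div_iff₀ (by positivity) hNR]
        calc 84 * (N : ℝ) ≤ N ^ 3 * N := mul_le_mul_of_nonneg_right h12 hNR.le
          _ = 1 * N ^ 4 := by ring
      calc (1 + 2 * N * h q) * cc h h' l ≤ (1 + 4 * (1 / N ^ 4)) * (1 + 16 * (1 / N ^ 4)) :=
            mul_le_mul h7 h8 h9 (by positivity)
        _ ≤ 1 + 84 * (1 / N ^ 4) := h10
        _ ≤ _ := by linarith
    calc h' q * cc h h' l = h q * ((1 + 2 * N * h q) * cc h h' l) := by simp only [hh']; ring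
      _ ≤ h q * (1 + 1 / N) := mul_le_mul_of_nonneg_left h6 h3
      _ = _ := by ring
  have hBS : BS h h' θ g Lb J u t ε := by
    have hin : ∀ k < J, ∀ q ∈ Lb k, q ∈ L := by
      intro k hk q hq
      have h1 := mem_LL_of_mem (Lb := Lb) (k := 0) (m := J) (Nat.zero_le k) (by omega) hq
      exact h1
    refine ⟨?_, ?_, ?_, ?_, ?_, ?_, ?_, ?_, ?_⟩
    · exact fun k hk q hq => hh0 q (hin k hk q hq)
    · exact fun k hk q hq => by linarith [hh1 q (hin k hk q hq)]
    · exact fun k hk q hq => hmono q (hin k hk q hq)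
    · intro k hk q hq
      have h1 := hnh q (hin k hk q hq)
      have h2 := hh0 q (hin k hk q hq)
      simp only [hh']
      nlinarith
    · intro k hk q hq
      simp only [hg, (hLb k hk q hq).1]
      ring
    · intro k hk q hq
      simp only [hθ, (hLb k hk q hq).1]
    · exact fun k _ => ht0 k
    · exact fun k hk => by linarith [htle k hk]
    · refine le_trans (hcc L (List.suffix_refl _)) ?_
      have h4 : 0 ≤ (1 : ℝ) / N ^ 4 := by positivity
      have h5 := exp_le_one_add_two_mul (x := 8 * (1 / (N : ℝ) ^ 4)) (by positivity) (by linarith)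
      linarith
  have hNN : (1 : ℝ) ≤ 1 + 1 / N := by
    have : (0 : ℝ) ≤ 1 / N := by positivity
    linarith
  -- the lower bound for the norm of a factor
  have hblkJ : ∀ q ∈ L, blk q < J := by
    intro q hq
    obtain ⟨k, hk, hqk⟩ := hmem q hq
    rw [(hLb k hk q hqk).1]; exact hk
  have hu1 : ∀ k < J, 1 / (J : ℝ) ≤ u k := by
    intro k hk
    simp only [hu]
    apply div_le_div_of_nonneg_right _ hJR.le
    have : (k : ℝ) + 1 ≤ J := by exact_mod_cast hk
    linarith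
  have hu2 : ∀ k, u k ≤ 1 := by
    intro k
    simp only [hu]
    rw [div_le_one hJR]
    have : (0 : ℝ) ≤ k := Nat.cast_nonneg k
    linarith
  have hg0 : ∀ q ∈ L, 0 ≤ g q := fun q hq => by
    have h1 := hu1 _ (hblkJ q hq)
    simp only [hg]
    linarith
  have hg1 : ∀ q ∈ L, g q + ε ≤ 1 := fun q _ => by
    have h1 := hu2 (blk q)
    simp only [hg]
    linarith
  have hMs : 1 / 2 ≤ Ms h g L ε 1 := by
    have hMs0 : ∀ k m, k + m = J → 0 ≤ Ms h g (LL Lb k m) ε 1 := by
      intro k m hkm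
      have hsuf : LL Lb k m <:+ L := by
        have := LL_suffix Lb k m
        rwa [hkm] at this
      have := (Ms_bounds (h := h) (g := g) (L := LL Lb k m) hε0
        (fun q hq => hh0 q (hsuf.mem hq)) (fun q hq => by linarith [hh1 q (hsuf.mem hq)])
        (fun q hq => hg0 q (hsuf.mem hq)) (fun q hq => hg1 q (hsuf.mem hq)) hε1
        (Or.inl ⟨rfl, rfl⟩)).1
      exact le_trans (sq_nonneg _) this
    have h1 := Ms_LL_ge (h := h) (g := g) (Lb := Lb) (J := J) (u := u) (ε := ε)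
      (w := 49 / 64) hBS.h0 hBS.h1 hBS.hg k₀ 0 J (by omega) (by omega) (by
        intro i hi
        have h2 : (7 : ℝ) / 8 ≤ u (0 + i) := by
          simp only [hu, Nat.zero_add]
          rw [div_le_div_iff₀ (by norm_num) hJR]
          have h3 : (i : ℝ) + 1 ≤ k₀ := by exact_mod_cast hi
          have h4 : (8 : ℝ) * k₀ + 8 ≤ J := by exact_mod_cast hJ8
          linarith
        have h5 := pow_le_pow_left₀ (by norm_num) h2 2
        linarith) hMs0
    have h2 := hP 0 k₀ (by omega)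
    have h3 : C / 2 ^ k₀ ≤ 1 / 8 := by
      rw [div_le_div_iff₀ (by positivity) (by norm_num)]
      linarith
    linarith
  -- the parameters of Rankin's trick
  set R : ℝ := Real.exp (CR * N) with hR
  set κ : ℝ := 1 / (16 * C * 2 ^ J * Real.log ((N : ℝ) ^ 5)) with hκ
  have hlogN5 : Real.log ((N : ℝ) ^ 5) = 5 * lN := by rw [Real.log_pow]; push_cast; ring
  have hlN0 : 0 < lN := by linarith
  have hκ0 : 0 ≤ κ := by
    rw [hκ, hlogN5]; positivity
  have hθκ : ∀ q ∈ L, (q : ℝ) ^ κ ≤ θ q := by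
    intro q hq
    obtain ⟨k, hk, hqk⟩ := hmem q hq
    have hq0 : (0 : ℝ) < q := by exact_mod_cast hqpos q hq
    have h1 : (q : ℝ) ≤ ((N : ℝ) ^ 5) ^ 2 ^ (k + 1) := by exact_mod_cast (hLb k hk q hqk).2.2.1
    have h2 : Real.log q ≤ 2 ^ (k + 1) * (5 * lN) := by
      calc Real.log q ≤ Real.log (((N : ℝ) ^ 5) ^ 2 ^ (k + 1)) := Real.log_le_log hq0 h1
        _ = 2 ^ (k + 1) * (5 * lN) := by
            rw [Real.log_pow, hlogN5]; push_cast; ring
    have h3 : Real.log q * κ ≤ t k / 2 := by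
      calc Real.log q * κ ≤ 2 ^ (k + 1) * (5 * lN) * κ := mul_le_mul_of_nonneg_right h2 hκ0
        _ = t k / 2 := by
            rw [hκ, hlogN5]
            simp only [ht]
            rw [pow_succ]
            field_simp
            ring
    rw [Real.rpow_def_of_pos hq0]
    simp only [hθ, (hLb k hk q hqk).1]
    have h4 := ht0 k
    have h5 := htle k hk
    calc Real.exp (Real.log q * κ) ≤ Real.exp (t k / 2) := Real.exp_le_exp.mpr h3
      _ ≤ 1 + 2 * (t k / 2) := exp_le_one_add_two_mul (by linarith) (by linarith)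
      _ = 1 + t k := by ring
  -- the weight
  set W : ℝ := Real.exp (4 + 20 * 2 ^ J * lN) with hW
  have hWle : (L.map (fun q => 1 + 2 * h q)).prod ≤ W := by
    refine le_trans (prod_le_exp_sum (fun q => 2 * h q)
      (fun q hq => by have := hh0 q hq; linarith)) ?_
    apply Real.exp_le_exp.mpr
    have h1 := sum_inv_le (Y := (N ^ 5) ^ 2 ^ J) hnodup (fun q hq => ⟨hqpos q hq, hqle q hq⟩)
    have h2 : Real.log (((N ^ 5) ^ 2 ^ J : ℕ) : ℝ) = 2 ^ J * (5 * lN) := by
      push_cast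
      rw [Real.log_pow, hlogN5]
      push_cast
      ring
    rw [h2] at h1
    calc (L.map (fun q => 2 * h q)).sum ≤ (L.map (fun q : ℕ => 4 * (1 / (q : ℝ)))).sum := by
          apply List.sum_le_sum
          intro q hq
          have := hh2 q hq
          calc 2 * h q ≤ 2 * (2 / q) := by linarith
            _ = 4 * (1 / (q : ℝ)) := by ring
      _ = 4 * (L.map (fun q : ℕ => 1 / (q : ℝ))).sum := list_sum_mul_left 4 _ L
      _ ≤ 4 * (1 + 2 ^ J * (5 * lN)) := mul_le_mul_of_nonneg_left h1 (by norm_num)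
      _ = 4 + 20 * 2 ^ J * lN := by ring
  have hkey := key_numeric (N := N) (x := 2 ^ J) (L := lN) hx0 hx1 hx3 hlog10 hlog6
  have htail : 2 * (N : ℝ) * W * (R ^ (-κ) * Real.exp (1 + 64 * C * N / (2 ^ J * J))) ≤
      Real.exp (-1) / 8 := by
    have h1 : R ^ (-κ) = Real.exp (-(N * (192 * C + 1) / (2 ^ J * lN))) := by
      rw [hR, ← Real.exp_mul]
      congr 1
      rw [hκ, hlogN5, hCR]
      field_simp
      ring
    have h2 : 64 * C * N / (2 ^ J * (J : ℝ)) ≤ 192 * C * N / (2 ^ J * lN) := by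
      rw [div_le_div_iff₀ (by positivity) (by positivity)]
      have h3 : 64 * C * N * (2 ^ J) * lN ≤ 64 * C * N * (2 ^ J) * (3 * J) :=
        mul_le_mul_of_nonneg_left hJlog (by positivity)
      linarith
    have h3 : (N : ℝ) = Real.exp lN := (Real.exp_log hNR).symm
    have h4 : Real.exp (-(N * (192 * C + 1) / (2 ^ J * lN))) *
        Real.exp (1 + 64 * C * N / (2 ^ J * J)) ≤ Real.exp (1 - N / (2 ^ J * lN)) := by
      rw [← Real.exp_add]
      apply Real.exp_le_exp.mpr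
      have h5 : (N : ℝ) * (192 * C + 1) / (2 ^ J * lN) =
          192 * C * N / (2 ^ J * lN) + N / (2 ^ J * lN) := by
        rw [← add_div]; congr 1; ring
      rw [h5]
      linarith
    have h6 : (2 : ℝ) ≤ Real.exp 1 := by
      have := Real.add_one_le_exp (1 : ℝ); linarith
    rw [h1]
    calc 2 * (N : ℝ) * W * (Real.exp (-(N * (192 * C + 1) / (2 ^ J * lN))) *
          Real.exp (1 + 64 * C * N / (2 ^ J * J)))
        ≤ 2 * (N : ℝ) * W * Real.exp (1 - N / (2 ^ J * lN)) :=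
          mul_le_mul_of_nonneg_left h4 (by positivity)
      _ = 2 * Real.exp (lN + (4 + 20 * 2 ^ J * lN) + (1 - N / (2 ^ J * lN))) := by
          have e1 : Real.exp (lN + (4 + 20 * 2 ^ J * lN) + (1 - N / (2 ^ J * lN))) =
              Real.exp lN * Real.exp (4 + 20 * 2 ^ J * lN) *
                Real.exp (1 - N / (2 ^ J * lN)) := by
            rw [Real.exp_add (lN + (4 + 20 * 2 ^ J * lN)), Real.exp_add lN]
          rw [e1, ← h3, hW]; ring
      _ ≤ 2 * Real.exp (-5) := by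
          refine mul_le_mul_of_nonneg_left ?_ (by norm_num)
          apply Real.exp_le_exp.mpr
          linarith
      _ ≤ Real.exp (-1) / 8 := by
          have h7 : Real.exp (-5) = Real.exp (-1) * Real.exp (-4) := by
            rw [← Real.exp_add]; norm_num
          have h8 : Real.exp (-4) ≤ 1 / 16 := by
            rw [Real.exp_neg, inv_eq_one_div]
            apply one_div_le_one_div_of_le (by norm_num)
            have h9 : Real.exp 4 = Real.exp 1 ^ 4 := by
              rw [← Real.exp_nat_mul]; norm_num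
            rw [h9]
            have := pow_le_pow_left₀ (by norm_num) h6 4
            linarith
          rw [h7]
          have := Real.exp_pos (-1)
          nlinarith
  -- other hypotheses
  have hN5' : (N : ℝ) ^ 5 = N ^ 4 * N := by ring
  have hnε : ∀ q ∈ L, (N : ℝ) * h q / ε ^ 2 ≤ 1 / 8 := by
    intro q hq
    rw [hε2]
    have h1 := hNh q hq
    have h2 : (N : ℝ) * h q / (1 / (1024 * N)) = N * h q * (1024 * N) := by
      field_simp
    rw [h2]
    calc (N : ℝ) * h q * (1024 * N) ≤ 2 * (1 / N ^ 4) * (1024 * N) :=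
          mul_le_mul_of_nonneg_right h1 (by positivity)
      _ = 2048 * (1 / N ^ 3) := by field_simp; ring
      _ ≤ 2048 * (1 / 10000000) := by
          refine mul_le_mul_of_nonneg_left ?_ (by norm_num)
          apply one_div_le_one_div_of_le (by norm_num)
          calc (10000000 : ℝ) ≤ N := hNR7
            _ = (N : ℝ) ^ 1 := by ring
            _ ≤ N ^ 3 := pow_le_pow_right₀ (by linarith) (by norm_num)
      _ ≤ 1 / 8 := by norm_num
  have hh'n : ∀ q ∈ L, h q ≤ h' q * (1 - h q) ^ (Fintype.card ι) := by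
    intro q hq
    have h1 := hh0 q hq
    have h2 := hnh q hq
    have h3 := hh1 q hq
    have h4 := one_add_mul_le_pow (a := -h q) (by linarith) (Fintype.card ι)
    have e : (1 + -h q) = 1 - h q := by ring
    rw [e] at h4
    have h5 : (Fintype.card ι : ℝ) * h q ≤ N * h q :=
      mul_le_mul_of_nonneg_right (by exact_mod_cast hcard) h1
    have h6 : 1 - (N : ℝ) * h q ≤ (1 - h q) ^ (Fintype.card ι) := by linarith
    have h7 : 1 ≤ (1 + 2 * N * h q) * (1 - h q) ^ (Fintype.card ι) := by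
      calc (1 : ℝ) ≤ (1 + 2 * N * h q) * (1 - N * h q) := by nlinarith [mul_nonneg hNR.le h1]
        _ ≤ _ := mul_le_mul_of_nonneg_left h6 (by positivity)
    simp only [hh']
    calc h q = h q * 1 := by ring
      _ ≤ h q * ((1 + 2 * N * h q) * (1 - h q) ^ (Fintype.card ι)) :=
          mul_le_mul_of_nonneg_left h7 h1
      _ = _ := by ring
  have hsq : (L.map (fun q => 2 * ((N : ℝ) * h q / ε ^ 2) ^ 2)).sum ≤ 1 := by
    have h1 : (fun q => 2 * ((N : ℝ) * h q / ε ^ 2) ^ 2) =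
        fun q => (2097152 * (N : ℝ) ^ 4) * h q ^ 2 := by
      funext q
      rw [hε2]
      field_simp
      ring
    rw [h1, list_sum_mul_left]
    calc 2097152 * (N : ℝ) ^ 4 * (L.map (fun q => h q ^ 2)).sum
        ≤ 2097152 * (N : ℝ) ^ 4 * (4 / N ^ 5) :=
          mul_le_mul_of_nonneg_left hsumh2 (by positivity)
      _ = 8388608 / N := by field_simp; ring
      _ ≤ 1 := by rw [div_le_one hNR]; linarith
  have hcore := core (ι := ι) N (by omega) hcard hBS hC hJ hε0 hεJ hε1 (fun k => rfl)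
    (fun k => rfl) hP hNN (le_refl _) hΓ hnh hnε hh'n hsq hg0 hg1 hκ0 (Real.exp_pos _)
    hθκ hqpos hMs hWle htail (le_of_eq hε2)
  -- conclusion
  have hFabs : ∀ ω : Om ι L, |FP g L (fun _ => ε) (fun _ => 1) ω| ≤ 1 := by
    intro ω
    exact FP_abs_le hε1 hε0.le hg0 hg1 _ _ (fun _ => Or.inl ⟨rfl, rfl⟩) ω
  have hnh1 : ∀ q ∈ L, (Fintype.card ι : ℝ) * h q ≤ 1 := fun q hq => by
    have h1 : (Fintype.card ι : ℝ) * h q ≤ N * h q :=
      mul_le_mul_of_nonneg_right (by exact_mod_cast hcard) (hh0 q hq)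
    linarith [hnh q hq]
  refine exists_hit (h := h) (R := R) hh0 hnh1 ?_ hqpos hE hEqui (Real.exp_pos _) hFabs ?_
  · intro q hq
    obtain ⟨k, hk, hqk⟩ := hmem q hq
    exact (hLb k hk q hqk).2.2.2.2.2
  · have hM0 : 0 < M := lt_of_le_of_lt (mul_nonneg hE (Real.exp_pos _).le) hEM
    have h1 : M * (Real.exp (-1) / 2 * (1 / 2) ^ N) ≤ _ := mul_le_mul_of_nonneg_left hcore hM0.le
    refine lt_of_lt_of_le ?_ h1
    have h2 : (L.map (fun q : ℕ => 1 + 8 / (q : ℝ) ^ 2)).prod ≤ 2 := by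
      refine le_trans (prod_le_exp_sum (fun q : ℕ => 8 / (q : ℝ) ^ 2)
        (fun q _ => by positivity)) ?_
      have h3 : (L.map (fun q : ℕ => (8 : ℝ) / (q : ℝ) ^ 2)).sum ≤ 8 * (1 / (N : ℝ) ^ 4) := by
        calc (L.map (fun q : ℕ => (8 : ℝ) / (q : ℝ) ^ 2)).sum =
            (L.map (fun q : ℕ => 8 * (1 / (q : ℝ) ^ 2))).sum := by
              congr 2; funext q; ring
          _ = 8 * (L.map (fun q : ℕ => 1 / (q : ℝ) ^ 2)).sum := list_sum_mul_left 8 _ L
          _ ≤ 8 * (1 / (N : ℝ) ^ 5) := mul_le_mul_of_nonneg_left hsumsq (by norm_num)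
          _ ≤ 8 * (1 / N ^ 4) := by
              refine mul_le_mul_of_nonneg_left ?_ (by norm_num)
              apply one_div_le_one_div_of_le (by positivity)
              exact pow_le_pow_right₀ (by linarith) (by norm_num)
      calc Real.exp ((L.map (fun q : ℕ => 8 / (q : ℝ) ^ 2)).sum) ≤
            Real.exp (8 * (1 / N ^ 4)) := Real.exp_le_exp.mpr h3
        _ ≤ 1 + 2 * (8 * (1 / N ^ 4)) :=
            exp_le_one_add_two_mul (by positivity) (by linarith)
        _ ≤ 2 := by linarith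
    have hP0 : 0 ≤ (L.map (fun q : ℕ => 1 + 8 / (q : ℝ) ^ 2)).prod := List.prod_nonneg (by
      intro a ha
      obtain ⟨x, hx, rfl⟩ := List.mem_map.mp ha
      positivity)
    have h3 : (R * R) ^ 3 = Real.exp (6 * CR * N) := by
      rw [hR, ← Real.exp_add, ← Real.exp_nat_mul]
      congr 1
      push_cast
      ring
    rw [h3]
    have hcardR : (Fintype.card ι : ℝ) ≤ N := by exact_mod_cast hcard
    have h4 : 2 * ((N : ℝ) + 1) ≤ Real.exp (2 * N) * (Real.exp (-1) / 2 * (1 / 2) ^ N) := by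
      have h5 : Real.exp (2 * (N : ℝ)) = Real.exp N * Real.exp N := by
        rw [← Real.exp_add]; congr 1; ring
      have h6 : (2 : ℝ) ^ N ≤ Real.exp N := by
        have h7 : Real.exp (N : ℝ) = Real.exp 1 ^ N := by
          rw [← Real.exp_nat_mul, mul_one]
        rw [h7]
        apply pow_le_pow_left₀ (by norm_num)
        have := Real.add_one_le_exp (1 : ℝ); linarith
      have h8 : (N : ℝ) ^ 2 / 2 ≤ Real.exp N := by
        have := Real.quadratic_le_exp_of_nonneg hNR.le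
        linarith
      have h9 : (0.36787944116 : ℝ) < Real.exp (-1) := Real.exp_neg_one_gt_d9
      have h10 : (2 : ℝ) ^ N * (1 / 2) ^ N = 1 := by
        rw [← mul_pow]; norm_num
      have h2N : (0 : ℝ) < 2 ^ N := by positivity
      calc 2 * ((N : ℝ) + 1) ≤ (N : ℝ) ^ 2 / 2 * (0.36787944116 / 2) := by nlinarith
        _ ≤ Real.exp N * (Real.exp (-1) / 2) := by
            apply mul_le_mul h8 (by linarith) (by norm_num) (Real.exp_pos _).le
        _ = Real.exp N * ((2 : ℝ) ^ N * (1 / 2) ^ N) * (Real.exp (-1) / 2) := by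
            rw [h10, mul_one]
        _ ≤ Real.exp N * (Real.exp N * (1 / 2) ^ N) * (Real.exp (-1) / 2) := by
            gcongr
        _ = _ := by rw [h5]; ring
    have hc0 : 0 < Real.exp (-1) / 2 * (1 / 2 : ℝ) ^ N := by positivity
    calc ((Fintype.card ι : ℝ) + 1) * (E * Real.exp (6 * CR * N) *
          (L.map (fun q : ℕ => 1 + 8 / (q : ℝ) ^ 2)).prod)
        ≤ ((N : ℝ) + 1) * (E * Real.exp (6 * CR * N) * 2) := by
          gcongr
      _ = E * Real.exp (6 * CR * N) * (2 * ((N : ℝ) + 1)) := by ring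
      _ ≤ E * Real.exp (6 * CR * N) * (Real.exp (2 * N) *
            (Real.exp (-1) / 2 * (1 / 2) ^ N)) := by
          gcongr
      _ = E * Real.exp ((6 * CR + 2) * N) * (Real.exp (-1) / 2 * (1 / 2) ^ N) := by
          have : Real.exp ((6 * CR + 2) * N) = Real.exp (6 * CR * N) * Real.exp (2 * N) := by
            rw [← Real.exp_add]; congr 1; ring
          rw [this]; ring
      _ < M * (Real.exp (-1) / 2 * (1 / 2) ^ N) := mul_lt_mul_of_pos_right hEM hc0

end LPAP
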