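import Pool.Agent.Lib.MP_5b0a7e_nt.Final

/-!
# From a presieve to a progression starting with many composite terms
-/

namespace LPAP

open Finset

/-- Chinese remainder theorem for the primes `p ≤ w` not dividing `a`. -/
lemma exists_crt (a w : ℕ) (r : ℕ → ℕ) :
    ∃ b₀ : ℕ, ∀ n p : ℕ, p ∈ sp w a → (n + 1) % p = r p → p ∣ a * n + b₀ := by
  have hpw : Set.Pairwise (↑(sp w a) : Set ℕ) (Function.onFun Nat.Coprime (fun p : ℕ => p)) := by
    intro p hp q hq hpq
    exact (Nat.coprime_primes (mem_sp.mp hp).2.1 (mem_sp.mp hq).2.1).mpr hpq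
  obtain ⟨b₀, hb₀⟩ := Nat.chineseRemainderOfFinset (fun p => a + (p - (a * r p) % p))
    (fun p : ℕ => p) (sp w a) (fun p hp => (mem_sp.mp hp).2.1.ne_zero) hpw
  refine ⟨b₀, fun n p hp hn => ?_⟩
  have hp0 : 0 < p := (mem_sp.mp hp).2.1.pos
  have h1 : b₀ ≡ a + (p - (a * r p) % p) [MOD p] := hb₀ p hp
  have h2 : a * n + b₀ ≡ a * n + (a + (p - (a * r p) % p)) [MOD p] := Nat.ModEq.add_left _ h1
  refine (Nat.modEq_zero_iff_dvd).mp (h2.trans ?_)
  have h3 : a * n + (a + (p - (a * r p) % p)) = a * (n + 1) + (p - (a * r p) % p) := by ring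
  rw [h3]
  have h4 : n + 1 ≡ r p [MOD p] := by
    have h5 : r p % p = r p := by rw [← hn]; exact Nat.mod_mod _ _
    unfold Nat.ModEq
    rw [hn, h5]
  have h5 : a * (n + 1) ≡ (a * r p) % p [MOD p] :=
    (Nat.ModEq.mul_left a h4).trans (Nat.mod_modEq _ _).symm
  have h6 : a * (n + 1) + (p - (a * r p) % p) ≡ (a * r p) % p + (p - (a * r p) % p) [MOD p] :=
    Nat.ModEq.add_right _ h5
  refine h6.trans ?_
  have h7 : (a * r p) % p < p := Nat.mod_lt _ hp0
  rw [Nat.add_sub_cancel' h7.le]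
  exact (Nat.modEq_zero_iff_dvd).mpr (dvd_refl p)

open Classical in
/-- If residue classes modulo the primes up to `(log a)/10` leave few elements of an interval of
length `U`, some progression modulo `a` starts with `U` composite terms. -/
theorem composite_of_presieve : ∃ c₁ : ℝ, 0 < c₁ ∧ c₁ ≤ 1 / 10 ∧ ∃ X₀ : ℝ, ∀ a : ℕ,
    Real.exp X₀ ≤ a → ∀ (U : ℕ) (r : ℕ → ℕ), U ≤ ⌊Real.log a / 10⌋₊ ^ 2 →
    (((Finset.range U).filter (fun n => ∀ p ∈ sp ⌊Real.log a / 10⌋₊ a,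
      (n + 1) % p ≠ r p)).card : ℝ) ≤ c₁ * (⌊Real.log a / 10⌋₊ : ℝ) →
    ∃ b : ℕ, 1 ≤ b ∧ b < a ∧ b.Coprime a ∧ ∀ n < U, ¬ (a * n + b).Prime := by
  obtain ⟨A, hA, N₀, hmain⟩ := exists_all_hit
  obtain ⟨N₁, hN₁⟩ := eventually_numeric
  set c₁ : ℝ := min (1 / 10) (1 / (10 * A)) with hc₁
  have hc0 : 0 < c₁ := by rw [hc₁]; positivity
  have hc10 : c₁ ≤ 1 / 10 := min_le_left _ _
  have hcA : c₁ * A ≤ 1 / 10 := by
    have h1 : c₁ ≤ 1 / (10 * A) := min_le_right _ _
    calc c₁ * A ≤ 1 / (10 * A) * A := mul_le_mul_of_nonneg_right h1 hA.le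
      _ = 1 / 10 := by field_simp
  set X₀ : ℝ := max 1000 (max (10 * Real.exp (12 / c₁)) (max (4 / c₁ ^ 2)
    (((N₀ : ℝ) + N₁ + 10) * (2 / c₁)))) with hX₀
  refine ⟨c₁, hc0, hc10, X₀, ?_⟩
  intro a haR U r hUw hcard
  have ha0R : (0 : ℝ) < a := lt_of_lt_of_le (Real.exp_pos _) haR
  have ha0 : a ≠ 0 := by
    intro h; rw [h] at ha0R; simp at ha0R
  set x := Real.log a with hx
  have hxX : X₀ ≤ x := by
    rw [hx, Real.le_log_iff_exp_le ha0R]; exact haR
  have hx1 : 1000 ≤ x := le_trans (le_max_left _ _) hxX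
  have hx2 : 10 * Real.exp (12 / c₁) ≤ x :=
    le_trans (le_trans (le_max_left _ _) (le_max_right _ _)) hxX
  have hx3 : 4 / c₁ ^ 2 ≤ x :=
    le_trans (le_trans (le_trans (le_max_left _ _) (le_max_right _ _)) (le_max_right _ _)) hxX
  have hx4 : ((N₀ : ℝ) + N₁ + 10) * (2 / c₁) ≤ x :=
    le_trans (le_trans (le_trans (le_max_right _ _) (le_max_right _ _)) (le_max_right _ _)) hxX
  have hx0 : 0 < x := by linarith
  have hexpx : Real.exp x = a := Real.exp_log ha0R
  have ha1 : 1 < a := by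
    have h1 : (1 : ℝ) < a := by
      rw [← hexpx]; have := Real.add_one_le_exp x; linarith
    exact_mod_cast h1
  -- N
  set N := ⌊c₁ * x⌋₊ with hN
  have hNle : (N : ℝ) ≤ c₁ * x := Nat.floor_le (by positivity)
  have hNgt : c₁ * x < N + 1 := Nat.lt_floor_add_one _
  have hcx : ((N₀ : ℝ) + N₁ + 10) ≤ c₁ * x / 2 := by
    have h1 := mul_le_mul_of_nonneg_left hx4 (by positivity : 0 ≤ c₁ / 2)
    have h2 : c₁ / 2 * (((N₀ : ℝ) + N₁ + 10) * (2 / c₁)) = (N₀ : ℝ) + N₁ + 10 := by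
      field_simp
    rw [h2] at h1
    linarith
  have hN0' : (0 : ℝ) ≤ N₀ := Nat.cast_nonneg _
  have hN1' : (0 : ℝ) ≤ N₁ := Nat.cast_nonneg _
  have hNhalf : c₁ * x / 2 ≤ N := by linarith
  have hNbig : (N₀ : ℝ) + N₁ + 10 ≤ N := by linarith
  have hNN₀ : N₀ ≤ N := by
    have : (N₀ : ℝ) ≤ N := by linarith
    exact_mod_cast this
  have hNN₁ : N₁ ≤ N := by
    have : (N₁ : ℝ) ≤ N := by linarith
    exact_mod_cast this
  have hN10 : 10 ≤ N := by
    have : (10 : ℝ) ≤ N := by linarith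
    exact_mod_cast this
  have hNR : (10 : ℝ) ≤ N := by exact_mod_cast hN10
  obtain ⟨hlog10, hlog6⟩ := hN₁ N hNN₁
  have hxN2 : x ≤ (N : ℝ) ^ 2 := by
    have h1 : (c₁ * x / 2) ^ 2 ≤ (N : ℝ) ^ 2 := pow_le_pow_left₀ (by positivity) hNhalf 2
    refine le_trans ?_ h1
    have h2 : 4 ≤ x * c₁ ^ 2 := by
      rw [div_le_iff₀ (by positivity)] at hx3; exact hx3
    have h3 : (c₁ * x / 2) ^ 2 = x * (x * c₁ ^ 2) / 4 := by ring
    rw [h3]
    nlinarith
  -- w
  set w := ⌊x / 10⌋₊ with hw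
  have hwle : (w : ℝ) ≤ x / 10 := Nat.floor_le (by positivity)
  have hwgt : x / 10 < w + 1 := Nat.lt_floor_add_one _
  have hw1 : 1 ≤ w := by
    have : (1 : ℝ) < w + 1 := by linarith
    have h2 : (0 : ℝ) < w := by linarith
    exact_mod_cast h2
  have hwR : (1 : ℝ) ≤ w := by exact_mod_cast hw1
  have hwN : w ≤ N ^ 2 := by
    have : (w : ℝ) ≤ (N : ℝ) ^ 2 := by linarith
    exact_mod_cast this
  have hN25 : N ^ 2 ≤ N ^ 5 := Nat.pow_le_pow_right (by omega) (by norm_num)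
  set W := Wp w a with hW
  have hWpos : 0 < W := Wp_pos w a
  have hWR : (0 : ℝ) < W := by exact_mod_cast hWpos
  have hWle : (W : ℝ) ≤ Real.exp (0.14 * x) := by
    have h1 : (W : ℝ) ≤ (4 : ℝ) ^ w := by exact_mod_cast Wp_le w a
    refine le_trans h1 ?_
    have h2 : (4 : ℝ) ^ w = Real.exp (w * Real.log 4) := by
      rw [Real.exp_nat_mul, Real.exp_log (by norm_num)]
    rw [h2]
    apply Real.exp_le_exp.mpr
    have h3 : Real.log 4 ≤ 1.3863 := by
      have h4 : Real.log 4 = 2 * Real.log 2 := by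
        have : (4 : ℝ) = 2 ^ 2 := by norm_num
        rw [this, Real.log_pow]; norm_num
      rw [h4]
      have := Real.log_two_lt_d9
      linarith
    calc (w : ℝ) * Real.log 4 ≤ (x / 10) * 1.3863 :=
          mul_le_mul hwle h3 (Real.log_nonneg (by norm_num)) (by positivity)
      _ ≤ 0.14 * x := by linarith
  -- Y
  set Y := (N ^ 5) ^ 2 ^ (Nat.log 8 N) with hY
  have hYexp : (Y : ℝ) ≤ Real.exp (x / 10) := by
    refine le_trans (log_Y_le hlog10 hlog6 (by omega)) ?_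
    apply Real.exp_le_exp.mpr
    calc (N : ℝ) ≤ c₁ * x := hNle
      _ ≤ 1 / 10 * x := mul_le_mul_of_nonneg_right hc10 hx0.le
      _ = x / 10 := by ring
  have hYa2 : (Y : ℝ) ≤ a / 2 := by
    refine le_trans hYexp ?_
    rw [← hexpx]
    have h1 : Real.exp x = Real.exp (x / 10) * Real.exp (9 * x / 10) := by
      rw [← Real.exp_add]; congr 1; ring
    have h2 : (2 : ℝ) ≤ Real.exp (9 * x / 10) := by
      have := Real.add_one_le_exp (9 * x / 10); linarith
    rw [h1]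
    have := Real.exp_pos (x / 10)
    nlinarith
  have hYa : Y ≤ a := by
    have : (Y : ℝ) ≤ a := by linarith
    exact_mod_cast this
  have hNY : N ^ 5 ≤ Y := by
    rw [hY]
    calc N ^ 5 = (N ^ 5) ^ 1 := (pow_one _).symm
      _ ≤ (N ^ 5) ^ 2 ^ (Nat.log 8 N) := Nat.pow_le_pow_right (by positivity) Nat.one_le_two_pow
  -- number of prime factors
  set ω := a.primeFactors.card with hω
  have hωx : (ω : ℝ) ≤ 2 * x := by
    have h1 : (2 : ℝ) ^ ω ≤ a := by exact_mod_cast two_pow_card_primeFactors_le ha0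
    have h2 : Real.log ((2 : ℝ) ^ ω) ≤ x := Real.log_le_log (by positivity) h1
    rw [Real.log_pow] at h2
    have h3 : (1 / 2 : ℝ) ≤ Real.log 2 := by have := Real.log_two_gt_d9; linarith
    have h4 : (0 : ℝ) ≤ ω := Nat.cast_nonneg _
    nlinarith
  have hωN : ω ≤ N ^ 5 := by
    have h1 : (ω : ℝ) ≤ (N : ℝ) ^ 5 := by
      have h2 : (N : ℝ) ^ 5 = (N : ℝ) ^ 2 * (N : ℝ) ^ 3 := by ring
      have h3 : (2 : ℝ) ≤ (N : ℝ) ^ 3 := by
        calc (2 : ℝ) ≤ 10 ^ 3 := by norm_num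
          _ ≤ (N : ℝ) ^ 3 := pow_le_pow_left₀ (by norm_num) hNR 3
      have h4 : (0 : ℝ) ≤ (N : ℝ) ^ 2 := by positivity
      rw [h2]
      nlinarith
    exact_mod_cast h1
  have hφa : 1 / (1 + 2 * x) ≤ (a.totient : ℝ) / a := by
    rw [totient_div a ha0]
    have h1 := prod_one_sub_ge_card a.primeFactors
      (fun p hp => (Nat.prime_of_mem_primeFactors hp).two_le)
    refine le_trans ?_ h1
    apply one_div_le_one_div_of_le (by positivity)
    linarith
  have hφa0 : 0 < (a.totient : ℝ) / a := lt_of_lt_of_le (by positivity) hφa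
  have h2ω : (2 : ℝ) ^ ω ≤ 4 * Real.exp (x / 2) := by
    have h1 : ((2 : ℝ) ^ ω) ^ 2 ≤ (4 * Real.exp (x / 2)) ^ 2 := by
      have h2 : ((2 : ℝ) ^ ω) ^ 2 = 4 ^ ω := by
        rw [← pow_mul, mul_comm, pow_mul]; norm_num
      have h3 : (4 * Real.exp (x / 2)) ^ 2 = 16 * a := by
        rw [mul_pow, ← Real.exp_nat_mul, ← hexpx]
        have : ((2 : ℕ) : ℝ) * (x / 2) = x := by push_cast; ring
        rw [this]; norm_num
      rw [h2, h3]
      exact_mod_cast four_pow_card_le ha0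
    exact le_of_pow_le_pow_left₀ (by norm_num) (by positivity) h1
  -- the main inequality
  have hineq : (2 : ℝ) ^ ω * Real.exp (A * N) <
      ((a : ℝ) - (Y : ℝ)) / W * (a.totient / a) := by
    have h1 : Real.exp (A * N) ≤ Real.exp (x / 10) := by
      apply Real.exp_le_exp.mpr
      calc A * (N : ℝ) ≤ A * (c₁ * x) := mul_le_mul_of_nonneg_left hNle hA.le
        _ = (c₁ * A) * x := by ring
        _ ≤ 1 / 10 * x := mul_le_mul_of_nonneg_right hcA hx0.le
        _ = x / 10 := by ring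
    have h2 : (a : ℝ) / 2 ≤ (a : ℝ) - Y := by linarith
    have h3 : (a : ℝ) / 2 / Real.exp (0.14 * x) * (1 / (1 + 2 * x)) ≤
        ((a : ℝ) - Y) / W * (a.totient / a) := by
      apply mul_le_mul _ hφa (by positivity) (div_nonneg (by linarith) hWR.le)
      exact div_le_div₀ (by linarith) h2 hWR hWle
    refine lt_of_lt_of_le ?_ h3
    have h4 : (2 : ℝ) ^ ω * Real.exp (A * N) ≤ 4 * Real.exp (x / 2) * Real.exp (x / 10) :=
      mul_le_mul h2ω h1 (Real.exp_pos _).le (by positivity)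
    refine lt_of_le_of_lt h4 ?_
    rw [mul_one_div, lt_div_iff₀ (by linarith), lt_div_iff₀ (Real.exp_pos _)]
    have h5 : 4 * Real.exp (x / 2) * Real.exp (x / 10) * (1 + 2 * x) * Real.exp (0.14 * x) =
        4 * (1 + 2 * x) * Real.exp (0.74 * x) := by
      have : Real.exp (0.74 * x) = Real.exp (x / 2) * Real.exp (x / 10) * Real.exp (0.14 * x) := by
        rw [← Real.exp_add, ← Real.exp_add]; congr 1; ring
      rw [this]; ring
    rw [h5, ← hexpx]
    have h6 : Real.exp x = Real.exp (0.26 * x) * Real.exp (0.74 * x) := by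
      rw [← Real.exp_add]; congr 1; ring
    rw [h6, mul_div_right_comm]
    apply mul_lt_mul_of_pos_right _ (Real.exp_pos _)
    have h7 := Real.quadratic_le_exp_of_nonneg (by positivity : 0 ≤ 0.26 * x)
    nlinarith
  -- the class
  obtain ⟨b₀, hb₀⟩ := exists_crt a w r
  set S := (Finset.range U).filter (fun n => W.Coprime (a * n + b₀)) with hS
  have hScard : S.card ≤ N := by
    have h1 : S ⊆ (Finset.range U).filter (fun n => ∀ p ∈ sp w a, (n + 1) % p ≠ r p) := by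
      intro n hn
      rw [hS, Finset.mem_filter] at hn
      rw [Finset.mem_filter]
      refine ⟨hn.1, fun p hp hpr => ?_⟩
      have h2 := hb₀ n p hp hpr
      have h3 : p ∣ W := (prime_dvd_Wp (mem_sp.mp hp).2.1).mpr hp
      exact Nat.not_coprime_of_dvd_of_dvd (mem_sp.mp hp).2.1.one_lt h3 h2 hn.2
    have h2 : (S.card : ℝ) ≤ c₁ * w := le_trans (by exact_mod_cast Finset.card_le_card h1) hcard
    have h3 : (S.card : ℝ) ≤ c₁ * x / 10 := by
      have := mul_le_mul_of_nonneg_left hwle hc0.le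
      linarith
    have h4 : 0 < c₁ * x := by positivity
    have h5 : (S.card : ℝ) ≤ N := by linarith
    exact_mod_cast h5
  have hSlt : ∀ n ∈ S, n < N ^ 5 := by
    intro n hn
    have h1 := Finset.mem_range.mp (Finset.mem_filter.mp hn).1
    calc n < U := h1
      _ ≤ w ^ 2 := hUw
      _ ≤ (N ^ 2) ^ 2 := Nat.pow_le_pow_left hwN 2
      _ = N ^ 4 := by ring
      _ ≤ N ^ 5 := Nat.pow_le_pow_right (by omega) (by norm_num)
  obtain ⟨b, hbY, hba, hbb₀, hbcop, hbS⟩ := hmain N hNN₀ a a ha0 S hScard hSlt hωN W hWpos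
    (Wp_coprime w a) (fun p hp hpW => le_trans (mem_sp.mp ((prime_dvd_Wp hp).mp hpW)).1
      (le_trans hwN hN25)) hYa hineq b₀
  rw [← hY] at hbY hbS
  refine ⟨b, by omega, ?_, hbcop, ?_⟩
  · rcases Nat.lt_or_ge b a with h | h
    · exact h
    · exfalso
      have : b = a := le_antisymm hba h
      rw [this] at hbcop
      rw [Nat.coprime_self] at hbcop
      omega
  · intro n hn hprime
    by_cases hnS : n ∈ S
    · obtain ⟨q, hq, hqY, hqd⟩ := hbS n hnS
      have h1 := (Nat.prime_dvd_prime_iff_eq hq hprime).mp hqd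
      have h2 : b ≤ a * n + b := Nat.le_add_left _ _
      omega
    · have h1 : ¬ W.Coprime (a * n + b₀) := by
        intro h
        exact hnS (Finset.mem_filter.mpr ⟨Finset.mem_range.mpr hn, h⟩)
      obtain ⟨p, hp, hpW, hpn⟩ := Nat.Prime.not_coprime_iff_dvd.mp h1
      have h2 : b ≡ b₀ [MOD p] := hbb₀.of_dvd hpW
      have h3 : p ∣ a * n + b := by
        have h4 : a * n + b ≡ a * n + b₀ [MOD p] := Nat.ModEq.add_left _ h2
        exact (Nat.modEq_zero_iff_dvd).mp (h4.trans ((Nat.modEq_zero_iff_dvd).mpr hpn))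
      have h5 := (Nat.prime_dvd_prime_iff_eq hp hprime).mp h3
      have h6 : p ≤ w := (mem_sp.mp ((prime_dvd_Wp hp).mp hpW)).1
      have h7 : b ≤ a * n + b := Nat.le_add_left _ _
      omega

end LPAP
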