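import Pool.Agent.Lib.MP_5b0a7e_nt.Forms

/-!
# The product of the small primes
-/

namespace LPAP

open Finset

/-- The primes `p ≤ w` not dividing `a`. -/
def sp (w a : ℕ) : Finset ℕ := (Finset.Ioc 0 w).filter (fun p => p.Prime ∧ ¬ p ∣ a)

/-- Their product. -/
def Wp (w a : ℕ) : ℕ := ∏ p ∈ sp w a, p

lemma mem_sp {w a p : ℕ} : p ∈ sp w a ↔ p ≤ w ∧ p.Prime ∧ ¬ p ∣ a := by
  unfold sp
  rw [Finset.mem_filter, Finset.mem_Ioc]
  constructor
  · rintro ⟨⟨_, h1⟩, h2⟩; exact ⟨h1, h2⟩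
  · rintro ⟨h1, h2⟩; exact ⟨⟨h2.1.pos, h1⟩, h2⟩

lemma Wp_pos (w a : ℕ) : 0 < Wp w a :=
  Finset.prod_pos fun _ hp => (mem_sp.mp hp).2.1.pos

lemma prime_dvd_Wp {w a p : ℕ} (hp : p.Prime) : p ∣ Wp w a ↔ p ∈ sp w a := by
  constructor
  · intro h
    obtain ⟨q, hq, hpq⟩ := (Prime.dvd_finsetProd_iff hp.prime _).mp h
    have := (Nat.prime_dvd_prime_iff_eq hp (mem_sp.mp hq).2.1).mp hpq
    rw [this]; exact hq
  · intro h
    exact Finset.dvd_prod_of_mem _ h

lemma Wp_primeFactors (w a : ℕ) : (Wp w a).primeFactors = sp w a := by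
  ext p
  rw [Nat.mem_primeFactors]
  constructor
  · rintro ⟨h1, h2, _⟩; exact (prime_dvd_Wp h1).mp h2
  · intro h
    have hp := (mem_sp.mp h).2.1
    exact ⟨hp, (prime_dvd_Wp hp).mpr h, (Wp_pos w a).ne'⟩

lemma Wp_coprime (w a : ℕ) : (Wp w a).Coprime a := by
  unfold Wp
  apply Nat.Coprime.prod_left
  intro p hp
  obtain ⟨_, h2, h3⟩ := mem_sp.mp hp
  exact (Nat.Prime.coprime_iff_not_dvd h2).mpr h3

lemma Wp_le (w a : ℕ) : Wp w a ≤ 4 ^ w := by
  refine le_trans ?_ (primorial_le_four_pow w)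
  unfold Wp primorial
  apply Finset.prod_le_prod_of_subset_of_one_le'
  · intro p hp
    obtain ⟨h1, h2, _⟩ := mem_sp.mp hp
    rw [Finset.mem_filter, Finset.mem_range]
    exact ⟨by omega, h2⟩
  · intro p hp _
    exact (Finset.mem_filter.mp hp).2.one_lt.le

lemma totient_Wp (w a : ℕ) :
    ((Wp w a).totient : ℝ) / (Wp w a : ℕ) = ∏ p ∈ sp w a, (1 - 1 / (p : ℝ)) := by
  rw [totient_div _ (Wp_pos w a).ne', Wp_primeFactors]

lemma one_sub_inv_pos {p : ℕ} (hp : p.Prime) : (0 : ℝ) < 1 - 1 / (p : ℝ) := by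
  have hp2R : (2 : ℝ) ≤ p := by exact_mod_cast hp.two_le
  have : (1 : ℝ) / p ≤ 1 / 2 := one_div_le_one_div_of_le (by norm_num) hp2R
  linarith

lemma one_sub_inv_le_one (p : ℕ) : (1 : ℝ) - 1 / (p : ℝ) ≤ 1 := by
  have : (0 : ℝ) ≤ 1 / (p : ℝ) := by positivity
  linarith

lemma prod_le_prod_subset {s t : Finset ℕ} (hst : s ⊆ t) {f : ℕ → ℝ}
    (h0 : ∀ p ∈ t, 0 ≤ f p) (h1 : ∀ p ∈ t, f p ≤ 1) : ∏ p ∈ t, f p ≤ ∏ p ∈ s, f p := by
  rw [← Finset.prod_sdiff hst]
  have h2 : ∏ p ∈ t \ s, f p ≤ 1 :=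
    Finset.prod_le_one (fun p hp => h0 p (Finset.mem_sdiff.mp hp).1)
      (fun p hp => h1 p (Finset.mem_sdiff.mp hp).1)
  have h3 : 0 ≤ ∏ p ∈ s, f p := Finset.prod_nonneg fun p hp => h0 p (hst hp)
  exact mul_le_of_le_one_left h3 h2

/-- The density of the integers coprime to `Wp` is at most `(a / φ(a)) / log (w + 1)`. -/
lemma totient_Wp_le {w a : ℕ} (hw : 1 ≤ w) (ha : a ≠ 0) :
    ((Wp w a).totient : ℝ) / (Wp w a : ℕ) * (a.totient / a) ≤ 1 / Real.log (w + 1) := by
  rw [totient_Wp, totient_div a ha]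
  refine le_trans ?_ (prod_one_sub_le w hw)
  have h1 : (Finset.Ioc 0 w).filter Nat.Prime = sp w a ∪
      (Finset.Ioc 0 w).filter (fun p => p.Prime ∧ p ∣ a) := by
    ext p
    simp only [sp, Finset.mem_union, Finset.mem_filter]
    tauto
  rw [h1, Finset.prod_union]
  · apply mul_le_mul_of_nonneg_left
    · refine prod_le_prod_subset ?_ ?_ ?_
      · intro p hp
        have h2 := (Finset.mem_filter.mp hp).2
        exact Nat.mem_primeFactors.mpr ⟨h2.1, h2.2, ha⟩
      · intro p hp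
        exact (one_sub_inv_pos (Nat.prime_of_mem_primeFactors hp)).le
      · intro p _
        exact one_sub_inv_le_one p
    · exact Finset.prod_nonneg fun p hp => (one_sub_inv_pos (mem_sp.mp hp).2.1).le
  · rw [Finset.disjoint_left]
    intro p hp hp'
    exact (mem_sp.mp hp).2.2 (Finset.mem_filter.mp hp').2.2

lemma prod_Ioc_one_sub (w : ℕ) (hw : 1 ≤ w) :
    ∏ p ∈ Finset.Ioc 1 w, (1 - 1 / (p : ℝ)) = 1 / w := by
  induction w, hw using Nat.le_induction with
  | base => simp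
  | succ w hw ih =>
    rw [← Finset.insert_Ioc_right_eq_Ioc_add_one (by omega), Finset.prod_insert (by simp), ih]
    have : (w : ℝ) ≠ 0 := by positivity
    push_cast
    field_simp
    ring

/-- The density of the integers coprime to `Wp` is at least `1 / w`. -/
lemma totient_Wp_ge {w a : ℕ} (hw : 1 ≤ w) :
    1 / (w : ℝ) ≤ ((Wp w a).totient : ℝ) / (Wp w a : ℕ) := by
  rw [totient_Wp, ← prod_Ioc_one_sub w hw]
  refine prod_le_prod_subset ?_ ?_ ?_
  · intro p hp
    obtain ⟨h1, h2, _⟩ := mem_sp.mp hp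
    rw [Finset.mem_Ioc]
    exact ⟨h2.one_lt, h1⟩
  · intro p hp
    have h2 := (Finset.mem_Ioc.mp hp).1
    have hp2R : (2 : ℝ) ≤ p := by exact_mod_cast h2
    have : (1 : ℝ) / p ≤ 1 / 2 := one_div_le_one_div_of_le (by norm_num) hp2R
    linarith
  · intro p _
    exact one_sub_inv_le_one p

/-- Averaging over the residue class modulo `W`. -/
lemma exists_class (a U W : ℕ) (hW : 0 < W) :
    ∃ b₀ : ℕ, ((Finset.range U).filter (fun n => W.Coprime (a * n + b₀))).card * W ≤
      U * W.totient := by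
  by_contra hcon
  push Not at hcon
  have h1 : ∑ b₀ ∈ Finset.range W, ((Finset.range U).filter
      (fun n => W.Coprime (a * n + b₀))).card = U * W.totient := by
    simp only [Finset.card_filter]
    rw [Finset.sum_comm]
    have h2 : ∀ n ∈ Finset.range U, ∑ b₀ ∈ Finset.range W,
        (if W.Coprime (a * n + b₀) then 1 else 0) = W.totient := by
      intro n _
      rw [← Nat.filter_coprime_Ico_eq_totient W (a * n), Finset.card_filter]
      rw [Finset.sum_Ico_eq_sum_range]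
      simp only [Nat.add_sub_cancel_left]
    rw [Finset.sum_congr rfl h2, Finset.sum_const, Finset.card_range, smul_eq_mul]
  have h2 : ∑ b₀ ∈ Finset.range W, U * W.totient < ∑ b₀ ∈ Finset.range W,
      ((Finset.range U).filter (fun n => W.Coprime (a * n + b₀))).card * W :=
    Finset.sum_lt_sum_of_nonempty (Finset.nonempty_range_iff.mpr hW.ne') fun b₀ _ => hcon b₀
  rw [Finset.sum_const, Finset.card_range, smul_eq_mul, ← Finset.sum_mul, h1] at h2
  rw [mul_comm] at h2
  exact lt_irrefl _ h2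

/-- A finite set of integers `≥ 2` has `∏ (1 - 1/p) ≥ 1 / (card + 1)`. -/
lemma prod_one_sub_ge_card (P : Finset ℕ) (hP : ∀ p ∈ P, 2 ≤ p) :
    1 / ((P.card : ℝ) + 1) ≤ ∏ p ∈ P, (1 - 1 / (p : ℝ)) := by
  induction P using Finset.induction_on_max with
  | empty => simp
  | insert p P hp ih =>
    have hpP : p ∉ P := fun h => lt_irrefl _ (hp p h)
    rw [Finset.prod_insert hpP, Finset.card_insert_of_notMem hpP]
    have ih' := ih (fun q hq => hP q (Finset.mem_insert_of_mem hq))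
    have hcard : P.card + 2 ≤ p := by
      have h1 : P ⊆ Finset.Ico 2 p := fun q hq =>
        Finset.mem_Ico.mpr ⟨hP q (Finset.mem_insert_of_mem hq), hp q hq⟩
      have h2 := Finset.card_le_card h1
      rw [Nat.card_Ico] at h2
      have h3 := hP p (Finset.mem_insert_self _ _)
      omega
    have hcR : (P.card : ℝ) + 2 ≤ p := by exact_mod_cast hcard
    have hc0 : (0 : ℝ) ≤ P.card := Nat.cast_nonneg _
    have h1 : (1 : ℝ) / p ≤ 1 / ((P.card : ℝ) + 2) := one_div_le_one_div_of_le (by linarith) hcR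
    have h2 : 0 ≤ (1 : ℝ) / ((P.card : ℝ) + 1) := by positivity
    have h3 : (1 : ℝ) / ((P.card : ℝ) + 2) ≤ 1 := by rw [div_le_one (by linarith)]; linarith
    calc 1 / (((P.card + 1 : ℕ) : ℝ) + 1) =
        (1 - 1 / ((P.card : ℝ) + 2)) * (1 / ((P.card : ℝ) + 1)) := by
          push_cast
          field_simp
          ring
      _ ≤ (1 - 1 / (p : ℝ)) * ∏ q ∈ P, (1 - 1 / (q : ℝ)) :=
          mul_le_mul (by linarith) ih' h2 (by linarith)

/-- `4 ^ ω(a) ≤ 16 a`. -/
lemma four_pow_card_le {a : ℕ} (ha : a ≠ 0) : 4 ^ a.primeFactors.card ≤ 16 * a := by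
  have h1 : 4 ^ a.primeFactors.card = ∏ _p ∈ a.primeFactors, 4 := by rw [Finset.prod_const]
  rw [h1, ← Finset.prod_filter_mul_prod_filter_not a.primeFactors (fun p => p ≤ 3)]
  have h2 : ∏ _p ∈ a.primeFactors.filter (fun p => p ≤ 3), 4 ≤ 16 := by
    rw [Finset.prod_const]
    have h3 : (a.primeFactors.filter (fun p => p ≤ 3)).card ≤ 2 := by
      have h4 : a.primeFactors.filter (fun p => p ≤ 3) ⊆ {2, 3} := by
        intro p hp
        rw [Finset.mem_filter] at hp
        have h5 := (Nat.prime_of_mem_primeFactors hp.1).two_le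
        rw [Finset.mem_insert, Finset.mem_singleton]
        omega
      exact le_trans (Finset.card_le_card h4) (by decide)
    calc 4 ^ (a.primeFactors.filter (fun p => p ≤ 3)).card ≤ 4 ^ 2 :=
          Nat.pow_le_pow_right (by norm_num) h3
      _ = 16 := by norm_num
  have h3 : ∏ _p ∈ a.primeFactors.filter (fun p => ¬ p ≤ 3), 4 ≤ a := by
    calc ∏ _p ∈ a.primeFactors.filter (fun p => ¬ p ≤ 3), 4 ≤
          ∏ p ∈ a.primeFactors.filter (fun p => ¬ p ≤ 3), p :=
          Finset.prod_le_prod' fun p hp => by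
            have := (Finset.mem_filter.mp hp).2
            omega
      _ ≤ ∏ p ∈ a.primeFactors, p := by
          apply Finset.prod_le_prod_of_subset_of_one_le' (Finset.filter_subset _ _)
          intro p hp _
          exact (Nat.prime_of_mem_primeFactors hp).one_lt.le
      _ ≤ a := Nat.le_of_dvd (Nat.pos_of_ne_zero ha) (Nat.prod_primeFactors_dvd a)
  exact Nat.mul_le_mul h2 h3

end LPAP
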